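import Pool.Agent.H.MP_1693ff_gtB.GOpp

/-!
# The half step preserves consistency
-/

namespace CG

open Real Set Filter Topology CF

theorem galong_sub_pos {e d : ℝ} (he : 1 < e) {P : Pf} {S : St} (h0 : 0 < S.W d)
    (h1 : S.W d < P.f S.a) : 0 < P.f S.a ^ e - S.W d ^ e := by
  have := Real.rpow_lt_rpow h0.le h1 (by linarith : 0 < e)
  linarith

theorem galong_W {d : ℝ} {S : ℝ → St} {t : ℝ} (h : Along S t) :
    HasDerivAt (fun τ => (S τ).W d) ((S t).p d * (S t).v) t := by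
  have h1 := (h.da.sub h.dα).div_const d
  have e1 : ((S t).v - (S t).s * (S t).v) / d = (S t).p d * (S t).v := by
    unfold St.p
    ring
  rw [e1] at h1
  exact h1

theorem galong_p {d : ℝ} {S : ℝ → St} {t : ℝ} (h : Along S t) :
    HasDerivAt (fun τ => (S τ).p d) ((S t).r d * (S t).v) t := by
  have h1 := (h.ds.const_sub 1).div_const d
  have e1 : -(-(S t).k * (S t).v) / d = (S t).r d * (S t).v := by
    unfold St.r
    ring
  rw [e1] at h1
  exact h1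

theorem galong_opp {e d : ℝ} (he : 1 < e) {P : Pf}
    (d1 : ∀ a, HasDerivAt P.f (P.f1 a) a) {S : ℝ → St} {t : ℝ} (h : Along S t)
    (h0 : 0 < (S t).W d) (h1 : (S t).W d < P.f (S t).a) :
    HasDerivAt (fun τ => opp e d P (S τ)) (opp1 e d P (S t) * (S t).v) t := by
  have hf : 0 < P.f (S t).a := h0.trans h1
  have hD := galong_sub_pos he h0 h1
  have he0 : e ≠ 0 := by linarith
  have hΨ : 0 < opp e d P (S t) := Real.rpow_pos_of_pos hD _
  have a1 : HasDerivAt (fun τ => P.f (S τ).a) (P.f1 (S t).a * (S t).v) t :=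
    (d1 (S t).a).comp t h.da
  have a2 := galong_W (d := d) h
  have a3 := a1.rpow_const (p := e) (Or.inl hf.ne')
  have a4 := a2.rpow_const (p := e) (Or.inl h0.ne')
  have a5 := (a3.sub a4).rpow_const (p := e⁻¹) (Or.inl hD.ne')
  have e1 : opp e d P (S t) ^ (1 - e) =
      (P.f (S t).a ^ e - (S t).W d ^ e) ^ (e⁻¹ - 1) := by
    unfold opp
    rw [← Real.rpow_mul hD.le]
    congr 1
    field_simp
  have e2 : ∀ z : ℝ, 0 < z → (z / opp e d P (S t)) ^ (e - 1) =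
      z ^ (e - 1) * opp e d P (S t) ^ (1 - e) := by
    intro z hz
    rw [Real.div_rpow hz.le hΨ.le, div_eq_mul_inv, ← Real.rpow_neg hΨ.le]
    congr 2
    ring
  have e3 : opp1 e d P (S t) * (S t).v =
      (P.f1 (S t).a * (S t).v * e * P.f (S t).a ^ (e - 1) -
        (S t).p d * (S t).v * e * (S t).W d ^ (e - 1)) * e⁻¹ *
        (P.f (S t).a ^ e - (S t).W d ^ e) ^ (e⁻¹ - 1) := by
    unfold opp1
    rw [e2 _ hf, e2 _ h0, ← e1]
    field_simp
  rw [e3]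
  exact a5

theorem galong_opp1 {e d : ℝ} (he : 1 < e) {P : Pf}
    (d1 : ∀ a, HasDerivAt P.f (P.f1 a) a) (d2 : ∀ a, HasDerivAt P.f1 (P.f2 a) a)
    {S : ℝ → St} {t : ℝ} (h : Along S t)
    (h0 : 0 < (S t).W d) (h1 : (S t).W d < P.f (S t).a) :
    HasDerivAt (fun τ => opp1 e d P (S τ)) (opp2 e d P (S t) * (S t).v) t := by
  have hf : 0 < P.f (S t).a := h0.trans h1
  have hD := galong_sub_pos he h0 h1
  have hΨ : 0 < opp e d P (S t) := Real.rpow_pos_of_pos hD _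
  have a1 : HasDerivAt (fun τ => P.f (S τ).a) (P.f1 (S t).a * (S t).v) t :=
    (d1 (S t).a).comp t h.da
  have a1' : HasDerivAt (fun τ => P.f1 (S τ).a) (P.f2 (S t).a * (S t).v) t :=
    (d2 (S t).a).comp t h.da
  have a2 := galong_W (d := d) h
  have a3 := galong_p (d := d) h
  have a4 := galong_opp he d1 h h0 h1
  have hu : 0 < P.f (S t).a / opp e d P (S t) := div_pos hf hΨ
  have hw : 0 < (S t).W d / opp e d P (S t) := div_pos h0 hΨ
  have b1 := (a1.div a4 hΨ.ne').rpow_const (p := e - 1) (Or.inl hu.ne')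
  have b2 := (a2.div a4 hΨ.ne').rpow_const (p := e - 1) (Or.inl hw.ne')
  have b3 := (b1.mul a1').sub (b2.mul a3)
  have hid := opp_id (e := e) (d := d) (P := P) (S := S t) (by linarith) h0 h1
  refine HasDerivAt.congr_deriv b3 ?_
  have key : ∀ (Φ W Ψ f1 f2 pp r v U V o1 X Y Z : ℝ), 0 < Φ → 0 < W → 0 < Ψ →
      Ψ = U * Φ - V * W → o1 = U * f1 - V * pp → U = X * (Φ / Ψ) → V = Y * (W / Ψ) →
      Z * Ψ ^ 3 = X * Y →
      (f1 * v * Ψ - Φ * (o1 * v)) / Ψ ^ 2 * (e - 1) * X * f1 + U * (f2 * v) -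
        ((pp * v * Ψ - W * (o1 * v)) / Ψ ^ 2 * (e - 1) * Y * pp + V * (r * v)) =
      (U * f2 - V * r - (e - 1) * Z * (Φ * pp - W * f1) ^ 2) * v := by
    intro Φ W Ψ f1 f2 pp r v U V o1 X Y Z hΦ hW hΨ e1 e2 e3 e4 e5
    have c1 : f1 * v * Ψ - Φ * (o1 * v) = v * V * (Φ * pp - W * f1) := by
      rw [e2]
      linear_combination (f1 * v) * e1
    have c2 : pp * v * Ψ - W * (o1 * v) = v * U * (Φ * pp - W * f1) := by
      rw [e2]
      linear_combination (pp * v) * e1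
    rw [c1, c2]
    have c3 : V * X * f1 - U * Y * pp = - (X * Y * (Φ * pp - W * f1)) / Ψ := by
      rw [e3, e4]
      field_simp
      ring
    have c4 : Z = X * Y / Ψ ^ 3 := by
      rw [← e5]
      field_simp
    have c5 : v * V * (Φ * pp - W * f1) / Ψ ^ 2 * (e - 1) * X * f1 + U * (f2 * v) -
        (v * U * (Φ * pp - W * f1) / Ψ ^ 2 * (e - 1) * Y * pp + V * (r * v)) =
        v * (Φ * pp - W * f1) / Ψ ^ 2 * (e - 1) * (V * X * f1 - U * Y * pp) + U * (f2 * v) -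
          V * (r * v) := by
      ring
    rw [c5, c3, c4]
    field_simp
    ring
  have hX : ∀ z : ℝ, 0 < z → (z / opp e d P (S t)) ^ (e - 1) =
      (z / opp e d P (S t)) ^ (e - 1 - 1) * (z / opp e d P (S t)) := by
    intro z hz
    have hz' : 0 < z / opp e d P (S t) := div_pos hz hΨ
    rw [Real.rpow_sub_one hz'.ne' (e - 1)]
    field_simp
  have hZ : ((S t).W d ^ (e - 2) * P.f (S t).a ^ (e - 2) * opp e d P (S t) ^ (1 - 2 * e)) *
      opp e d P (S t) ^ 3 =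
      (P.f (S t).a / opp e d P (S t)) ^ (e - 1 - 1) *
        ((S t).W d / opp e d P (S t)) ^ (e - 1 - 1) := by
    rw [Real.div_rpow hf.le hΨ.le, Real.div_rpow h0.le hΨ.le]
    have g1 : e - 1 - 1 = e - 2 := by ring
    rw [g1]
    have g2 : opp e d P (S t) ^ (1 - 2 * e) * opp e d P (S t) ^ 3 *
        (opp e d P (S t) ^ (e - 2) * opp e d P (S t) ^ (e - 2)) = 1 := by
      rw [← Real.rpow_natCast, ← Real.rpow_add hΨ, ← Real.rpow_add hΨ, ← Real.rpow_add hΨ]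
      have : 1 - 2 * e + ((3 : ℕ) : ℝ) + (e - 2 + (e - 2)) = 0 := by
        push_cast
        ring
      rw [this, Real.rpow_zero]
    have g3 : opp e d P (S t) ^ (e - 2) ≠ 0 := (Real.rpow_pos_of_pos hΨ _).ne'
    rw [div_mul_div_comm, eq_div_iff (mul_ne_zero g3 g3)]
    linear_combination ((S t).W d ^ (e - 2) * P.f (S t).a ^ (e - 2)) * g2
  have := key (P.f (S t).a) ((S t).W d) (opp e d P (S t)) (P.f1 (S t).a) (P.f2 (S t).a)
    ((S t).p d) ((S t).r d) (S t).v ((P.f (S t).a / opp e d P (S t)) ^ (e - 1))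
    (((S t).W d / opp e d P (S t)) ^ (e - 1)) (opp1 e d P (S t))
    ((P.f (S t).a / opp e d P (S t)) ^ (e - 1 - 1))
    (((S t).W d / opp e d P (S t)) ^ (e - 1 - 1))
    ((S t).W d ^ (e - 2) * P.f (S t).a ^ (e - 2) * opp e d P (S t) ^ (1 - 2 * e))
    hf h0 hΨ hid rfl (hX _ hf) (hX _ h0) hZ
  refine this.trans ?_
  unfold opp2
  ring

/-- Write `Φ = P.f (a τ)`, `W = (a - α)/d`, `Ψ = opp = (Φ^e - W^e)^{1/e}`. `Φ' = P.f1 v`,
`W' = (v - s v)/d = p v`, `Ψ' = Ψ^{1-e} (Φ^{e-1} Φ' - W^{e-1} W') = opp1 v`, hence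
`(a + dΨ)' = v (1 + d opp1)`, and `α_new' = a' = v = s_new v_new`.
`(s_new)' = -d (opp1)' / (1 + d opp1)²` and `(opp1)' = opp2 v`:
`((Φ/Ψ)^{e-1})' = (e-1) Φ^{e-2} W^{e-1} Ψ^{1-2e} (Φ W' - Φ' W)`,
`((W/Ψ)^{e-1})' = (e-1) W^{e-2} Φ^{e-1} Ψ^{1-2e} (Φ W' - Φ' W)`
(use `Φ' Ψ - Φ Ψ' = Ψ^{1-e} W^{e-1} (Φ W' - Φ' W)`, `W' Ψ - W Ψ' = Ψ^{1-e} Φ^{e-1}(Φ W' - Φ' W)`,
from `Ψ^e = Φ^e - W^e`), `(f1)' = f2 v`, `p' = k v/d = r v`. -/
theorem along_hst {e d : ℝ} (he : 1 < e) (hd : 0 < d) {P : Pf}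
    (d1 : ∀ a, HasDerivAt P.f (P.f1 a) a) (d2 : ∀ a, HasDerivAt P.f1 (P.f2 a) a)
    {S : ℝ → St} {t : ℝ} (h : Along S t) (h0 : 0 < (S t).W d) (h1 : (S t).W d < P.f (S t).a)
    (hp : 0 < 1 + d * opp1 e d P (S t)) : Along (fun τ => hst e d P (S τ)) t := by
  have _ := hd
  have a1 := galong_opp he d1 h h0 h1
  have a2 := galong_opp1 he d1 d2 h h0 h1
  refine ⟨?_, ?_, ?_⟩
  · have b1 := h.da.add (a1.const_mul d)
    refine HasDerivAt.congr_deriv b1 ?_
    change (S t).v + d * (opp1 e d P (S t) * (S t).v) = (S t).v * (1 + d * opp1 e d P (S t))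
    ring
  · refine HasDerivAt.congr_deriv h.da ?_
    change (S t).v = (1 + d * opp1 e d P (S t))⁻¹ * ((S t).v * (1 + d * opp1 e d P (S t)))
    field_simp
  · have b1 := ((a2.const_mul d).const_add 1).inv hp.ne'
    refine HasDerivAt.congr_deriv b1 ?_
    change -(d * (opp2 e d P (S t) * (S t).v)) / (1 + d * opp1 e d P (S t)) ^ 2 =
      -(d * opp2 e d P (S t) * (1 + d * opp1 e d P (S t))⁻¹ ^ 3) *
        ((S t).v * (1 + d * opp1 e d P (S t)))
    field_simp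

/-- The half step is continuous in `(α, a, s)`: if these are continuous on a set `I`, so are
the new ones. -/
theorem cont_hst {e d : ℝ} (he : 1 < e) {P : Pf} (c0 : Continuous P.f) (c1 : Continuous P.f1)
    {S : ℝ → St} {I : Set ℝ} (ca : ContinuousOn (fun τ => (S τ).a) I)
    (cα : ContinuousOn (fun τ => (S τ).α) I) (cs : ContinuousOn (fun τ => (S τ).s) I)
    (h0 : ∀ t ∈ I, 0 < (S t).W d) (h1 : ∀ t ∈ I, (S t).W d < P.f (S t).a)
    (hp : ∀ t ∈ I, 0 < 1 + d * opp1 e d P (S t)) :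
    ContinuousOn (fun τ => (hst e d P (S τ)).a) I ∧
    ContinuousOn (fun τ => (hst e d P (S τ)).α) I ∧
    ContinuousOn (fun τ => (hst e d P (S τ)).s) I := by
  have he1 : 0 ≤ e - 1 := by linarith
  have he0 : 0 ≤ e := by linarith
  have hf : ∀ τ ∈ I, 0 < P.f (S τ).a := fun τ hτ => (h0 τ hτ).trans (h1 τ hτ)
  have hD : ∀ τ ∈ I, 0 < P.f (S τ).a ^ e - (S τ).W d ^ e := fun τ hτ =>
    galong_sub_pos he (h0 τ hτ) (h1 τ hτ)
  have hΨ : ∀ τ ∈ I, 0 < opp e d P (S τ) := fun τ hτ => Real.rpow_pos_of_pos (hD τ hτ) _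
  have b0 : ContinuousOn (fun τ => P.f (S τ).a) I := c0.comp_continuousOn ca
  have b1 : ContinuousOn (fun τ => P.f1 (S τ).a) I := c1.comp_continuousOn ca
  have b2 : ContinuousOn (fun τ => (S τ).W d) I := (ca.sub cα).div_const d
  have b3 : ContinuousOn (fun τ => (S τ).p d) I :=
    ((continuousOn_const (c := (1 : ℝ))).sub cs).div_const d
  have b4 : ContinuousOn (fun τ => opp e d P (S τ)) I :=
    ((b0.rpow_const fun τ hτ => Or.inr he0).sub (b2.rpow_const fun τ hτ => Or.inr he0)).rpow_const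
      fun τ hτ => Or.inl (hD τ hτ).ne'
  have b5 : ContinuousOn (fun τ => opp1 e d P (S τ)) I :=
    (((b0.div b4 fun τ hτ => (hΨ τ hτ).ne').rpow_const fun τ hτ => Or.inr he1).mul b1).sub
      (((b2.div b4 fun τ hτ => (hΨ τ hτ).ne').rpow_const fun τ hτ => Or.inr he1).mul b3)
  refine ⟨ca.add (continuousOn_const.mul b4), ca, ?_⟩
  exact (continuousOn_const.add (continuousOn_const.mul b5)).inv₀ fun τ hτ => (hp τ hτ).ne'

end CG
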