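import Pool.Agent.H.MP_1693ff_gtB.GNear

/-!
# The parameters of the start arc
-/

namespace CG

open Real Set Filter Topology CF

theorem gpar_half {h : ℝ → ℝ} (hp : ∀ θ, h (θ + π) = h θ) (θ : ℝ) : h (θ - π) = h θ := by
  have := hp (θ - π)
  rw [sub_add_cancel] at this
  exact this.symm

theorem gpar_bb {e : ℝ} {h : ℝ → ℝ} (hp : ∀ θ, h (θ + π) = h θ) : bb e (ng h) = bb e h := by
  have h1 : ng h (π / 2) = h (π / 2) := by
    change h (-(π / 2)) = h (π / 2)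
    rw [← gpar_half hp (π / 2)]
    congr 1
    ring
  unfold bb
  rw [h1]

theorem gpar_dng {h : ℝ → ℝ} (hp : ∀ θ, h (θ + π) = h θ) :
    deriv (ng h) (π / 2) = -deriv h (π / 2) := by
  have h1 : ng h = fun θ => h (-θ) := rfl
  rw [h1, deriv_comp_neg]
  congr 1
  have h2 : (fun θ => h (θ + π)) = h := funext hp
  have h3 : deriv (fun θ => h (θ + π)) (-(π / 2)) = deriv h (-(π / 2) + π) := by
    rw [deriv_comp_add_const]
  rw [h2] at h3
  rw [h3]
  congr 1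
  ring

theorem gpar_al {e : ℝ} {h : ℝ → ℝ} (hp : ∀ θ, h (θ + π) = h θ) :
    al e (ng h) = 2 * bb e h * (1 / √e - deriv h (π / 2) / h (π / 2)) := by
  have h1 : ng h (π / 2) = h (π / 2) := by
    change h (-(π / 2)) = h (π / 2)
    rw [← gpar_half hp (π / 2)]
    congr 1
    ring
  unfold al
  rw [gpar_bb hp, gpar_dng hp, h1]
  ring

theorem gpar_cont {c A E : ℝ} (hc : 0 < c) {δ : ℝ} (hδ : 0 < δ) (σ : ℝ) :
    ∃ η > 0, ∀ u w : ℝ, |u - c| < η → |w| < η →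
      |2 * (A / u) * (E + σ * (w / u)) - 2 * (A / c) * E| < δ := by
  have hF : ContinuousAt (fun q : ℝ × ℝ => 2 * (A / q.1) * (E + σ * (q.2 / q.1))) (c, 0) := by
    have h1 : ContinuousAt (fun q : ℝ × ℝ => q.1) (c, (0 : ℝ)) := continuousAt_fst
    have h2 : ContinuousAt (fun q : ℝ × ℝ => q.2) (c, (0 : ℝ)) := continuousAt_snd
    have h3 : (c, (0 : ℝ)).1 ≠ 0 := hc.ne'
    exact (continuousAt_const.mul (continuousAt_const.div h1 h3)).mul
      (continuousAt_const.add (continuousAt_const.mul (h2.div h1 h3)))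
  obtain ⟨η, hη, h⟩ := Metric.continuousAt_iff.1 hF δ hδ
  refine ⟨η, hη, fun u w hu hw => ?_⟩
  have h1 : dist (u, w) (c, (0 : ℝ)) < η := by
    rw [Prod.dist_eq, max_lt_iff]
    exact ⟨by rw [Real.dist_eq]; exact hu, by rw [Real.dist_eq, sub_zero]; exact hw⟩
  have h2 := h h1
  rw [Real.dist_eq] at h2
  simpa using h2

theorem gpar_cont2 {c A : ℝ} (hc : 0 < c) {δ : ℝ} (hδ : 0 < δ) :
    ∃ η > 0, ∀ u : ℝ, |u - c| < η → |(A / u) ^ 2 - (A / c) ^ 2| < δ := by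
  have hF : ContinuousAt (fun u : ℝ => (A / u) ^ 2) c :=
    (continuousAt_const.div continuousAt_id hc.ne').pow 2
  obtain ⟨η, hη, h⟩ := Metric.continuousAt_iff.1 hF δ hδ
  refine ⟨η, hη, fun u hu => ?_⟩
  have h2 := h (x := u) (by rw [Real.dist_eq]; exact hu)
  rwa [Real.dist_eq] at h2

/-- `bb e h = 2^{1/e}/h(π/2)`, `al e h = 2 bb (1/√e + h'/h)` are close to their values for the
constant `c`: for every `δ > 0` there is `ε > 0` (`≤ c/10`) with `|bb² - (2^{1/e}/c)²| ≤ δ`,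
`|al - qm1 e c| ≤ δ`; the same for `ng h` (`ng h` is `Near`, too). -/
theorem par_near {e c δ : ℝ} (he : 1 < e) (hc : 0 < c) (hδ : 0 < δ) : ∃ ε > 0, ε ≤ c / 10 ∧
    ∀ h, Near h c ε → |bb e h ^ 2 - ((2 : ℝ) ^ e⁻¹ / c) ^ 2| ≤ δ ∧ |al e h - qm1 e c| ≤ δ ∧
      |al e (ng h) - qm1 e c| ≤ δ ∧ 0 < bb e h := by
  obtain ⟨η1, h1, H1⟩ := gpar_cont2 (A := (2 : ℝ) ^ e⁻¹) hc hδ
  obtain ⟨η2, h2, H2⟩ := gpar_cont (A := (2 : ℝ) ^ e⁻¹) (E := 1 / √e) hc hδ 1
  obtain ⟨η3, h3, H3⟩ := gpar_cont (A := (2 : ℝ) ^ e⁻¹) (E := 1 / √e) hc hδ (-1)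
  refine ⟨min (min (η1 / 2) (η2 / 2)) (min (η3 / 2) (c / 10)), by positivity,
    (min_le_right _ _).trans (min_le_right _ _), ?_⟩
  intro h hn
  have e1 : min (min (η1 / 2) (η2 / 2)) (min (η3 / 2) (c / 10)) < η1 := by
    refine lt_of_le_of_lt ((min_le_left _ _).trans (min_le_left _ _)) (by linarith)
  have e2 : min (min (η1 / 2) (η2 / 2)) (min (η3 / 2) (c / 10)) < η2 := by
    refine lt_of_le_of_lt ((min_le_left _ _).trans (min_le_right _ _)) (by linarith)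
  have e3 : min (min (η1 / 2) (η2 / 2)) (min (η3 / 2) (c / 10)) < η3 := by
    refine lt_of_le_of_lt ((min_le_right _ _).trans (min_le_left _ _)) (by linarith)
  have e4 : min (min (η1 / 2) (η2 / 2)) (min (η3 / 2) (c / 10)) ≤ c / 10 :=
    (min_le_right _ _).trans (min_le_right _ _)
  have n0 := hn.n0 (π / 2)
  have n1 := hn.n1 (π / 2)
  have hq : qm1 e c = 2 * ((2 : ℝ) ^ e⁻¹ / c) * (1 / √e) := by
    unfold qm1
    ring
  have hpos : 0 < h (π / 2) := by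
    have := (abs_le.1 n0).1
    linarith
  refine ⟨(H1 _ (lt_of_le_of_lt n0 e1)).le, ?_, ?_, ?_⟩
  · have := H2 _ _ (lt_of_le_of_lt n0 e2) (lt_of_le_of_lt n1 e2)
    rw [hq]
    rw [one_mul] at this
    exact this.le
  · have := H3 _ _ (lt_of_le_of_lt n0 e3) (lt_of_le_of_lt n1 e3)
    rw [hq, gpar_al hn.per, sub_eq_add_neg]
    rw [neg_one_mul] at this
    exact this.le
  · unfold bb
    positivity

/-- `bb e (ng h) = bb e h`, `al e (ng h) = 2 bb (1/√e - h'/h)`. -/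
theorem bb_ng {e : ℝ} {h : ℝ → ℝ} (hp : ∀ θ, h (θ + π) = h θ) : bb e (ng h) = bb e h := by
  exact gpar_bb hp

theorem al_ng {e : ℝ} {h : ℝ → ℝ} (hp : ∀ θ, h (θ + π) = h θ) (hc : ContDiff ℝ 2 h) :
    al e (ng h) = 2 * bb e h * (1 / √e - deriv h (π / 2) / h (π / 2)) := by
  exact gpar_al hp

theorem ng_ng (h : ℝ → ℝ) : ng (ng h) = h := by
  funext θ
  change h (- -θ) = h θ
  rw [neg_neg]

end CG
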