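import Pool.Agent.H.MP_1693ff_gtB.GCub
import Pool.Agent.H.MP_1693ff_gtB.GPar

/-!
# The start arc: consistency, continuity, mirror image
-/

namespace CG

open Real Set Filter Topology CF

theorem garc_q {e d : ℝ} {h k : ℝ → ℝ} (hd : 0 < d) (t : ℝ) :
    HasDerivAt (fun τ => aq e d h k (d * τ)) (aq1 e d h k (d * t) * d) t ∧
    HasDerivAt (fun τ => aq1 e d h k (d * τ)) (aq2 e d h k (d * t) * d) t := by
  have hl : HasDerivAt (fun τ : ℝ => d * τ) d t := by
    simpa using (hasDerivAt_id t).const_mul d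
  obtain ⟨h1, h2⟩ := cub_deriv (q₀ := bb e h ^ 2) (q₁ := bb e k ^ 2) (α := al e h)
    (β := al e (ng k)) hd.ne' (d * t)
  exact ⟨h1.comp t hl, h2.comp t hl⟩

/-- The start arc is consistent where `Q > 0`, `2Q - XQ' > 0`.  With `X = d t`:
`(X/√Q)' = d (2Q - XQ')/(2√Q³) = v`, `(-(d-X)/√Q)' = d (2Q + (d-X)Q')/(2√Q³) = s v`,
`s = 1 + d Q'/(2Q - XQ')`, `s' = -d² (Q'² - 2QQ'')/(2Q-XQ')² = -k v`. -/
theorem arc_along {e d : ℝ} {h k : ℝ → ℝ} (hd : 0 < d) {t : ℝ} (h0 : 0 < aq e d h k (d * t))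
    (h1 : 0 < 2 * aq e d h k (d * t) - d * t * aq1 e d h k (d * t)) :
    Along (arc e d h k) t := by
  obtain ⟨hq, hq1⟩ := garc_q (e := e) (h := h) (k := k) hd t
  have hl : HasDerivAt (fun τ : ℝ => d * τ) d t := by
    simpa using (hasDerivAt_id t).const_mul d
  have hs := hq.sqrt h0.ne'
  have hw : 0 < √(aq e d h k (d * t)) := Real.sqrt_pos.2 h0
  have hww : √(aq e d h k (d * t)) ^ 2 = aq e d h k (d * t) := Real.sq_sqrt h0.le
  have hA := hl.div hs hw.ne'
  have hB := ((hl.const_sub d).div hs hw.ne').neg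
  have hN : HasDerivAt (fun τ => 2 * aq e d h k (d * τ) + (d - d * τ) * aq1 e d h k (d * τ))
      (2 * (aq1 e d h k (d * t) * d) +
        (-d * aq1 e d h k (d * t) + (d - d * t) * (aq2 e d h k (d * t) * d))) t :=
    (hq.const_mul 2).add ((hl.const_sub d).mul hq1)
  have hD : HasDerivAt (fun τ => 2 * aq e d h k (d * τ) - d * τ * aq1 e d h k (d * τ))
      (2 * (aq1 e d h k (d * t) * d) -
        (d * aq1 e d h k (d * t) + d * t * (aq2 e d h k (d * t) * d))) t :=
    (hq.const_mul 2).sub (hl.mul hq1)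
  have hS : HasDerivAt (fun τ => (2 * aq e d h k (d * τ) + (d - d * τ) * aq1 e d h k (d * τ)) /
      (2 * aq e d h k (d * τ) - d * τ * aq1 e d h k (d * τ)))
      (((2 * (aq1 e d h k (d * t) * d) +
        (-d * aq1 e d h k (d * t) + (d - d * t) * (aq2 e d h k (d * t) * d))) *
        (2 * aq e d h k (d * t) - d * t * aq1 e d h k (d * t)) -
        (2 * aq e d h k (d * t) + (d - d * t) * aq1 e d h k (d * t)) *
        (2 * (aq1 e d h k (d * t) * d) -
        (d * aq1 e d h k (d * t) + d * t * (aq2 e d h k (d * t) * d)))) /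
        (2 * aq e d h k (d * t) - d * t * aq1 e d h k (d * t)) ^ 2) t := hN.div hD h1.ne'
  refine ⟨?_, ?_, ?_⟩
  · refine hA.congr_deriv ?_
    simp only [arc, jet]
    generalize √(aq e d h k (d * t)) = w at *
    generalize aq e d h k (d * t) = q at *
    generalize aq1 e d h k (d * t) = q1 at *
    subst hww
    field_simp
  · refine hB.congr_deriv ?_
    simp only [arc, jet]
    generalize √(aq e d h k (d * t)) = w at *
    generalize aq e d h k (d * t) = q at *
    generalize aq1 e d h k (d * t) = q1 at *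
    subst hww
    have h2 : (2 * w ^ 2 + (d - d * t) * q1) / (2 * w ^ 2 - d * t * q1) *
        (d * ((2 * w ^ 2 - d * t * q1) / (2 * w ^ 3))) =
        d * (2 * w ^ 2 + (d - d * t) * q1) / (2 * w ^ 3) := by
      have h3 := h1.ne'
      generalize 2 * w ^ 2 - d * t * q1 = D at *
      field_simp
    rw [h2]
    field_simp
    ring
  · refine hS.congr_deriv ?_
    simp only [arc, jet]
    generalize √(aq e d h k (d * t)) = w at *
    generalize aq e d h k (d * t) = q at *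
    generalize aq1 e d h k (d * t) = q1 at *
    generalize aq2 e d h k (d * t) = q2 at *
    subst hww
    have h2 := h1.ne'
    field_simp
    ring

theorem arc_cont {e d : ℝ} {h k : ℝ → ℝ} (hd : 0 < d)
    (ok : ∀ X ∈ Icc 0 d, 0 < aq e d h k X ∧ 0 < 2 * aq e d h k X - X * aq1 e d h k X) :
    ContinuousOn (fun t => (arc e d h k t).a) (Icc 0 1) ∧
    ContinuousOn (fun t => (arc e d h k t).α) (Icc 0 1) ∧
    ContinuousOn (fun t => (arc e d h k t).s) (Icc 0 1) := by
  have key : ∀ t ∈ Icc (0 : ℝ) 1, Along (arc e d h k) t := by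
    intro t ht
    have hX : d * t ∈ Icc 0 d :=
      ⟨mul_nonneg hd.le ht.1, by nlinarith only [mul_le_mul_of_nonneg_left ht.2 hd.le]⟩
    exact arc_along hd (ok _ hX).1 (ok _ hX).2
  exact ⟨fun t ht => (key t ht).da.continuousAt.continuousWithinAt,
    fun t ht => (key t ht).dα.continuousAt.continuousWithinAt,
    fun t ht => (key t ht).ds.continuousAt.continuousWithinAt⟩

theorem garc_mir {e d : ℝ} {h k : ℝ → ℝ} (hd : 0 < d) (hp : ∀ θ, h (θ + π) = h θ)
    (kp : ∀ θ, k (θ + π) = k θ) (t : ℝ) :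
    aq e d (ng k) (ng h) (d * (1 - t)) = aq e d h k (d * t) ∧
    aq1 e d (ng k) (ng h) (d * (1 - t)) = -aq1 e d h k (d * t) := by
  have e1 : d * (1 - t) = d - d * t := by ring
  obtain ⟨m1, m2, -⟩ := cub_mirror (q₀ := bb e h ^ 2) (q₁ := bb e k ^ 2) (α := al e h)
    (β := al e (ng k)) hd.ne' (d * t)
  simp only [aq, aq1]
  rw [e1, bb_ng hp, bb_ng kp, ng_ng]
  exact ⟨m1, m2⟩

/-- The same arc seen from the other centre: `cub_mirror`, `ng_ng`, `bb_ng`. -/
theorem arc_mirror {e d : ℝ} {h k : ℝ → ℝ} (hd : 0 < d) (hp : ∀ θ, h (θ + π) = h θ)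
    (kp : ∀ θ, k (θ + π) = k θ) (t : ℝ) :
    (arc e d (ng k) (ng h) (1 - t)).a = -(arc e d h k t).α ∧
    (arc e d (ng k) (ng h) (1 - t)).α = -(arc e d h k t).a ∧
    (arc e d (ng k) (ng h) (1 - t)).s = ((arc e d h k t).s)⁻¹ := by
  obtain ⟨m1, m2⟩ := garc_mir (e := e) hd hp kp t
  simp only [arc, jet]
  rw [m1, m2, inv_div]
  refine ⟨?_, ?_, ?_⟩
  · rw [neg_neg]
    congr 1
    ring
  · congr 2
    ring
  · congr 1 <;> ring

/-- Values at the ends: `aq(0) = bb h²`, `aq1(0) = al h`, `aq(d) = bb k²`,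
`aq1(d) = -al (ng k)`. -/
theorem arc_ends {e d : ℝ} {h k : ℝ → ℝ} (hd : 0 < d) (bh : 0 < bb e h) (bk : 0 < bb e k) :
    (arc e d h k 0).a = 0 ∧ (arc e d h k 0).α = -(d / bb e h) ∧
    (arc e d h k 0).s = 1 + d * al e h / (2 * bb e h ^ 2) ∧
    (arc e d h k 1).a = d / bb e k ∧ (arc e d h k 1).α = 0 ∧
    (arc e d h k 1).s = (1 + d * al e (ng k) / (2 * bb e k ^ 2))⁻¹ := by
  have a0 : aq e d h k (d * 0) = bb e h ^ 2 := by simp [aq, cub]
  have a1 : aq1 e d h k (d * 0) = al e h := by simp [aq1, cub1]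
  have dd : d / d = 1 := div_self hd.ne'
  have b0 : aq e d h k (d * 1) = bb e k ^ 2 := by
    simp only [aq, cub, mul_one, dd]
    ring
  have b1 : aq1 e d h k (d * 1) = -al e (ng k) := by
    simp only [aq1, cub1, mul_one, dd]
    ring
  have s0 : √(bb e h ^ 2) = bb e h := Real.sqrt_sq bh.le
  have s1 : √(bb e k ^ 2) = bb e k := Real.sqrt_sq bk.le
  simp only [arc, jet]
  rw [a0, a1, b0, b1, s0, s1]
  refine ⟨by simp, by simp, ?_, by simp, by simp, ?_⟩
  · have := bh.ne'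
    field_simp
    ring
  · rw [← inv_div]
    congr 1
    have := bk.ne'
    field_simp
    ring

end CG
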