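import Pool.Agent.H.MP_1693ff_gtB.GDefs

/-!
# Limits of the slopes
-/

namespace CG

open Real Set Filter Topology CF

/-- `Y / X → -m` if `X → ∞`, `s → m` and `Y + s X` is bounded. -/
theorem gasymb_ratio {l : Filter ℝ} {X Y s : ℝ → ℝ} {m C : ℝ} (hX : Tendsto X l atTop)
    (hs : Tendsto s l (𝓝 m)) (hC : ∀ τ, |Y τ + s τ * X τ| ≤ C) :
    Tendsto (fun τ => Y τ / X τ) l (𝓝 (-m)) := by
  have h1 : Tendsto (fun τ => (Y τ + s τ * X τ) / X τ) l (𝓝 0) :=
    tendsto_bdd_div_atTop_nhds_zero (b := -C) (B := C)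
      (Eventually.of_forall fun τ => (abs_le.1 (hC τ)).1)
      (Eventually.of_forall fun τ => (abs_le.1 (hC τ)).2) hX
  have h2 : Tendsto (fun τ => (Y τ + s τ * X τ) / X τ - s τ) l (𝓝 (0 - m)) := h1.sub hs
  rw [zero_sub] at h2
  refine h2.congr' ?_
  filter_upwards [hX.eventually_gt_atTop 0] with τ hτ
  have h3 : X τ ≠ 0 := ne_of_gt hτ
  rw [add_div, mul_div_assoc, div_self h3, mul_one]
  ring

/-- The limit of a relation between `e`-th powers. -/
theorem gasymb_pow {l : Filter ℝ} [l.NeBot] {e : ℝ} (he : 1 < e) {P Q R U : ℝ → ℝ} {p q a : ℝ}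
    (hU : Tendsto U l atTop) (hP0 : ∀ τ, 0 < P τ) (hQ0 : ∀ τ, 0 < Q τ)
    (hr : ∀ τ, P τ ^ e + Q τ ^ e = R τ ^ e) (hP : Tendsto (fun τ => P τ / U τ) l (𝓝 p))
    (hQ : Tendsto (fun τ => Q τ / U τ) l (𝓝 q)) (hR : Tendsto (fun τ => R τ / U τ) l (𝓝 a))
    (ha : 0 < a) : p ^ e + q ^ e = a ^ e := by
  have he0 : 0 ≤ e := by linarith
  have h1 : Tendsto (fun τ => (P τ / U τ) ^ e + (Q τ / U τ) ^ e) l (𝓝 (p ^ e + q ^ e)) :=
    (hP.rpow_const (Or.inr he0)).add (hQ.rpow_const (Or.inr he0))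
  have h2 : Tendsto (fun τ => (R τ / U τ) ^ e) l (𝓝 (a ^ e)) := hR.rpow_const (Or.inr he0)
  refine tendsto_nhds_unique_of_eventuallyEq h1 h2 ?_
  filter_upwards [hU.eventually_gt_atTop 0, hR.eventually_const_lt ha] with τ hτ hτ2
  have hR0 : 0 < R τ := by
    have h3 : R τ = R τ / U τ * U τ := by
      field_simp
    rw [h3]
    exact mul_pos hτ2 hτ
  rw [Real.div_rpow (hP0 τ).le hτ.le, Real.div_rpow (hQ0 τ).le hτ.le,
    Real.div_rpow hR0.le hτ.le, ← hr τ, add_div]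

/-- Ratios at `+∞`.  `s` is antitone, `sH` monotone (`relG`, `relH`), both bounded (`sb`), so the
limits `m`, `M` exist, `m ≥ c > 0`.  By `ib`, `y/x = -s + O(1/x)`, so `(x+y)/x → 1 - m`,
`-(x+yH)/x → M - 1`.  `r1` divided by `x^e` (`x > 0` for large `τ`) gives the first equation
(`z ↦ z^e` is continuous on `[0,∞)`; `1 - m, M - 1 ≥ 0` as limits of nonnegative functions).
For the second: `yH τ = y (τ+2) → -∞`, `x(τ+2)/(-y(τ+2)) → 1/m`, `x/(-yH) → 1/M`, divide `r2` by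
`(-yH)^e`; `ψ(yH)/(-yH) → A'` by `ψb`.  (`M ≥ 1 > 0`.) -/
theorem slopes_top {e A B A' B' : ℝ} {φ φ₁ ψ ψ₁ x y s yH sH : ℝ → ℝ} (he : 1 < e)
    (C : GCv e A B A' B' φ φ₁ ψ ψ₁ x y s yH sH) : ∃ m M, 0 < m ∧ 0 < M ∧
    Tendsto s atTop (𝓝 m) ∧ Tendsto sH atTop (𝓝 M) ∧
    (1 - m) ^ e + (M - 1) ^ e = A ^ e ∧ (m⁻¹ - 1) ^ e + (1 - M⁻¹) ^ e = A' ^ e := by
  obtain ⟨c, hc, hsb⟩ := C.sb
  obtain ⟨K, hK⟩ := C.ib
  have hsa : Antitone s := fun τ τ' h => (C.relG τ τ' h).2.1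
  have hsm : Monotone sH := fun τ τ' h => (C.relH τ τ' h).2.1
  have hbs : BddBelow (range s) := ⟨c, by rintro _ ⟨τ, rfl⟩; exact (hsb τ).1⟩
  have hbH : BddAbove (range sH) := ⟨c⁻¹, by rintro _ ⟨τ, rfl⟩; exact (hsb τ).2.2.2⟩
  obtain ⟨m, hm⟩ : ∃ m, Tendsto s atTop (𝓝 m) := ⟨_, tendsto_atTop_ciInf hsa hbs⟩
  obtain ⟨M, hM⟩ : ∃ M, Tendsto sH atTop (𝓝 M) := ⟨_, tendsto_atTop_ciSup hsm hbH⟩
  have hm0 : 0 < m := lt_of_lt_of_le hc (ge_of_tendsto' hm fun τ => (hsb τ).1)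
  have hM0 : 0 < M := lt_of_lt_of_le hc (ge_of_tendsto' hM fun τ => (hsb τ).2.1)
  have hy : Tendsto (fun τ => y τ / x τ) atTop (𝓝 (-m)) :=
    gasymb_ratio C.xtop hm fun τ => (hK τ).1
  have hyH : Tendsto (fun τ => yH τ / x τ) atTop (𝓝 (-M)) :=
    gasymb_ratio C.xtop hM fun τ => (hK τ).2
  have hsh : Tendsto (fun τ : ℝ => τ + 2) atTop atTop := tendsto_atTop_add_const_right _ _ tendsto_id
  have hyHb : Tendsto yH atTop atBot := by
    have h1 : yH = fun τ => y (τ + 2) := funext fun τ => C.sh τ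
    rw [h1]
    exact C.ytop.comp hsh
  have hU : Tendsto (fun τ => -yH τ) atTop atTop := tendsto_neg_atBot_atTop.comp hyHb
  refine ⟨m, M, hm0, hM0, hm, hM, ?_, ?_⟩
  · refine gasymb_pow he C.xtop C.pos (fun τ => neg_pos.2 (C.neg τ)) C.r1 ?_ ?_
      (C.φt.comp C.xtop) C.A0
    · have h1 : Tendsto (fun τ => 1 + y τ / x τ) atTop (𝓝 (1 + -m)) := hy.const_add 1
      refine (h1.congr' ?_)
      filter_upwards [C.xtop.eventually_gt_atTop 0] with τ hτ
      have h3 : x τ ≠ 0 := ne_of_gt hτ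
      rw [add_div, div_self h3]
    · have h1 : Tendsto (fun τ => -1 - yH τ / x τ) atTop (𝓝 (-1 - -M)) := hyH.const_sub (-1)
      have h2 : -1 - -M = M - 1 := by ring
      rw [h2] at h1
      refine (h1.congr' ?_)
      filter_upwards [C.xtop.eventually_gt_atTop 0] with τ hτ
      have h3 : x τ ≠ 0 := ne_of_gt hτ
      rw [neg_div, add_div, div_self h3]
      ring
  · refine gasymb_pow (U := fun τ => -yH τ) (P := fun τ => x (τ + 2) + yH τ) he hU
      (fun τ => ?_) (fun τ => neg_pos.2 (C.neg τ)) C.r2 ?_ ?_ ?_ C.A'0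
    · change 0 < x (τ + 2) + yH τ
      rw [C.sh]
      exact C.pos (τ + 2)
    · have h1 : Tendsto (fun τ => -(y τ / x τ)) atTop (𝓝 m) := by
        have := hy.neg
        rwa [neg_neg] at this
      have h2 : Tendsto (fun τ => (-(y τ / x τ))⁻¹ - 1) atTop (𝓝 (m⁻¹ - 1)) :=
        (h1.inv₀ hm0.ne').sub_const 1
      refine ((h2.comp hsh).congr' ?_)
      filter_upwards [hU.eventually_gt_atTop 0, (C.xtop.comp hsh).eventually_gt_atTop 0] with τ hτ hτ2
      have h3 : yH τ ≠ 0 := by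
        intro h
        rw [h] at hτ
        simp at hτ
      have h4 : y (τ + 2) = yH τ := (C.sh τ).symm
      have h5 : x (τ + 2) ≠ 0 := ne_of_gt hτ2
      change (-(y (τ + 2) / x (τ + 2)))⁻¹ - 1 = (x (τ + 2) + yH τ) / -yH τ
      rw [h4]
      field_simp
      ring
    · have h1 : Tendsto (fun τ => -(yH τ / x τ)) atTop (𝓝 M) := by
        have := hyH.neg
        rwa [neg_neg] at this
      have h2 : Tendsto (fun τ => 1 - (-(yH τ / x τ))⁻¹) atTop (𝓝 (1 - M⁻¹)) :=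
        (h1.inv₀ hM0.ne').const_sub 1
      refine (h2.congr' ?_)
      filter_upwards [hU.eventually_gt_atTop 0, C.xtop.eventually_gt_atTop 0] with τ hτ hτ2
      have h3 : yH τ ≠ 0 := by
        intro h
        rw [h] at hτ
        simp at hτ
      have h5 : x τ ≠ 0 := ne_of_gt hτ2
      change 1 - (-(yH τ / x τ))⁻¹ = -(x τ + yH τ) / -yH τ
      field_simp
      ring
    · have h1 : Tendsto (fun τ => -(ψ (yH τ) / yH τ)) atTop (𝓝 A') := by
        have := (C.ψb.comp hyHb).neg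
        rwa [neg_neg] at this
      refine h1.congr fun τ => ?_
      change -(ψ (yH τ) / yH τ) = ψ (yH τ) / -yH τ
      rw [div_neg]

/-- The same at `-∞`: `x → -∞`, `y/(-x) → M`, `yH/(-x) → m`; divide `r1` by `(-x)^e` (`φb`);
`yH τ = y (τ+2) → +∞`, `x(τ+2)/yH → -1/M`, `x/yH → -1/m`; divide `r2` by `yH^e` (`ψt`). -/
theorem slopes_bot {e A B A' B' : ℝ} {φ φ₁ ψ ψ₁ x y s yH sH : ℝ → ℝ} (he : 1 < e)
    (C : GCv e A B A' B' φ φ₁ ψ ψ₁ x y s yH sH) : ∃ m M, 0 < m ∧ 0 < M ∧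
    Tendsto s atBot (𝓝 M) ∧ Tendsto sH atBot (𝓝 m) ∧
    (1 - m) ^ e + (M - 1) ^ e = A ^ e ∧ (m⁻¹ - 1) ^ e + (1 - M⁻¹) ^ e = A' ^ e := by
  obtain ⟨c, hc, hsb⟩ := C.sb
  obtain ⟨K, hK⟩ := C.ib
  have hsa : Antitone s := fun τ τ' h => (C.relG τ τ' h).2.1
  have hsm : Monotone sH := fun τ τ' h => (C.relH τ τ' h).2.1
  have hbs : BddAbove (range s) := ⟨c⁻¹, by rintro _ ⟨τ, rfl⟩; exact (hsb τ).2.2.1⟩
  have hbH : BddBelow (range sH) := ⟨c, by rintro _ ⟨τ, rfl⟩; exact (hsb τ).2.1⟩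
  obtain ⟨M, hM⟩ : ∃ M, Tendsto s atBot (𝓝 M) := ⟨_, tendsto_atBot_ciSup hsa hbs⟩
  obtain ⟨m, hm⟩ : ∃ m, Tendsto sH atBot (𝓝 m) := ⟨_, tendsto_atBot_ciInf hsm hbH⟩
  have hM0 : 0 < M := lt_of_lt_of_le hc (ge_of_tendsto' hM fun τ => (hsb τ).1)
  have hm0 : 0 < m := lt_of_lt_of_le hc (ge_of_tendsto' hm fun τ => (hsb τ).2.1)
  have hX : Tendsto (fun τ => -x τ) atBot atTop := tendsto_neg_atBot_atTop.comp C.xbot
  have hy : Tendsto (fun τ => y τ / -x τ) atBot (𝓝 M) := by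
    have h1 := gasymb_ratio (Y := y) (s := fun τ => -s τ) (C := K) hX hM.neg fun τ => by
      have h2 := (hK τ).1
      have h3 : y τ + -s τ * -x τ = y τ + s τ * x τ := by ring
      rw [h3]
      exact h2
    rwa [neg_neg] at h1
  have hyH : Tendsto (fun τ => yH τ / -x τ) atBot (𝓝 m) := by
    have h1 := gasymb_ratio (Y := yH) (s := fun τ => -sH τ) (C := K) hX hm.neg fun τ => by
      have h2 := (hK τ).2
      have h3 : yH τ + -sH τ * -x τ = yH τ + sH τ * x τ := by ring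
      rw [h3]
      exact h2
    rwa [neg_neg] at h1
  have hsh : Tendsto (fun τ : ℝ => τ + 2) atBot atBot := tendsto_atBot_add_const_right _ _ tendsto_id
  have hU : Tendsto yH atBot atTop := by
    have h1 : yH = fun τ => y (τ + 2) := funext fun τ => C.sh τ
    rw [h1]
    exact C.ybot.comp hsh
  refine ⟨m, M, hm0, hM0, hM, hm, ?_, ?_⟩
  · rw [add_comm]
    refine gasymb_pow (U := fun τ => -x τ) he hX C.pos (fun τ => neg_pos.2 (C.neg τ)) C.r1 ?_ ?_
      ?_ C.A0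
    · have h1 : Tendsto (fun τ => y τ / -x τ - 1) atBot (𝓝 (M - 1)) := hy.sub_const 1
      refine (h1.congr' ?_)
      filter_upwards [hX.eventually_gt_atTop 0] with τ hτ
      have h3 : x τ ≠ 0 := by
        intro h
        rw [h] at hτ
        simp at hτ
      change y τ / -x τ - 1 = (x τ + y τ) / -x τ
      field_simp
      ring
    · have h1 : Tendsto (fun τ => 1 - yH τ / -x τ) atBot (𝓝 (1 - m)) := hyH.const_sub 1
      refine (h1.congr' ?_)
      filter_upwards [hX.eventually_gt_atTop 0] with τ hτ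
      have h3 : x τ ≠ 0 := by
        intro h
        rw [h] at hτ
        simp at hτ
      change 1 - yH τ / -x τ = -(x τ + yH τ) / -x τ
      field_simp
      ring
    · have h1 : Tendsto (fun τ => -(φ (x τ) / x τ)) atBot (𝓝 A) := by
        have := (C.φb.comp C.xbot).neg
        rwa [neg_neg] at this
      refine h1.congr fun τ => ?_
      change -(φ (x τ) / x τ) = φ (x τ) / -x τ
      rw [div_neg]
  · rw [add_comm]
    refine gasymb_pow (U := yH) (P := fun τ => x (τ + 2) + yH τ) he hU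
      (fun τ => ?_) (fun τ => neg_pos.2 (C.neg τ)) C.r2 ?_ ?_ (C.ψt.comp hU) C.A'0
    · change 0 < x (τ + 2) + yH τ
      rw [C.sh]
      exact C.pos (τ + 2)
    · have h2 : Tendsto (fun τ => 1 - (y τ / -x τ)⁻¹) atBot (𝓝 (1 - M⁻¹)) :=
        (hy.inv₀ hM0.ne').const_sub 1
      refine ((h2.comp hsh).congr' ?_)
      filter_upwards [hU.eventually_gt_atTop 0, (hX.comp hsh).eventually_gt_atTop 0] with τ hτ hτ2
      have h3 : yH τ ≠ 0 := ne_of_gt hτ
      have h4 : y (τ + 2) = yH τ := (C.sh τ).symm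
      have h5 : x (τ + 2) ≠ 0 := by
        intro h
        change 0 < -x (τ + 2) at hτ2
        rw [h] at hτ2
        simp at hτ2
      change 1 - (y (τ + 2) / -x (τ + 2))⁻¹ = (x (τ + 2) + yH τ) / yH τ
      rw [h4]
      field_simp
      ring
    · have h2 : Tendsto (fun τ => (yH τ / -x τ)⁻¹ - 1) atBot (𝓝 (m⁻¹ - 1)) :=
        (hyH.inv₀ hm0.ne').sub_const 1
      refine (h2.congr' ?_)
      filter_upwards [hU.eventually_gt_atTop 0, hX.eventually_gt_atTop 0] with τ hτ hτ2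
      have h3 : yH τ ≠ 0 := ne_of_gt hτ
      have h5 : x τ ≠ 0 := by
        intro h
        rw [h] at hτ2
        simp at hτ2
      change (yH τ / -x τ)⁻¹ - 1 = -(x τ + yH τ) / yH τ
      field_simp
      ring

end CG
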