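import Pool.Agent.H.MP_1693ff_gtB.GAsymA
import Pool.Agent.H.MP_1693ff_gtB.GAsymB
import Pool.Agent.H.MP_1693ff_gtB.GAsymC

/-!
# The cross support inequalities
-/

namespace CG

open Real Set Filter Topology CF

/-- From the curve to `CurveW`. -/
theorem curveW {e A B A' B' : ℝ} {φ φ₁ ψ ψ₁ x y s yH sH : ℝ → ℝ} (he : 1 < e)
    (C : GCv e A B A' B' φ φ₁ ψ ψ₁ x y s yH sH) : ∃ (m M : ℝ) (F F' : ℝ → ℝ),
    CurveW F F' x y s m M ∧ (∀ τ, y τ - F (x τ) = yH τ) ∧ (∀ τ, s τ + F' (x τ) = sH τ) ∧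
    (1 - m) ^ e + (M - 1) ^ e = A ^ e ∧ (m⁻¹ - 1) ^ e + (1 - M⁻¹) ^ e = A' ^ e := by
  obtain ⟨m, M, hm0, hM0, l1, l2, g1, g2⟩ := slopes_top he C
  obtain ⟨m', M', hm0', hM0', l3, l4, g3, g4⟩ := slopes_bot he C
  have santi : Antitone s := fun a b hab => (C.relG a b hab).2.1
  have sHmono : Monotone sH := fun a b hab => (C.relH a b hab).2.1
  have ms : ∀ τ, m ≤ s τ := fun τ => santi.le_of_tendsto l1 τ
  have sM : ∀ τ, s τ ≤ M' := fun τ => santi.ge_of_tendsto l3 τ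
  have sHM : ∀ τ, sH τ ≤ M := fun τ => sHmono.ge_of_tendsto l2 τ
  have msH : ∀ τ, m' ≤ sH τ := fun τ => sHmono.le_of_tendsto l4 τ
  have hm1 : m < 1 := by
    obtain ⟨t, ht⟩ := C.o3
    exact lt_of_le_of_lt (ms t) ht
  have hM1' : 1 < M' := by
    obtain ⟨t, ht⟩ := C.o4
    exact lt_of_lt_of_le ht (sM t)
  have hM1 : 1 < M := by
    obtain ⟨t, ht⟩ := C.o6
    exact lt_of_lt_of_le ht (sHM t)
  have hm1' : m' < 1 := by
    obtain ⟨t, ht⟩ := C.o5
    exact lt_of_le_of_lt (msH t) ht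
  obtain ⟨e1, e2⟩ := asyma_unique he hm0 hm1 hM1 hm0' hm1' hM1' g1 g3 g2 g4
  subst e1 e2
  obtain ⟨κ, l, hκ, k1, k2⟩ := icept_top he C hm0 hm1 hM1 l1 l2
  obtain ⟨κ', l', hκ', k3, k4⟩ := icept_bot he C hm0 hm1 hM1 l4 l3
  obtain ⟨e3, e4⟩ := asyma_lin he hm0 hm1 hM1 k1 k3 k2 k4
  subst e3 e4
  have inj : Function.Injective x := C.xmono.injective
  set F : ℝ → ℝ := fun a => y (Function.invFun x a) - yH (Function.invFun x a) with hF
  set F' : ℝ → ℝ := fun a => sH (Function.invFun x a) - s (Function.invFun x a) with hF'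
  have inv : ∀ τ, Function.invFun x (x τ) = τ := fun τ => Function.leftInverse_invFun inj τ
  have eF : ∀ τ, y τ - F (x τ) = yH τ := fun τ => by
    simp only [hF, inv]; ring
  have eF' : ∀ τ, s τ + F' (x τ) = sH τ := fun τ => by
    simp only [hF', inv]; ring
  refine ⟨m, M, F, F', ?_, eF, eF', g1, g2⟩
  have xm : ∀ τ τ', τ ≤ τ' → x τ ≤ x τ' := fun τ τ' h => C.xmono.monotone h
  refine { cx := C.cx, cy := C.cy, xmono := C.xmono, s0 := C.s0,
           sH0 := fun τ => by rw [eF']; exact C.sH0 τ,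
           relG := C.relG,
           relH := fun τ τ' h => by rw [eF, eF, eF', eF']; exact C.relH τ τ' h,
           pos := C.pos, neg := fun τ => by rw [eF]; exact C.neg τ,
           xtop := C.xtop, xbot := C.xbot, ytop := C.ytop, ybot := C.ybot,
           o1 := C.o1,
           o2 := by
             obtain ⟨t, ht⟩ := C.o2
             exact ⟨t, by rw [eF']; exact ht⟩,
           o3 := C.o3, o4 := C.o4, m0 := hm0, m1 := hm1, M1 := hM1, ms := ms, sM := sM,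
           msH := fun τ => by rw [eF']; exact msH τ, sHM := fun τ => by rw [eF']; exact sHM τ,
           sm := l1, sM' := l3, cross1 := ?_, cross2 := ?_,
           bdd := ?_ }
  · intro τ τ'
    rw [eF]
    obtain ⟨h1, h2⟩ := hκ τ
    obtain ⟨h3, h4⟩ := hκ' τ
    obtain ⟨i1, i2⟩ := hκ τ'
    obtain ⟨i3, i4⟩ := hκ' τ'
    rcases le_total (x τ) (x τ') with h | h
    · nlinarith [mul_nonneg (sub_nonneg.2 (sM τ)) (sub_nonneg.2 h)]
    · nlinarith [mul_nonneg (sub_nonneg.2 (ms τ)) (sub_nonneg.2 h)]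
  · intro τ τ'
    rw [eF, eF']
    obtain ⟨h1, h2⟩ := hκ τ
    obtain ⟨h3, h4⟩ := hκ' τ
    obtain ⟨i1, i2⟩ := hκ τ'
    obtain ⟨i3, i4⟩ := hκ' τ'
    rcases le_total (x τ) (x τ') with h | h
    · nlinarith [mul_nonneg (sub_nonneg.2 (msH τ)) (sub_nonneg.2 h)]
    · nlinarith [mul_nonneg (sub_nonneg.2 (sHM τ)) (sub_nonneg.2 h)]
  · obtain ⟨D, hD⟩ := C.ib
    exact ⟨D, fun τ => by rw [eF, eF']; exact hD τ⟩

end CG
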