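import Pool.Agent.H.MP_1693ff_gtB.GBody1
import Pool.Agent.H.MP_1693ff_gtB.GBody3

/-!
# Chord functions of the body of a curve, exponent `-e`
-/

namespace CG

open Real Set Filter Topology CF

theorem chord_inv {K : Set Pl} {p u : Pl} {e N N' : ℝ} (he : 0 < e) (hN : 0 < N) (hN' : 0 < N')
    (h : radial K p u = N⁻¹) (h' : radial K p (-u) = N'⁻¹) :
    chord (-e) K p u = N ^ e + N' ^ e := by
  unfold chord
  rw [if_neg (by linarith), h, h', Real.rpow_neg (inv_nonneg.2 hN.le),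
    Real.rpow_neg (inv_nonneg.2 hN'.le), Real.inv_rpow hN.le, Real.inv_rpow hN'.le, inv_inv,
    inv_inv]

theorem curve_surj_x {F F' x y s : ℝ → ℝ} {m M : ℝ} (C : CurveW F F' x y s m M)
    (a : ℝ) : ∃ τ, x τ = a := by
  exact C.cx.surjective C.xtop C.xbot a

theorem curve_surj_y {F F' x y s : ℝ → ℝ} {m M : ℝ} (C : CurveW F F' x y s m M)
    (a : ℝ) : ∃ τ, y τ = a := by
  exact C.cy.surjective' C.ybot C.ytop a

/-- **The chord functions of the body of a curve.** -/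
theorem body_chordI {F F' x y s : ℝ → ℝ} {m M e : ℝ} (he : 0 < e)
    (C : CurveW F F' x y s m M) :
    (∀ θ ∈ Ioo 0 π, ∀ τ, x τ = cos θ / sin θ → chord (-e) (body F F' x y s) 0 (ev θ) =
      sin θ ^ e * ((x τ + y τ) ^ e + (-(x τ + (y τ - F (x τ)))) ^ e)) ∧
    chord (-e) (body F F' x y s) 0 (ev 0) = (1 - m) ^ e + (M - 1) ^ e ∧
    (∀ θ ∈ Ioo 0 π, ∀ τ τ', y τ = -(cos θ / sin θ) → y τ' - F (x τ') = -(cos θ / sin θ) →
      chord (-e) (body F F' x y s) (ev 0) (ev θ) =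
      sin θ ^ e * ((x τ + y τ) ^ e + (-(x τ' + (y τ' - F (x τ')))) ^ e)) ∧
    chord (-e) (body F F' x y s) (ev 0) (ev 0) = (m⁻¹ - 1) ^ e + (1 - M⁻¹) ^ e := by
  have hm0 := C.m0
  have hm1 := C.m1
  have hM1 := C.M1
  have hM0 : 0 < M := by linarith
  have k1 : 0 < m⁻¹ - 1 := by
    rw [sub_pos]
    exact (one_lt_inv₀ hm0).2 hm1
  have k2 : 0 < 1 - M⁻¹ := by
    rw [sub_pos]
    exact inv_lt_one_of_one_lt₀ hM1
  refine ⟨fun θ hθ τ hτ => ?_, ?_, fun θ hθ τ τ' hτ hτ' => ?_, ?_⟩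
  · have hs : 0 < sin θ := sin_pos_of_pos_of_lt_pi hθ.1 hθ.2
    have a1 := C.pos τ
    have a2 : 0 < -(x τ + (y τ - F (x τ))) := by linarith [C.neg τ]
    rw [chord_inv he (mul_pos a1 hs) (mul_pos a2 hs) (radial_up C hθ hτ) (radial_down C hθ hτ),
      Real.mul_rpow a1.le hs.le, Real.mul_rpow a2.le hs.le]
    ring
  · exact chord_inv he (by linarith) (by linarith) (radial_axis C).1 (radial_axis C).2
  · have hs : 0 < sin θ := sin_pos_of_pos_of_lt_pi hθ.1 hθ.2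
    have a1 := C.pos τ
    have a2 : 0 < -(x τ' + (y τ' - F (x τ'))) := by linarith [C.neg τ']
    rw [chord_inv he (mul_pos a1 hs) (mul_pos a2 hs) (radial_up' C hθ hτ)
      (radial_down' C hθ hτ'), Real.mul_rpow a1.le hs.le, Real.mul_rpow a2.le hs.le]
    ring
  · exact chord_inv he k1 k2 (radial_axis' C).1 (radial_axis' C).2

theorem body_isBody {F F' x y s : ℝ → ℝ} {m M : ℝ} (C : CurveW F F' x y s m M) :
    IsBody (body F F' x y s) :=
  ⟨(body_closed_convex F F' x y s).2, body_compact C, ⟨0, (body_interior C).1⟩⟩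

/-- Reflection of the body in the axis. -/
theorem body_sym {F F' x y s : ℝ → ℝ}
    (h : ∀ τ, x (-τ) = -x τ ∧ y (-τ) - F (x (-τ)) = -y τ ∧ s (-τ) + F' (x (-τ)) = s τ)
    {w : Pl} (hw : w ∈ body F F' x y s) : !₂[w 0, -w 1] ∈ body F F' x y s := by
  intro τ
  obtain ⟨a1, a2, a3⟩ := h τ
  obtain ⟨b1, b2, b3⟩ := h (-τ)
  rw [neg_neg] at b1 b2 b3
  obtain ⟨g1, g2⟩ := hw (-τ)
  have e0 : (!₂[w 0, -w 1] : Pl) 0 = w 0 := rfl
  have e1 : (!₂[w 0, -w 1] : Pl) 1 = -w 1 := rfl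
  rw [e0, e1]
  rw [a1] at a2 a3 g1 g2
  rw [a2, a3] at g2
  constructor
  · linarith
  · rw [b2, b3]
    have : x τ = -x (-τ) := b1
    rw [this, a1]
    linarith

end CG
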