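import Pool.Agent.H.MP_1693ff_gtB.GCubA

/-!
# The cubic: first bounds
-/

namespace CG

open Real Set Filter Topology CF

/-- the lower bound of `2cub - X cub1` -/
theorem gcubb_aux1 {b₀ b₁ l₀ l₁ : ℝ} {q₀ q₁ α β d X : ℝ} (hq₀ : q₀ ∈ Icc b₀ b₁)
    (hq₁ : q₁ ∈ Icc b₀ b₁) (hα : α ∈ Icc l₀ l₁) (hβ : β ∈ Icc l₀ l₁) (hd : 1 ≤ d)
    (hX : X ∈ Icc 0 d) :
    2 * b₀ + l₀ * X ≤ 2 * cub d q₀ q₁ α β X - X * cub1 d q₀ q₁ α β X := by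
  have hd0 : 0 < d := lt_of_lt_of_le one_pos hd
  obtain ⟨s, hs⟩ : ∃ s, s = X / d := ⟨_, rfl⟩
  have hs0 : 0 ≤ s := by rw [hs]; exact div_nonneg hX.1 hd0.le
  have hs1 : s ≤ 1 := by rw [hs, div_le_one hd0]; exact hX.2
  have e : 2 * cub d q₀ q₁ α β X - X * cub1 d q₀ q₁ α β X =
      2 * (q₀ * (1 - s ^ 3) + q₁ * s ^ 3) + X * (α * (1 - s ^ 2) + β * s ^ 2) := by
    unfold cub cub1
    have e1 : X * ((q₁ - q₀) * (6 * (X / d) - 6 * (X / d) ^ 2) / d) =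
        (X / d) * ((q₁ - q₀) * (6 * (X / d) - 6 * (X / d) ^ 2)) := by ring
    rw [mul_add X, e1, ← hs]
    ring
  rw [e]
  have h3 : 0 ≤ s ^ 3 := pow_nonneg hs0 3
  have h3' : s ^ 3 ≤ 1 := pow_le_one₀ hs0 hs1
  have h2 : 0 ≤ s ^ 2 := pow_nonneg hs0 2
  have h2' : s ^ 2 ≤ 1 := pow_le_one₀ hs0 hs1
  have k1 : b₀ ≤ q₀ * (1 - s ^ 3) + q₁ * s ^ 3 := by
    have a1 := mul_le_mul_of_nonneg_right hq₀.1 (sub_nonneg.2 h3')
    have a2 := mul_le_mul_of_nonneg_right hq₁.1 h3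
    linarith
  have k2 : l₀ ≤ α * (1 - s ^ 2) + β * s ^ 2 := by
    have a1 := mul_le_mul_of_nonneg_right hα.1 (sub_nonneg.2 h2')
    have a2 := mul_le_mul_of_nonneg_right hβ.1 h2
    linarith
  have k3 := mul_le_mul_of_nonneg_left k2 hX.1
  linarith

/-- `s = X/d`. `cub ≥ q₀(1 - (3s²-2s³)) + q₁(3s²-2s³) ≥ b₀`; `cub ≤ b₁ + l₁ X`;
`2cub - X cub1 = 2(q₀(1-s³) + q₁s³) + X(α(1-s²) + βs²) ≥ 2b₀ + l₀X`; the second one by
`cub_mirror`; `|cub1| ≤ C`. -/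
theorem cub_b {b₀ b₁ l₀ l₁ : ℝ} (hb₀ : 0 < b₀) (hl₀ : 0 < l₀) : ∃ C, 0 ≤ C ∧
    ∀ q₀ ∈ Icc b₀ b₁, ∀ q₁ ∈ Icc b₀ b₁, ∀ α ∈ Icc l₀ l₁, ∀ β ∈ Icc l₀ l₁, ∀ d, 1 ≤ d →
    ∀ X ∈ Icc 0 d, b₀ ≤ cub d q₀ q₁ α β X ∧ cub d q₀ q₁ α β X ≤ b₁ + l₁ * X ∧
      |cub1 d q₀ q₁ α β X| ≤ C ∧
      2 * b₀ + l₀ * X ≤ 2 * cub d q₀ q₁ α β X - X * cub1 d q₀ q₁ α β X ∧
      2 * b₀ + l₀ * (d - X) ≤ 2 * cub d q₀ q₁ α β X + (d - X) * cub1 d q₀ q₁ α β X := by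
  refine ⟨6 * |b₁| + 6 * |l₁|, by positivity, ?_⟩
  intro q₀ hq₀ q₁ hq₁ α hα β hβ d hd X hX
  have hd0 : 0 < d := lt_of_lt_of_le one_pos hd
  obtain ⟨s, hs⟩ : ∃ s, s = X / d := ⟨_, rfl⟩
  have hs0 : 0 ≤ s := by rw [hs]; exact div_nonneg hX.1 hd0.le
  have hs1 : s ≤ 1 := by rw [hs, div_le_one hd0]; exact hX.2
  have hα0 : 0 < α := lt_of_lt_of_le hl₀ hα.1
  have hβ0 : 0 < β := lt_of_lt_of_le hl₀ hβ.1
  have hg0 : 0 ≤ 3 * s ^ 2 - 2 * s ^ 3 := by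
    have e : 3 * s ^ 2 - 2 * s ^ 3 = s ^ 2 * (3 - 2 * s) := by ring
    rw [e]
    exact mul_nonneg (sq_nonneg s) (by linarith)
  have hg1 : 3 * s ^ 2 - 2 * s ^ 3 ≤ 1 := by
    have e : 1 - (3 * s ^ 2 - 2 * s ^ 3) = (1 - s) ^ 2 * (1 + 2 * s) := by ring
    have : 0 ≤ (1 - s) ^ 2 * (1 + 2 * s) := mul_nonneg (sq_nonneg _) (by linarith)
    linarith
  have ecub : cub d q₀ q₁ α β X = q₀ * (1 - (3 * s ^ 2 - 2 * s ^ 3)) +
      q₁ * (3 * s ^ 2 - 2 * s ^ 3) + X * ((1 - s) * (α * (1 - s) + β * s)) := by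
    unfold cub
    rw [← hs]
    ring
  have hw0 : 0 ≤ (1 - s) * (α * (1 - s) + β * s) :=
    mul_nonneg (by linarith) (add_nonneg (mul_nonneg hα0.le (by linarith))
      (mul_nonneg hβ0.le hs0))
  have hw1 : (1 - s) * (α * (1 - s) + β * s) ≤ l₁ := by
    have a1 : α * (1 - s) + β * s ≤ l₁ := by
      have a1 := mul_le_mul_of_nonneg_right hα.2 (sub_nonneg.2 hs1)
      have a2 := mul_le_mul_of_nonneg_right hβ.2 hs0
      linarith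
    have a0 : 0 ≤ α * (1 - s) + β * s := add_nonneg (mul_nonneg hα0.le (by linarith))
      (mul_nonneg hβ0.le hs0)
    have a3 : (1 - s) * (α * (1 - s) + β * s) ≤ 1 * (α * (1 - s) + β * s) :=
      mul_le_mul_of_nonneg_right (by linarith) a0
    linarith
  refine ⟨?_, ?_, ?_, gcubb_aux1 hq₀ hq₁ hα hβ hd hX, ?_⟩
  · rw [ecub]
    have a1 := mul_le_mul_of_nonneg_right hq₀.1 (sub_nonneg.2 hg1)
    have a2 := mul_le_mul_of_nonneg_right hq₁.1 hg0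
    have a3 := mul_nonneg hX.1 hw0
    linarith
  · rw [ecub]
    have a1 := mul_le_mul_of_nonneg_right hq₀.2 (sub_nonneg.2 hg1)
    have a2 := mul_le_mul_of_nonneg_right hq₁.2 hg0
    have a3 := mul_le_mul_of_nonneg_left hw1 hX.1
    linarith
  · have hb1 : 0 ≤ b₁ := by linarith [hq₀.1, hq₀.2]
    have hl1 : 0 ≤ l₁ := by linarith [hα.1, hα.2]
    rw [abs_of_nonneg hb1, abs_of_nonneg hl1]
    have e1 : cub1 d q₀ q₁ α β X = (q₁ - q₀) * (6 * (s * (1 - s))) / d +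
        (α * ((1 - s) * (1 - 3 * s)) + β * (s * (2 - 3 * s))) := by
      unfold cub1
      rw [← hs]
      ring
    have hss0 : 0 ≤ s * (1 - s) := mul_nonneg hs0 (by linarith)
    have hss1 : s * (1 - s) ≤ 1 := by nlinarith
    have t1 : |(q₁ - q₀) * (6 * (s * (1 - s))) / d| ≤ 6 * b₁ := by
      have hq : |q₁ - q₀| ≤ b₁ := abs_le.2 ⟨by linarith [hq₀.2, hq₁.1], by linarith [hq₁.2, hq₀.1]⟩
      rw [abs_div, abs_mul, abs_of_pos hd0, abs_of_nonneg (by linarith : 0 ≤ 6 * (s * (1 - s))),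
        div_le_iff₀ hd0]
      have a1 : |q₁ - q₀| * (6 * (s * (1 - s))) ≤ b₁ * 6 :=
        mul_le_mul hq (by linarith) (by linarith) hb1
      have a2 : 6 * b₁ * 1 ≤ 6 * b₁ * d := mul_le_mul_of_nonneg_left hd (by linarith)
      linarith
    have t2 : |α * ((1 - s) * (1 - 3 * s)) + β * (s * (2 - 3 * s))| ≤ 6 * l₁ := by
      have a1 : |(1 - s) * (1 - 3 * s)| ≤ 2 := by
        rw [abs_le]
        constructor <;> nlinarith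
      have a2 : |s * (2 - 3 * s)| ≤ 2 := by
        rw [abs_le]
        constructor <;> nlinarith
      have a3 : |α * ((1 - s) * (1 - 3 * s))| ≤ l₁ * 2 := by
        rw [abs_mul, abs_of_pos hα0]
        exact mul_le_mul hα.2 a1 (abs_nonneg _) hl1
      have a4 : |β * (s * (2 - 3 * s))| ≤ l₁ * 2 := by
        rw [abs_mul, abs_of_pos hβ0]
        exact mul_le_mul hβ.2 a2 (abs_nonneg _) hl1
      have a5 := abs_add_le (α * ((1 - s) * (1 - 3 * s))) (β * (s * (2 - 3 * s)))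
      linarith
    rw [e1]
    exact (abs_add_le _ _).trans (by linarith)
  · have hX' : d - X ∈ Icc 0 d := ⟨by linarith [hX.2], by linarith [hX.1]⟩
    have h := gcubb_aux1 hq₁ hq₀ hβ hα hd hX'
    obtain ⟨m0, m1, -⟩ := cub_mirror (q₀ := q₀) (q₁ := q₁) (α := α) (β := β) hd0.ne' X
    rw [m0, m1] at h
    linarith

end CG
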