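import Pool.Agent.H.MP_1693ff_gtB.GCubA

/-!
# The cubic: concavity of the square root
-/

namespace CG

open Real Set Filter Topology CF

theorem gcubc_D0 (α β s : ℝ) :
    (α + 2 * (β - 2 * α) * s - 3 * (β - α) * s ^ 2) ^ 2 -
      2 * (s * (1 - s) * (α * (1 - s) + β * s)) * (2 * (β - 2 * α) - 6 * (β - α) * s) =
    α ^ 2 + α * (β - α) * (6 * s ^ 2 - 4 * s ^ 3) + (β - α) ^ 2 * s ^ 3 * (4 - 3 * s) := by
  ring

theorem gcubc_D0' (α β s : ℝ) :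
    (α + 2 * (β - 2 * α) * s - 3 * (β - α) * s ^ 2) ^ 2 -
      2 * (s * (1 - s) * (α * (1 - s) + β * s)) * (2 * (β - 2 * α) - 6 * (β - α) * s) =
    β ^ 2 + β * (α - β) * (6 * (1 - s) ^ 2 - 4 * (1 - s) ^ 3) +
      (α - β) ^ 2 * (1 - s) ^ 3 * (4 - 3 * (1 - s)) := by
  ring

theorem gcubc_aux {a c s l : ℝ} (hl : 0 < l) (ha : l ≤ a) (hc : a ≤ c) (hs0 : 0 ≤ s)
    (hs1 : s ≤ 1) :
    l ^ 2 ≤ a ^ 2 + a * (c - a) * (6 * s ^ 2 - 4 * s ^ 3) + (c - a) ^ 2 * s ^ 3 * (4 - 3 * s) := by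
  have h1 : 0 ≤ 6 * s ^ 2 - 4 * s ^ 3 := by
    have e : 6 * s ^ 2 - 4 * s ^ 3 = s ^ 2 * (6 - 4 * s) := by ring
    rw [e]
    exact mul_nonneg (sq_nonneg _) (by linarith only [hs1])
  have h2 : 0 ≤ a * (c - a) * (6 * s ^ 2 - 4 * s ^ 3) :=
    mul_nonneg (mul_nonneg (hl.le.trans ha) (by linarith only [hc])) h1
  have h3 : 0 ≤ (c - a) ^ 2 * s ^ 3 * (4 - 3 * s) :=
    mul_nonneg (mul_nonneg (sq_nonneg _) (pow_nonneg hs0 3)) (by linarith only [hs1])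
  have h4 : l ^ 2 ≤ a ^ 2 := pow_le_pow_left₀ hl.le ha 2
  linarith only [h2, h3, h4]

theorem gcubc_low {α β s l : ℝ} (hl : 0 < l) (hα : l ≤ α) (hβ : l ≤ β) (hs0 : 0 ≤ s)
    (hs1 : s ≤ 1) :
    l ^ 2 ≤ (α + 2 * (β - 2 * α) * s - 3 * (β - α) * s ^ 2) ^ 2 -
      2 * (s * (1 - s) * (α * (1 - s) + β * s)) * (2 * (β - 2 * α) - 6 * (β - α) * s) := by
  rcases le_total α β with h | h
  · rw [gcubc_D0]
    exact gcubc_aux hl hα h hs0 hs1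
  · rw [gcubc_D0']
    exact gcubc_aux hl hβ h (by linarith only [hs1]) (by linarith only [hs0])

theorem gcubc_mul {a b M N : ℝ} (ha : |a| ≤ M) (hb : |b| ≤ N) : |a * b| ≤ M * N := by
  rw [abs_mul]
  exact mul_le_mul ha hb (abs_nonneg _) ((abs_nonneg _).trans ha)

/-- Concavity of the square root. `s = X/d`, `κ = β - α`,
`A = q₀ + (q₁-q₀)(3s²-2s³)`, `g = s(1-s)(α(1-s)+βs)` (so `cub = A + d g`):
`cub1² - 2 cub cub2 = D₀ + 2g'A' + A'² - 2AA'' - 2A g''/d - 2d g A''` with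
`D₀ = g'² - 2gg'' = α² + 6ακs² + 4κ(κ-α)s³ - 3κ²s⁴`, `A' = (q₁-q₀)6s(1-s)/d`,
`A'' = (q₁-q₀)(6-12s)/d²` (`g', g''` derivatives in `s`); all terms but `D₀` are `O(1/d)`.
`D₀ ≥ α²` if `κ ≥ 0`: `D₀ = α² + ακ(6s²-4s³) + κ²s³(4-3s)`; if `κ < 0`, `D₀ ≥ β²` by the mirror
symmetry `D₀(α,β,s) = D₀(β,α,1-s)`. Hence `≥ l₀² - C/d ≥ 0`, and bounded above. -/
theorem cub_c {b₀ b₁ l₀ l₁ : ℝ} (hb₀ : 0 < b₀) (hl₀ : 0 < l₀) : ∃ C D, 0 ≤ C ∧ 1 ≤ D ∧
    ∀ q₀ ∈ Icc b₀ b₁, ∀ q₁ ∈ Icc b₀ b₁, ∀ α ∈ Icc l₀ l₁, ∀ β ∈ Icc l₀ l₁, ∀ d, D ≤ d →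
    ∀ X ∈ Icc 0 d,
      0 ≤ cub1 d q₀ q₁ α β X ^ 2 - 2 * cub d q₀ q₁ α β X * cub2 d q₀ q₁ α β X ∧
      cub1 d q₀ q₁ α β X ^ 2 - 2 * cub d q₀ q₁ α β X * cub2 d q₀ q₁ α β X ≤ C := by
  obtain ⟨K, hK⟩ : ∃ K : ℝ, K = 36 * (|b₁| * |l₁|) + 16 * |b₁| ^ 2 := ⟨_, rfl⟩
  have hK0 : 0 ≤ K := by
    rw [hK]
    positivity
  refine ⟨20 * |l₁| ^ 2 + K, max 1 (K / l₀ ^ 2), by positivity, le_max_left _ _, ?_⟩
  intro q₀ hq₀ q₁ hq₁ α hα β hβ d hd X hX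
  have hd1 : 1 ≤ d := (le_max_left _ _).trans hd
  have hd0 : 0 < d := lt_of_lt_of_le one_pos hd1
  have hKd : K / d ≤ l₀ ^ 2 := by
    have h1 : K / l₀ ^ 2 ≤ d := (le_max_right _ _).trans hd
    rw [div_le_iff₀ (pow_pos hl₀ 2)] at h1
    rw [div_le_iff₀ hd0]
    linarith only [h1]
  obtain ⟨s, rfl⟩ : ∃ s, X = s * d := ⟨X / d, by field_simp⟩
  have hs0 : 0 ≤ s := by
    by_contra h
    have h1 := mul_neg_of_neg_of_pos (not_le.1 h) hd0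
    linarith only [h1, hX.1]
  have hs1 : s ≤ 1 := by
    by_contra h
    have h1 := mul_lt_mul_of_pos_right (not_le.1 h) hd0
    linarith only [h1, hX.2]
  have hsd : s * d / d = s := by field_simp
  obtain ⟨A, hA⟩ : ∃ A, A = q₀ + (q₁ - q₀) * (3 * s ^ 2 - 2 * s ^ 3) := ⟨_, rfl⟩
  obtain ⟨A1, hA1⟩ : ∃ A1, A1 = (q₁ - q₀) * (6 * s - 6 * s ^ 2) := ⟨_, rfl⟩
  obtain ⟨A2, hA2⟩ : ∃ A2, A2 = (q₁ - q₀) * (6 - 12 * s) := ⟨_, rfl⟩
  obtain ⟨g, hg⟩ : ∃ g, g = s * (1 - s) * (α * (1 - s) + β * s) := ⟨_, rfl⟩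
  obtain ⟨g1, hg1⟩ : ∃ g1, g1 = α + 2 * (β - 2 * α) * s - 3 * (β - α) * s ^ 2 := ⟨_, rfl⟩
  obtain ⟨g2, hg2⟩ : ∃ g2, g2 = 2 * (β - 2 * α) - 6 * (β - α) * s := ⟨_, rfl⟩
  have hb1 : b₁ ≤ |b₁| := le_abs_self _
  have hl1 : l₁ ≤ |l₁| := le_abs_self _
  have hs2 : 0 ≤ s * (1 - s) := mul_nonneg hs0 (by linarith only [hs1])
  have bq : |q₁ - q₀| ≤ |b₁| := by
    rw [abs_le]
    constructor
    · linarith only [hq₁.1, hq₀.2, hb₀, hb1]
    · linarith only [hq₁.2, hq₀.1, hb₀, hb1]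
  have bA : |A| ≤ |b₁| := by
    have h0 : 0 ≤ 3 * s ^ 2 - 2 * s ^ 3 := by
      have e : 3 * s ^ 2 - 2 * s ^ 3 = s ^ 2 * (3 - 2 * s) := by ring
      rw [e]
      exact mul_nonneg (sq_nonneg _) (by linarith only [hs1])
    have h1 : 3 * s ^ 2 - 2 * s ^ 3 ≤ 1 := by
      have e : 1 - (3 * s ^ 2 - 2 * s ^ 3) = (1 - s) ^ 2 * (1 + 2 * s) := by ring
      have h2 : 0 ≤ (1 - s) ^ 2 * (1 + 2 * s) :=
        mul_nonneg (sq_nonneg _) (by linarith only [hs0])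
      linarith only [e, h2]
    have e : A = q₀ * (1 - (3 * s ^ 2 - 2 * s ^ 3)) + q₁ * (3 * s ^ 2 - 2 * s ^ 3) := by
      rw [hA]
      ring
    have h2 : 0 ≤ q₀ * (1 - (3 * s ^ 2 - 2 * s ^ 3)) :=
      mul_nonneg (hb₀.le.trans hq₀.1) (by linarith only [h1])
    have h3 : 0 ≤ q₁ * (3 * s ^ 2 - 2 * s ^ 3) := mul_nonneg (hb₀.le.trans hq₁.1) h0
    have h4 : q₀ * (1 - (3 * s ^ 2 - 2 * s ^ 3)) ≤ |b₁| * (1 - (3 * s ^ 2 - 2 * s ^ 3)) :=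
      mul_le_mul_of_nonneg_right (hq₀.2.trans hb1) (by linarith only [h1])
    have h5 : q₁ * (3 * s ^ 2 - 2 * s ^ 3) ≤ |b₁| * (3 * s ^ 2 - 2 * s ^ 3) :=
      mul_le_mul_of_nonneg_right (hq₁.2.trans hb1) h0
    rw [abs_le]
    constructor
    · linarith only [e, h2, h3, abs_nonneg b₁]
    · linarith only [e, h4, h5]
  have bA1 : |A1| ≤ |b₁| * 2 := by
    rw [hA1]
    refine gcubc_mul bq ?_
    rw [abs_le]
    constructor
    · nlinarith only [hs2]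
    · nlinarith only [sq_nonneg (2 * s - 1)]
  have bA2 : |A2| ≤ |b₁| * 6 := by
    rw [hA2]
    refine gcubc_mul bq ?_
    rw [abs_le]
    constructor
    · linarith only [hs1]
    · linarith only [hs0]
  have bα : |α| ≤ |l₁| := by
    rw [abs_le]
    constructor
    · linarith only [hα.1, hl₀, abs_nonneg l₁]
    · linarith only [hα.2, hl1]
  have bβ : |β| ≤ |l₁| := by
    rw [abs_le]
    constructor
    · linarith only [hβ.1, hl₀, abs_nonneg l₁]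
    · linarith only [hβ.2, hl1]
  have bg : |g| ≤ |l₁| := by
    have e : g = α * (s * (1 - s) * (1 - s)) + β * (s * (1 - s) * s) := by
      rw [hg]
      ring
    have h1 : |α * (s * (1 - s) * (1 - s))| ≤ |l₁| * (1 / 2) := by
      refine gcubc_mul bα ?_
      have h2 : 0 ≤ s * (1 - s) * (1 - s) := mul_nonneg hs2 (by linarith only [hs1])
      rw [abs_of_nonneg h2]
      have h3 : s * (1 - s) * (1 - s) ≤ s * (1 - s) * 1 :=
        mul_le_mul_of_nonneg_left (by linarith only [hs0]) hs2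
      nlinarith only [h3, sq_nonneg (2 * s - 1)]
    have h1' : |β * (s * (1 - s) * s)| ≤ |l₁| * (1 / 2) := by
      refine gcubc_mul bβ ?_
      have h2 : 0 ≤ s * (1 - s) * s := mul_nonneg hs2 hs0
      rw [abs_of_nonneg h2]
      have h3 : s * (1 - s) * s ≤ s * (1 - s) * 1 := mul_le_mul_of_nonneg_left hs1 hs2
      nlinarith only [h3, sq_nonneg (2 * s - 1)]
    rw [e]
    refine (abs_add_le _ _).trans ?_
    linarith only [h1, h1']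
  have bg1 : |g1| ≤ |l₁| * 2 := by
    have e : g1 = α * ((1 - s) * (1 - 3 * s)) + β * (s * (2 - 3 * s)) := by
      rw [hg1]
      ring
    have h1 : |α * ((1 - s) * (1 - 3 * s))| ≤ |l₁| * 1 := by
      refine gcubc_mul bα ?_
      rw [abs_le]
      constructor
      · nlinarith only [sq_nonneg (3 * s - 2)]
      · nlinarith only [hs0, hs1, hs2]
    have h1' : |β * (s * (2 - 3 * s))| ≤ |l₁| * 1 := by
      refine gcubc_mul bβ ?_
      rw [abs_le]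
      constructor
      · nlinarith only [hs0, hs1, hs2]
      · nlinarith only [sq_nonneg (3 * s - 1)]
    rw [e]
    refine (abs_add_le _ _).trans ?_
    linarith only [h1, h1']
  have bg2 : |g2| ≤ |l₁| * 8 := by
    have e : g2 = α * (6 * s - 4) + β * (2 - 6 * s) := by
      rw [hg2]
      ring
    have h1 : |α * (6 * s - 4)| ≤ |l₁| * 4 := by
      refine gcubc_mul bα ?_
      rw [abs_le]
      constructor
      · linarith only [hs0]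
      · linarith only [hs1]
    have h1' : |β * (2 - 6 * s)| ≤ |l₁| * 4 := by
      refine gcubc_mul bβ ?_
      rw [abs_le]
      constructor
      · linarith only [hs1]
      · linarith only [hs0]
    rw [e]
    refine (abs_add_le _ _).trans ?_
    linarith only [h1, h1']
  have key : cub1 d q₀ q₁ α β (s * d) ^ 2 - 2 * cub d q₀ q₁ α β (s * d) *
      cub2 d q₀ q₁ α β (s * d) = (g1 ^ 2 - 2 * g * g2) +
        (2 * (A1 * g1) - 2 * (A * g2) - 2 * (g * A2)) / d + (A1 * A1 - 2 * (A * A2)) / d ^ 2 := by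
    unfold cub cub1 cub2
    rw [hsd, hA, hA1, hA2, hg, hg1, hg2]
    field_simp
    ring
  have hlow : l₀ ^ 2 ≤ g1 ^ 2 - 2 * g * g2 := by
    rw [hg1, hg2, hg]
    exact gcubc_low hl₀ hα.1 hβ.1 hs0 hs1
  have c1 := abs_le.1 (gcubc_mul bA1 bg1)
  have c2 := abs_le.1 (gcubc_mul bA bg2)
  have c3 := abs_le.1 (gcubc_mul bg bA2)
  have c4 := abs_le.1 (gcubc_mul bA1 bA1)
  have c5 := abs_le.1 (gcubc_mul bA bA2)
  have c6 := abs_le.1 (gcubc_mul bg bg2)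
  have c7 := abs_le.1 (gcubc_mul bg1 bg1)
  have e1 : |2 * (A1 * g1) - 2 * (A * g2) - 2 * (g * A2)| ≤ 36 * (|b₁| * |l₁|) := by
    rw [abs_le]
    constructor
    · linarith only [c1.1, c2.2, c3.2]
    · linarith only [c1.2, c2.1, c3.1]
  have e2 : |A1 * A1 - 2 * (A * A2)| ≤ 16 * |b₁| ^ 2 := by
    rw [abs_le]
    constructor
    · linarith only [c4.1, c5.2]
    · linarith only [c4.2, c5.1]
  have f1 : |(2 * (A1 * g1) - 2 * (A * g2) - 2 * (g * A2)) / d| ≤ 36 * (|b₁| * |l₁|) / d := by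
    rw [abs_div, abs_of_pos hd0]
    exact div_le_div_of_nonneg_right e1 hd0.le
  have f2 : |(A1 * A1 - 2 * (A * A2)) / d ^ 2| ≤ 16 * |b₁| ^ 2 / d := by
    rw [abs_div, abs_of_pos (pow_pos hd0 2)]
    refine (div_le_div_of_nonneg_right e2 (pow_pos hd0 2).le).trans ?_
    refine div_le_div_of_nonneg_left (by positivity) hd0 ?_
    nlinarith only [hd1]
  have hKK : 36 * (|b₁| * |l₁|) / d + 16 * |b₁| ^ 2 / d = K / d := by
    rw [hK]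
    ring
  have hKd' : K / d ≤ K := div_le_self hK0 hd1
  rw [key]
  constructor
  · linarith only [(abs_le.1 f1).1, (abs_le.1 f2).1, hKK, hKd, hlow]
  · have h1 : g1 ^ 2 - 2 * g * g2 ≤ 20 * |l₁| ^ 2 := by
      linarith only [c6.1, c7.2]
    linarith only [(abs_le.1 f1).2, (abs_le.1 f2).2, hKK, hKd', h1]

end CG
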