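import Pool.Agent.H.MP_1693ff_gtB.GDefs

/-!
# The cubic near the centre
-/

namespace CG

open Real Set Filter Topology CF

/-- product of two bounds -/
theorem gcubn_mul {x y a b : ℝ} (hx : |x| ≤ a) (hy : |y| ≤ b) : |x * y| ≤ a * b := by
  rw [abs_mul]
  exact mul_le_mul hx hy (abs_nonneg _) ((abs_nonneg _).trans hx)

/-- Near the centre the cubic is close to `q₀ + αX`. -/
theorem cub_near {b₀ b₁ l₀ l₁ X₀ : ℝ} (hb₀ : 0 < b₀) (hl₀ : 0 < l₀) (hX : 0 ≤ X₀) :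
    ∃ C, 0 ≤ C ∧
    ∀ q₀ ∈ Icc b₀ b₁, ∀ q₁ ∈ Icc b₀ b₁, ∀ α ∈ Icc l₀ l₁, ∀ β ∈ Icc l₀ l₁, ∀ d, 1 ≤ d → X₀ ≤ d →
    ∀ X ∈ Icc 0 X₀, |cub d q₀ q₁ α β X - (q₀ + α * X)| ≤ C / d ∧
      |cub1 d q₀ q₁ α β X - α| ≤ C / d ∧ |cub2 d q₀ q₁ α β X| ≤ C / d := by
  refine ⟨(6 + 3 * X₀) * |b₁| + (3 * X₀ ^ 2 + 7 * X₀ + 10) * |l₁|, by positivity, ?_⟩
  rintro q₀ ⟨hq0, hq0'⟩ q₁ ⟨hq1, hq1'⟩ α ⟨hα, hα'⟩ β ⟨hβ, hβ'⟩ d hd hXd X ⟨hX0, hX1⟩
  have hb1 : 0 < b₁ := by linarith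
  have hl1 : 0 < l₁ := by linarith
  rw [abs_of_pos hb1, abs_of_pos hl1]
  have hd0 : 0 < d := by linarith
  obtain ⟨u, hu⟩ : ∃ u, u = X / d := ⟨_, rfl⟩
  have hu0 : 0 ≤ u := by
    rw [hu]
    positivity
  have hu1 : u ≤ 1 := by
    rw [hu, div_le_one hd0]
    linarith
  have hu2 : u * d = X := by
    rw [hu]
    field_simp
  have hu3 : u * d ≤ X₀ := by rw [hu2]; exact hX1
  have hq : |q₁ - q₀| ≤ b₁ := by
    rw [abs_le]
    constructor <;> linarith
  have hX0' : |X| ≤ X₀ := by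
    rw [abs_of_nonneg hX0]
    exact hX1
  have hua : |u| ≤ u := le_of_eq (abs_of_nonneg hu0)
  have hαa : |α| ≤ l₁ := by
    rw [abs_of_pos (by linarith)]
    exact hα'
  have hβa : |β| ≤ l₁ := by
    rw [abs_of_pos (by linarith)]
    exact hβ'
  refine ⟨?_, ?_, ?_⟩
  · have e1 : cub d q₀ q₁ α β X - (q₀ + α * X) =
        (q₁ - q₀) * (3 * u ^ 2 - 2 * u ^ 3) + X * (u * (α * (u - 2) + β * (1 - u))) := by
      unfold cub
      rw [← hu]
      ring
    rw [e1, le_div_iff₀ hd0]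
    have a1 : |(q₁ - q₀) * (3 * u ^ 2 - 2 * u ^ 3)| ≤ b₁ * (3 * u) := by
      refine gcubn_mul hq ?_
      rw [abs_le]
      constructor <;> nlinarith [mul_nonneg hu0 hu0, mul_nonneg (mul_nonneg hu0 hu0) hu0,
        mul_nonneg hu0 (sub_nonneg.2 hu1), mul_nonneg (mul_nonneg hu0 hu0) (sub_nonneg.2 hu1)]
    have a2 : |α * (u - 2) + β * (1 - u)| ≤ l₁ * 2 + l₁ * 1 := by
      refine (abs_add_le _ _).trans (add_le_add (gcubn_mul hαa ?_) (gcubn_mul hβa ?_))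
      · rw [abs_le]
        constructor <;> linarith
      · rw [abs_le]
        constructor <;> linarith
    have a3 := gcubn_mul hX0' (gcubn_mul hua a2)
    have a4 : |(q₁ - q₀) * (3 * u ^ 2 - 2 * u ^ 3) + X * (u * (α * (u - 2) + β * (1 - u)))| ≤
        b₁ * (3 * u) + X₀ * (u * (l₁ * 2 + l₁ * 1)) := (abs_add_le _ _).trans (add_le_add a1 a3)
    calc |(q₁ - q₀) * (3 * u ^ 2 - 2 * u ^ 3) + X * (u * (α * (u - 2) + β * (1 - u)))| * d
        ≤ (b₁ * (3 * u) + X₀ * (u * (l₁ * 2 + l₁ * 1))) * d :=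
          mul_le_mul_of_nonneg_right a4 hd0.le
      _ = (3 * b₁ + 3 * l₁ * X₀) * (u * d) := by ring
      _ ≤ (3 * b₁ + 3 * l₁ * X₀) * X₀ := mul_le_mul_of_nonneg_left hu3 (by positivity)
      _ ≤ (6 + 3 * X₀) * b₁ + (3 * X₀ ^ 2 + 7 * X₀ + 10) * l₁ := by
          have k1 : 0 ≤ 6 * b₁ := by positivity
          have k2 : 0 ≤ (7 * X₀ + 10) * l₁ := by positivity
          nlinarith
  · have e1 : cub1 d q₀ q₁ α β X - α =
        (q₁ - q₀) * (6 * u - 6 * u ^ 2) / d + u * (2 * (β - 2 * α) - 3 * (β - α) * u) := by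
      unfold cub1
      rw [← hu]
      ring
    rw [e1, le_div_iff₀ hd0]
    have a1 : |(q₁ - q₀) * (6 * u - 6 * u ^ 2) / d| ≤ b₁ * 6 / d := by
      rw [abs_div, abs_of_pos hd0]
      refine div_le_div_of_nonneg_right (gcubn_mul hq ?_) hd0.le
      rw [abs_le]
      constructor <;> nlinarith [mul_nonneg hu0 hu0, mul_nonneg hu0 (sub_nonneg.2 hu1)]
    have a2 : |2 * (β - 2 * α) - 3 * (β - α) * u| ≤ 7 * l₁ := by
      have k1 : |β - 2 * α| ≤ 2 * l₁ := by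
        rw [abs_le]
        constructor <;> linarith
      have k2 : |β - α| ≤ l₁ := by
        rw [abs_le]
        constructor <;> linarith
      have k3 : |u| ≤ 1 := by rw [abs_of_nonneg hu0]; exact hu1
      have k4 := gcubn_mul k2 k3
      have k5 : 2 * (β - 2 * α) - 3 * (β - α) * u = 2 * (β - 2 * α) + (-3) * ((β - α) * u) := by
        ring
      rw [k5]
      refine (abs_add_le _ _).trans ?_
      rw [abs_mul, abs_mul (-3), abs_of_pos (by norm_num : (0 : ℝ) < 2)]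
      have k6 : |(-3 : ℝ)| = 3 := by norm_num
      rw [k6]
      linarith
    have a3 := gcubn_mul hua a2
    calc |(q₁ - q₀) * (6 * u - 6 * u ^ 2) / d + u * (2 * (β - 2 * α) - 3 * (β - α) * u)| * d
        ≤ (b₁ * 6 / d + u * (7 * l₁)) * d :=
          mul_le_mul_of_nonneg_right ((abs_add_le _ _).trans (add_le_add a1 a3)) hd0.le
      _ = 6 * b₁ + 7 * l₁ * (u * d) := by
          field_simp
      _ ≤ 6 * b₁ + 7 * l₁ * X₀ := by
          have := mul_le_mul_of_nonneg_left hu3 (by positivity : 0 ≤ 7 * l₁)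
          linarith
      _ ≤ (6 + 3 * X₀) * b₁ + (3 * X₀ ^ 2 + 7 * X₀ + 10) * l₁ := by
          have k1 : 0 ≤ 3 * X₀ * b₁ := by positivity
          have k2 : 0 ≤ (3 * X₀ ^ 2 + 10) * l₁ := by positivity
          nlinarith
  · have e1 : cub2 d q₀ q₁ α β X =
        (q₁ - q₀) * (6 - 12 * u) / d ^ 2 + (2 * (β - 2 * α) - 6 * (β - α) * u) / d := by
      unfold cub2
      rw [← hu]
    rw [e1, le_div_iff₀ hd0]
    have a1 : |(q₁ - q₀) * (6 - 12 * u) / d ^ 2| ≤ b₁ * 6 / d := by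
      rw [abs_div, abs_of_pos (by positivity : 0 < d ^ 2)]
      have k1 : |(q₁ - q₀) * (6 - 12 * u)| ≤ b₁ * 6 := by
        refine gcubn_mul hq ?_
        rw [abs_le]
        constructor <;> linarith
      refine (div_le_div_of_nonneg_right k1 (by positivity)).trans ?_
      refine div_le_div_of_nonneg_left (by positivity) hd0 ?_
      nlinarith
    have a2 : |2 * (β - 2 * α) - 6 * (β - α) * u| ≤ 10 * l₁ := by
      have k1 : |β - 2 * α| ≤ 2 * l₁ := by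
        rw [abs_le]
        constructor <;> linarith
      have k2 : |β - α| ≤ l₁ := by
        rw [abs_le]
        constructor <;> linarith
      have k3 : |u| ≤ 1 := by rw [abs_of_nonneg hu0]; exact hu1
      have k4 := gcubn_mul k2 k3
      have k5 : 2 * (β - 2 * α) - 6 * (β - α) * u = 2 * (β - 2 * α) + (-6) * ((β - α) * u) := by
        ring
      rw [k5]
      refine (abs_add_le _ _).trans ?_
      rw [abs_mul, abs_mul (-6), abs_of_pos (by norm_num : (0 : ℝ) < 2)]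
      have k6 : |(-6 : ℝ)| = 6 := by norm_num
      rw [k6]
      linarith
    have a3 : |(2 * (β - 2 * α) - 6 * (β - α) * u) / d| ≤ 10 * l₁ / d := by
      rw [abs_div, abs_of_pos hd0]
      exact div_le_div_of_nonneg_right a2 hd0.le
    calc |(q₁ - q₀) * (6 - 12 * u) / d ^ 2 + (2 * (β - 2 * α) - 6 * (β - α) * u) / d| * d
        ≤ (b₁ * 6 / d + 10 * l₁ / d) * d :=
          mul_le_mul_of_nonneg_right ((abs_add_le _ _).trans (add_le_add a1 a3)) hd0.le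
      _ = 6 * b₁ + 10 * l₁ := by
          field_simp
      _ ≤ (6 + 3 * X₀) * b₁ + (3 * X₀ ^ 2 + 7 * X₀ + 10) * l₁ := by
          have k1 : 0 ≤ 3 * X₀ * b₁ := by positivity
          have k2 : 0 ≤ (3 * X₀ ^ 2 + 7 * X₀) * l₁ := by positivity
          nlinarith

end CG
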