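import Pool.Agent.H.MP_1693ff_gtB.GCubA
import Pool.Agent.H.MP_1693ff_gtB.GCubB
import Pool.Agent.H.MP_1693ff_gtB.GCubC
import Pool.Agent.H.MP_1693ff_gtB.GCubN

/-!
# The cubic
-/
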