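import Pool.Agent.H.MP_1693ff_gtB.GDefs

/-!
# The cubic
-/

namespace CG

open Real Set Filter Topology CF

theorem cub_deriv {d q₀ q₁ α β : ℝ} (hd : d ≠ 0) (X : ℝ) :
    HasDerivAt (cub d q₀ q₁ α β) (cub1 d q₀ q₁ α β X) X ∧
    HasDerivAt (cub1 d q₀ q₁ α β) (cub2 d q₀ q₁ α β X) X := by
  have hu : HasDerivAt (fun X : ℝ => X / d) (1 / d) X := (hasDerivAt_id X).div_const d
  have hX : HasDerivAt (fun X : ℝ => X) 1 X := hasDerivAt_id X
  constructor
  · have h1 := (((hu.pow 2).const_mul 3).sub ((hu.pow 3).const_mul 2)).const_mul (q₁ - q₀)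
    have h2 := (hX.mul (hu.const_sub 1)).mul (((hu.const_sub 1).const_mul α).add (hu.const_mul β))
    have h3 := (h1.const_add q₀).add h2
    refine h3.congr_deriv ?_
    simp only [cub1, Pi.mul_apply, Pi.add_apply, show (2 : ℕ) - 1 = 1 from rfl,
      show (3 : ℕ) - 1 = 2 from rfl, pow_one, Nat.cast_ofNat]
    field_simp
    ring
  · have h1 := (((hu.const_mul 6).sub ((hu.pow 2).const_mul 6)).const_mul (q₁ - q₀)).div_const d
    have h2 := ((hu.const_mul (2 * (β - 2 * α))).const_add α).sub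
      ((hu.pow 2).const_mul (3 * (β - α)))
    have h3 := h1.add h2
    refine h3.congr_deriv ?_
    simp only [cub2, show (2 : ℕ) - 1 = 1 from rfl, pow_one, Nat.cast_ofNat]
    field_simp
    ring

/-- Mirror image. -/
theorem cub_mirror {d q₀ q₁ α β : ℝ} (hd : d ≠ 0) (X : ℝ) :
    cub d q₁ q₀ β α (d - X) = cub d q₀ q₁ α β X ∧
    cub1 d q₁ q₀ β α (d - X) = -cub1 d q₀ q₁ α β X ∧
    cub2 d q₁ q₀ β α (d - X) = cub2 d q₀ q₁ α β X := by
  have hu : (d - X) / d = 1 - X / d := by field_simp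
  refine ⟨?_, ?_, ?_⟩
  · simp only [cub, hu]
    field_simp
    ring
  · simp only [cub1, hu]
    field_simp
    ring
  · simp only [cub2, hu]
    field_simp
    ring

end CG
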