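import Pool.Agent.H.MP_1693ff_gt.ProfD
import Pool.Agent.H.MP_1693ff_gt.RevD

/-!
# MP_1693ff_gt, `i < -1`: definitions
-/

namespace CG

open Real Set Filter Topology CF

noncomputable section

/-- `h` is a `π`-periodic `C²` function near the constant `c`. -/
structure Near (h : ℝ → ℝ) (c ε : ℝ) : Prop where
  per : ∀ θ, h (θ + π) = h θ
  c2 : ContDiff ℝ 2 h
  n0 : ∀ θ, |h θ - c| ≤ ε
  n1 : ∀ θ, |deriv h θ| ≤ ε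
  n2 : ∀ θ, |deriv (deriv h) θ| ≤ ε

/-- A function with its first two derivatives. -/
structure Pf where
  (f f1 f2 : ℝ → ℝ)

/-- The profile `√(1+x²) h(arccot x)` with its derivatives. -/
def pf (h : ℝ → ℝ) : Pf := ⟨prof h, prof1 h, prof2 h⟩

/-- the function `θ ↦ h (-θ)`. -/
def ng (h : ℝ → ℝ) : ℝ → ℝ := fun θ => h (-θ)

/-- A 2-jet of a curve seen from one centre: `a` is the chart coordinate of the line through the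
centre, `α` minus the chart coordinate of the line through the other centre, `s = dα/da`,
`k = - ds/da`, `v` the speed of `a`. -/
structure St where
  (α a s k v : ℝ)

/-- the gauge value `W = (a - α)/d`. -/
def St.W (d : ℝ) (S : St) : ℝ := (S.a - S.α) / d
/-- its derivative with respect to `a`. -/
def St.p (d : ℝ) (S : St) : ℝ := (1 - S.s) / d
/-- its second derivative. -/
def St.r (d : ℝ) (S : St) : ℝ := S.k / d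

/-- gauge value at the opposite point of the chord. -/
def opp (e d : ℝ) (P : Pf) (S : St) : ℝ := (P.f S.a ^ e - S.W d ^ e) ^ e⁻¹
/-- its first derivative with respect to `a`. -/
def opp1 (e d : ℝ) (P : Pf) (S : St) : ℝ :=
  (P.f S.a / opp e d P S) ^ (e - 1) * P.f1 S.a - (S.W d / opp e d P S) ^ (e - 1) * S.p d
/-- its second derivative. -/
def opp2 (e d : ℝ) (P : Pf) (S : St) : ℝ :=
  (P.f S.a / opp e d P S) ^ (e - 1) * P.f2 S.a - (S.W d / opp e d P S) ^ (e - 1) * S.r d -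
    (e - 1) * S.W d ^ (e - 2) * P.f S.a ^ (e - 2) * opp e d P S ^ (1 - 2 * e) *
      (P.f S.a * S.p d - S.W d * P.f1 S.a) ^ 2

/-- The half step: to the opposite point, seen from the other centre. -/
def hst (e d : ℝ) (P : Pf) (S : St) : St :=
  { α := S.a
    a := S.a + d * opp e d P S
    s := (1 + d * opp1 e d P S)⁻¹
    k := d * opp2 e d P S * (1 + d * opp1 e d P S)⁻¹ ^ 3
    v := S.v * (1 + d * opp1 e d P S) }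

/-- What must be known at every 2-jet. -/
structure Good (e d : ℝ) (P : Pf) (S : St) : Prop where
  W0 : 0 < S.W d
  W1 : S.W d < P.f S.a
  s0 : 0 < S.s
  k0 : 0 ≤ S.k
  v0 : 0 < S.v
  p0 : 0 < opp1 e d P S
  r0 : 0 ≤ opp2 e d P S

/-- The far region. -/
structure Far (d κ C₁ C₂ : ℝ) (S : St) : Prop where
  a0 : κ * d ≤ S.a
  α0 : 0 ≤ S.α
  α1 : S.α ≤ S.a / 2
  s0 : 0 < S.s
  s1 : S.s ≤ 1
  c0 : |S.s * S.a - S.α| ≤ C₁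
  k0 : 0 ≤ S.k
  k1 : S.k * S.a ^ 3 ≤ C₂ * d
  v0 : 0 < S.v

/-- Bounds of a profile on `[1, ∞)`. -/
structure PB (P : Pf) (A₀ A₁ B R₀ R₁ : ℝ) : Prop where
  A0 : 0 < A₀
  A01 : A₀ ≤ A₁
  B0 : 0 ≤ B
  R0 : 0 < R₀
  R01 : R₀ ≤ R₁
  d1 : ∀ a, HasDerivAt P.f (P.f1 a) a
  d2 : ∀ a, HasDerivAt P.f1 (P.f2 a) a
  fl : ∀ a, 1 ≤ a → A₀ * a ≤ P.f a
  fu : ∀ a, 1 ≤ a → P.f a ≤ A₁ * a
  f1l : ∀ a, 1 ≤ a → A₀ ≤ P.f1 a
  f1u : ∀ a, 1 ≤ a → P.f1 a ≤ A₁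
  cb : ∀ a, 1 ≤ a → |P.f a - a * P.f1 a| ≤ B
  f2l : ∀ a, 1 ≤ a → R₀ ≤ P.f2 a * a ^ 3
  f2u : ∀ a, 1 ≤ a → P.f2 a * a ^ 3 ≤ R₁

/-! ## The start arc -/

/-- `Q` with `Q(0) = q₀`, `Q'(0) = α`, `Q(d) = q₁`, `Q'(d) = -β`. -/
def cub (d q₀ q₁ α β X : ℝ) : ℝ :=
  q₀ + (q₁ - q₀) * (3 * (X / d) ^ 2 - 2 * (X / d) ^ 3) +
    X * (1 - X / d) * (α * (1 - X / d) + β * (X / d))
/-- `Q'`. -/
def cub1 (d q₀ q₁ α β X : ℝ) : ℝ :=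
  (q₁ - q₀) * (6 * (X / d) - 6 * (X / d) ^ 2) / d +
    (α + 2 * (β - 2 * α) * (X / d) - 3 * (β - α) * (X / d) ^ 2)
/-- `Q''`. -/
def cub2 (d q₀ q₁ α β X : ℝ) : ℝ :=
  (q₁ - q₀) * (6 - 12 * (X / d)) / d ^ 2 + (2 * (β - 2 * α) - 6 * (β - α) * (X / d)) / d

/-- half height at the centre: `2^{1/e}/h(π/2)`. -/
def bb (e : ℝ) (h : ℝ → ℝ) : ℝ := (2 : ℝ) ^ e⁻¹ / h (π / 2)
/-- `Q'(0) = 2 b (1/√e + h'/h(π/2))`. -/
def al (e : ℝ) (h : ℝ → ℝ) : ℝ := 2 * bb e h * (1 / √e + deriv h (π / 2) / h (π / 2))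

/-- `Q` of the start arc of the chain `(h,k)`. -/
def aq (e d : ℝ) (h k : ℝ → ℝ) : ℝ → ℝ := cub d (bb e h ^ 2) (bb e k ^ 2) (al e h) (al e (ng k))
/-- `Q'`. -/
def aq1 (e d : ℝ) (h k : ℝ → ℝ) : ℝ → ℝ := cub1 d (bb e h ^ 2) (bb e k ^ 2) (al e h) (al e (ng k))
/-- `Q''`. -/
def aq2 (e d : ℝ) (h k : ℝ → ℝ) : ℝ → ℝ := cub2 d (bb e h ^ 2) (bb e k ^ 2) (al e h) (al e (ng k))

/-- The 2-jet of the arc `Y² = Q(X)` at `X` (centres `0` and `d`). -/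
def jet (d X Q Q₁ Q₂ : ℝ) : St :=
  { α := -((d - X) / √Q)
    a := X / √Q
    s := (2 * Q + (d - X) * Q₁) / (2 * Q - X * Q₁)
    k := d * (2 * √Q ^ 3 * (Q₁ ^ 2 - 2 * Q * Q₂) / (2 * Q - X * Q₁) ^ 3)
    v := d * ((2 * Q - X * Q₁) / (2 * √Q ^ 3)) }

/-- The start arc, `t ∈ [0,1]`, `X = d t`. -/
def arc (e d : ℝ) (h k : ℝ → ℝ) (t : ℝ) : St :=
  jet d (d * t) (aq e d h k (d * t)) (aq1 e d h k (d * t)) (aq2 e d h k (d * t))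

/-- The chain of half steps, alternately with the profiles of `h` and `k`. -/
def chain (e d : ℝ) (h k : ℝ → ℝ) : ℕ → ℝ → St
  | 0 => fun t => arc e d h k t
  | n + 1 => fun t => hst e d (if Even n then pf h else pf k) (chain e d h k n t)

/-- A half curve: on `[n, n+1]` the chain `(h,k)` for even `n`, the chain `(k,h)` for odd `n`. -/
def ZZ (e d : ℝ) (h k : ℝ → ℝ) (τ : ℝ) : St :=
  if Even ⌊τ⌋₊ then chain e d h k ⌊τ⌋₊ (τ - ⌊τ⌋₊) else chain e d k h ⌊τ⌋₊ (τ - ⌊τ⌋₊)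

/-- Consistency of a family of 2-jets. -/
structure Along (S : ℝ → St) (t : ℝ) : Prop where
  da : HasDerivAt (fun τ => (S τ).a) (S t).v t
  dα : HasDerivAt (fun τ => (S τ).α) ((S t).s * (S t).v) t
  ds : HasDerivAt (fun τ => (S τ).s) (-(S t).k * (S t).v) t

/-- Half curves: what is needed for the gluing. -/
structure HZ (Z : ℝ → St) : Prop where
  ca : ContinuousOn (fun τ => (Z τ).a) (Ici 0)
  cα : ContinuousOn (fun τ => (Z τ).α) (Ici 0)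
  s0 : ∀ τ, 0 ≤ τ → 0 < (Z τ).s
  mono : StrictMonoOn (fun τ => (Z τ).a) (Ici 0)
  pos : ∀ τ, 0 ≤ τ → (Z τ).α < (Z τ).a
  rel : ∀ τ τ', 0 ≤ τ → τ ≤ τ' →
    RelG (Z τ).a (-(Z τ).α) (Z τ).s (Z τ').a (-(Z τ').α) (Z τ').s
  top : Tendsto (fun τ => (Z τ).a) atTop atTop
  one : ∃ τ ∈ Icc (0 : ℝ) 1, (Z τ).s = 1
  lt : (Z 1).s < 1
  gt : 1 < (Z 0).s
  cb : ∃ C, ∀ τ, 0 ≤ τ → |(Z τ).s * (Z τ).a - (Z τ).α| ≤ C
  sb : ∃ c > 0, ∀ τ, 0 ≤ τ → c ≤ (Z τ).s ∧ (Z τ).s ≤ c⁻¹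

/-- The whole curve without the chord relations. `(x, y)`, slope `-s`: upper curve; `(x, yH)`,
slope `-sH`: lower curve. -/
structure GC0 (x y s yH sH : ℝ → ℝ) : Prop where
  cx : Continuous x
  cy : Continuous y
  xmono : StrictMono x
  s0 : ∀ τ, 0 < s τ
  sH0 : ∀ τ, 0 < sH τ
  sh : ∀ τ, yH τ = y (τ + 2)
  relG : ∀ τ τ', τ ≤ τ' → RelG (x τ) (y τ) (s τ) (x τ') (y τ') (s τ')
  relH : ∀ τ τ', τ ≤ τ' → RelH (x τ) (yH τ) (sH τ) (x τ') (yH τ') (sH τ')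
  pos : ∀ τ, 0 < x τ + y τ
  neg : ∀ τ, x τ + yH τ < 0
  xtop : Tendsto x atTop atTop
  xbot : Tendsto x atBot atBot
  ytop : Tendsto y atTop atBot
  ybot : Tendsto y atBot atTop
  o1 : ∃ τ, s τ = 1
  o2 : ∃ τ, sH τ = 1
  o3 : ∃ τ, s τ < 1
  o4 : ∃ τ, 1 < s τ
  o5 : ∃ τ, sH τ < 1
  o6 : ∃ τ, 1 < sH τ
  sb : ∃ c > 0, ∀ τ, c ≤ s τ ∧ c ≤ sH τ ∧ s τ ≤ c⁻¹ ∧ sH τ ≤ c⁻¹
  ib : ∃ C, ∀ τ, |y τ + s τ * x τ| ≤ C ∧ |yH τ + sH τ * x τ| ≤ C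

/-- The whole curve.
`φ`, `ψ`: the profiles (multiplied by the distance `d`) with derivatives `φ₁`, `ψ₁`. -/
structure GCv (e A B A' B' : ℝ) (φ φ₁ ψ ψ₁ x y s yH sH : ℝ → ℝ) : Prop extends
    GC0 x y s yH sH where
  r1 : ∀ τ, (x τ + y τ) ^ e + (-(x τ + yH τ)) ^ e = φ (x τ) ^ e
  r1' : ∀ τ, (sH τ - 1) * (-(x τ + yH τ)) ^ (e - 1) + (1 - s τ) * (x τ + y τ) ^ (e - 1) =
    φ (x τ) ^ (e - 1) * φ₁ (x τ)
  r2 : ∀ τ, (x (τ + 2) + yH τ) ^ e + (-(x τ + yH τ)) ^ e = ψ (yH τ) ^ e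
  r2' : ∀ τ, (1 - (s (τ + 2))⁻¹) * (x (τ + 2) + yH τ) ^ (e - 1) +
    ((sH τ)⁻¹ - 1) * (-(x τ + yH τ)) ^ (e - 1) = ψ (yH τ) ^ (e - 1) * ψ₁ (yH τ)
  A0 : 0 < A
  A'0 : 0 < A'
  φt : Tendsto (fun x => φ x / x) atTop (𝓝 A)
  φb : Tendsto (fun x => φ x / x) atBot (𝓝 (-A))
  φt' : Tendsto (fun x => φ x - x * φ₁ x) atTop (𝓝 B)
  φb' : Tendsto (fun x => φ x - x * φ₁ x) atBot (𝓝 (-B))
  ψt : Tendsto (fun x => ψ x / x) atTop (𝓝 A')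
  ψb : Tendsto (fun x => ψ x / x) atBot (𝓝 (-A'))
  ψt' : Tendsto (fun x => ψ x - x * ψ₁ x) atTop (𝓝 B')
  ψb' : Tendsto (fun x => ψ x - x * ψ₁ x) atBot (𝓝 (-B'))

/-- The whole curve in terms of four half curves: `Z₁`, `Z₂` the right halves of the upper and
lower curve, `Z₃`, `Z₄` those of the configuration reflected in the middle of the two centres. -/
structure Br (Z₁ Z₂ Z₃ Z₄ : ℝ → St) (x y s yH sH : ℝ → ℝ) : Prop where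
  u1 : ∀ τ, 0 ≤ τ → x τ = (Z₁ τ).a ∧ y τ = -(Z₁ τ).α ∧ s τ = (Z₁ τ).s
  u2 : ∀ τ, τ ≤ 1 → x τ = -(Z₃ (1 - τ)).α ∧ y τ = (Z₃ (1 - τ)).a ∧ s τ = ((Z₃ (1 - τ)).s)⁻¹
  l1 : ∀ τ, -1 ≤ τ → x τ = (Z₂ (τ + 1)).α ∧ yH τ = -(Z₂ (τ + 1)).a ∧
    sH τ = ((Z₂ (τ + 1)).s)⁻¹
  l2 : ∀ τ, τ ≤ 0 → x τ = -(Z₄ (-τ)).a ∧ yH τ = (Z₄ (-τ)).α ∧ sH τ = (Z₄ (-τ)).s
  sh : ∀ τ, yH τ = y (τ + 2)

/-- What the construction of the body needs. -/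
structure CurveW (F F' x y s : ℝ → ℝ) (m M : ℝ) : Prop where
  cx : Continuous x
  cy : Continuous y
  xmono : StrictMono x
  s0 : ∀ τ, 0 < s τ
  sH0 : ∀ τ, 0 < s τ + F' (x τ)
  relG : ∀ τ τ', τ ≤ τ' → RelG (x τ) (y τ) (s τ) (x τ') (y τ') (s τ')
  relH : ∀ τ τ', τ ≤ τ' → RelH (x τ) (y τ - F (x τ)) (s τ + F' (x τ))
    (x τ') (y τ' - F (x τ')) (s τ' + F' (x τ'))
  pos : ∀ τ, 0 < x τ + y τ
  neg : ∀ τ, x τ + (y τ - F (x τ)) < 0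
  xtop : Tendsto x atTop atTop
  xbot : Tendsto x atBot atBot
  ytop : Tendsto y atTop atBot
  ybot : Tendsto y atBot atTop
  o1 : ∃ τ, s τ = 1
  o2 : ∃ τ, s τ + F' (x τ) = 1
  o3 : ∃ τ, s τ < 1
  o4 : ∃ τ, 1 < s τ
  m0 : 0 < m
  m1 : m < 1
  M1 : 1 < M
  ms : ∀ τ, m ≤ s τ
  sM : ∀ τ, s τ ≤ M
  msH : ∀ τ, m ≤ s τ + F' (x τ)
  sHM : ∀ τ, s τ + F' (x τ) ≤ M
  sm : Tendsto s atTop (𝓝 m)
  sM' : Tendsto s atBot (𝓝 M)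
  cross1 : ∀ τ τ', y τ' - F (x τ') ≤ y τ - s τ * (x τ' - x τ)
  cross2 : ∀ τ τ', y τ - F (x τ) - (s τ + F' (x τ)) * (x τ' - x τ) ≤ y τ'
  bdd : ∃ C, ∀ τ, |y τ + s τ * x τ| ≤ C ∧ |y τ - F (x τ) + (s τ + F' (x τ)) * x τ| ≤ C

/-- The function whose positivity is needed at the first half step (`h`, `h'`, `R = h + h''` at
the direction of `(X, √q)`, the arc being `Y² = Q(X)`, `q = Q`, `q₁ = Q'`, `q₂ = Q''`). -/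
def FF (e X q q₁ q₂ H H₁ R : ℝ) : ℝ :=
  R * H ^ (e - 1) - 2 * √(X ^ 2 + q) ^ (4 - e) * (q₁ ^ 2 - 2 * q * q₂) / (2 * q - X * q₁) ^ 3 -
    (e - 1) * H ^ (e - 2) * (H₁ - H * √q * (2 * X + q₁) / (2 * q - X * q₁)) ^ 2 /
      ((H * √(X ^ 2 + q)) ^ e - 1)

/-- The value of `opp1` at the first half step. -/
def GG (e X q q₁ H H₁ : ℝ) : ℝ :=
  ((H * √(X ^ 2 + q)) ^ (e - 1) * (X * H - √q * H₁) / √(X ^ 2 + q) + q₁ / (2 * q - X * q₁)) /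
    ((H * √(X ^ 2 + q)) ^ e - 1) ^ ((e - 1) / e)

/-- `Q` for the constant function `c` and infinite distance. -/
def qm (e c X : ℝ) : ℝ := ((2 : ℝ) ^ e⁻¹ / c) ^ 2 + 2 * ((2 : ℝ) ^ e⁻¹ / c) / √e * X
/-- `Q'`. -/
def qm1 (e c : ℝ) : ℝ := 2 * ((2 : ℝ) ^ e⁻¹ / c) / √e

/-- the direction of the point `(X, √q)`. -/
def th (X q : ℝ) : ℝ := π / 2 - arctan (X / √q)

/-- What is known on the start arc. -/
structure Core (e d δ b C : ℝ) (h k : ℝ → ℝ) (X : ℝ) : Prop where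
  q0 : b ≤ aq e d h k X
  qu : aq e d h k X ≤ C * (1 + X)
  q1 : |aq1 e d h k X| ≤ C
  D0 : 0 ≤ aq1 e d h k X ^ 2 - 2 * aq e d h k X * aq2 e d h k X
  D1 : aq1 e d h k X ^ 2 - 2 * aq e d h k X * aq2 e d h k X ≤ C
  l0 : b * (1 + X) ≤ 2 * aq e d h k X - X * aq1 e d h k X
  l1 : b ≤ 2 * aq e d h k X + (d - X) * aq1 e d h k X
  ff : 0 < FF e X (aq e d h k X) (aq1 e d h k X) (aq2 e d h k X) (h (th X (aq e d h k X)))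
    (deriv h (th X (aq e d h k X))) (curv h (th X (aq e d h k X)))
  hr : 3 / 2 < (h (th X (aq e d h k X)) * √(X ^ 2 + aq e d h k X)) ^ e
  gg : δ < GG e X (aq e d h k X) (aq1 e d h k X) (h (th X (aq e d h k X)))
    (deriv h (th X (aq e d h k X)))

/-- All facts about the chains `(h,k)` and `(k,h)`. -/
structure DK (e d κ C₁ C₂ : ℝ) (h k : ℝ → ℝ) : Prop where
  e1 : 1 < e
  d1 : 1 ≤ d
  κ0 : 0 < κ
  hp : ∀ θ, h (θ + π) = h θ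
  kp : ∀ θ, k (θ + π) = k θ
  hc : ContDiff ℝ 2 h
  kc : ContDiff ℝ 2 k
  h0 : 0 < h (π / 2)
  k0 : 0 < k (π / 2)
  aok : ∀ X ∈ Icc 0 d, 0 < aq e d h k X ∧ 0 < 2 * aq e d h k X - X * aq1 e d h k X
  aok' : ∀ X ∈ Icc 0 d, 0 < aq e d k h X ∧ 0 < 2 * aq e d k h X - X * aq1 e d k h X
  ah : 0 < al e h
  ak : 0 < al e k
  ah' : 0 < al e (ng h)
  ak' : 0 < al e (ng k)
  good : ∀ t ∈ Icc (0 : ℝ) 1, ∀ n : ℕ,
    Good e d (if Even n then pf h else pf k) (chain e d h k n t)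
  good' : ∀ t ∈ Icc (0 : ℝ) 1, ∀ n : ℕ,
    Good e d (if Even n then pf k else pf h) (chain e d k h n t)
  far : ∀ t ∈ Icc (0 : ℝ) 1, ∀ n : ℕ, 1 ≤ n → Far d κ C₁ C₂ (chain e d h k n t)
  far' : ∀ t ∈ Icc (0 : ℝ) 1, ∀ n : ℕ, 1 ≤ n → Far d κ C₁ C₂ (chain e d k h n t)
  slb : ∃ c > 0, ∀ t ∈ Icc (0 : ℝ) 1, ∀ n : ℕ, c ≤ (chain e d h k n t).s
  slb' : ∃ c > 0, ∀ t ∈ Icc (0 : ℝ) 1, ∀ n : ℕ, c ≤ (chain e d k h n t).s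

end

end CG
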