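import Pool.Agent.H.MP_1693ff_gtB.GFarB

/-!
# Far half steps: the region is invariant
-/

namespace CG

open Real Set Filter Topology CF

/-- `Far` is monotone in the constants. -/
theorem Far.mono {d κ C₁ C₂ κ' C₁' C₂' : ℝ} {S : St} (hd : 0 ≤ d) (h : Far d κ C₁ C₂ S)
    (h0 : κ' ≤ κ) (h1 : C₁ ≤ C₁') (h2 : C₂ ≤ C₂') : Far d κ' C₁' C₂' S := by
  refine ⟨?_, h.α0, h.α1, h.s0, h.s1, h.c0.trans h1, h.k0, ?_, h.v0⟩
  · exact (mul_le_mul_of_nonneg_right h0 hd).trans h.a0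
  · exact h.k1.trans (mul_le_mul_of_nonneg_right h2 hd)

/-- The far region is invariant.  `far_a`, `far_b`, `d ≥ 4/A₀`:
`a' = a + d opp ≥ a (1 + d A₀/2) ≥ 2 a`, so `α' = a ≤ a'/2`; `s' = (1 + d opp1)⁻¹ ∈ (0,1]`;
`s' a' - α' = d (opp - a opp1)/(1 + d opp1)`, absolute value
`≤ |opp - a opp1|/opp1 ≤ 2 (2^{e-1} B + 1)/A₀`;
`k' a'³ = d opp2 (a'/(1 + d opp1))³`, `a' ≤ a (1 + d A₁) ≤ 2 d A₁ a`, `1 + d opp1 ≥ d A₀/2`, so
`≤ d (opp2 a³) (4 A₁/A₀)³`. -/
theorem far_next {e κ C₁ C₂ A₀ A₁ B R₀ R₁ : ℝ} (he : 1 < e) (hκ : 0 < κ) (hC₁ : 0 ≤ C₁)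
    (hC₂ : 0 ≤ C₂) (hA₀ : 0 < A₀) (hA₁ : A₀ ≤ A₁) (hB : 0 ≤ B) (hR₀ : 0 < R₀) :
    ∃ D, 1 ≤ D ∧ ∀ P, PB P A₀ A₁ B R₀ R₁ → ∀ d, D ≤ d → ∀ S, Far d κ C₁ C₂ S →
      Good e d P S ∧ Far d κ (2 * (2 ^ (e - 1) * B + 1) / A₀)
        (2 ^ (e - 1) * R₁ * (4 * A₁ / A₀) ^ 3) (hst e d P S) ∧
      (1 + d * (2 ^ (e - 1) * A₁))⁻¹ ≤ (hst e d P S).s := by
  obtain ⟨Da, hDa, ha⟩ := far_a (e := e) (κ := κ) (C₁ := C₁) (A₀ := A₀) (A₁ := A₁) (B := B)
    C₂ R₀ R₁ he hκ hA₀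
  obtain ⟨Db, hDb, hb⟩ := far_b (R₁ := R₁) he hκ hC₁ hC₂ hA₀ hA₁ hB hR₀
  refine ⟨max (max Da Db) (4 / A₀), (hDa.trans (le_max_left _ _)).trans (le_max_left _ _), ?_⟩
  intro P hP d hd S hS
  have hda : Da ≤ d := ((le_max_left _ _).trans (le_max_left _ _)).trans hd
  have hdb : Db ≤ d := ((le_max_right _ _).trans (le_max_left _ _)).trans hd
  have hd4 : 4 / A₀ ≤ d := (le_max_right _ _).trans hd
  have hd1 : 1 ≤ d := hDa.trans hda
  have hd0 : 0 < d := by linarith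
  obtain ⟨h1, h2, h3, h4, h5, h6, h7, h8, h9⟩ := ha P hP d hda S hS
  obtain ⟨g1, g2⟩ := hb P hP d hdb S hS
  have ha0 : 0 < S.a := by linarith
  have hf := hP.fl S.a h1
  have hfu := hP.fu S.a h1
  have hf0 : 0 < P.f S.a := lt_of_lt_of_le (mul_pos hA₀ ha0) hf
  have hW0 : 0 < S.W d := lt_of_lt_of_le (by positivity) h2
  have hdA : 4 ≤ d * A₀ := by
    rwa [div_le_iff₀ hA₀] at hd4
  have ho1 : 0 < opp1 e d P S := lt_of_lt_of_le (by positivity) h7
  have hA1 : 0 < A₁ := lt_of_lt_of_le hA₀ hA₁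
  have hE : 0 < 1 + d * opp1 e d P S := by positivity
  have hop : 0 < opp e d P S := lt_of_lt_of_le (by positivity) h5
  have hda0 : d * A₀ * S.a ≤ 2 * (d * opp e d P S) := by
    have e1 : d * (A₀ * S.a / 2) ≤ d * opp e d P S :=
      mul_le_mul_of_nonneg_left (by linarith) hd0.le
    linarith
  have hda1 : 2 * S.a ≤ d * opp e d P S := by
    have e1 : 4 * S.a ≤ d * A₀ * S.a := mul_le_mul_of_nonneg_right hdA ha0.le
    linarith
  have hE2 : d * A₀ / 2 ≤ 1 + d * opp1 e d P S := by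
    have e1 : d * (A₀ / 2) ≤ d * opp1 e d P S := mul_le_mul_of_nonneg_left h7 hd0.le
    linarith
  refine ⟨⟨hW0, by linarith, hS.s0, hS.k0, hS.v0, ho1, g1.le⟩, ?_, ?_⟩
  · refine ⟨?_, ?_, ?_, ?_, ?_, ?_, ?_, ?_, ?_⟩
    · change κ * d ≤ S.a + d * opp e d P S
      have := hS.a0
      have e1 : 0 < d * opp e d P S := by positivity
      linarith
    · exact ha0.le
    · change S.a ≤ (S.a + d * opp e d P S) / 2
      linarith
    · change 0 < (1 + d * opp1 e d P S)⁻¹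
      positivity
    · change (1 + d * opp1 e d P S)⁻¹ ≤ 1
      apply inv_le_one_of_one_le₀
      have : 0 < d * opp1 e d P S := by positivity
      linarith
    · change |(1 + d * opp1 e d P S)⁻¹ * (S.a + d * opp e d P S) - S.a| ≤
        2 * (2 ^ (e - 1) * B + 1) / A₀
      have e1 : (1 + d * opp1 e d P S)⁻¹ * (S.a + d * opp e d P S) - S.a =
          (opp e d P S - S.a * opp1 e d P S) * (d / (1 + d * opp1 e d P S)) := by
        field_simp
        ring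
      rw [e1, abs_mul, abs_of_pos (a := d / (1 + d * opp1 e d P S)) (by positivity)]
      have e2 : d / (1 + d * opp1 e d P S) ≤ 2 / A₀ := by
        rw [div_le_div_iff₀ hE hA₀]
        linarith
      calc |opp e d P S - S.a * opp1 e d P S| * (d / (1 + d * opp1 e d P S))
          ≤ (2 ^ (e - 1) * B + 1) * (2 / A₀) :=
            mul_le_mul h9 e2 (by positivity) ((abs_nonneg _).trans h9)
        _ = 2 * (2 ^ (e - 1) * B + 1) / A₀ := by ring
    · change 0 ≤ d * opp2 e d P S * (1 + d * opp1 e d P S)⁻¹ ^ 3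
      positivity
    · change d * opp2 e d P S * (1 + d * opp1 e d P S)⁻¹ ^ 3 * (S.a + d * opp e d P S) ^ 3 ≤
        2 ^ (e - 1) * R₁ * (4 * A₁ / A₀) ^ 3 * d
      have e1 : S.a + d * opp e d P S ≤ 2 * d * A₁ * S.a := by
        have e2 : d * opp e d P S ≤ d * (A₁ * S.a) :=
          mul_le_mul_of_nonneg_left (h6.trans hfu) hd0.le
        have e3 : d * A₀ ≤ d * A₁ := mul_le_mul_of_nonneg_left hA₁ hd0.le
        have e4 : 1 * S.a ≤ d * A₁ * S.a := mul_le_mul_of_nonneg_right (by linarith) ha0.le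
        linarith
      have e5 : (S.a + d * opp e d P S) / (1 + d * opp1 e d P S) ≤ 4 * A₁ / A₀ * S.a := by
        have e6 : (S.a + d * opp e d P S) / (1 + d * opp1 e d P S) ≤
            2 * d * A₁ * S.a / (d * A₀ / 2) :=
          div_le_div₀ (by positivity) e1 (by positivity) hE2
        refine e6.trans (le_of_eq ?_)
        field_simp
        norm_num
      have e7 : ((S.a + d * opp e d P S) / (1 + d * opp1 e d P S)) ^ 3 ≤
          (4 * A₁ / A₀ * S.a) ^ 3 := pow_le_pow_left₀ (by positivity) e5 3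
      have e8 : d * opp2 e d P S * (1 + d * opp1 e d P S)⁻¹ ^ 3 * (S.a + d * opp e d P S) ^ 3 =
          d * opp2 e d P S * ((S.a + d * opp e d P S) / (1 + d * opp1 e d P S)) ^ 3 := by
        rw [div_eq_mul_inv]
        ring
      rw [e8]
      calc d * opp2 e d P S * ((S.a + d * opp e d P S) / (1 + d * opp1 e d P S)) ^ 3
          ≤ d * opp2 e d P S * (4 * A₁ / A₀ * S.a) ^ 3 :=
            mul_le_mul_of_nonneg_left e7 (by positivity)
        _ = (opp2 e d P S * S.a ^ 3) * ((4 * A₁ / A₀) ^ 3 * d) := by ring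
        _ ≤ (2 ^ (e - 1) * R₁) * ((4 * A₁ / A₀) ^ 3 * d) :=
            mul_le_mul_of_nonneg_right g2 (by positivity)
        _ = 2 ^ (e - 1) * R₁ * (4 * A₁ / A₀) ^ 3 * d := by ring
    · change 0 < S.v * (1 + d * opp1 e d P S)
      exact mul_pos hS.v0 hE
  · change (1 + d * (2 ^ (e - 1) * A₁))⁻¹ ≤ (1 + d * opp1 e d P S)⁻¹
    apply inv_anti₀ hE
    have := mul_le_mul_of_nonneg_left h8 hd0.le
    linarith

end CG
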