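import Pool.Agent.H.MP_1693ff_gtB.GDefs
import Pool.Agent.H.MP_1693ff_gt.ProfA

/-!
# Profiles of near-constant functions
-/

namespace CG

open Real Set Filter Topology CF

theorem Near.mono {h : ℝ → ℝ} {c ε ε' : ℝ} (H : Near h c ε) (h' : ε ≤ ε') : Near h c ε' := by
  exact ⟨H.per, H.c2, fun θ => (H.n0 θ).trans h', fun θ => (H.n1 θ).trans h',
    fun θ => (H.n2 θ).trans h'⟩

theorem Near.ng {h : ℝ → ℝ} {c ε : ℝ} (H : Near h c ε) : Near (ng h) c ε := by
  have h1 : deriv (CG.ng h) = fun x => -deriv h (-x) := funext fun x => profa_deriv_neg h x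
  have h2 : deriv (deriv (CG.ng h)) = fun x => deriv (deriv h) (-x) := by
    rw [h1]
    funext x
    have := profa_deriv_neg (deriv h) x
    rw [deriv.fun_neg, this, neg_neg]
  refine ⟨fun θ => ?_, H.c2.comp contDiff_neg, fun θ => H.n0 (-θ), fun θ => ?_, fun θ => ?_⟩
  · have e := H.per (-θ - π)
    have e1 : -(θ + π) = -θ - π := by ring
    show h (-(θ + π)) = h (-θ)
    rw [e1, ← e]
    congr 1
    ring
  · rw [h1, abs_neg]
    exact H.n1 _
  · rw [h2]
    exact H.n2 _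

/-- Derivatives of the profile (the computation is the one in ProfA.lean of the folder
MP_1693ff_gt, which needs only `ContDiff ℝ 2`). -/
theorem prof_deriv {h : ℝ → ℝ} (hc : ContDiff ℝ 2 h) (a : ℝ) :
    HasDerivAt (prof h) (prof1 h a) a ∧ HasDerivAt (prof1 h) (prof2 h a) a := by
  have hc1 : ContDiff ℝ 1 (deriv h) := by
    have h2 : ContDiff ℝ (1 + 1) h := by
      have : (1 : WithTop ℕ∞) + 1 = 2 := by norm_num
      rw [this]
      exact hc
    exact (contDiff_succ_iff_deriv.1 h2).2.2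
  have d1 : ∀ x : ℝ, HasDerivAt h (deriv h x) x := fun x =>
    (hc.differentiable (by norm_num) x).hasDerivAt
  have d2 : ∀ x : ℝ, HasDerivAt (deriv h) (deriv (deriv h) x) x := fun x =>
    (hc1.differentiable (by norm_num) x).hasDerivAt
  have hθd : ∀ x : ℝ, HasDerivAt (fun x => π / 2 - arctan x) (-(1 / (1 + x ^ 2))) x := by
    intro x
    exact (Real.hasDerivAt_arctan x).const_sub (π / 2)
  have hsd : ∀ x : ℝ, HasDerivAt (fun x => √(1 + x ^ 2)) (x / √(1 + x ^ 2)) x := by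
    intro x
    have h1 : HasDerivAt (fun x : ℝ => 1 + x ^ 2) (2 * x) x := by
      have := (hasDerivAt_pow 2 x).const_add 1
      exact this.congr_deriv (by norm_num)
    have h2 := h1.sqrt (by positivity)
    refine h2.congr_deriv ?_
    field_simp
  have hs := profa_sq a
  have hs2 := profa_sq2 a
  have h1 : HasDerivAt (fun x => h (π / 2 - arctan x))
      (deriv h (π / 2 - arctan a) * (-(1 / (1 + a ^ 2)))) a :=
    HasDerivAt.comp (h₂ := h) (h := fun x => π / 2 - arctan x) a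
      (d1 (π / 2 - arctan a)) (hθd a)
  constructor
  · have h2 := (hsd a).mul h1
    refine h2.congr_deriv ?_
    unfold prof1
    obtain ⟨w, hw⟩ : ∃ w, w = √(1 + a ^ 2) := ⟨_, rfl⟩
    rw [← hw] at hs hs2 ⊢
    rw [← hs2]
    field_simp
    ring
  · have h2 : HasDerivAt (fun x => deriv h (π / 2 - arctan x))
        (deriv (deriv h) (π / 2 - arctan a) * (-(1 / (1 + a ^ 2)))) a :=
      HasDerivAt.comp (h₂ := deriv h) (h := fun x => π / 2 - arctan x) a
        (d2 (π / 2 - arctan a)) (hθd a)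
    have h3 := ((hasDerivAt_id a).div (hsd a) hs.ne').mul h1
    have h4 := h2.div (hsd a) hs.ne'
    have h5 := h3.sub h4
    refine (h5.congr_deriv ?_)
    simp only [id, Pi.div_apply]
    unfold prof2 curv
    obtain ⟨w, hw⟩ : ∃ w, w = √(1 + a ^ 2) := ⟨_, rfl⟩
    rw [← hw] at hs hs2 ⊢
    have e2 : a ^ 2 = w ^ 2 - 1 := by rw [hs2]; ring
    rw [← hs2]
    field_simp
    rw [e2]
    ring

/-- `prof h (-x) = prof (ng h) x`, `prof1 h (-x) = -prof1 (ng h) x` (period `π`,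
`arctan (-x) = -arctan x`, `deriv (ng h) θ = -deriv h (-θ)`). -/
theorem prof_neg {h : ℝ → ℝ} (hp : ∀ θ, h (θ + π) = h θ) (hc : ContDiff ℝ 2 h) (x : ℝ) :
    prof h (-x) = prof (CG.ng h) x ∧ prof1 h (-x) = -prof1 (CG.ng h) x := by
  have _ := hc
  have hp' := profa_per hp
  have e1 := profa_arg h hp (-x)
  have e2 := profa_arg (deriv h) hp' (-x)
  rw [neg_neg] at e1 e2
  constructor
  · unfold prof
    rw [e1, neg_sq]
    rfl
  · unfold prof1
    have e3 : deriv (CG.ng h) (π / 2 - arctan x) = -deriv h (-(π / 2 - arctan x)) :=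
      profa_deriv_neg h _
    have e4 : CG.ng h (π / 2 - arctan x) = h (-(π / 2 - arctan x)) := rfl
    rw [e1, e2, neg_sq, e3, e4]
    ring

/-- With `θ = π/2 - arctan a`, `h = h θ` etc.: `f = √(1+a²) h`, `f1 = (a h - h')/√(1+a²)`,
`f - a f1 = (h + a h')/√(1+a²)`, `f2 = (h + h'')/√(1+a²)³`, `a ≤ √(1+a²) ≤ √2 a ≤ 3a/2` for
`a ≥ 1`; `h ∈ [0.9c, 1.1c]`, `|h'| ≤ 0.1 c`, `h + h'' ∈ [0.8c, 1.2c]`. -/
theorem near_pb {h : ℝ → ℝ} {c ε : ℝ} (hc : 0 < c) (hε : ε ≤ c / 10) (H : Near h c ε) :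
    PB (pf h) (c / 4) (2 * c) (2 * c) (c / 4) (2 * c) := by
  have key : ∀ a : ℝ, 1 ≤ a → 0 < √(1 + a ^ 2) ∧ a ≤ √(1 + a ^ 2) ∧ √(1 + a ^ 2) ≤ 3 / 2 * a ∧
      1 ≤ √(1 + a ^ 2) ∧ √(1 + a ^ 2) ^ 2 ≤ 2 * a ^ 2 := by
    intro a ha
    have hs2 := profa_sq2 a
    have hs := profa_sq a
    refine ⟨hs, ?_, ?_, ?_, ?_⟩
    · exact Real.le_sqrt_of_sq_le (by linarith)
    · rw [Real.sqrt_le_left (by positivity)]
      nlinarith
    · exact Real.le_sqrt_of_sq_le (by nlinarith)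
    · rw [hs2]
      nlinarith
  have hb : ∀ θ, 9 / 10 * c ≤ h θ ∧ h θ ≤ 11 / 10 * c := by
    intro θ
    have := abs_le.1 (H.n0 θ)
    constructor <;> linarith [this.1, this.2]
  have hb1 : ∀ θ, -(c / 10) ≤ deriv h θ ∧ deriv h θ ≤ c / 10 := by
    intro θ
    have := abs_le.1 (H.n1 θ)
    constructor <;> linarith [this.1, this.2]
  have hb2 : ∀ θ, 8 / 10 * c ≤ curv h θ ∧ curv h θ ≤ 12 / 10 * c := by
    intro θ
    have := abs_le.1 (H.n2 θ)
    have h3 := hb θ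
    unfold curv
    constructor <;> linarith [this.1, this.2, h3.1, h3.2]
  refine ⟨by positivity, by linarith, by positivity, by positivity, by linarith,
    fun a => (prof_deriv H.c2 a).1, fun a => (prof_deriv H.c2 a).2, ?_, ?_, ?_, ?_, ?_, ?_, ?_⟩
  · intro a ha
    obtain ⟨hw, h1, h2, h3, h4⟩ := key a ha
    show c / 4 * a ≤ √(1 + a ^ 2) * h (π / 2 - arctan a)
    have h5 := (hb (π / 2 - arctan a)).1
    have h6 : a * (9 / 10 * c) ≤ √(1 + a ^ 2) * h (π / 2 - arctan a) :=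
      mul_le_mul h1 h5 (by positivity) hw.le
    have h7 : 0 ≤ a * c := by positivity
    linarith
  · intro a ha
    obtain ⟨hw, h1, h2, h3, h4⟩ := key a ha
    show √(1 + a ^ 2) * h (π / 2 - arctan a) ≤ 2 * c * a
    have h5 := (hb (π / 2 - arctan a)).2
    have h5' := (hb (π / 2 - arctan a)).1
    have h6 : √(1 + a ^ 2) * h (π / 2 - arctan a) ≤ (3 / 2 * a) * (11 / 10 * c) :=
      mul_le_mul h2 h5 (by linarith) (by positivity)
    have h7 : 0 ≤ a * c := by positivity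
    linarith
  · intro a ha
    obtain ⟨hw, h1, h2, h3, h4⟩ := key a ha
    show c / 4 ≤ a / √(1 + a ^ 2) * h (π / 2 - arctan a) -
      deriv h (π / 2 - arctan a) / √(1 + a ^ 2)
    have h5 := (hb (π / 2 - arctan a)).1
    have h6 := (hb1 (π / 2 - arctan a)).2
    have e : a / √(1 + a ^ 2) * h (π / 2 - arctan a) -
      deriv h (π / 2 - arctan a) / √(1 + a ^ 2) =
      (a * h (π / 2 - arctan a) - deriv h (π / 2 - arctan a)) / √(1 + a ^ 2) := by ring
    rw [e, le_div_iff₀ hw]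
    have h7 : a * (9 / 10 * c) ≤ a * h (π / 2 - arctan a) :=
      mul_le_mul_of_nonneg_left h5 (by linarith)
    have h8 : c / 4 * √(1 + a ^ 2) ≤ c / 4 * (3 / 2 * a) :=
      mul_le_mul_of_nonneg_left h2 (by positivity)
    have h9 : c ≤ a * c := by nlinarith
    linarith
  · intro a ha
    obtain ⟨hw, h1, h2, h3, h4⟩ := key a ha
    show a / √(1 + a ^ 2) * h (π / 2 - arctan a) -
      deriv h (π / 2 - arctan a) / √(1 + a ^ 2) ≤ 2 * c
    have h5 := (hb (π / 2 - arctan a)).2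
    have h6 := (hb1 (π / 2 - arctan a)).1
    have e : a / √(1 + a ^ 2) * h (π / 2 - arctan a) -
      deriv h (π / 2 - arctan a) / √(1 + a ^ 2) =
      (a * h (π / 2 - arctan a) - deriv h (π / 2 - arctan a)) / √(1 + a ^ 2) := by ring
    rw [e, div_le_iff₀ hw]
    have h7 : a * h (π / 2 - arctan a) ≤ a * (11 / 10 * c) :=
      mul_le_mul_of_nonneg_left h5 (by linarith)
    have h8 : a * c ≤ √(1 + a ^ 2) * c := mul_le_mul_of_nonneg_right h1 hc.le
    have h9 : c ≤ √(1 + a ^ 2) * c := by nlinarith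
    linarith
  · intro a ha
    obtain ⟨hw, h1, h2, h3, h4⟩ := key a ha
    show |√(1 + a ^ 2) * h (π / 2 - arctan a) - a * (a / √(1 + a ^ 2) * h (π / 2 - arctan a) -
      deriv h (π / 2 - arctan a) / √(1 + a ^ 2))| ≤ 2 * c
    have h5 := hb (π / 2 - arctan a)
    have h6 := hb1 (π / 2 - arctan a)
    have hs2 := profa_sq2 a
    have e : √(1 + a ^ 2) * h (π / 2 - arctan a) - a * (a / √(1 + a ^ 2) * h (π / 2 - arctan a) -
        deriv h (π / 2 - arctan a) / √(1 + a ^ 2)) =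
        (h (π / 2 - arctan a) + a * deriv h (π / 2 - arctan a)) / √(1 + a ^ 2) := by
      rw [eq_div_iff hw.ne']
      have e1 : (√(1 + a ^ 2) * h (π / 2 - arctan a) - a * (a / √(1 + a ^ 2) *
          h (π / 2 - arctan a) - deriv h (π / 2 - arctan a) / √(1 + a ^ 2))) * √(1 + a ^ 2) =
          √(1 + a ^ 2) ^ 2 * h (π / 2 - arctan a) - a * (a * h (π / 2 - arctan a) -
          deriv h (π / 2 - arctan a)) := by
        field_simp
      rw [e1, hs2]
      ring
    rw [e, abs_div, abs_of_pos hw, div_le_iff₀ hw]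
    have h7 : |a * deriv h (π / 2 - arctan a)| ≤ a * (c / 10) := by
      rw [abs_mul, abs_of_pos (by linarith : (0 : ℝ) < a)]
      exact mul_le_mul_of_nonneg_left (abs_le.2 h6) (by linarith)
    have h8 : |h (π / 2 - arctan a)| ≤ 11 / 10 * c := by
      rw [abs_of_pos (by linarith [h5.1])]
      exact h5.2
    have h9 : a * c ≤ √(1 + a ^ 2) * c := mul_le_mul_of_nonneg_right h1 hc.le
    have h10 : c ≤ √(1 + a ^ 2) * c := by nlinarith
    have h11 := abs_add_le (h (π / 2 - arctan a)) (a * deriv h (π / 2 - arctan a))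
    linarith
  · intro a ha
    obtain ⟨hw, h1, h2, h3, h4⟩ := key a ha
    show c / 4 ≤ curv h (π / 2 - arctan a) / √(1 + a ^ 2) ^ 3 * a ^ 3
    have h5 := (hb2 (π / 2 - arctan a)).1
    have h6 : (5 / 16 : ℝ) * √(1 + a ^ 2) ^ 3 ≤ a ^ 3 := by
      have ha0 : 0 < a := by linarith
      have h7 : √(1 + a ^ 2) ^ 3 ≤ (2 * a ^ 2) * (3 / 2 * a) := by
        calc √(1 + a ^ 2) ^ 3 = √(1 + a ^ 2) ^ 2 * √(1 + a ^ 2) := by ring
          _ ≤ (2 * a ^ 2) * (3 / 2 * a) := mul_le_mul h4 h2 hw.le (by positivity)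
      have h8 : 0 < a ^ 3 := by positivity
      nlinarith
    rw [div_mul_eq_mul_div, le_div_iff₀ (by positivity)]
    have h9 : (8 / 10 * c) * ((5 / 16 : ℝ) * √(1 + a ^ 2) ^ 3) ≤
        curv h (π / 2 - arctan a) * a ^ 3 :=
      mul_le_mul h5 h6 (by positivity) (by linarith)
    calc c / 4 * √(1 + a ^ 2) ^ 3 = (8 / 10 * c) * ((5 / 16 : ℝ) * √(1 + a ^ 2) ^ 3) := by ring
      _ ≤ _ := h9
  · intro a ha
    obtain ⟨hw, h1, h2, h3, h4⟩ := key a ha
    show curv h (π / 2 - arctan a) / √(1 + a ^ 2) ^ 3 * a ^ 3 ≤ 2 * c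
    have h5 := (hb2 (π / 2 - arctan a)).2
    have h5' := (hb2 (π / 2 - arctan a)).1
    have ha0 : 0 < a := by linarith
    rw [div_mul_eq_mul_div, div_le_iff₀ (by positivity)]
    have h6 : a ^ 3 ≤ √(1 + a ^ 2) ^ 3 := pow_le_pow_left₀ ha0.le h1 3
    have h7 : curv h (π / 2 - arctan a) * a ^ 3 ≤ (12 / 10 * c) * √(1 + a ^ 2) ^ 3 :=
      mul_le_mul h5 h6 (by positivity) (by positivity)
    have h8 : 0 ≤ c * √(1 + a ^ 2) ^ 3 := by positivity
    linarith

theorem PB.mono {P : Pf} {A₀ A₁ B R₀ R₁ A₀' A₁' B' R₀' R₁' : ℝ} (H : PB P A₀ A₁ B R₀ R₁)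
    (h1 : 0 < A₀') (h2 : A₀' ≤ A₀) (h3 : A₁ ≤ A₁') (h4 : B ≤ B') (h5 : 0 < R₀') (h6 : R₀' ≤ R₀)
    (h7 : R₁ ≤ R₁') : PB P A₀' A₁' B' R₀' R₁' := by
  have ha : ∀ a : ℝ, 1 ≤ a → 0 ≤ a := fun a h => by linarith
  exact ⟨h1, h2.trans (H.A01.trans h3), H.B0.trans h4, h5, h6.trans (H.R01.trans h7), H.d1, H.d2,
    fun a h => (mul_le_mul_of_nonneg_right h2 (ha a h)).trans (H.fl a h),
    fun a h => (H.fu a h).trans (mul_le_mul_of_nonneg_right h3 (ha a h)),
    fun a h => h2.trans (H.f1l a h), fun a h => (H.f1u a h).trans h3,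
    fun a h => (H.cb a h).trans h4, fun a h => h6.trans (H.f2l a h),
    fun a h => (H.f2u a h).trans h7⟩

end CG
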