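import Pool.Agent.H.MP_1693ff_gtB.GJetB
import Pool.Agent.H.MP_1693ff_gtB.GNear

/-!
# The first half step
-/

namespace CG

open Real Set Filter Topology CF

/-- `Core` gives `Good` (`jet_W`, `jet_opp`, `jet_opp1`, `jet_opp2`; signs of numerator and
denominators from `q0`, `l0`, `l1`, `D0`; `X = d t`). -/
theorem core_good {e d δ b C c ε : ℝ} {h k : ℝ → ℝ} (he : 1 < e) (hd : 1 ≤ d) (hδ : 0 < δ)
    (hb : 0 < b) (hc : 0 < c) (hε : ε ≤ c / 10) (hh : Near h c ε) {t : ℝ}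
    (ht : t ∈ Icc (0 : ℝ) 1) (H : Core e d δ b C h k (d * t)) :
    Good e d (pf h) (arc e d h k t) := by
  have hd0 : 0 < d := by linarith
  have he0 : 0 < e := by linarith
  have hX : 0 ≤ d * t := mul_nonneg hd0.le ht.1
  unfold arc
  obtain ⟨q0, qu, q1, D0, D1, l0, l1, ff, hr, gg⟩ := H
  revert q0 qu q1 D0 D1 l0 l1 ff hr gg
  generalize hXX : d * t = X at *
  generalize aq e d h k X = q
  generalize aq1 e d h k X = q₁
  generalize aq2 e d h k X = q₂
  intro q0 qu q1 D0 D1 l0 l1 ff hr gg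
  have hq : 0 < q := lt_of_lt_of_le hb q0
  have hl : 0 < 2 * q - X * q₁ := by
    refine lt_of_lt_of_le ?_ l0
    positivity
  have hl1 : 0 < 2 * q + (d - X) * q₁ := lt_of_lt_of_le hb l1
  have hH : 0 < h (th X q) := by
    have h1 := hh.n0 (th X q)
    rw [abs_le] at h1
    linarith [h1.1]
  have hr1 : 1 < (h (th X q) * √(X ^ 2 + q)) ^ e := by linarith
  have hsq : 0 < √q := Real.sqrt_pos.2 hq
  obtain ⟨o1, o2⟩ := jet_opp (e := e) (d := d) (X := X) (q := q) (q₁ := q₁) (q₂ := q₂) (h := h)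
    he0 hd0 hq hH hr1
  have o3 := jet_opp1 (e := e) (d := d) (X := X) (q := q) (q₁ := q₁) (q₂ := q₂) (h := h)
    he0 hd0 hq hl hH hr1
  have o4 := jet_opp2 (e := e) (d := d) (X := X) (q := q) (q₁ := q₁) (q₂ := q₂) (h := h)
    he0 hd0 hq hl hH hr1
  have hop : 0 < opp e d (pf h) (jet d X q q₁ q₂) := by
    rw [o1]
    exact div_pos (Real.rpow_pos_of_pos (by linarith) _) hsq
  refine ⟨?_, o2, ?_, ?_, ?_, ?_, ?_⟩
  · rw [jet_W hd0 hq]
    positivity
  · exact div_pos hl1 hl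
  · refine mul_nonneg hd0.le (div_nonneg (mul_nonneg (by positivity) D0) (by positivity))
  · exact mul_pos hd0 (div_pos hl (by positivity))
  · rw [o3]
    linarith
  · have h2 : 0 < X ^ 2 + q := by positivity
    have h3 : 0 < √(X ^ 2 + q) := Real.sqrt_pos.2 h2
    have h1 : 0 < opp2 e d (pf h) (jet d X q q₁ q₂) *
        opp e d (pf h) (jet d X q q₁ q₂) ^ (e - 1) := by
      rw [o4]
      exact mul_pos (Real.rpow_pos_of_pos (div_pos h3 hsq) _) ff
    exact (pos_of_mul_pos_left h1 (Real.rpow_nonneg hop.le _)).le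

end CG
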