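import Pool.Agent.H.MP_1693ff_gtB.GJetB
import Pool.Agent.H.MP_1693ff_gtB.GNear

/-!
# The first half step: the far region
-/

namespace CG

open Real Set Filter Topology CF

/-- The half step for an abstract jet: `y = √(1+a²)`. -/
private theorem gfirstc_abs {e δ b C c d y : ℝ} {P : Pf} {S : St} (he : 1 < e) (hδ : 0 < δ)
    (hb : 0 < b) (hC : 0 ≤ C) (hc : 0 < c) (hd : 1 ≤ d) (hd5 : 5 / c ≤ d) (W0 : 0 < S.W d)
    (W1 : S.W d < P.f S.a) (a0 : 0 ≤ S.a) (y0 : 0 < y) (ya : S.a ≤ y)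
    (ya' : 2 / 3 * (1 + S.a) ≤ y) (f0 : 9 / 10 * c * y ≤ P.f S.a)
    (f0' : P.f S.a ≤ 11 / 10 * c * y) (ho : P.f S.a / 3 ≤ opp e d P S)
    (hW : S.W d ≤ 2 * opp e d P S) (hf1 : |P.f S.a - S.a * P.f1 S.a| ≤ 6 / 5 * c)
    (hf1' : |P.f1 S.a| ≤ 6 / 5 * c) (hf2 : P.f2 S.a * y ^ 3 ≤ 6 / 5 * c)
    (hf2' : 0 ≤ P.f2 S.a) (hp : |S.p d| ≤ C / b) (hr : 0 ≤ S.r d)
    (hs0 : 0 ≤ (S.s * S.a - S.α) / d) (hs : (S.s * S.a - S.α) / d ≤ 2 * (1 + C) / b)
    (hopp1 : δ < opp1 e d P S) (hopp2 : 0 ≤ opp2 e d P S) (v0 : 0 < S.v) :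
    Far d (c / 5) ((3 ^ (e - 1) * (6 / 5 * c) + 2 ^ (e - 1) * (2 * (1 + C) / b)) / δ)
      (3 ^ (e - 1) * (6 / 5 * c) * ((1 + 11 / 10 * c) / δ) ^ 3) (hst e d P S) ∧
    (1 + d * (3 ^ (e - 1) * (6 / 5 * c) + 2 ^ (e - 1) * (C / b)))⁻¹ ≤ (hst e d P S).s := by
  have he0 : 0 < e := by linarith
  have he1 : 0 < e - 1 := by linarith
  have hd0 : 0 < d := by linarith
  have o0 : 0 < opp e d P S := opp_pos he0 W0 W1
  have ole : opp e d P S ≤ P.f S.a := opp_le he0 W0 W1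
  have hid := opp_id (P := P) (S := S) he0 W0 W1
  have ff : 0 < P.f S.a := W0.trans W1
  set o : ℝ := opp e d P S with hodef
  set f : ℝ := P.f S.a with hfdef
  set W : ℝ := S.W d with hWdef
  set a : ℝ := S.a with hadef
  have r1 : (f / o) ^ (e - 1) ≤ 3 ^ (e - 1) := by
    refine Real.rpow_le_rpow (by positivity) ?_ he1.le
    rw [div_le_iff₀ o0]
    linarith
  have r1' : 0 ≤ (f / o) ^ (e - 1) := by positivity
  have r2 : (W / o) ^ (e - 1) ≤ 2 ^ (e - 1) := by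
    refine Real.rpow_le_rpow (by positivity) ?_ he1.le
    rw [div_le_iff₀ o0]
    linarith
  have r2' : 0 ≤ (W / o) ^ (e - 1) := by positivity
  have t3 : (0 : ℝ) < 3 ^ (e - 1) := Real.rpow_pos_of_pos (by norm_num) _
  have t2 : (0 : ℝ) < 2 ^ (e - 1) := Real.rpow_pos_of_pos (by norm_num) _
  have hCb : 0 ≤ C / b := div_nonneg hC hb.le
  have hCb2 : 0 ≤ 2 * (1 + C) / b := by positivity
  -- `opp1`
  have e1 : opp1 e d P S = (f / o) ^ (e - 1) * P.f1 a - (W / o) ^ (e - 1) * S.p d := rfl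
  have e2 : opp2 e d P S = (f / o) ^ (e - 1) * P.f2 a - (W / o) ^ (e - 1) * S.r d -
    (e - 1) * W ^ (e - 2) * f ^ (e - 2) * o ^ (1 - 2 * e) *
      (f * S.p d - W * P.f1 a) ^ 2 := rfl
  have u1 : opp1 e d P S ≤ 3 ^ (e - 1) * (6 / 5 * c) + 2 ^ (e - 1) * (C / b) := by
    have h1 : (f / o) ^ (e - 1) * P.f1 a ≤ 3 ^ (e - 1) * (6 / 5 * c) :=
      (mul_le_mul_of_nonneg_left ((le_abs_self _).trans hf1') r1').trans
        (mul_le_mul_of_nonneg_right r1 (by positivity))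
    have h2 : -((W / o) ^ (e - 1) * S.p d) ≤ 2 ^ (e - 1) * (C / b) := by
      rw [← mul_neg]
      exact (mul_le_mul_of_nonneg_left ((neg_le_abs _).trans hp) r2').trans
        (mul_le_mul_of_nonneg_right r2 hCb)
    rw [e1]
    linarith
  have u2 : opp2 e d P S ≤ 3 ^ (e - 1) * P.f2 a := by
    have h1 : (f / o) ^ (e - 1) * P.f2 a ≤ 3 ^ (e - 1) * P.f2 a :=
      mul_le_mul_of_nonneg_right r1 hf2'
    have h2 : 0 ≤ (W / o) ^ (e - 1) * S.r d := mul_nonneg r2' hr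
    have h3 : 0 ≤ (e - 1) * W ^ (e - 2) * f ^ (e - 2) * o ^ (1 - 2 * e) *
      (f * S.p d - W * P.f1 a) ^ 2 := by positivity
    rw [e2]
    linarith
  have hG0 : 0 < opp1 e d P S := hδ.trans hopp1
  have hdG : 0 < 1 + d * opp1 e d P S := by positivity
  have hoa : c / 5 * (1 + a) ≤ o := by nlinarith
  have hdo : a ≤ d * o := by
    have h1 : 5 / c * (c / 5 * (1 + a)) ≤ d * o :=
      mul_le_mul hd5 hoa (by positivity) hd0.le
    have h2 : 5 / c * (c / 5 * (1 + a)) = 1 + a := by field_simp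
    linarith
  have hu3 : |o - a * opp1 e d P S| ≤
      3 ^ (e - 1) * (6 / 5 * c) + 2 ^ (e - 1) * (2 * (1 + C) / b) := by
    have h1 : o - a * opp1 e d P S = (f / o) ^ (e - 1) * (f - a * P.f1 a) -
        (W / o) ^ (e - 1) * ((S.s * S.a - S.α) / d) := by
      have h2 : (S.s * S.a - S.α) / d = W - a * S.p d := by
        rw [hWdef, hadef]
        unfold St.W St.p
        field_simp
        ring
      rw [h2, e1]
      have h3 : o - a * ((f / o) ^ (e - 1) * P.f1 a - (W / o) ^ (e - 1) * S.p d) =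
          ((f / o) ^ (e - 1) * f - (W / o) ^ (e - 1) * W) -
          a * ((f / o) ^ (e - 1) * P.f1 a - (W / o) ^ (e - 1) * S.p d) := by
        rw [← hid]
      rw [h3]
      ring
    rw [h1]
    refine (abs_sub _ _).trans (add_le_add ?_ ?_)
    · rw [abs_mul, abs_of_nonneg r1']
      exact mul_le_mul r1 hf1 (abs_nonneg _) t3.le
    · rw [abs_mul, abs_of_nonneg r2', abs_of_nonneg hs0]
      exact mul_le_mul r2 hs hs0 t2.le
  have hinv : d * (1 + d * opp1 e d P S)⁻¹ ≤ 1 / δ := by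
    rw [← div_eq_mul_inv, div_le_div_iff₀ hdG hδ]
    nlinarith
  have ea : (hst e d P S).a = a + d * o := rfl
  have eα : (hst e d P S).α = a := rfl
  have es : (hst e d P S).s = (1 + d * opp1 e d P S)⁻¹ := rfl
  have ek : (hst e d P S).k = d * opp2 e d P S * (1 + d * opp1 e d P S)⁻¹ ^ 3 := rfl
  have ev : (hst e d P S).v = S.v * (1 + d * opp1 e d P S) := rfl
  have hi0 : 0 < (1 + d * opp1 e d P S)⁻¹ := inv_pos.2 hdG
  refine ⟨?_, ?_⟩
  · refine
      { a0 := ?_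
        α0 := ?_
        α1 := ?_
        s0 := ?_
        s1 := ?_
        c0 := ?_
        k0 := ?_
        k1 := ?_
        v0 := ?_ }
    · rw [ea]
      have h1 : c / 5 ≤ o := by nlinarith
      nlinarith
    · rw [eα]; exact a0
    · rw [eα, ea]; linarith
    · rw [es]; exact hi0
    · rw [es]
      exact inv_le_one_of_one_le₀ (by nlinarith)
    · rw [es, ea, eα]
      have h1 : (1 + d * opp1 e d P S)⁻¹ * (a + d * o) - a =
          (d * (1 + d * opp1 e d P S)⁻¹) * (o - a * opp1 e d P S) := by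
        field_simp
        ring
      rw [h1, abs_mul, abs_of_pos (mul_pos hd0 hi0), div_eq_mul_one_div, mul_comm]
      exact mul_le_mul hu3 hinv (by positivity) (by positivity)
    · rw [ek]; positivity
    · rw [ek, ea]
      have h1 : (a + d * o) * (1 + d * opp1 e d P S)⁻¹ ≤ y * ((1 + 11 / 10 * c) / δ) := by
        have h2 : a + d * o ≤ d * (y * (1 + 11 / 10 * c)) := by
          have h3 : d * o ≤ d * (11 / 10 * c * y) :=
            mul_le_mul_of_nonneg_left (ole.trans f0') hd0.le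
          nlinarith
        calc (a + d * o) * (1 + d * opp1 e d P S)⁻¹
            ≤ d * (y * (1 + 11 / 10 * c)) * (1 + d * opp1 e d P S)⁻¹ :=
              mul_le_mul_of_nonneg_right h2 hi0.le
          _ = (y * (1 + 11 / 10 * c)) * (d * (1 + d * opp1 e d P S)⁻¹) := by ring
          _ ≤ (y * (1 + 11 / 10 * c)) * (1 / δ) :=
              mul_le_mul_of_nonneg_left hinv (by positivity)
          _ = y * ((1 + 11 / 10 * c) / δ) := by ring
      have h0 : 0 ≤ (a + d * o) * (1 + d * opp1 e d P S)⁻¹ := by positivity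
      have h4 : ((a + d * o) * (1 + d * opp1 e d P S)⁻¹) ^ 3 ≤
          (y * ((1 + 11 / 10 * c) / δ)) ^ 3 := pow_le_pow_left₀ h0 h1 3
      calc d * opp2 e d P S * (1 + d * opp1 e d P S)⁻¹ ^ 3 * (a + d * o) ^ 3
          = d * opp2 e d P S * ((a + d * o) * (1 + d * opp1 e d P S)⁻¹) ^ 3 := by ring
        _ ≤ d * (3 ^ (e - 1) * P.f2 a) * (y * ((1 + 11 / 10 * c) / δ)) ^ 3 := by
            refine mul_le_mul (mul_le_mul_of_nonneg_left u2 hd0.le) h4 (by positivity) ?_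
            positivity
        _ = 3 ^ (e - 1) * ((1 + 11 / 10 * c) / δ) ^ 3 * d * (P.f2 a * y ^ 3) := by ring
        _ ≤ 3 ^ (e - 1) * ((1 + 11 / 10 * c) / δ) ^ 3 * d * (6 / 5 * c) :=
            mul_le_mul_of_nonneg_left hf2 (by positivity)
        _ = 3 ^ (e - 1) * (6 / 5 * c) * ((1 + 11 / 10 * c) / δ) ^ 3 * d := by ring
    · rw [ev]; positivity
  · rw [es]
    refine inv_anti₀ hdG ?_
    have := mul_le_mul_of_nonneg_left u1 hd0.le
    linarith

/-- `Core` gives `Far` after the half step.  `H ∈ [0.9c, 1.1c]`, `|H₁| ≤ 0.1c`, `R ≤ 1.2c`.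
`opp = ((Hρ)^e-1)^{1/e}/√q ≥ (1/3) Hρ/√q = f/3` (`(Hρ)^e - 1 ≥ (Hρ)^e/3`, `(1/3)^{1/e} ≥ 1/3`)
`≥ (c/5)(1+a)` (`√(1+a²) ≥ (1+a)/√2`), `W/opp ≤ 2` (`(Hρ)^e - 1 ≥ 1/2`), `opp ≤ f`.
`κ = c/5`; `a' ≥ d opp ≥ κ d`; `α' = a ≤ d opp` for `d ≥ 5/c`, so `α' ≤ a'/2`; `opp1 > δ > 0`.
`opp - a opp1 = (f/opp)^{e-1} (f - a f1) - (W/opp)^{e-1} 2√q/(2q-Xq₁)` (`opp_id`, `jet_p`),
`|f - a f1| ≤ 1.2c`, `2√q/(2q-Xq₁) ≤ 2√(C(1+X))/(b(1+X)) ≤ 2(1+C)/b`; so
`|s'a' - α'| ≤ |opp - a opp1|/opp1 ≤ C₁`.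
`opp2 ≤ (f/opp)^{e-1} f2 ≤ 3^{e-1} 1.2c/√(1+a²)³`, `a' ≤ (1+1.1c) d √(1+a²)`, `1+d opp1 ≥ d δ`:
`k' a'³ = d opp2 (a'/(1+d opp1))³ ≤ C₂ d`. Upper bound
`opp1 ≤ 3^{e-1} f1 + 2^{e-1} |p|`, `f1 ≤ 1.2c`, `|p| ≤ C/b`. -/
theorem core_far {e δ b C c : ℝ} (he : 1 < e) (hδ : 0 < δ) (hb : 0 < b) (hC : 0 ≤ C)
    (hc : 0 < c) : ∃ κ C₁ C₂ C₃ D : ℝ, 0 < κ ∧ 0 ≤ C₁ ∧ 0 ≤ C₂ ∧ 0 ≤ C₃ ∧ 1 ≤ D ∧
      ∀ ε h k, ε ≤ c / 10 → Near h c ε → ∀ d, D ≤ d → ∀ t ∈ Icc (0 : ℝ) 1,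
        Core e d δ b C h k (d * t) →
        Far d κ C₁ C₂ (hst e d (pf h) (arc e d h k t)) ∧
        (1 + d * C₃)⁻¹ ≤ (hst e d (pf h) (arc e d h k t)).s ∧
        b / (2 * (C * (1 + d)) + d * C) ≤ (arc e d h k t).s := by
  have t3 : (0 : ℝ) < 3 ^ (e - 1) := Real.rpow_pos_of_pos (by norm_num) _
  have t2 : (0 : ℝ) < 2 ^ (e - 1) := Real.rpow_pos_of_pos (by norm_num) _
  refine ⟨c / 5, (3 ^ (e - 1) * (6 / 5 * c) + 2 ^ (e - 1) * (2 * (1 + C) / b)) / δ,
    3 ^ (e - 1) * (6 / 5 * c) * ((1 + 11 / 10 * c) / δ) ^ 3,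
    3 ^ (e - 1) * (6 / 5 * c) + 2 ^ (e - 1) * (C / b), max 1 (5 / c), by positivity,
    by positivity, by positivity, by positivity, le_max_left _ _, ?_⟩
  intro ε h k hε hh d hD t ht H
  have hd1 : 1 ≤ d := (le_max_left _ _).trans hD
  have hd5 : 5 / c ≤ d := (le_max_right _ _).trans hD
  have hd0 : 0 < d := by linarith
  have he0 : 0 < e := by linarith
  obtain ⟨ht0, ht1⟩ := ht
  have hX0 : 0 ≤ d * t := mul_nonneg hd0.le ht0
  have hXd : d * t ≤ d := by nlinarith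
  obtain ⟨q0, qu, q1, D0, D1, l0, l1, ff, hr, gg⟩ := H
  have earc : arc e d h k t = jet d (d * t) (aq e d h k (d * t)) (aq1 e d h k (d * t))
    (aq2 e d h k (d * t)) := rfl
  rw [earc]
  set X : ℝ := d * t with hXdef
  clear_value X
  set q : ℝ := aq e d h k X with hqdef
  set q₁ : ℝ := aq1 e d h k X with hq1def
  set q₂ : ℝ := aq2 e d h k X with hq2def
  clear_value q q₁ q₂
  have hq : 0 < q := hb.trans_le q0
  have hl : 0 < 2 * q - X * q₁ := by
    have : 0 < b * (1 + X) := by positivity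
    linarith
  have hsq : 0 < √q := Real.sqrt_pos.2 hq
  have hsqq : √q ^ 2 = q := Real.sq_sqrt hq.le
  -- the function `h` at the direction
  have n0 := hh.n0 (th X q)
  have n1 := hh.n1 (th X q)
  have n2 := hh.n2 (th X q)
  have jpr := jet_prof (h := h) (X := X) (q := q) hq
  have hcurv : curv h (th X q) = h (th X q) + deriv (deriv h) (th X q) := rfl
  set HH : ℝ := h (th X q) with hHH
  set H₁ : ℝ := deriv h (th X q) with hH₁
  rw [abs_le] at n0 n2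
  have hH0 : 9 / 10 * c ≤ HH := by linarith [n0.1]
  have hH1 : HH ≤ 11 / 10 * c := by linarith [n0.2]
  have hHp : 0 < HH := by linarith
  have hH₁' : |H₁| ≤ c / 10 := n1.trans hε
  have hR : curv h (th X q) ≤ 6 / 5 * c := by rw [hcurv]; linarith [n2.2]
  have hR0 : 0 ≤ curv h (th X q) := by rw [hcurv]; linarith [n2.1]
  have hρ2 : 0 < X ^ 2 + q := by positivity
  have hρ : 0 < √(X ^ 2 + q) := Real.sqrt_pos.2 hρ2
  have hρsq : √(X ^ 2 + q) ^ 2 = X ^ 2 + q := Real.sq_sqrt hρ2.le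
  have hqρ : √q ≤ √(X ^ 2 + q) := Real.sqrt_le_sqrt (by nlinarith [sq_nonneg X])
  have hXρ : X ≤ √(X ^ 2 + q) := Real.le_sqrt_of_sq_le (by linarith)
  have hr1 : 1 < (HH * √(X ^ 2 + q)) ^ e := by linarith
  have jW := jet_W (X := X) (q := q) (q₁ := q₁) (q₂ := q₂) hd0 hq
  obtain ⟨jp, jr, js⟩ := jet_p (X := X) (q := q) (q₁ := q₁) (q₂ := q₂) hd0 hq hl
  obtain ⟨jo, jo'⟩ := jet_opp (e := e) (d := d) (q₁ := q₁) (q₂ := q₂) he0 hd0 hq hHp hr1
  have jo1 := jet_opp1 (e := e) (d := d) (q₂ := q₂) he0 hd0 hq hl hHp hr1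
  have jo2 := jet_opp2 (e := e) (d := d) (q₂ := q₂) he0 hd0 hq hl hHp hr1
  obtain ⟨jf, jf1, jf2⟩ := jpr
  set S : St := jet d X q q₁ q₂ with hSdef
  have ja : S.a = X / √q := rfl
  rw [← ja] at jf jf1 jf2
  set ρ : ℝ := √(X ^ 2 + q) with hρdef
  clear_value ρ
  have hW0 : 0 < S.W d := by rw [jW]; positivity
  have ho0 : 0 < opp e d (pf h) S := opp_pos he0 hW0 jo'
  set E : ℝ := (HH * ρ) ^ e with hEdef
  have hHρ : 0 < HH * ρ := by positivity
  have hEroot : E ^ e⁻¹ = HH * ρ := by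
    rw [hEdef, Real.rpow_rpow_inv hHρ.le he0.ne']
  have hei : 0 ≤ e⁻¹ := by positivity
  have hei1 : e⁻¹ ≤ 1 := inv_le_one_of_one_le₀ he.le
  have hE0 : 0 < E := by positivity
  rw [← and_assoc]
  refine ⟨?_, ?_⟩
  · refine gfirstc_abs (y := ρ / √q) he hδ hb hC hc hd1 hd5 hW0 jo' ?_ (by positivity) ?_ ?_ ?_
      ?_ ?_ ?_ ?_ ?_ ?_ ?_ ?_ ?_ ?_ ?_ ?_ ?_ ?_
    · rw [ja]; positivity
    · rw [ja]
      exact div_le_div_of_nonneg_right hXρ hsq.le
    · -- `2/3 (1 + a) ≤ √(1+a²)`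
      have h1 : 2 / 3 * (√q + X) ≤ ρ := by
        refine abs_le_of_sq_le_sq' ?_ hρ.le |>.2
        rw [hρsq]
        nlinarith [sq_nonneg (√q - X)]
      rw [ja, le_div_iff₀ hsq]
      have h2 : 2 / 3 * (1 + X / √q) * √q = 2 / 3 * (√q + X) := by
        field_simp
      rw [h2]
      exact h1
    · rw [jf, mul_div_assoc]
      exact mul_le_mul_of_nonneg_right hH0 (by positivity)
    · rw [jf, mul_div_assoc]
      exact mul_le_mul_of_nonneg_right hH1 (by positivity)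
    · -- `f/3 ≤ opp`
      rw [jo, jf, div_right_comm]
      refine div_le_div_of_nonneg_right ?_ hsq.le
      have h1 : (1 / 3 * E) ^ e⁻¹ ≤ (E - 1) ^ e⁻¹ :=
        Real.rpow_le_rpow (by positivity) (by linarith) hei
      have h2 : (1 / 3 * E) ^ e⁻¹ = (1 / 3) ^ e⁻¹ * (HH * ρ) := by
        rw [Real.mul_rpow (by norm_num) hE0.le, hEroot]
      have h3 : (1 / 3 : ℝ) ≤ (1 / 3) ^ e⁻¹ := by
        have := Real.rpow_le_rpow_of_exponent_ge (show (0 : ℝ) < 1 / 3 by norm_num)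
          (by norm_num) hei1
        rwa [Real.rpow_one] at this
      rw [h2] at h1
      have h4 : 1 / 3 * (HH * ρ) ≤ (1 / 3) ^ e⁻¹ * (HH * ρ) :=
        mul_le_mul_of_nonneg_right h3 hHρ.le
      linarith
    · -- `W ≤ 2 opp`
      rw [jo, jW, inv_eq_one_div, ← mul_div_assoc]
      refine div_le_div_of_nonneg_right ?_ hsq.le
      have h1 : (1 / 2 : ℝ) ^ e⁻¹ ≤ (E - 1) ^ e⁻¹ :=
        Real.rpow_le_rpow (by norm_num) (by linarith) hei
      have h3 : (1 / 2 : ℝ) ≤ (1 / 2) ^ e⁻¹ := by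
        have := Real.rpow_le_rpow_of_exponent_ge (show (0 : ℝ) < 1 / 2 by norm_num)
          (by norm_num) hei1
        rwa [Real.rpow_one] at this
      linarith
    · -- `|f - a f1|`
      rw [jf, jf1, ja]
      have h1 : HH * ρ / √q - X / √q * ((X * HH - √q * H₁) / ρ) = (HH * √q + X * H₁) / ρ := by
        have h2 : HH * ρ / √q - X / √q * ((X * HH - √q * H₁) / ρ) =
            (HH * ρ ^ 2 - X * (X * HH - √q * H₁)) / (√q * ρ) := by
          field_simp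
        rw [h2, hρsq, div_eq_div_iff (by positivity) (by positivity)]
        linear_combination (-(HH * ρ)) * hsqq
      rw [h1, abs_div, abs_of_pos hρ, div_le_iff₀ hρ]
      have h3 : |HH * √q + X * H₁| ≤ HH * √q + X * |H₁| := by
        refine (abs_add_le _ _).trans ?_
        rw [abs_mul, abs_mul, abs_of_pos hHp, abs_of_pos hsq, abs_of_nonneg hX0]
      have h4 : HH * √q ≤ 11 / 10 * c * ρ := mul_le_mul hH1 hqρ hsq.le (by positivity)
      have h5 : X * |H₁| ≤ ρ * (c / 10) := mul_le_mul hXρ hH₁' (abs_nonneg _) hρ.le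
      linarith
    · -- `|f1|`
      rw [jf1, abs_div, abs_of_pos hρ, div_le_iff₀ hρ]
      have h3 : |X * HH - √q * H₁| ≤ X * HH + √q * |H₁| := by
        refine (abs_sub _ _).trans ?_
        rw [abs_mul, abs_mul, abs_of_pos hHp, abs_of_pos hsq, abs_of_nonneg hX0]
      have h4 : X * HH ≤ ρ * (11 / 10 * c) := mul_le_mul hXρ hH1 hHp.le hρ.le
      have h5 : √q * |H₁| ≤ ρ * (c / 10) := mul_le_mul hqρ hH₁' (abs_nonneg _) hρ.le
      linarith
    · -- `f2 y³`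
      rw [jf2]
      have h1 : curv h (th X q) * √q ^ 3 / ρ ^ 3 * (ρ / √q) ^ 3 = curv h (th X q) := by
        field_simp
      rw [h1]
      exact hR
    · rw [jf2]; positivity
    · -- `|p|`
      rw [jp, abs_neg, abs_div, abs_of_pos hl]
      refine div_le_div₀ hC q1 hb ?_
      have : b * 1 ≤ b * (1 + X) := mul_le_mul_of_nonneg_left (by linarith) hb.le
      linarith
    · rw [jr]; positivity
    · rw [js, mul_div_cancel_left₀ _ hd0.ne']
      positivity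
    · rw [js, mul_div_cancel_left₀ _ hd0.ne']
      have hb1 : 0 < b * (1 + X) := by positivity
      have h1 : √q ≤ (1 + C) * (1 + X) := by
        have h2 : √q ≤ 1 + q := by nlinarith [sq_nonneg (√q - 1)]
        nlinarith
      calc 2 * √q / (2 * q - X * q₁) ≤ 2 * ((1 + C) * (1 + X)) / (b * (1 + X)) :=
            div_le_div₀ (by positivity) (by linarith) hb1 l0
        _ = 2 * (1 + C) / b := by
            field_simp
    · rw [jo1]; exact gg
    · -- `opp2`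
      have h1 : 0 < (ρ / √q) ^ (e - 4) *
          FF e X q q₁ q₂ HH H₁ (curv h (th X q)) := by positivity
      rw [← jo2] at h1
      exact (pos_of_mul_pos_left h1 (Real.rpow_pos_of_pos ho0 _).le).le
    · have ev : S.v = d * ((2 * q - X * q₁) / (2 * √q ^ 3)) := rfl
      rw [ev]
      positivity
  · have es : S.s = (2 * q + (d - X) * q₁) / (2 * q - X * q₁) := rfl
    rw [es]
    have h1 : 2 * q - X * q₁ ≤ 2 * (C * (1 + d)) + d * C := by
      have h2 : -(X * q₁) ≤ d * C := by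
        have h3 : -(X * q₁) ≤ X * |q₁| := by
          have := mul_le_mul_of_nonneg_left (neg_abs_le q₁) hX0
          linarith
        have h4 : X * |q₁| ≤ d * C := mul_le_mul hXd q1 (abs_nonneg _) hd0.le
        linarith
      have h5 : C * (1 + X) ≤ C * (1 + d) := mul_le_mul_of_nonneg_left (by linarith) hC
      linarith
    exact div_le_div₀ (hb.le.trans l1) l1 hl h1

end CG
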