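import Pool.Agent.H.MP_1693ff_gtB.GFirstA
import Pool.Agent.H.MP_1693ff_gtB.GFirstB
import Pool.Agent.H.MP_1693ff_gtB.GFirstC
import Pool.Agent.H.MP_1693ff_gtB.GFarC

/-!
# All facts about the chains
-/

namespace CG

open Real Set Filter Topology CF

/-- One chain.  `first_core`, `core_good`, `core_far`; common profile constants for `h` and `k`:
`A₀ = R₀ = min(c,c')/4`, `A₁ = B = R₁ = 2 max(c,c')` (`near_pb`, `PB.mono`); `far_next` with
`C₁ := max(C₁ of core_far, 2(2^{e-1}B+1)/A₀)`, `C₂ := max(…)` and `Far.mono`; induction on `n`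
(`chain (n+1) = hst (profile n) (chain n)`). -/
theorem one_chain {e c c' : ℝ} (he : 1 < e) (hc : 0 < c) (hc' : 0 < c') :
    ∃ ε κ C₁ C₂ D : ℝ, 0 < ε ∧ ε ≤ c / 10 ∧ ε ≤ c' / 10 ∧ 0 < κ ∧ 1 ≤ D ∧
      ∀ h k, Near h c ε → Near k c' ε → ∀ d, D ≤ d →
        (∀ X ∈ Icc 0 d, 0 < aq e d h k X ∧ 0 < 2 * aq e d h k X - X * aq1 e d h k X) ∧
        0 < al e h ∧ 0 < al e (ng h) ∧ 0 < al e k ∧ 0 < al e (ng k) ∧
        (∀ t ∈ Icc (0 : ℝ) 1, ∀ n : ℕ,
          Good e d (if Even n then pf h else pf k) (chain e d h k n t)) ∧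
        (∀ t ∈ Icc (0 : ℝ) 1, ∀ n : ℕ, 1 ≤ n → Far d κ C₁ C₂ (chain e d h k n t)) ∧
        ∃ c₀ > 0, ∀ t ∈ Icc (0 : ℝ) 1, ∀ n : ℕ, c₀ ≤ (chain e d h k n t).s := by
  obtain ⟨ε, δ, b, C, D₀, hε, hε1, hε2, hδ, hb, hC, hD₀, H₀⟩ := first_core he hc hc'
  obtain ⟨κ, C₁a, C₂a, C₃, Da, hκ, hC₁a, hC₂a, hC₃, hDa, Ha⟩ := core_far he hδ hb hC hc
  have hm : 0 < min c c' := lt_min hc hc'
  have hmM : min c c' ≤ max c c' := (min_le_left _ _).trans (le_max_left _ _)
  have hM : 0 < max c c' := lt_of_lt_of_le hm hmM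
  have hA₀ : 0 < min c c' / 4 := by positivity
  have hA₁ : min c c' / 4 ≤ 2 * max c c' := by linarith
  obtain ⟨Db, hDb, Hb⟩ := far_next (C₁ := max C₁a (2 * (2 ^ (e - 1) * (2 * max c c') + 1) /
      (min c c' / 4))) (C₂ := max C₂a (2 ^ (e - 1) * (2 * max c c') *
      (4 * (2 * max c c') / (min c c' / 4)) ^ 3)) (R₁ := 2 * max c c') he hκ
    (hC₁a.trans (le_max_left _ _)) (hC₂a.trans (le_max_left _ _)) hA₀ hA₁
    (by positivity : (0 : ℝ) ≤ 2 * max c c') hA₀
  refine ⟨ε, κ, max C₁a (2 * (2 ^ (e - 1) * (2 * max c c') + 1) / (min c c' / 4)),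
    max C₂a (2 ^ (e - 1) * (2 * max c c') * (4 * (2 * max c c') / (min c c' / 4)) ^ 3),
    max (max D₀ Da) Db, hε, hε1, hε2, hκ,
    (hD₀.trans (le_max_left _ _)).trans (le_max_left _ _), fun h k hh hk d hd => ?_⟩
  have hd0 : D₀ ≤ d := ((le_max_left _ _).trans (le_max_left _ _)).trans hd
  have hda : Da ≤ d := ((le_max_right _ _).trans (le_max_left _ _)).trans hd
  have hdb : Db ≤ d := (le_max_right _ _).trans hd
  have hd1 : 1 ≤ d := hD₀.trans hd0
  have hdp : 0 < d := by linarith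
  obtain ⟨a1, a2, a3, a4, K⟩ := H₀ h k hh hk
  have K' := K d hd0
  have hC0 : 0 < C := by
    have h1 := K' 0 ⟨le_rfl, hdp.le⟩
    have h2 := h1.q0.trans h1.qu
    nlinarith
  have Ph : PB (pf h) (min c c' / 4) (2 * max c c') (2 * max c c') (min c c' / 4)
      (2 * max c c') := by
    have h1 : c ≤ max c c' := le_max_left _ _
    have h2 : min c c' ≤ c := min_le_left _ _
    exact (near_pb hc hε1 hh).mono hA₀ (by linarith) (by linarith) (by linarith) hA₀
      (by linarith) (by linarith)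
  have Pk : PB (pf k) (min c c' / 4) (2 * max c c') (2 * max c c') (min c c' / 4)
      (2 * max c c') := by
    have h1 : c' ≤ max c c' := le_max_right _ _
    have h2 : min c c' ≤ c' := min_le_right _ _
    exact (near_pb hc' hε2 hk).mono hA₀ (by linarith) (by linarith) (by linarith) hA₀
      (by linarith) (by linarith)
  have Pn : ∀ n : ℕ, PB (if Even n then pf h else pf k) (min c c' / 4) (2 * max c c')
      (2 * max c c') (min c c' / 4) (2 * max c c') := by
    intro n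
    split_ifs
    · exact Ph
    · exact Pk
  have hX : ∀ t ∈ Icc (0 : ℝ) 1, d * t ∈ Icc 0 d := fun t ht =>
    ⟨mul_nonneg hdp.le ht.1, by nlinarith [ht.2]⟩
  have hfar : ∀ t ∈ Icc (0 : ℝ) 1, ∀ n : ℕ, 1 ≤ n → Far d κ
      (max C₁a (2 * (2 ^ (e - 1) * (2 * max c c') + 1) / (min c c' / 4)))
      (max C₂a (2 ^ (e - 1) * (2 * max c c') * (4 * (2 * max c c') / (min c c' / 4)) ^ 3))
      (chain e d h k n t) := by
    intro t ht n hn
    induction n, hn using Nat.le_induction with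
    | base =>
      obtain ⟨f1, f2, f3⟩ := Ha ε h k hε1 hh d hda t ht (K' _ (hX t ht))
      exact f1.mono hdp.le le_rfl (le_max_left _ _) (le_max_left _ _)
    | succ n hn ih =>
      obtain ⟨f1, f2, f3⟩ := Hb _ (Pn n) d hdb _ ih
      exact f2.mono hdp.le le_rfl (le_max_right _ _) (le_max_right _ _)
  refine ⟨fun X hX => ?_, a1, a2, a3, a4, fun t ht n => ?_, hfar, ?_⟩
  · have h1 := K' X hX
    refine ⟨lt_of_lt_of_le hb h1.q0, lt_of_lt_of_le ?_ h1.l0⟩
    have := hX.1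
    positivity
  · rcases n with _ | n
    · exact core_good he hd1 hδ hb hc hε1 hh ht (K' _ (hX t ht))
    · exact (Hb _ (Pn (n + 1)) d hdb _ (hfar t ht (n + 1) (by omega))).1
  · refine ⟨min (b / (2 * (C * (1 + d)) + d * C)) (min ((1 + d * C₃)⁻¹)
      ((1 + d * (2 ^ (e - 1) * (2 * max c c')))⁻¹)), by positivity, fun t ht n => ?_⟩
    rcases n with _ | n
    · obtain ⟨f1, f2, f3⟩ := Ha ε h k hε1 hh d hda t ht (K' _ (hX t ht))
      exact (min_le_left _ _).trans f3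
    · rcases n with _ | n
      · obtain ⟨f1, f2, f3⟩ := Ha ε h k hε1 hh d hda t ht (K' _ (hX t ht))
        exact ((min_le_right _ _).trans (min_le_left _ _)).trans f2
      · obtain ⟨f1, f2, f3⟩ := Hb _ (Pn (n + 1)) d hdb _ (hfar t ht (n + 1) (by omega))
        exact ((min_le_right _ _).trans (min_le_right _ _)).trans f3

/-- Both chains. -/
theorem exists_DK {e c c' : ℝ} (he : 1 < e) (hc : 0 < c) (hc' : 0 < c') :
    ∃ ε κ C₁ C₂ D : ℝ, 0 < ε ∧ 0 < κ ∧ 1 ≤ D ∧
      ∀ h k, Near h c ε → Near k c' ε → ∀ d, D ≤ d → DK e d κ C₁ C₂ h k := by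
  obtain ⟨ε, κ, C₁, C₂, D, hε, hε1, hε2, hκ, hD, H⟩ := one_chain he hc hc'
  obtain ⟨ε', κ', C₁', C₂', D', hε', hε1', hε2', hκ', hD', H'⟩ := one_chain he hc' hc
  refine ⟨min ε ε', min κ κ', max C₁ C₁', max C₂ C₂', max D D', lt_min hε hε', lt_min hκ hκ',
    le_trans hD (le_max_left _ _), fun h k hh hk d hd => ?_⟩
  have hdD : D ≤ d := le_trans (le_max_left _ _) hd
  have hdD' : D' ≤ d := le_trans (le_max_right _ _) hd
  have hd1 : 1 ≤ d := le_trans hD hdD
  have hd0 : 0 ≤ d := by linarith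
  obtain ⟨a1, a2, a3, a4, a5, a6, a7, a8⟩ := H h k (hh.mono (min_le_left _ _))
    (hk.mono (min_le_left _ _)) d hdD
  obtain ⟨b1, b2, b3, b4, b5, b6, b7, b8⟩ := H' k h (hk.mono (min_le_right _ _))
    (hh.mono (min_le_right _ _)) d hdD'
  have n1 : 0 < h (π / 2) := by
    have := (abs_le.1 (hh.n0 (π / 2))).1
    have h2 := min_le_left ε ε'
    linarith
  have n2 : 0 < k (π / 2) := by
    have := (abs_le.1 (hk.n0 (π / 2))).1
    have h2 := min_le_left ε ε'
    linarith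
  exact { e1 := he, d1 := hd1, κ0 := lt_min hκ hκ', hp := hh.per, kp := hk.per, hc := hh.c2,
          kc := hk.c2, h0 := n1, k0 := n2, aok := a1, aok' := b1, ah := a2, ak := a4, ah' := a3,
          ak' := a5, good := a6, good' := b6,
          far := fun t ht n hn => (a7 t ht n hn).mono hd0 (min_le_left _ _) (le_max_left _ _)
            (le_max_left _ _),
          far' := fun t ht n hn => (b7 t ht n hn).mono hd0 (min_le_right _ _) (le_max_right _ _)
            (le_max_right _ _),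
          slb := a8, slb' := b8 }

end CG
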