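import Pool.Agent.H.MP_1693ff_gtB.GOpp

/-!
# Far half steps: first bounds
-/

namespace CG

open Real Set Filter Topology CF

/-- Far half step, zeroth and first order. Let `d ≥ max(1, 2/A₀, C₁, 1/κ)`.
`a ≥ κ d ≥ 1`; `W = (a-α)/d ∈ [a/(2d), a/d]` and `W ≤ a/d ≤ f/(A₀ d) ≤ f/2`, so `opp ≥ f/2`
(`opp_half`). `0 ≤ p = (1-s)/d ≤ 1/d`. `1 ≤ f/opp ≤ 2`, `W/opp ≤ 1`, hence
`opp1 ≥ A₀ - 1/d ≥ A₀/2`, `opp1 ≤ 2^{e-1} A₁`; by `opp_id`
`opp - a opp1 = (f/opp)^{e-1} (f - a f1) - (W/opp)^{e-1} (W - a p)`, `W - a p = (s a - α)/d`. -/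
theorem far_a {e κ C₁ A₀ A₁ B : ℝ} (C₂ R₀ R₁ : ℝ) (he : 1 < e) (hκ : 0 < κ) (hA₀ : 0 < A₀) :
    ∃ D, 1 ≤ D ∧ ∀ P, PB P A₀ A₁ B R₀ R₁ → ∀ d, D ≤ d → ∀ S, Far d κ C₁ C₂ S →
      1 ≤ S.a ∧ S.a / (2 * d) ≤ S.W d ∧ S.W d ≤ S.a / d ∧ S.W d ≤ P.f S.a / 2 ∧
      P.f S.a / 2 ≤ opp e d P S ∧ opp e d P S ≤ P.f S.a ∧
      A₀ / 2 ≤ opp1 e d P S ∧ opp1 e d P S ≤ 2 ^ (e - 1) * A₁ ∧
      |opp e d P S - S.a * opp1 e d P S| ≤ 2 ^ (e - 1) * B + 1 := by
  refine ⟨max 1 (max (2 / A₀) (max C₁ (1 / κ))), le_max_left _ _, ?_⟩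
  intro P hP d hd S hS
  have hd1 : 1 ≤ d := (le_max_left _ _).trans hd
  have hd2 : 2 / A₀ ≤ d := ((le_max_left _ _).trans (le_max_right _ _)).trans hd
  have hd3 : C₁ ≤ d :=
    ((le_max_left _ _).trans ((le_max_right _ _).trans (le_max_right _ _))).trans hd
  have hd4 : 1 / κ ≤ d :=
    ((le_max_right _ _).trans ((le_max_right _ _).trans (le_max_right _ _))).trans hd
  have hd0 : 0 < d := by linarith
  have ha1 : 1 ≤ S.a := by
    have h1 : 1 ≤ κ * d := by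
      rw [div_le_iff₀ hκ] at hd4
      linarith
    exact h1.trans hS.a0
  have ha0 : 0 < S.a := by linarith
  have hdA : 1 / d ≤ A₀ / 2 := by
    rw [div_le_iff₀ hA₀] at hd2
    rw [div_le_iff₀ hd0]
    linarith
  have hf : A₀ * S.a ≤ P.f S.a := hP.fl S.a ha1
  have hf0 : 0 < P.f S.a := lt_of_lt_of_le (mul_pos hA₀ ha0) hf
  have hW1 : S.a / (2 * d) ≤ S.W d := by
    unfold St.W
    rw [div_le_div_iff₀ (by linarith) hd0]
    have := hS.α1
    nlinarith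
  have hW2 : S.W d ≤ S.a / d := by
    unfold St.W
    have := hS.α0
    exact div_le_div_of_nonneg_right (by linarith) hd0.le
  have hW3 : S.W d ≤ P.f S.a / 2 := by
    have h1 : S.a / d = S.a * (1 / d) := by ring
    have h2 : S.a * (1 / d) ≤ S.a * (A₀ / 2) := mul_le_mul_of_nonneg_left hdA ha0.le
    rw [h1] at hW2
    linarith
  have hW0 : 0 < S.W d := lt_of_lt_of_le (by positivity) hW1
  have hWf : S.W d < P.f S.a := by linarith
  have he0 : 0 < e := by linarith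
  have ho := opp_half he.le hW0 hW3
  have ho' := opp_le he0 hW0 hWf
  have hop := opp_pos he0 hW0 hWf
  have hp0 : 0 ≤ S.p d := by
    unfold St.p
    have := hS.s1
    exact div_nonneg (by linarith) hd0.le
  have hp1 : S.p d ≤ 1 / d := by
    unfold St.p
    have := hS.s0
    exact div_le_div_of_nonneg_right (by linarith) hd0.le
  obtain ⟨r, hr⟩ : ∃ r, r = (P.f S.a / opp e d P S) ^ (e - 1) := ⟨_, rfl⟩
  obtain ⟨q, hq⟩ : ∃ q, q = (S.W d / opp e d P S) ^ (e - 1) := ⟨_, rfl⟩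
  have hr1 : 1 ≤ r := by
    rw [hr]
    exact Real.one_le_rpow (by rw [le_div_iff₀ hop]; linarith) (by linarith)
  have hr2 : r ≤ 2 ^ (e - 1) := by
    rw [hr]
    refine Real.rpow_le_rpow (by positivity) ?_ (by linarith)
    rw [div_le_iff₀ hop]
    linarith
  have hq0 : 0 ≤ q := by
    rw [hq]
    exact Real.rpow_nonneg (by positivity) _
  have hq1 : q ≤ 1 := by
    rw [hq]
    exact Real.rpow_le_one (by positivity) (by rw [div_le_iff₀ hop]; linarith) (by linarith)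
  have hA : A₀ ≤ P.f1 S.a := hP.f1l S.a ha1
  have hA' : P.f1 S.a ≤ A₁ := hP.f1u S.a ha1
  have hB : |P.f S.a - S.a * P.f1 S.a| ≤ B := hP.cb S.a ha1
  have ho1 : opp1 e d P S = r * P.f1 S.a - q * S.p d := by
    rw [hr, hq]
    rfl
  have hqp : q * S.p d ≤ 1 / d := (mul_le_of_le_one_left hp0 hq1).trans hp1
  have hqp0 : 0 ≤ q * S.p d := mul_nonneg hq0 hp0
  have hrf : P.f1 S.a ≤ r * P.f1 S.a := le_mul_of_one_le_left (by linarith) hr1
  have hrf' : r * P.f1 S.a ≤ 2 ^ (e - 1) * A₁ :=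
    mul_le_mul hr2 hA' (by linarith) (by positivity)
  refine ⟨ha1, hW1, hW2, hW3, ho, ho', ?_, ?_, ?_⟩
  · rw [ho1]
    linarith
  · rw [ho1]
    linarith
  · have hid : opp e d P S = r * P.f S.a - q * S.W d := by
      rw [hr, hq]
      exact opp_id he0 hW0 hWf
    have h1 : S.W d - S.a * S.p d = (S.s * S.a - S.α) / d := by
      unfold St.W St.p
      field_simp
      ring
    have h2 : |S.W d - S.a * S.p d| ≤ 1 := by
      rw [h1, abs_div, abs_of_pos hd0, div_le_one hd0]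
      exact hS.c0.trans hd3
    have h3 : opp e d P S - S.a * opp1 e d P S =
        r * (P.f S.a - S.a * P.f1 S.a) - q * (S.W d - S.a * S.p d) := by
      rw [ho1]
      linear_combination hid
    rw [h3]
    have h4 : |r * (P.f S.a - S.a * P.f1 S.a)| ≤ 2 ^ (e - 1) * B := by
      rw [abs_mul, abs_of_pos (by linarith : (0 : ℝ) < r)]
      exact mul_le_mul hr2 hB (abs_nonneg _) (by positivity)
    have h5 : |q * (S.W d - S.a * S.p d)| ≤ 1 := by
      rw [abs_mul, abs_of_nonneg hq0]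
      exact mul_le_one₀ hq1 (abs_nonneg _) h2
    exact (abs_sub _ _).trans (add_le_add h4 h5)

end CG
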