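import Pool.Agent.H.MP_1693ff_gtB.GFarA

/-!
# Far half steps: second order
-/

namespace CG

open Real Set Filter Topology CF

/-- the coefficient is small for large `d` -/
theorem gfarb_small {e A₀ A₁ C₂ K R₀ : ℝ} (he : 1 < e) (hA₀ : 0 < A₀) (hA₁ : 0 < A₁)
    (hR₀ : 0 < R₀) : ∃ D, 1 ≤ D ∧ ∀ d, D ≤ d →
      (2 / (d * A₀)) ^ (e - 1) * C₂ + K * (1 + (2 * d * A₁) ^ (2 - e)) / d ^ 2 < R₀ := by
  have t1 : Tendsto (fun d : ℝ => d ^ (-(e - 1))) atTop (𝓝 0) :=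
    tendsto_rpow_neg_atTop (by linarith)
  have t2 : Tendsto (fun d : ℝ => d ^ (-(2 : ℝ))) atTop (𝓝 0) :=
    tendsto_rpow_neg_atTop (by norm_num)
  have t3 : Tendsto (fun d : ℝ => d ^ (-e)) atTop (𝓝 0) :=
    tendsto_rpow_neg_atTop (by linarith)
  have t4 : Tendsto (fun d : ℝ => (2 / A₀) ^ (e - 1) * C₂ * d ^ (-(e - 1)) +
      K * d ^ (-(2 : ℝ)) + K * (2 * A₁) ^ (2 - e) * d ^ (-e)) atTop (𝓝 0) := by
    have := ((t1.const_mul ((2 / A₀) ^ (e - 1) * C₂)).add (t2.const_mul K)).add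
      (t3.const_mul (K * (2 * A₁) ^ (2 - e)))
    simpa using this
  obtain ⟨D, hD⟩ := eventually_atTop.1 (t4.eventually_lt_const hR₀)
  refine ⟨max D 1, le_max_right _ _, fun d hd => ?_⟩
  have hd1 : 1 ≤ d := (le_max_right _ _).trans hd
  have hd0 : 0 < d := by linarith
  refine lt_of_eq_of_lt ?_ (hD d ((le_max_left _ _).trans hd))
  have e1 : (2 / (d * A₀)) ^ (e - 1) = (2 / A₀) ^ (e - 1) * d ^ (-(e - 1)) := by
    rw [rpow_neg hd0.le, ← inv_rpow hd0.le, ← mul_rpow (by positivity) (by positivity)]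
    congr 1
    field_simp
  have e2 : (2 * d * A₁) ^ (2 - e) / d ^ 2 = (2 * A₁) ^ (2 - e) * d ^ (-e) := by
    have h1 : 2 * d * A₁ = (2 * A₁) * d := by ring
    rw [h1, mul_rpow (by positivity) hd0.le, rpow_sub hd0, rpow_neg hd0.le]
    have h2 : d ^ (2 : ℝ) = d ^ 2 := by
      rw [← rpow_natCast]
      norm_num
    rw [h2]
    have h3 : d ^ 2 ≠ 0 := by positivity
    have h4 : d ^ e ≠ 0 := (rpow_pos_of_pos hd0 e).ne'
    field_simp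
  have e3 : 1 / d ^ 2 = d ^ (-(2 : ℝ)) := by
    rw [rpow_neg hd0.le, one_div]
    congr 1
    rw [← rpow_natCast]
    norm_num
  have e4 : K * (1 + (2 * d * A₁) ^ (2 - e)) / d ^ 2 =
      K * (1 / d ^ 2) + K * ((2 * d * A₁) ^ (2 - e) / d ^ 2) := by ring
  rw [e4, e1, e2, e3]
  ring

/-- the power of the small quotient -/
theorem gfarb_pow {e x y : ℝ} (hx : 0 < x) (hx1 : x ≤ 1) (hy : 0 < y) (hxy : y⁻¹ ≤ x) :
    x ^ (e - 2) ≤ 1 + y ^ (2 - e) := by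
  rcases le_or_gt 2 e with h | h
  · have h1 : x ^ (e - 2) ≤ 1 := rpow_le_one hx.le hx1 (by linarith)
    have h2 : 0 ≤ y ^ (2 - e) := rpow_nonneg hy.le _
    linarith
  · have h1 : x ^ (e - 2) = (x⁻¹) ^ (2 - e) := by
      rw [inv_rpow hx.le, ← rpow_neg hx.le]
      congr 1
      ring
    have h2 : x⁻¹ ≤ y := by
      rw [inv_le_comm₀ hx hy]
      exact hxy
    have h3 : (x⁻¹) ^ (2 - e) ≤ y ^ (2 - e) := rpow_le_rpow (by positivity) h2 (by linarith)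
    rw [h1]
    linarith

/-- the third term -/
theorem gfarb_t3 {e d a f W o q A₀ A₁ E : ℝ} (he : 1 < e) (hd : 0 < d) (ha : 0 < a)
    (hA₀ : 0 < A₀) (hA₁ : 0 < A₁) (hf : A₀ * a ≤ f) (hfu : f ≤ A₁ * a)
    (hWl : a / (2 * d) ≤ W) (hWf : W ≤ f / 2) (ho : f / 2 ≤ o) (hE : 0 ≤ E)
    (hq : |q| ≤ E / d) :
    (e - 1) * W ^ (e - 2) * f ^ (e - 2) * o ^ (1 - 2 * e) * q ^ 2 * a ^ 3 ≤
      ((e - 1) * 2 ^ (2 * e - 1) * A₀⁻¹ ^ 3 * E ^ 2) * (1 + (2 * d * A₁) ^ (2 - e)) / d ^ 2 := by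
  have hf0 : 0 < f := lt_of_lt_of_le (by positivity) hf
  have hW0 : 0 < W := lt_of_lt_of_le (by positivity) hWl
  have ho0 : 0 < o := lt_of_lt_of_le (by positivity) ho
  have hx0 : 0 < W / f := by positivity
  have h1 : (W / f) ^ (e - 2) ≤ 1 + (2 * d * A₁) ^ (2 - e) := by
    refine gfarb_pow hx0 ?_ (by positivity) ?_
    · rw [div_le_one hf0]
      linarith
    · rw [inv_eq_one_div, div_le_div_iff₀ (by positivity) hf0, one_mul]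
      have h2 : a ≤ W * (2 * d) := (div_le_iff₀ (by positivity)).1 hWl
      calc f ≤ A₁ * a := hfu
        _ ≤ A₁ * (W * (2 * d)) := mul_le_mul_of_nonneg_left h2 hA₁.le
        _ = W * (2 * d * A₁) := by ring
  have h2 : o ^ (1 - 2 * e) ≤ 2 ^ (2 * e - 1) * f ^ (1 - 2 * e) := by
    have h3 : o ^ (1 - 2 * e) ≤ (f / 2) ^ (1 - 2 * e) :=
      rpow_le_rpow_of_nonpos (by positivity) ho (by linarith)
    have h4 : (f / 2) ^ (1 - 2 * e) = 2 ^ (2 * e - 1) * f ^ (1 - 2 * e) := by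
      rw [div_rpow hf0.le (by norm_num), div_eq_mul_inv, ← rpow_neg (by norm_num), mul_comm]
      congr 2
      ring
    rwa [h4] at h3
  have h3 : W ^ (e - 2) * f ^ (e - 2) * o ^ (1 - 2 * e) ≤
      (1 + (2 * d * A₁) ^ (2 - e)) * 2 ^ (2 * e - 1) * (f ^ 3)⁻¹ := by
    have h4 : W ^ (e - 2) = (W / f) ^ (e - 2) * f ^ (e - 2) := by
      rw [← mul_rpow hx0.le hf0.le]
      congr 1
      field_simp
    have h5 : f ^ (e - 2) * f ^ (e - 2) * f ^ (1 - 2 * e) = (f ^ 3)⁻¹ := by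
      rw [← rpow_add hf0, ← rpow_add hf0, ← rpow_natCast f 3, ← rpow_neg hf0.le]
      congr 1
      push_cast
      ring
    calc W ^ (e - 2) * f ^ (e - 2) * o ^ (1 - 2 * e)
        ≤ W ^ (e - 2) * f ^ (e - 2) * (2 ^ (2 * e - 1) * f ^ (1 - 2 * e)) :=
          mul_le_mul_of_nonneg_left h2 (by positivity)
      _ = (W / f) ^ (e - 2) * 2 ^ (2 * e - 1) *
          (f ^ (e - 2) * f ^ (e - 2) * f ^ (1 - 2 * e)) := by
          rw [h4]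
          ring
      _ = (W / f) ^ (e - 2) * 2 ^ (2 * e - 1) * (f ^ 3)⁻¹ := by rw [h5]
      _ ≤ (1 + (2 * d * A₁) ^ (2 - e)) * 2 ^ (2 * e - 1) * (f ^ 3)⁻¹ := by
          refine mul_le_mul_of_nonneg_right (mul_le_mul_of_nonneg_right h1 (by positivity))
            (by positivity)
  have h4 : q ^ 2 ≤ E ^ 2 / d ^ 2 := by
    rw [← div_pow, ← sq_abs]
    exact pow_le_pow_left₀ (abs_nonneg _) hq 2
  have h5 : (f ^ 3)⁻¹ * a ^ 3 ≤ A₀⁻¹ ^ 3 := by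
    have h6 : (f ^ 3)⁻¹ * a ^ 3 = (a / f) ^ 3 := by
      field_simp
    rw [h6]
    refine pow_le_pow_left₀ (by positivity) ?_ 3
    rw [inv_eq_one_div, div_le_div_iff₀ hf0 hA₀]
    linarith
  have hY : 0 ≤ 1 + (2 * d * A₁) ^ (2 - e) := by positivity
  have he1 : 0 ≤ e - 1 := by linarith
  calc (e - 1) * W ^ (e - 2) * f ^ (e - 2) * o ^ (1 - 2 * e) * q ^ 2 * a ^ 3
      = (e - 1) * (W ^ (e - 2) * f ^ (e - 2) * o ^ (1 - 2 * e)) * q ^ 2 * a ^ 3 := by ring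
    _ ≤ (e - 1) * ((1 + (2 * d * A₁) ^ (2 - e)) * 2 ^ (2 * e - 1) * (f ^ 3)⁻¹) *
        (E ^ 2 / d ^ 2) * a ^ 3 := by
        refine mul_le_mul_of_nonneg_right (mul_le_mul (mul_le_mul_of_nonneg_left h3 he1) h4
          (by positivity) (by positivity)) (by positivity)
    _ = (e - 1) * (1 + (2 * d * A₁) ^ (2 - e)) * 2 ^ (2 * e - 1) * (E ^ 2 / d ^ 2) *
        ((f ^ 3)⁻¹ * a ^ 3) := by ring
    _ ≤ (e - 1) * (1 + (2 * d * A₁) ^ (2 - e)) * 2 ^ (2 * e - 1) * (E ^ 2 / d ^ 2) *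
        A₀⁻¹ ^ 3 := mul_le_mul_of_nonneg_left h5 (by positivity)
    _ = _ := by ring

/-- the bounds in terms of real numbers -/
theorem gfarb_core {e d a f f2 W r o q A₀ A₁ C₂ R₀ R₁ E : ℝ} (he : 1 < e) (hd : 0 < d)
    (ha : 0 < a) (hA₀ : 0 < A₀) (hA₁ : 0 < A₁) (hR₀ : 0 < R₀) (hf : A₀ * a ≤ f)
    (hfu : f ≤ A₁ * a)
    (hWl : a / (2 * d) ≤ W) (hWu : W ≤ a / d) (hWf : W ≤ f / 2) (ho : f / 2 ≤ o) (ho2 : o ≤ f)
    (hE : 0 ≤ E) (hq : |q| ≤ E / d) (hr0 : 0 ≤ r) (hr : r * a ^ 3 ≤ C₂)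
    (hl : R₀ ≤ f2 * a ^ 3) (hu : f2 * a ^ 3 ≤ R₁)
    (hs : (2 / (d * A₀)) ^ (e - 1) * C₂ + ((e - 1) * 2 ^ (2 * e - 1) * A₀⁻¹ ^ 3 * E ^ 2) *
      (1 + (2 * d * A₁) ^ (2 - e)) / d ^ 2 < R₀) :
    0 < (f / o) ^ (e - 1) * f2 - (W / o) ^ (e - 1) * r -
      (e - 1) * W ^ (e - 2) * f ^ (e - 2) * o ^ (1 - 2 * e) * q ^ 2 ∧
    ((f / o) ^ (e - 1) * f2 - (W / o) ^ (e - 1) * r -
      (e - 1) * W ^ (e - 2) * f ^ (e - 2) * o ^ (1 - 2 * e) * q ^ 2) * a ^ 3 ≤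
      2 ^ (e - 1) * R₁ := by
  have hf0 : 0 < f := lt_of_lt_of_le (by positivity) hf
  have hW0 : 0 < W := lt_of_lt_of_le (by positivity) hWl
  have ho0 : 0 < o := lt_of_lt_of_le (by positivity) ho
  have ha3 : 0 < a ^ 3 := by positivity
  have h3 := gfarb_t3 he hd ha hA₀ hA₁ hf hfu hWl hWf ho hE hq
  have h30 : 0 ≤ (e - 1) * W ^ (e - 2) * f ^ (e - 2) * o ^ (1 - 2 * e) * q ^ 2 := by
    have : 0 ≤ e - 1 := by linarith
    positivity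
  have g1 : 1 ≤ (f / o) ^ (e - 1) :=
    one_le_rpow ((one_le_div ho0).2 ho2) (by linarith)
  have g2 : (f / o) ^ (e - 1) ≤ 2 ^ (e - 1) := by
    refine rpow_le_rpow (by positivity) ?_ (by linarith)
    rw [div_le_iff₀ ho0]
    linarith
  have hf2 : 0 < f2 * a ^ 3 := lt_of_lt_of_le hR₀ hl
  have g3 : (W / o) ^ (e - 1) ≤ (2 / (d * A₀)) ^ (e - 1) := by
    refine rpow_le_rpow (by positivity) ?_ (by linarith)
    rw [div_le_div_iff₀ ho0 (by positivity)]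
    have h4 : W * d ≤ a := (le_div_iff₀ hd).1 hWu
    calc W * (d * A₀) = W * d * A₀ := by ring
      _ ≤ a * A₀ := mul_le_mul_of_nonneg_right h4 hA₀.le
      _ ≤ 2 * o := by linarith
  have g4 : (W / o) ^ (e - 1) * r * a ^ 3 ≤ (2 / (d * A₀)) ^ (e - 1) * C₂ := by
    rw [mul_assoc]
    exact mul_le_mul g3 hr (by positivity) (by positivity)
  have g40 : 0 ≤ (W / o) ^ (e - 1) * r := by positivity
  have g5 : R₀ ≤ (f / o) ^ (e - 1) * f2 * a ^ 3 := by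
    rw [mul_assoc]
    calc R₀ ≤ 1 * (f2 * a ^ 3) := by linarith
      _ ≤ (f / o) ^ (e - 1) * (f2 * a ^ 3) := mul_le_mul_of_nonneg_right g1 hf2.le
  have g6 : (f / o) ^ (e - 1) * f2 * a ^ 3 ≤ 2 ^ (e - 1) * R₁ := by
    rw [mul_assoc]
    exact mul_le_mul g2 hu hf2.le (by positivity)
  constructor
  · refine pos_of_mul_pos_left ?_ ha3.le
    rw [sub_mul, sub_mul]
    linarith
  · rw [sub_mul, sub_mul]
    have k1 := mul_nonneg h30 ha3.le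
    have k2 := mul_nonneg g40 ha3.le
    linarith

/-- Second order bounds. -/
theorem far_b {e κ C₁ C₂ A₀ A₁ B R₀ R₁ : ℝ} (he : 1 < e) (hκ : 0 < κ) (hC₁ : 0 ≤ C₁)
    (hC₂ : 0 ≤ C₂) (hA₀ : 0 < A₀) (hA₁ : A₀ ≤ A₁) (hB : 0 ≤ B) (hR₀ : 0 < R₀) :
    ∃ D, 1 ≤ D ∧ ∀ P, PB P A₀ A₁ B R₀ R₁ → ∀ d, D ≤ d → ∀ S, Far d κ C₁ C₂ S →
      0 < opp2 e d P S ∧ opp2 e d P S * S.a ^ 3 ≤ 2 ^ (e - 1) * R₁ := by
  have hA1' : 0 < A₁ := lt_of_lt_of_le hA₀ hA₁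
  obtain ⟨D₁, hD₁, h1⟩ := far_a (C₁ := C₁) (A₁ := A₁) (B := B) C₂ R₀ R₁ he hκ hA₀
  obtain ⟨D₂, hD₂, h2⟩ := gfarb_small (C₂ := C₂)
    (K := (e - 1) * 2 ^ (2 * e - 1) * A₀⁻¹ ^ 3 * (B + C₁ * A₁) ^ 2) he hA₀ hA1' hR₀
  refine ⟨max D₁ D₂, le_max_of_le_left hD₁, fun P hP d hd S hS => ?_⟩
  obtain ⟨ha, hWl, hWu, hWf, ho, ho2, -, -, -⟩ := h1 P hP d ((le_max_left _ _).trans hd) S hS
  have hd1 : 1 ≤ d := hD₁.trans ((le_max_left _ _).trans hd)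
  have hd0 : 0 < d := by linarith
  have ha0 : 0 < S.a := by linarith
  have hs := h2 d ((le_max_right _ _).trans hd)
  have hE : 0 ≤ B + C₁ * A₁ := by positivity
  have hq : |P.f S.a * S.p d - S.W d * P.f1 S.a| ≤ (B + C₁ * A₁) / d := by
    have e1 : P.f S.a * S.p d - S.W d * P.f1 S.a =
        S.p d * (P.f S.a - S.a * P.f1 S.a) - (S.s * S.a - S.α) / d * P.f1 S.a := by
      unfold St.p St.W
      field_simp
      ring
    have e2 : |S.p d| ≤ 1 / d := by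
      unfold St.p
      rw [abs_div, abs_of_pos hd0]
      refine div_le_div_of_nonneg_right ?_ hd0.le
      rw [abs_le]
      constructor <;> linarith [hS.s0, hS.s1]
    have e3 : |(S.s * S.a - S.α) / d| ≤ C₁ / d := by
      rw [abs_div, abs_of_pos hd0]
      exact div_le_div_of_nonneg_right hS.c0 hd0.le
    have e4 : |P.f1 S.a| ≤ A₁ := by
      rw [abs_of_pos (lt_of_lt_of_le hA₀ (hP.f1l _ ha))]
      exact hP.f1u _ ha
    rw [e1]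
    refine (abs_sub _ _).trans ?_
    rw [abs_mul, abs_mul]
    have e5 := mul_le_mul e2 (hP.cb _ ha) (abs_nonneg _) (by positivity)
    have e6 := mul_le_mul e3 e4 (abs_nonneg _) (by positivity)
    refine (add_le_add e5 e6).trans (le_of_eq ?_)
    ring
  have hr0 : 0 ≤ S.r d := div_nonneg hS.k0 hd0.le
  have hr : S.r d * S.a ^ 3 ≤ C₂ := by
    unfold St.r
    rw [div_mul_eq_mul_div, div_le_iff₀ hd0]
    exact hS.k1
  exact gfarb_core he hd0 ha0 hA₀ hA1' hR₀ (hP.fl _ ha) (hP.fu _ ha) hWl hWu hWf ho ho2 hE hq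
    hr0 hr (hP.f2l _ ha) (hP.f2u _ ha) hs

end CG
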