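import Pool.Agent.H.MP_1693ff_gtB.GDefs
import Pool.Agent.H.MP_1693ff_gt.PieceD

/-!
# Gluing: the curve
-/

namespace CG

open Real Set Filter Topology CF

/-- the relation of the reflected curve `(-α, a)`, slope `1/s` -/
theorem gglueb_refl {a α s a' α' s' : ℝ} (hs : 0 < s) (hs' : 0 < s')
    (h : RelG a (-α) s a' (-α') s') : RelG (-α') a' s'⁻¹ (-α) a s⁻¹ := by
  obtain ⟨h1, h2, h3, h4⟩ := h
  have h5 : 0 ≤ s' * (a' - a) := mul_nonneg hs'.le (by linarith)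
  have e1 : s'⁻¹ * (s' * (a' - a)) = a' - a := by field_simp
  have e2 : s⁻¹ * (s * (a' - a)) = a' - a := by field_simp
  refine ⟨by linarith, (inv_le_inv₀ hs hs').2 h2, ?_, ?_⟩
  · have := mul_le_mul_of_nonneg_left (show s' * (a' - a) ≤ α' - α by linarith)
      (inv_nonneg.2 hs'.le)
    rw [e1] at this
    linarith
  · have := mul_le_mul_of_nonneg_left (show α' - α ≤ s * (a' - a) by linarith)
      (inv_nonneg.2 hs.le)
    rw [e2] at this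
    linarith

/-- the relation of the curve `(α, -a)`, slope `1/s` -/
theorem gglueb_H1 {a α s a' α' s' : ℝ} (hs : 0 < s) (hs' : 0 < s')
    (h : RelG a (-α) s a' (-α') s') : RelH α (-a) s⁻¹ α' (-a') s'⁻¹ := by
  obtain ⟨h1, h2, h3, h4⟩ := h
  have h5 : 0 ≤ s' * (a' - a) := mul_nonneg hs'.le (by linarith)
  have e1 : s'⁻¹ * (s' * (a' - a)) = a' - a := by field_simp
  have e2 : s⁻¹ * (s * (a' - a)) = a' - a := by field_simp
  refine ⟨by linarith, (inv_le_inv₀ hs hs').2 h2, ?_, ?_⟩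
  · have := mul_le_mul_of_nonneg_left (show s' * (a' - a) ≤ α' - α by linarith)
      (inv_nonneg.2 hs'.le)
    rw [e1] at this
    linarith
  · have := mul_le_mul_of_nonneg_left (show α' - α ≤ s * (a' - a) by linarith)
      (inv_nonneg.2 hs.le)
    rw [e2] at this
    linarith

/-- the relation of the curve `(-a, α)`, slope `s` -/
theorem gglueb_H2 {a α s a' α' s' : ℝ}
    (h : RelG a (-α) s a' (-α') s') : RelH (-a') α' s' (-a) α s := by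
  obtain ⟨h1, h2, h3, h4⟩ := h
  exact ⟨by linarith, h2, by linarith, by linarith⟩

theorem gglueb_inv {c C s : ℝ} (hc : 0 < c) (hcC : c ≤ C) (h1 : C ≤ s) (h2 : s ≤ C⁻¹) :
    c ≤ s ∧ c ≤ s⁻¹ ∧ s ≤ c⁻¹ ∧ s⁻¹ ≤ c⁻¹ := by
  have hC : 0 < C := lt_of_lt_of_le hc hcC
  have hs : 0 < s := lt_of_lt_of_le hC h1
  have h3 : C⁻¹ ≤ c⁻¹ := (inv_le_inv₀ hC hc).2 hcC
  have h4 : s⁻¹ ≤ C⁻¹ := (inv_le_inv₀ hs hC).2 h1
  have h5 : C ≤ s⁻¹ := by
    have := (inv_le_inv₀ (inv_pos.2 hC) hs).2 h2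
    rwa [inv_inv] at this
  exact ⟨hcC.trans h1, hcC.trans h5, h2.trans h3, h4.trans h3⟩

theorem gglueb_div {a α s c C : ℝ} (hc : 0 < c) (hs : c ≤ s) (h : |s * a - α| ≤ C) :
    |a - s⁻¹ * α| ≤ C * c⁻¹ := by
  have hs0 : 0 < s := lt_of_lt_of_le hc hs
  have h1 : a - s⁻¹ * α = (s * a - α) * s⁻¹ := by
    field_simp
  rw [h1, abs_mul, abs_of_pos (inv_pos.2 hs0)]
  exact mul_le_mul h ((inv_le_inv₀ hs0 hc).2 hs) (inv_pos.2 hs0).le ((abs_nonneg _).trans h)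

theorem gglueb_cont {f : ℝ → ℝ} (h1 : ContinuousOn f (Ici 0)) (h2 : ContinuousOn f (Iic 0)) :
    Continuous f := by
  rw [← continuousOn_univ, ← Iic_union_Ici (a := (0 : ℝ))]
  exact h2.union_of_isClosed h1 isClosed_Iic isClosed_Ici

/-- Everything except the chord relations.
`relG`: both parameters `≥ 0`: `H₁.rel`. Both `≤ 1`: `H₃.rel` at `σ = 1-τ' ≤ σ' = 1-τ`; with
`Δa = a(σ')-a(σ)`, `Δα = α(σ')-α(σ)` it says `s(σ')Δa ≤ Δα ≤ s(σ)Δa`, and `x τ' - x τ = Δα`,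
`y τ' - y τ = -Δa`, slopes `1/s`. Otherwise `RelG.trans` at `0`.
`relH`: both `≥ -1`: `H₂.rel` (`x = α`, `yH = -a`, `sH = 1/s`); both `≤ 0`: `H₄.rel`
(`x = -a(-τ)`, `yH = α(-τ)`, `sH = s(-τ)`); otherwise `RelH.trans` at `0`.
`xmono`: `H₁.mono` on `[0,∞)`, `H₄.mono` (by `l2`) on `(-∞,0]`.
`cx`: `Z₁.a` on `[0,∞)`, `-Z₄.a(-τ)` on `(-∞,0]`; `cy`: `-Z₁.α`, `Z₃.a(1-τ)`.
`ytop`: for `τ ≥ 1`, `y τ = yH (τ-2)`... simply `y (τ+2) = yH τ = -(Z₂ (τ+1)).a → -∞`.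
`o1`: `H₁.one`; `o2`: `H₂.one` at `τ+1 ∈ [0,1]`; `o3`, `o4`: `s 1`, `s 0`; `o5`: `sH (-1) =
1/(Z₂ 0).s < 1`; `o6`: `sH 0 = 1/(Z₂ 1).s > 1`.
`ib`: `y + s x = s a - α` (`u1`), `= (s a - α)/s` at `1-τ` (`u2`); `yH + sH x = -(s a - α)/s`
(`l1`), `= -(s a - α)` (`l2`); `H.cb`, `H.sb`. -/
theorem gc0 {Z₁ Z₂ Z₃ Z₄ : ℝ → St} {x y s yH sH : ℝ → ℝ} (H₁ : HZ Z₁) (H₂ : HZ Z₂) (H₃ : HZ Z₃)
    (H₄ : HZ Z₄) (b : Br Z₁ Z₂ Z₃ Z₄ x y s yH sH) : GC0 x y s yH sH := by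
  have hrelG1 : ∀ τ τ', 0 ≤ τ → τ ≤ τ' → RelG (x τ) (y τ) (s τ) (x τ') (y τ') (s τ') := by
    intro τ τ' h0 h
    obtain ⟨a1, a2, a3⟩ := b.u1 τ h0
    obtain ⟨b1, b2, b3⟩ := b.u1 τ' (h0.trans h)
    rw [a1, a2, a3, b1, b2, b3]
    exact H₁.rel τ τ' h0 h
  have hrelG2 : ∀ τ τ', τ' ≤ 1 → τ ≤ τ' → RelG (x τ) (y τ) (s τ) (x τ') (y τ') (s τ') := by
    intro τ τ' h0 h
    obtain ⟨a1, a2, a3⟩ := b.u2 τ (h.trans h0)
    obtain ⟨b1, b2, b3⟩ := b.u2 τ' h0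
    rw [a1, a2, a3, b1, b2, b3]
    exact gglueb_refl (H₃.s0 _ (by linarith)) (H₃.s0 _ (by linarith))
      (H₃.rel (1 - τ') (1 - τ) (by linarith) (by linarith))
  have hrelH1 : ∀ τ τ', -1 ≤ τ → τ ≤ τ' →
      RelH (x τ) (yH τ) (sH τ) (x τ') (yH τ') (sH τ') := by
    intro τ τ' h0 h
    obtain ⟨a1, a2, a3⟩ := b.l1 τ h0
    obtain ⟨b1, b2, b3⟩ := b.l1 τ' (h0.trans h)
    rw [a1, a2, a3, b1, b2, b3]
    exact gglueb_H1 (H₂.s0 _ (by linarith)) (H₂.s0 _ (by linarith))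
      (H₂.rel (τ + 1) (τ' + 1) (by linarith) (by linarith))
  have hrelH2 : ∀ τ τ', τ' ≤ 0 → τ ≤ τ' →
      RelH (x τ) (yH τ) (sH τ) (x τ') (yH τ') (sH τ') := by
    intro τ τ' h0 h
    obtain ⟨a1, a2, a3⟩ := b.l2 τ (h.trans h0)
    obtain ⟨b1, b2, b3⟩ := b.l2 τ' h0
    rw [a1, a2, a3, b1, b2, b3]
    exact gglueb_H2 (H₄.rel (-τ') (-τ) (by linarith) (by linarith))
  refine
    { cx := ?_, cy := ?_, xmono := ?_, s0 := ?_, sH0 := ?_, sh := b.sh, relG := ?_, relH := ?_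
      pos := ?_, neg := ?_, xtop := ?_, xbot := ?_, ytop := ?_, ybot := ?_
      o1 := ?_, o2 := ?_, o3 := ?_, o4 := ?_, o5 := ?_, o6 := ?_, sb := ?_, ib := ?_ }
  · -- cx
    apply gglueb_cont
    · exact H₁.ca.congr fun τ hτ => (b.u1 τ hτ).1
    · have h1 : ContinuousOn (fun τ : ℝ => -(Z₄ (-τ)).a) (Iic 0) :=
        (H₄.ca.comp continuous_neg.continuousOn
          (fun τ hτ => by
            have : τ ≤ 0 := hτ
            show (0 : ℝ) ≤ -τ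
            linarith)).neg
      exact h1.congr fun τ hτ => (b.l2 τ hτ).1
  · -- cy
    apply gglueb_cont
    · exact H₁.cα.neg.congr fun τ hτ => (b.u1 τ hτ).2.1
    · have h1 : ContinuousOn (fun τ : ℝ => (Z₃ (1 - τ)).a) (Iic 0) :=
        H₃.ca.comp (continuous_const.sub continuous_id).continuousOn
          (fun τ hτ => by
            have : τ ≤ 0 := hτ
            show (0 : ℝ) ≤ 1 - τ
            linarith)
      exact h1.congr fun τ hτ => (b.u2 τ (le_trans hτ (by norm_num))).2.1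
  · -- xmono
    refine StrictMonoOn.Iic_union_Ici (a := (0 : ℝ)) ?_ ?_
    · intro τ hτ τ' hτ' h
      have h1 : τ ≤ 0 := hτ
      have h2 : τ' ≤ 0 := hτ'
      rw [(b.l2 τ h1).1, (b.l2 τ' h2).1]
      have := H₄.mono (show (0 : ℝ) ≤ -τ' by linarith) (show (0 : ℝ) ≤ -τ by linarith)
        (show -τ' < -τ by linarith)
      simp only at this
      linarith
    · intro τ hτ τ' hτ' h
      rw [(b.u1 τ hτ).1, (b.u1 τ' hτ').1]
      exact H₁.mono hτ hτ' h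
  · -- s0
    intro τ
    rcases le_total 0 τ with h | h
    · rw [(b.u1 τ h).2.2]
      exact H₁.s0 τ h
    · rw [(b.u2 τ (by linarith)).2.2]
      exact inv_pos.2 (H₃.s0 _ (by linarith))
  · -- sH0
    intro τ
    rcases le_total (-1) τ with h | h
    · rw [(b.l1 τ h).2.2]
      exact inv_pos.2 (H₂.s0 _ (by linarith))
    · rw [(b.l2 τ (by linarith)).2.2]
      exact H₄.s0 _ (by linarith)
  · -- relG
    intro τ τ' h
    rcases le_total 0 τ with h1 | h1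
    · exact hrelG1 τ τ' h1 h
    rcases le_total τ' 1 with h2 | h2
    · exact hrelG2 τ τ' h2 h
    · exact (hrelG2 τ 0 (by norm_num) h1).trans (hrelG1 0 τ' le_rfl (by linarith))
  · -- relH
    intro τ τ' h
    rcases le_total (-1) τ with h1 | h1
    · exact hrelH1 τ τ' h1 h
    rcases le_total τ' 0 with h2 | h2
    · exact hrelH2 τ τ' h2 h
    · exact (hrelH2 τ 0 le_rfl (by linarith)).trans (hrelH1 0 τ' (by norm_num) h2)
  · -- pos
    intro τ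
    rcases le_total 0 τ with h | h
    · rw [(b.u1 τ h).1, (b.u1 τ h).2.1]
      have := H₁.pos τ h
      linarith
    · rw [(b.u2 τ (by linarith)).1, (b.u2 τ (by linarith)).2.1]
      have := H₃.pos (1 - τ) (by linarith)
      linarith
  · -- neg
    intro τ
    rcases le_total (-1) τ with h | h
    · rw [(b.l1 τ h).1, (b.l1 τ h).2.1]
      have := H₂.pos (τ + 1) (by linarith)
      linarith
    · rw [(b.l2 τ (by linarith)).1, (b.l2 τ (by linarith)).2.1]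
      have := H₄.pos (-τ) (by linarith)
      linarith
  · -- xtop
    refine H₁.top.congr' ?_
    filter_upwards [eventually_ge_atTop (0 : ℝ)] with τ hτ
    exact ((b.u1 τ hτ).1).symm
  · -- xbot
    have h1 : Tendsto (fun τ : ℝ => -(Z₄ (-τ)).a) atBot atBot :=
      tendsto_neg_atTop_atBot.comp (H₄.top.comp tendsto_neg_atBot_atTop)
    refine h1.congr' ?_
    filter_upwards [eventually_le_atBot (0 : ℝ)] with τ hτ
    exact ((b.l2 τ hτ).1).symm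
  · -- ytop
    have h1 : Tendsto (fun τ : ℝ => -(Z₂ (τ - 2 + 1)).a) atTop atBot := by
      refine tendsto_neg_atTop_atBot.comp (H₂.top.comp ?_)
      exact tendsto_atTop_add_const_right _ _ (tendsto_atTop_add_const_right _ _ tendsto_id)
    refine h1.congr' ?_
    filter_upwards [eventually_ge_atTop (1 : ℝ)] with τ hτ
    have h2 := b.sh (τ - 2)
    rw [sub_add_cancel] at h2
    rw [← h2]
    exact ((b.l1 (τ - 2) (by linarith)).2.1).symm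
  · -- ybot
    have h1 : Tendsto (fun τ : ℝ => (Z₃ (1 - τ)).a) atBot atTop := by
      refine H₃.top.comp ?_
      exact tendsto_atTop_add_const_left _ _ tendsto_neg_atBot_atTop
    refine h1.congr' ?_
    filter_upwards [eventually_le_atBot (0 : ℝ)] with τ hτ
    exact ((b.u2 τ (by linarith)).2.1).symm
  · -- o1
    obtain ⟨τ, hτ, h⟩ := H₁.one
    exact ⟨τ, by rw [(b.u1 τ hτ.1).2.2, h]⟩
  · -- o2
    obtain ⟨τ, hτ, h⟩ := H₂.one
    refine ⟨τ - 1, ?_⟩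
    rw [(b.l1 (τ - 1) (by linarith [hτ.1])).2.2, sub_add_cancel, h, inv_one]
  · -- o3
    exact ⟨1, by rw [(b.u1 1 (by norm_num)).2.2]; exact H₁.lt⟩
  · -- o4
    exact ⟨0, by rw [(b.u1 0 le_rfl).2.2]; exact H₁.gt⟩
  · -- o5
    refine ⟨-1, ?_⟩
    rw [(b.l1 (-1) le_rfl).2.2, neg_add_cancel]
    exact inv_lt_one_of_one_lt₀ H₂.gt
  · -- o6
    refine ⟨0, ?_⟩
    rw [(b.l1 0 (by norm_num)).2.2, zero_add]
    exact (one_lt_inv₀ (H₂.s0 1 (by norm_num))).2 H₂.lt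
  · -- sb
    obtain ⟨c₁, h₁, k₁⟩ := H₁.sb
    obtain ⟨c₂, h₂, k₂⟩ := H₂.sb
    obtain ⟨c₃, h₃, k₃⟩ := H₃.sb
    obtain ⟨c₄, h₄, k₄⟩ := H₄.sb
    have hc : 0 < min (min c₁ c₂) (min c₃ c₄) := lt_min (lt_min h₁ h₂) (lt_min h₃ h₄)
    have g₁ : min (min c₁ c₂) (min c₃ c₄) ≤ c₁ := (min_le_left _ _).trans (min_le_left _ _)
    have g₂ : min (min c₁ c₂) (min c₃ c₄) ≤ c₂ := (min_le_left _ _).trans (min_le_right _ _)
    have g₃ : min (min c₁ c₂) (min c₃ c₄) ≤ c₃ := (min_le_right _ _).trans (min_le_left _ _)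
    have g₄ : min (min c₁ c₂) (min c₃ c₄) ≤ c₄ := (min_le_right _ _).trans (min_le_right _ _)
    refine ⟨_, hc, fun τ => ?_⟩
    have p1 : min (min c₁ c₂) (min c₃ c₄) ≤ s τ ∧ s τ ≤ (min (min c₁ c₂) (min c₃ c₄))⁻¹ := by
      rcases le_total 0 τ with h | h
      · rw [(b.u1 τ h).2.2]
        obtain ⟨q1, q2⟩ := k₁ τ h
        obtain ⟨r1, -, r3, -⟩ := gglueb_inv hc g₁ q1 q2
        exact ⟨r1, r3⟩
      · rw [(b.u2 τ (by linarith)).2.2]
        obtain ⟨q1, q2⟩ := k₃ (1 - τ) (by linarith)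
        obtain ⟨-, r2, -, r4⟩ := gglueb_inv hc g₃ q1 q2
        exact ⟨r2, r4⟩
    have p2 : min (min c₁ c₂) (min c₃ c₄) ≤ sH τ ∧ sH τ ≤ (min (min c₁ c₂) (min c₃ c₄))⁻¹ := by
      rcases le_total (-1) τ with h | h
      · rw [(b.l1 τ h).2.2]
        obtain ⟨q1, q2⟩ := k₂ (τ + 1) (by linarith)
        obtain ⟨-, r2, -, r4⟩ := gglueb_inv hc g₂ q1 q2
        exact ⟨r2, r4⟩
      · rw [(b.l2 τ (by linarith)).2.2]
        obtain ⟨q1, q2⟩ := k₄ (-τ) (by linarith)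
        obtain ⟨r1, -, r3, -⟩ := gglueb_inv hc g₄ q1 q2
        exact ⟨r1, r3⟩
    exact ⟨p1.1, p2.1, p1.2, p2.2⟩
  · -- ib
    obtain ⟨c₂, h₂, k₂⟩ := H₂.sb
    obtain ⟨c₃, h₃, k₃⟩ := H₃.sb
    obtain ⟨C₁, m₁⟩ := H₁.cb
    obtain ⟨C₂, m₂⟩ := H₂.cb
    obtain ⟨C₃, m₃⟩ := H₃.cb
    obtain ⟨C₄, m₄⟩ := H₄.cb
    have n₁ : 0 ≤ C₁ := (abs_nonneg _).trans (m₁ 0 le_rfl)
    have n₂ : 0 ≤ C₂ * c₂⁻¹ :=
      mul_nonneg ((abs_nonneg _).trans (m₂ 0 le_rfl)) (inv_pos.2 h₂).le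
    have n₃ : 0 ≤ C₃ * c₃⁻¹ :=
      mul_nonneg ((abs_nonneg _).trans (m₃ 0 le_rfl)) (inv_pos.2 h₃).le
    have n₄ : 0 ≤ C₄ := (abs_nonneg _).trans (m₄ 0 le_rfl)
    refine ⟨C₁ + C₂ * c₂⁻¹ + C₃ * c₃⁻¹ + C₄, fun τ => ⟨?_, ?_⟩⟩
    · rcases le_total 0 τ with h | h
      · obtain ⟨a1, a2, a3⟩ := b.u1 τ h
        have e1 : y τ + s τ * x τ = (Z₁ τ).s * (Z₁ τ).a - (Z₁ τ).α := by
          rw [a1, a2, a3]
          ring
        rw [e1]
        have := m₁ τ h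
        linarith
      · obtain ⟨a1, a2, a3⟩ := b.u2 τ (by linarith)
        have e1 : y τ + s τ * x τ = (Z₃ (1 - τ)).a - (Z₃ (1 - τ)).s⁻¹ * (Z₃ (1 - τ)).α := by
          rw [a1, a2, a3]
          ring
        rw [e1]
        have := gglueb_div h₃ (k₃ (1 - τ) (by linarith)).1 (m₃ (1 - τ) (by linarith))
        linarith
    · rcases le_total (-1) τ with h | h
      · obtain ⟨a1, a2, a3⟩ := b.l1 τ h
        have e1 : yH τ + sH τ * x τ =
            -((Z₂ (τ + 1)).a - (Z₂ (τ + 1)).s⁻¹ * (Z₂ (τ + 1)).α) := by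
          rw [a1, a2, a3]
          ring
        rw [e1, abs_neg]
        have := gglueb_div h₂ (k₂ (τ + 1) (by linarith)).1 (m₂ (τ + 1) (by linarith))
        linarith
      · obtain ⟨a1, a2, a3⟩ := b.l2 τ (by linarith)
        have e1 : yH τ + sH τ * x τ = -((Z₄ (-τ)).s * (Z₄ (-τ)).a - (Z₄ (-τ)).α) := by
          rw [a1, a2, a3]
          ring
        rw [e1, abs_neg]
        have := m₄ (-τ) (by linarith)
        linarith

end CG
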