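import Pool.Agent.H.MP_1693ff_gtB.GHalf

/-!
# The half curve: all properties
-/

namespace CG

open Real Set Filter Topology CF

/-- chaining a property along the pieces `[n, n+1]`. -/
theorem ghalfb_chain {P : ℝ → ℝ → Prop}
    (htr : ∀ a b c, a ≤ b → b ≤ c → P a b → P b c → P a c)
    (hp : ∀ n : ℕ, ∀ t ∈ Icc (n : ℝ) (n + 1), ∀ t' ∈ Icc (n : ℝ) (n + 1),
      t ≤ t' → P t t') {t t' : ℝ} (ht : 0 ≤ t) (htt : t ≤ t') : P t t' := by
  have key : ∀ N : ℕ, ∀ t t' : ℝ, 0 ≤ t → t ≤ t' → t' ≤ (N : ℝ) + 1 → P t t' := by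
    intro N
    induction N with
    | zero =>
      intro t t' h1 h2 h3
      have h3' : t' ≤ 1 := by simpa using h3
      exact hp 0 t ⟨by push_cast; linarith, by push_cast; linarith⟩ t'
        ⟨by push_cast; linarith, by push_cast; linarith⟩ h2
    | succ N ih =>
      intro t t' h1 h2 h3
      push_cast at h3
      by_cases hc : t' ≤ (N : ℝ) + 1
      · exact ih t t' h1 h2 hc
      · push Not at hc
        by_cases hd : (N : ℝ) + 1 ≤ t
        · exact hp (N + 1) t ⟨by push_cast; linarith, by push_cast; linarith⟩ t'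
            ⟨by push_cast; linarith, by push_cast; linarith⟩ h2
        · push Not at hd
          refine htr t ((N : ℝ) + 1) t' hd.le hc.le (ih t _ h1 hd.le le_rfl) ?_
          exact hp (N + 1) _ ⟨by push_cast; linarith, by push_cast; linarith⟩ t'
            ⟨by push_cast; linarith, by push_cast; linarith⟩ hc.le
  obtain ⟨N, hN⟩ := exists_nat_ge t'
  exact key N t t' ht htt (by linarith)

/-- gluing of continuous pieces. -/
theorem ghalfb_cont {f : ℝ → ℝ}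
    (hp : ∀ n : ℕ, ContinuousOn f (Icc (n : ℝ) (n + 1))) :
    ContinuousOn f (Ici 0) := by
  have key : ∀ N : ℕ, ContinuousOn f (Icc 0 ((N : ℝ) + 1)) := by
    intro N
    induction N with
    | zero =>
      have h := hp 0
      norm_num at h
      norm_num
      exact h
    | succ N ih =>
      have h : Icc (0 : ℝ) (((N + 1 : ℕ) : ℝ) + 1) =
          Icc 0 ((N : ℝ) + 1) ∪ Icc (((N + 1 : ℕ) : ℝ)) (((N + 1 : ℕ) : ℝ) + 1) := by
        have h1 : ((N + 1 : ℕ) : ℝ) = (N : ℝ) + 1 := by push_cast; ring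
        have h0 : (0 : ℝ) ≤ N := Nat.cast_nonneg N
        rw [h1, Icc_union_Icc_eq_Icc (by linarith) (by linarith)]
      rw [h]
      exact ih.union_of_isClosed (hp (N + 1)) isClosed_Icc isClosed_Icc
  intro t ht
  obtain ⟨N, hN⟩ := exists_nat_ge t
  have h0 : (0 : ℝ) ≤ N := Nat.cast_nonneg N
  have h1 : ContinuousWithinAt f (Icc 0 ((N : ℝ) + 1)) t :=
    key N t ⟨ht, by linarith⟩
  refine h1.mono_of_mem_nhdsWithin ?_
  have h2 : Iio ((N : ℝ) + 1) ∈ 𝓝 t := Iio_mem_nhds (by linarith)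
  have h3 : Ici (0 : ℝ) ∩ Iio ((N : ℝ) + 1) ∈ 𝓝[Ici 0] t :=
    inter_mem_nhdsWithin _ h2
  exact mem_of_superset h3 (fun y hy => ⟨hy.1, hy.2.le⟩)

/-- the chain that gives `ZZ` on `[n, n+1]`. -/
noncomputable def ghalfb_ch (e d : ℝ) (h k : ℝ → ℝ) (n : ℕ) (t : ℝ) : St :=
  if Even n then chain e d h k n t else chain e d k h n t

theorem ghalfb_piece {e d κ C₁ C₂ : ℝ} {h k : ℝ → ℝ} (D : DK e d κ C₁ C₂ h k) (n : ℕ) {τ : ℝ}
    (hτ : τ ∈ Icc (n : ℝ) (n + 1)) :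
    (ZZ e d h k τ).α = (ghalfb_ch e d h k n (τ - n)).α ∧
    (ZZ e d h k τ).a = (ghalfb_ch e d h k n (τ - n)).a ∧
    (ZZ e d h k τ).s = (ghalfb_ch e d h k n (τ - n)).s := by
  have h1 : τ - n ∈ Icc (0 : ℝ) 1 := ⟨by linarith [hτ.1], by linarith [hτ.2]⟩
  have h2 := zz_piece D n h1
  rw [add_sub_cancel] at h2
  exact h2

theorem ghalfb_mem {n : ℕ} {τ : ℝ} (hτ : τ ∈ Icc (n : ℝ) (n + 1)) : τ - n ∈ Icc (0 : ℝ) 1 :=
  ⟨by linarith [hτ.1], by linarith [hτ.2]⟩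

theorem ghalfb_ch_cont {e d κ C₁ C₂ : ℝ} {h k : ℝ → ℝ} (D : DK e d κ C₁ C₂ h k) (n : ℕ) :
    ContinuousOn (fun t => (ghalfb_ch e d h k n t).a) (Icc 0 1) ∧
    ContinuousOn (fun t => (ghalfb_ch e d h k n t).α) (Icc 0 1) ∧
    ContinuousOn (fun t => (ghalfb_ch e d h k n t).s) (Icc 0 1) := by
  unfold ghalfb_ch
  by_cases hn : Even n
  · simp only [hn, if_true]
    exact chain_cont D n
  · simp only [hn, if_false]
    exact chain_cont D.swap n

theorem ghalfb_ch_rel {e d κ C₁ C₂ : ℝ} {h k : ℝ → ℝ} (D : DK e d κ C₁ C₂ h k) (n : ℕ)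
    {t t' : ℝ} (ht : t ∈ Icc (0 : ℝ) 1) (ht' : t' ∈ Icc (0 : ℝ) 1) (htt : t ≤ t') :
    RelG (ghalfb_ch e d h k n t).a (-(ghalfb_ch e d h k n t).α) (ghalfb_ch e d h k n t).s
      (ghalfb_ch e d h k n t').a (-(ghalfb_ch e d h k n t').α) (ghalfb_ch e d h k n t').s ∧
    (t < t' → (ghalfb_ch e d h k n t).a < (ghalfb_ch e d h k n t').a) := by
  unfold ghalfb_ch
  by_cases hn : Even n
  · simp only [hn, if_true]
    exact chain_rel D n ht ht' htt
  · simp only [hn, if_false]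
    exact chain_rel D.swap n ht ht' htt

/-- growth of the chain. -/
theorem ghalfb_grow {e d κ C₁ C₂ : ℝ} {h k : ℝ → ℝ} (D : DK e d κ C₁ C₂ h k) (n : ℕ)
    {t : ℝ} (ht : t ∈ Icc (0 : ℝ) 1) : κ * d * (n + 1) ≤ (chain e d h k (n + 1) t).a := by
  have hκ : 0 < κ * d := mul_pos D.κ0 (by linarith [D.d1])
  induction n with
  | zero =>
    have h1 := (D.far t ht 1 le_rfl).a0
    simpa using h1
  | succ n ih =>
    have h1 := (D.far t ht (n + 1 + 1) (by omega)).α1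
    have h2 : (chain e d h k (n + 1 + 1) t).α = (chain e d h k (n + 1) t).a := rfl
    rw [h2] at h1
    have h0 : (0 : ℝ) ≤ n := Nat.cast_nonneg n
    have h3 : 0 ≤ κ * d * n := mul_nonneg hκ.le h0
    push_cast
    nlinarith

theorem ghalfb_ch_grow {e d κ C₁ C₂ : ℝ} {h k : ℝ → ℝ} (D : DK e d κ C₁ C₂ h k) (n : ℕ)
    {t : ℝ} (ht : t ∈ Icc (0 : ℝ) 1) : κ * d * (n + 1) ≤ (ghalfb_ch e d h k (n + 1) t).a := by
  unfold ghalfb_ch
  by_cases hn : Even (n + 1)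
  · simp only [hn, if_true]
    exact ghalfb_grow D n ht
  · simp only [hn, if_false]
    exact ghalfb_grow D.swap n ht

theorem ghalfb_ch_far {e d κ C₁ C₂ : ℝ} {h k : ℝ → ℝ} (D : DK e d κ C₁ C₂ h k) {n : ℕ}
    (hn : 1 ≤ n) {t : ℝ} (ht : t ∈ Icc (0 : ℝ) 1) : Far d κ C₁ C₂ (ghalfb_ch e d h k n t) := by
  unfold ghalfb_ch
  by_cases hn' : Even n
  · simp only [hn', if_true]
    exact D.far t ht n hn
  · simp only [hn', if_false]
    exact D.far' t ht n hn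

/-- every `τ ≥ 0` is in a piece. -/
theorem ghalfb_floor {τ : ℝ} (hτ : 0 ≤ τ) : τ ∈ Icc ((⌊τ⌋₊ : ℕ) : ℝ) (⌊τ⌋₊ + 1) :=
  ⟨Nat.floor_le hτ, (Nat.lt_floor_add_one τ).le⟩

/-- All properties of the half curve.
Continuity, `mono`, `rel`: on `[n, n+1]` by `zz_piece`, `chain_cont`, `chain_rel` (for `D` or
`D.swap`); then on `[0, N]` by induction and `RelG.trans`. `s0`, `pos` by `zz_good` (`W > 0`).
`top`: by `Far`, `α_{n+1} = a_n ≤ a_{n+1}/2`, so `a ≥ κ d 2^{n-1}` on `[n, n+1]`, `n ≥ 1`.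
`one`: on `[0,1]`, `s` is continuous, `s 0 > 1`, `s 1 < 1` (`zz_arc`, `arc_ends`, `ah`, `ak'`).
`cb`: on `[0,1]` continuity on a compact interval, for `τ ≥ 1` `Far.c0`.
`sb`: lower bound `slb`, `slb'`; upper bound: `s` is antitone (`rel`), so `s ≤ s 0`. -/
theorem half_HZ {e d κ C₁ C₂ : ℝ} {h k : ℝ → ℝ} (D : DK e d κ C₁ C₂ h k) :
    HZ (ZZ e d h k) := by
  have hd : 0 < d := by linarith [D.d1]
  have hκ : 0 < κ * d := mul_pos D.κ0 hd
  have bh : 0 < bb e h := div_pos (Real.rpow_pos_of_pos (by norm_num) _) D.h0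
  have bk : 0 < bb e k := div_pos (Real.rpow_pos_of_pos (by norm_num) _) D.k0
  -- continuity on the pieces
  have hsub : ∀ n : ℕ, MapsTo (fun τ : ℝ => τ - (n : ℝ)) (Icc (n : ℝ) (n + 1))
      (Icc (0 : ℝ) 1) := fun n τ hτ => ghalfb_mem hτ
  have hcs : ∀ n : ℕ, ContinuousOn (fun τ : ℝ => τ - (n : ℝ)) (Icc (n : ℝ) (n + 1)) :=
    fun n => by fun_prop
  have ca : ∀ n : ℕ, ContinuousOn (fun τ => (ZZ e d h k τ).a) (Icc (n : ℝ) (n + 1)) := by
    intro n
    have hc := ((ghalfb_ch_cont D n).1).comp (hcs n) (hsub n)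
    exact hc.congr fun τ hτ => (ghalfb_piece D n hτ).2.1
  have cα : ∀ n : ℕ, ContinuousOn (fun τ => (ZZ e d h k τ).α) (Icc (n : ℝ) (n + 1)) := by
    intro n
    have hc := ((ghalfb_ch_cont D n).2.1).comp (hcs n) (hsub n)
    exact hc.congr fun τ hτ => (ghalfb_piece D n hτ).1
  have cs : ∀ n : ℕ, ContinuousOn (fun τ => (ZZ e d h k τ).s) (Icc (n : ℝ) (n + 1)) := by
    intro n
    have hc := ((ghalfb_ch_cont D n).2.2).comp (hcs n) (hsub n)
    exact hc.congr fun τ hτ => (ghalfb_piece D n hτ).2.2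
  have hI : Icc (((0 : ℕ)) : ℝ) (((0 : ℕ) : ℝ) + 1) = Icc 0 1 := by norm_num
  have ca0 : ContinuousOn (fun τ => (ZZ e d h k τ).a) (Icc 0 1) := hI ▸ ca 0
  have cα0 : ContinuousOn (fun τ => (ZZ e d h k τ).α) (Icc 0 1) := hI ▸ cα 0
  have cs0 : ContinuousOn (fun τ => (ZZ e d h k τ).s) (Icc 0 1) := hI ▸ cs 0
  -- relations on the pieces
  have hrel : ∀ n : ℕ, ∀ τ ∈ Icc (n : ℝ) (n + 1), ∀ τ' ∈ Icc (n : ℝ) (n + 1), τ ≤ τ' →
      RelG (ZZ e d h k τ).a (-(ZZ e d h k τ).α) (ZZ e d h k τ).s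
        (ZZ e d h k τ').a (-(ZZ e d h k τ').α) (ZZ e d h k τ').s ∧
      (τ < τ' → (ZZ e d h k τ).a < (ZZ e d h k τ').a) := by
    intro n τ hτ τ' hτ' hle
    obtain ⟨a1, a2, a3⟩ := ghalfb_piece D n hτ
    obtain ⟨b1, b2, b3⟩ := ghalfb_piece D n hτ'
    rw [a1, a2, a3, b1, b2, b3]
    obtain ⟨c1, c2⟩ := ghalfb_ch_rel D n (ghalfb_mem hτ) (ghalfb_mem hτ')
      (by linarith : τ - (n : ℝ) ≤ τ' - n)
    exact ⟨c1, fun hlt => c2 (by linarith)⟩
  have rel : ∀ τ τ', 0 ≤ τ → τ ≤ τ' →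
      RelG (ZZ e d h k τ).a (-(ZZ e d h k τ).α) (ZZ e d h k τ).s
        (ZZ e d h k τ').a (-(ZZ e d h k τ').α) (ZZ e d h k τ').s := by
    intro τ τ' h0 hle
    exact ghalfb_chain (P := fun τ τ' => RelG (ZZ e d h k τ).a (-(ZZ e d h k τ).α)
        (ZZ e d h k τ).s (ZZ e d h k τ').a (-(ZZ e d h k τ').α) (ZZ e d h k τ').s)
      (fun a b c _ _ h1 h2 => h1.trans h2)
      (fun n t ht t' ht' htt => (hrel n t ht t' ht' htt).1) h0 hle
  -- the ends of the arc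
  obtain ⟨_, _, e0, _, _, e1⟩ := arc_ends (e := e) (d := d) (h := h) (k := k) hd bh bk
  have gt : 1 < (ZZ e d h k 0).s := by
    rw [(zz_arc D (t := 0) ⟨le_rfl, zero_le_one⟩).2.2, e0]
    have : 0 < d * al e h / (2 * bb e h ^ 2) := div_pos (mul_pos hd D.ah) (by positivity)
    linarith
  have lt : (ZZ e d h k 1).s < 1 := by
    rw [(zz_arc D (t := 1) ⟨zero_le_one, le_rfl⟩).2.2, e1]
    have : 0 < d * al e (ng k) / (2 * bb e k ^ 2) := div_pos (mul_pos hd D.ak') (by positivity)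
    exact inv_lt_one_of_one_lt₀ (by linarith)
  refine ⟨ghalfb_cont ca, ghalfb_cont cα, ?_, ?_, ?_, rel, ?_, ?_, lt, gt, ?_, ?_⟩
  · intro τ hτ
    exact (zz_good D hτ).s0
  · -- mono
    intro t ht t' ht' htt
    have := ghalfb_chain (P := fun t t' => t < t' → (ZZ e d h k t).a < (ZZ e d h k t').a)
      (by
        intro a b c hab hbc h1 h2 hac
        rcases lt_or_eq_of_le hab with h | h
        · rcases lt_or_eq_of_le hbc with h' | h'
          · exact (h1 h).trans (h2 h')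
          · rw [← h']; exact h1 h
        · rw [h]; exact h2 (h ▸ hac))
      (fun n t ht t' ht' htt => (hrel n t ht t' ht' htt).2) ht htt.le
    exact this htt
  · -- pos
    intro τ hτ
    have h1 := (zz_good D hτ).W0
    unfold St.W at h1
    rw [div_pos_iff_of_pos_right hd] at h1
    linarith
  · -- top
    refine tendsto_atTop_mono' atTop (f₁ := fun τ : ℝ => κ * d * (τ - 1)) ?_ ?_
    · filter_upwards [eventually_ge_atTop (1 : ℝ)] with τ hτ
      have h0 : 0 ≤ τ := by linarith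
      have h1 : 1 ≤ ⌊τ⌋₊ := by
        rw [Nat.one_le_floor_iff]
        exact hτ
      obtain ⟨m, hm⟩ : ∃ m, ⌊τ⌋₊ = m + 1 := ⟨⌊τ⌋₊ - 1, by omega⟩
      have h2 := ghalfb_floor h0
      rw [(ghalfb_piece D _ h2).2.1]
      have h3 := ghalfb_mem h2
      have h4 := Nat.lt_floor_add_one τ
      rw [hm] at h3 h4 ⊢
      refine le_trans ?_ (ghalfb_ch_grow D m h3)
      push_cast at h4
      exact mul_le_mul_of_nonneg_left (by linarith) hκ.le
    · exact (tendsto_atTop_add_const_right atTop (-1) tendsto_id).const_mul_atTop hκ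
  · -- one
    have h1 := intermediate_value_Icc' zero_le_one cs0
    obtain ⟨τ, hτ, h2⟩ := h1 ⟨lt.le, gt.le⟩
    exact ⟨τ, hτ, h2⟩
  · -- cb
    obtain ⟨C, hC⟩ := isCompact_Icc.exists_bound_of_continuousOn ((cs0.mul ca0).sub cα0)
    refine ⟨max C C₁, ?_⟩
    intro τ hτ
    by_cases h1 : τ ≤ 1
    · have := hC τ ⟨hτ, h1⟩
      rw [Real.norm_eq_abs] at this
      exact le_trans this (le_max_left _ _)
    · push Not at h1
      have h2 : 1 ≤ ⌊τ⌋₊ := by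
        rw [Nat.one_le_floor_iff]
        exact h1.le
      have h3 := ghalfb_floor hτ
      obtain ⟨a1, a2, a3⟩ := ghalfb_piece D _ h3
      rw [a1, a2, a3]
      exact le_trans (ghalfb_ch_far D h2 (ghalfb_mem h3)).c0 (le_max_right _ _)
  · -- sb
    obtain ⟨c1, hc1, H1⟩ := D.slb
    obtain ⟨c2, hc2, H2⟩ := D.slb'
    have hM : 0 < (ZZ e d h k 0).s := by linarith
    refine ⟨min (min c1 c2) ((ZZ e d h k 0).s)⁻¹, lt_min (lt_min hc1 hc2) (inv_pos.2 hM), ?_⟩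
    intro τ hτ
    constructor
    · refine le_trans (min_le_left _ _) ?_
      have h3 := ghalfb_floor hτ
      rw [(ghalfb_piece D _ h3).2.2]
      unfold ghalfb_ch
      by_cases hn : Even ⌊τ⌋₊
      · simp only [hn, if_true]
        exact le_trans (min_le_left _ _) (H1 _ (ghalfb_mem h3) _)
      · simp only [hn, if_false]
        exact le_trans (min_le_right _ _) (H2 _ (ghalfb_mem h3) _)
    · have h1 : (ZZ e d h k τ).s ≤ (ZZ e d h k 0).s := (rel 0 τ le_rfl hτ).2.1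
      refine le_trans h1 ?_
      have h2 : min (min c1 c2) ((ZZ e d h k 0).s)⁻¹ ≤ ((ZZ e d h k 0).s)⁻¹ := min_le_right _ _
      have h3 : 0 < min (min c1 c2) ((ZZ e d h k 0).s)⁻¹ :=
        lt_min (lt_min hc1 hc2) (inv_pos.2 hM)
      calc (ZZ e d h k 0).s = (((ZZ e d h k 0).s)⁻¹)⁻¹ := (inv_inv _).symm
        _ ≤ (min (min c1 c2) ((ZZ e d h k 0).s)⁻¹)⁻¹ := inv_anti₀ h3 h2

end CG
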