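import Pool.Agent.H.MP_1693ff_gtB.GNear

/-!
# Asymptotics of profiles
-/

namespace CG

open Real Set Filter Topology CF

private theorem glim_div (h : ℝ → ℝ) (d x : ℝ) :
    d * prof h x / x = d * (h (π / 2 - arctan x) * (sin (arctan x))⁻¹) := by
  rw [Real.sin_arctan, inv_div]
  unfold prof
  ring

private theorem glim_sub (h : ℝ → ℝ) (d x : ℝ) :
    d * prof h x - x * (d * prof1 h x) = d * (h (π / 2 - arctan x) * cos (arctan x) +
      deriv h (π / 2 - arctan x) * sin (arctan x)) := by
  rw [Real.sin_arctan, Real.cos_arctan]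
  have h1 : (0 : ℝ) < √(1 + x ^ 2) := Real.sqrt_pos.2 (by positivity)
  have h2 : √(1 + x ^ 2) ^ 2 = 1 + x ^ 2 := Real.sq_sqrt (by positivity)
  unfold prof prof1
  field_simp
  rw [h2]
  ring

/-- `prof h x / x = (√(1+x²)/x) h(π/2 - arctan x)`; for `x → +∞` the argument tends to `0`, for
`x → -∞` to `π` (`h π = h 0`, `h' π = h' 0`); `prof h x - x prof1 h x = (h + x h')/√(1+x²)`. -/
theorem prof_lim {h : ℝ → ℝ} (hp : ∀ θ, h (θ + π) = h θ) (hc : ContDiff ℝ 2 h) (d : ℝ) :
    Tendsto (fun x => d * prof h x / x) atTop (𝓝 (d * h 0)) ∧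
    Tendsto (fun x => d * prof h x / x) atBot (𝓝 (-(d * h 0))) ∧
    Tendsto (fun x => d * prof h x - x * (d * prof1 h x)) atTop (𝓝 (d * deriv h 0)) ∧
    Tendsto (fun x => d * prof h x - x * (d * prof1 h x)) atBot (𝓝 (-(d * deriv h 0))) := by
  have hc1 : Continuous (deriv h) := hc.continuous_deriv (by norm_num)
  have hc0 : Continuous h := hc.continuous
  have hp0 : h π = h 0 := by simpa using hp 0
  have hp1 : deriv h π = deriv h 0 := by
    have h1 : (fun x => h (x + π)) = h := funext hp
    have h2 := deriv_comp_add_const h π 0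
    rw [h1, zero_add] at h2
    exact h2.symm
  have ht : Tendsto arctan atTop (𝓝 (π / 2)) :=
    tendsto_arctan_atTop.mono_right nhdsWithin_le_nhds
  have hb : Tendsto arctan atBot (𝓝 (-(π / 2))) :=
    tendsto_arctan_atBot.mono_right nhdsWithin_le_nhds
  -- the two functions of `u = arctan x`
  have c1 : ∀ u, sin u ≠ 0 →
      ContinuousAt (fun u => d * (h (π / 2 - u) * (sin u)⁻¹)) u := fun u hu => by
    have e1 : ContinuousAt (fun u => h (π / 2 - u)) u :=
      (hc0.comp (continuous_const.sub continuous_id)).continuousAt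
    exact (e1.mul (continuous_sin.continuousAt.inv₀ hu)).const_mul d
  have c2 : ∀ u, ContinuousAt (fun u => d * (h (π / 2 - u) * cos u +
      deriv h (π / 2 - u) * sin u)) u := fun u => by
    have e1 : Continuous (fun u => h (π / 2 - u)) := hc0.comp (continuous_const.sub continuous_id)
    have e2 : Continuous (fun u => deriv h (π / 2 - u)) :=
      hc1.comp (continuous_const.sub continuous_id)
    exact (((e1.mul continuous_cos).add (e2.mul continuous_sin)).const_mul d).continuousAt
  have s1 : sin (π / 2) ≠ 0 := by rw [sin_pi_div_two]; exact one_ne_zero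
  have s2 : sin (-(π / 2)) ≠ 0 := by
    rw [sin_neg, sin_pi_div_two]
    norm_num
  have e : π / 2 - -(π / 2) = π := by ring
  refine ⟨?_, ?_, ?_, ?_⟩
  · simp only [glim_div]
    have h1 := (c1 _ s1).tendsto.comp ht
    have h2 : d * h 0 = d * (h (π / 2 - π / 2) * (sin (π / 2))⁻¹) := by
      rw [sub_self, sin_pi_div_two]
      norm_num
    rw [h2]
    exact h1
  · simp only [glim_div]
    have h1 := (c1 _ s2).tendsto.comp hb
    have h2 : -(d * h 0) = d * (h (π / 2 - -(π / 2)) * (sin (-(π / 2)))⁻¹) := by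
      rw [e, hp0, sin_neg, sin_pi_div_two]
      norm_num
    rw [h2]
    exact h1
  · simp only [glim_sub]
    have h1 := (c2 (π / 2)).tendsto.comp ht
    have h2 : d * deriv h 0 = d * (h (π / 2 - π / 2) * cos (π / 2) +
        deriv h (π / 2 - π / 2) * sin (π / 2)) := by
      rw [sub_self, sin_pi_div_two, cos_pi_div_two]
      ring
    rw [h2]
    exact h1
  · simp only [glim_sub]
    have h1 := (c2 (-(π / 2))).tendsto.comp hb
    have h2 : -(d * deriv h 0) = d * (h (π / 2 - -(π / 2)) * cos (-(π / 2)) +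
        deriv h (π / 2 - -(π / 2)) * sin (-(π / 2))) := by
      rw [e, hp1, sin_neg, sin_pi_div_two, cos_neg, cos_pi_div_two]
      ring
    rw [h2]
    exact h1

end CG
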