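import Pool.Agent.H.MP_1693ff_gtB.GGlueA
import Pool.Agent.H.MP_1693ff_gtB.GGlueB
import Pool.Agent.H.MP_1693ff_gtB.GHalfB
import Pool.Agent.H.MP_1693ff_gtB.GLim

/-!
# Gluing: the chord relations
-/

namespace CG

open Real Set Filter Topology CF

/-- One half step in terms of the ends of the chord: `U = a - α`, `V = a' - a`
(`a' = (hst S).a`), `s' = (hst S).s`:
`U^e + V^e = (d f)^e` and `(1/s' - 1) V^{e-1} + (1 - s) U^{e-1} = (d f)^{e-1} (d f1)`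
(`opp_pow`, `opp1_rel` times `d^e`; `V = d opp`, `U = d W`, `1/s' - 1 = d opp1`, `1 - s = d p`). -/
theorem hst_rel {e d : ℝ} {P : Pf} {S : St} (he : 1 < e) (hd : 0 < d) (G : Good e d P S) :
    (S.a - S.α) ^ e + ((hst e d P S).a - S.a) ^ e = (d * P.f S.a) ^ e ∧
    (((hst e d P S).s)⁻¹ - 1) * ((hst e d P S).a - S.a) ^ (e - 1) +
      (1 - S.s) * (S.a - S.α) ^ (e - 1) = (d * P.f S.a) ^ (e - 1) * (d * P.f1 S.a) := by
  have he0 : 0 < e := by linarith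
  have ho := opp_pos he0 G.W0 G.W1
  have hf : 0 < P.f S.a := G.W0.trans G.W1
  have h1 : S.a - S.α = d * S.W d := by
    unfold St.W
    field_simp
  have h2 : (hst e d P S).a - S.a = d * opp e d P S := by
    unfold hst
    simp
  have h3 : ((hst e d P S).s)⁻¹ - 1 = d * opp1 e d P S := by
    unfold hst
    simp
  have h4 : 1 - S.s = d * S.p d := by
    unfold St.p
    field_simp
  rw [h1, h2, h3, h4, Real.mul_rpow hd.le G.W0.le, Real.mul_rpow hd.le ho.le,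
    Real.mul_rpow hd.le hf.le, Real.mul_rpow hd.le G.W0.le, Real.mul_rpow hd.le ho.le,
    Real.mul_rpow hd.le hf.le]
  constructor
  · rw [opp_pow he0 G.W0 G.W1]
    ring
  · linear_combination (d * d ^ (e - 1)) * opp1_rel he0 G.W0 G.W1

private theorem ggluec_ng {h : ℝ → ℝ} (hp : ∀ θ, ng h (θ + π) = ng h θ) (hc : ContDiff ℝ 2 (ng h))
    (x : ℝ) : prof (ng h) (-x) = prof h x ∧ prof1 (ng h) (-x) = -prof1 h x := by
  obtain ⟨h1, h2⟩ := prof_neg hp hc x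
  have e0 : ng (ng h) = h := by
    funext θ
    simp [ng]
  rw [e0] at h1 h2
  exact ⟨h1, h2⟩

/-- The relations at the first centre.
`τ ≥ 0`: `S = Z₁ τ`, profile `pf h₁`, `hst = Z₂ (τ+1)`: `a = x`, `a - α = x + y`,
`a' - a = -(yH + x)` (`l1`), `1/s' = sH`.
`τ ≤ 0`: `S = Z₄ (-τ)`, profile `pf (ng h₁)`, `hst = Z₃ (1-τ)`: `a = -x`, `a - α = -(x+yH)`,
`a' - a = y + x` (`u2`), `s = sH`, `1/s' = s τ`; `prof_neg`: `prof (ng h₁) (-x) = prof h₁ x`,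
`prof1 (ng h₁) (-x) = -prof1 h₁ x` (`ng_ng`). -/
theorem rel_one {e d κ C₁ C₂ κ' C₁' C₂' : ℝ} {h₁ h₂ x y s yH sH : ℝ → ℝ}
    (D : DK e d κ C₁ C₂ h₁ h₂) (D' : DK e d κ' C₁' C₂' (ng h₂) (ng h₁))
    (b : Br (ZZ e d h₁ h₂) (ZZ e d h₂ h₁) (ZZ e d (ng h₂) (ng h₁)) (ZZ e d (ng h₁) (ng h₂))
      x y s yH sH) (τ : ℝ) :
    (x τ + y τ) ^ e + (-(x τ + yH τ)) ^ e = (d * prof h₁ (x τ)) ^ e ∧
    (sH τ - 1) * (-(x τ + yH τ)) ^ (e - 1) + (1 - s τ) * (x τ + y τ) ^ (e - 1) =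
      (d * prof h₁ (x τ)) ^ (e - 1) * (d * prof1 h₁ (x τ)) := by
  have hd : 0 < d := lt_of_lt_of_le one_pos D.d1
  rcases le_total 0 τ with hτ | hτ
  · obtain ⟨r1, r2⟩ := hst_rel D.e1 hd (zz_good D hτ)
    rw [← zz_step hτ] at r1 r2
    obtain ⟨a1, a2, a3⟩ := b.u1 τ hτ
    obtain ⟨c1, c2, c3⟩ := b.l1 τ (by linarith)
    have e1 : (ZZ e d h₁ h₂ τ).a - (ZZ e d h₁ h₂ τ).α = x τ + y τ := by
      rw [a1, a2]
      ring
    have e2 : (ZZ e d h₂ h₁ (τ + 1)).a - (ZZ e d h₁ h₂ τ).a = -(x τ + yH τ) := by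
      rw [c2, a1]
      ring
    have e3 : (pf h₁).f (ZZ e d h₁ h₂ τ).a = prof h₁ (x τ) := by
      rw [a1]
      rfl
    have e4 : (pf h₁).f1 (ZZ e d h₁ h₂ τ).a = prof1 h₁ (x τ) := by
      rw [a1]
      rfl
    rw [e1, e2, e3] at r1
    rw [e1, e2, e3, e4, ← c3, ← a3] at r2
    exact ⟨r1, r2⟩
  · have hτ' : 0 ≤ -τ := by linarith
    obtain ⟨r1, r2⟩ := hst_rel D.e1 hd (zz_good D'.swap hτ')
    rw [← zz_step hτ'] at r1 r2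
    have et : -τ + 1 = 1 - τ := by ring
    rw [et] at r1 r2
    obtain ⟨a1, a2, a3⟩ := b.l2 τ hτ
    obtain ⟨c1, c2, c3⟩ := b.u2 τ (by linarith)
    have e1 : (ZZ e d (ng h₁) (ng h₂) (-τ)).a - (ZZ e d (ng h₁) (ng h₂) (-τ)).α =
        -(x τ + yH τ) := by
      rw [a1, a2]
      ring
    have e2 : (ZZ e d (ng h₂) (ng h₁) (1 - τ)).a - (ZZ e d (ng h₁) (ng h₂) (-τ)).a =
        x τ + y τ := by
      rw [c2, a1]
      ring
    have e0 : (ZZ e d (ng h₁) (ng h₂) (-τ)).a = -x τ := by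
      rw [a1]
      ring
    obtain ⟨g1, g2⟩ := ggluec_ng D'.kp D'.kc (x τ)
    have e3 : (pf (ng h₁)).f (ZZ e d (ng h₁) (ng h₂) (-τ)).a = prof h₁ (x τ) := by
      rw [e0]
      exact g1
    have e4 : (pf (ng h₁)).f1 (ZZ e d (ng h₁) (ng h₂) (-τ)).a = -prof1 h₁ (x τ) := by
      rw [e0]
      exact g2
    rw [e1, e2, e3] at r1
    rw [e1, e2, e3, e4, ← c3, ← a3] at r2
    refine ⟨by linarith, ?_⟩
    linear_combination (-1 : ℝ) * r2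

/-- The relations at the second centre.
`τ ≥ -1`: `S = Z₂ (τ+1)`, profile `pf h₂`, `hst = Z₁ (τ+2)`: `a = -yH`, `a - α = -(x+yH)`,
`a' - a = x(τ+2) + yH`, `s = 1/sH`, `1/s' = 1/s(τ+2)`; `prof h₂ (-yH) = prof (ng h₂) yH`,
`prof1 h₂ (-yH) = -prof1 (ng h₂) yH` (`prof_neg`).
`τ ≤ -1`: `S = Z₃ (-1-τ)`, profile `pf (ng h₂)`, `hst = Z₄ (-τ)`: `a = y(τ+2) = yH`,
`a - α = yH + x(τ+2)`, `a' - a = -x - yH`, `s = 1/s(τ+2)`, `s' = sH`. -/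
theorem rel_two {e d κ C₁ C₂ κ' C₁' C₂' : ℝ} {h₁ h₂ x y s yH sH : ℝ → ℝ}
    (D : DK e d κ C₁ C₂ h₁ h₂) (D' : DK e d κ' C₁' C₂' (ng h₂) (ng h₁))
    (b : Br (ZZ e d h₁ h₂) (ZZ e d h₂ h₁) (ZZ e d (ng h₂) (ng h₁)) (ZZ e d (ng h₁) (ng h₂))
      x y s yH sH) (τ : ℝ) :
    (x (τ + 2) + yH τ) ^ e + (-(x τ + yH τ)) ^ e = (d * prof (ng h₂) (yH τ)) ^ e ∧
    (1 - (s (τ + 2))⁻¹) * (x (τ + 2) + yH τ) ^ (e - 1) +
      ((sH τ)⁻¹ - 1) * (-(x τ + yH τ)) ^ (e - 1) =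
      (d * prof (ng h₂) (yH τ)) ^ (e - 1) * (d * prof1 (ng h₂) (yH τ)) := by
  have hd : 0 < d := lt_of_lt_of_le one_pos D.d1
  rcases le_total (-1) τ with hτ | hτ
  · have hτ' : 0 ≤ τ + 1 := by linarith
    obtain ⟨r1, r2⟩ := hst_rel D.e1 hd (zz_good D.swap hτ')
    rw [← zz_step hτ'] at r1 r2
    have et : τ + 1 + 1 = τ + 2 := by ring
    rw [et] at r1 r2
    obtain ⟨c1, c2, c3⟩ := b.l1 τ hτ
    obtain ⟨a1, a2, a3⟩ := b.u1 (τ + 2) (by linarith)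
    have e1 : (ZZ e d h₂ h₁ (τ + 1)).a - (ZZ e d h₂ h₁ (τ + 1)).α = -(x τ + yH τ) := by
      rw [c1, c2]
      ring
    have e2 : (ZZ e d h₁ h₂ (τ + 2)).a - (ZZ e d h₂ h₁ (τ + 1)).a = x (τ + 2) + yH τ := by
      rw [c2, a1]
      ring
    have e0 : (ZZ e d h₂ h₁ (τ + 1)).a = -yH τ := by
      rw [c2]
      ring
    obtain ⟨g1, g2⟩ := prof_neg D.kp D.kc (yH τ)
    have e3 : (pf h₂).f (ZZ e d h₂ h₁ (τ + 1)).a = prof (ng h₂) (yH τ) := by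
      rw [e0]
      exact g1
    have e4 : (pf h₂).f1 (ZZ e d h₂ h₁ (τ + 1)).a = -prof1 (ng h₂) (yH τ) := by
      rw [e0]
      exact g2
    have e5 : (ZZ e d h₂ h₁ (τ + 1)).s = (sH τ)⁻¹ := by
      rw [c3, inv_inv]
    rw [e1, e2, e3] at r1
    rw [e1, e2, e3, e4, e5, ← a3] at r2
    refine ⟨by linarith, ?_⟩
    linear_combination (-1 : ℝ) * r2
  · have hτ' : 0 ≤ -1 - τ := by linarith
    obtain ⟨r1, r2⟩ := hst_rel D.e1 hd (zz_good D' hτ')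
    rw [← zz_step hτ'] at r1 r2
    have et : -1 - τ + 1 = -τ := by ring
    rw [et] at r1 r2
    obtain ⟨a1, a2, a3⟩ := b.u2 (τ + 2) (by linarith)
    obtain ⟨c1, c2, c3⟩ := b.l2 τ (by linarith)
    have et2 : 1 - (τ + 2) = -1 - τ := by ring
    rw [et2] at a1 a2 a3
    have hsh := b.sh τ
    have e0 : (ZZ e d (ng h₂) (ng h₁) (-1 - τ)).a = yH τ := by
      rw [hsh, a2]
    have e1 : (ZZ e d (ng h₂) (ng h₁) (-1 - τ)).a - (ZZ e d (ng h₂) (ng h₁) (-1 - τ)).α =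
        x (τ + 2) + yH τ := by
      rw [e0, a1]
      ring
    have e2 : (ZZ e d (ng h₁) (ng h₂) (-τ)).a - (ZZ e d (ng h₂) (ng h₁) (-1 - τ)).a =
        -(x τ + yH τ) := by
      rw [e0, c1]
      ring
    have e3 : (pf (ng h₂)).f (ZZ e d (ng h₂) (ng h₁) (-1 - τ)).a = prof (ng h₂) (yH τ) := by
      rw [e0]
      rfl
    have e4 : (pf (ng h₂)).f1 (ZZ e d (ng h₂) (ng h₁) (-1 - τ)).a = prof1 (ng h₂) (yH τ) := by
      rw [e0]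
      rfl
    have e5 : (ZZ e d (ng h₂) (ng h₁) (-1 - τ)).s = (s (τ + 2))⁻¹ := by
      rw [a3, inv_inv]
    rw [e1, e2, e3] at r1
    rw [e1, e2, e3, e4, e5, ← c3] at r2
    refine ⟨by linarith, ?_⟩
    linear_combination r2

/-- **The curve.** -/
theorem exists_gcv {e d κ C₁ C₂ κ' C₁' C₂' : ℝ} {h₁ h₂ : ℝ → ℝ}
    (D : DK e d κ C₁ C₂ h₁ h₂) (D' : DK e d κ' C₁' C₂' (ng h₂) (ng h₁)) (p₁ : 0 < h₁ 0)
    (p₂ : 0 < h₂ 0) : ∃ x y s yH sH : ℝ → ℝ,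
    GCv e (d * h₁ 0) (d * deriv h₁ 0) (d * h₂ 0) (d * deriv (ng h₂) 0)
      (fun x => d * prof h₁ x) (fun x => d * prof1 h₁ x) (fun x => d * prof (ng h₂) x)
      (fun x => d * prof1 (ng h₂) x) x y s yH sH ∧
    (ng h₁ = h₁ → ng h₂ = h₂ → ∀ τ, x (-τ) = -x τ ∧ yH (-τ) = -y τ ∧ sH (-τ) = s τ) := by
  obtain ⟨x, y, s, yH, sH, b, hsym⟩ := exists_br D D'
  have g := gc0 (half_HZ D) (half_HZ D.swap) (half_HZ D') (half_HZ D'.swap) b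
  have hd : 0 < d := lt_of_lt_of_le one_pos D.d1
  obtain ⟨a1, a2, a3, a4⟩ := prof_lim D.hp D.hc d
  obtain ⟨b1, b2, b3, b4⟩ := prof_lim D'.hp D'.hc d
  have e0 : ng h₂ 0 = h₂ 0 := by simp [ng]
  rw [e0] at b1 b2
  exact ⟨x, y, s, yH, sH,
    { toGC0 := g, r1 := fun τ => (rel_one D D' b τ).1, r1' := fun τ => (rel_one D D' b τ).2,
      r2 := fun τ => (rel_two D D' b τ).1, r2' := fun τ => (rel_two D D' b τ).2,
      A0 := mul_pos hd p₁, A'0 := mul_pos hd p₂, φt := a1, φb := a2, φt' := a3, φb' := a4,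
      ψt := b1, ψb := b2, ψt' := b3, ψb' := b4 }, hsym⟩

end CG
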