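import Pool.Agent.H.MP_1693ff_gtB.GNear

/-!
# Roots of near-constant functions
-/

namespace CG

open Real Set Filter Topology CF

theorem groot_aux1 {f : ℝ → ℝ} (hf : ContDiff ℝ 2 f) :
    (∀ θ, HasDerivAt f (deriv f θ) θ) ∧ ∀ θ, HasDerivAt (deriv f) (deriv (deriv f) θ) θ := by
  have h2 : ContDiff ℝ 1 (deriv f) := by
    have h := hf
    rw [show (2 : WithTop ℕ∞) = 1 + 1 by norm_num, contDiff_succ_iff_deriv] at h
    exact h.2.2
  exact ⟨fun θ => ((hf.differentiable (by norm_num)) θ).hasDerivAt,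
    fun θ => ((h2.differentiable (by norm_num)) θ).hasDerivAt⟩

/-- Let `δ ≤ C/2`, so `f θ ∈ [C/2, 3C/2]`; `g x = x^{1/e}`, `g' x = (1/e) x^{1/e - 1}`,
`g'' x = (1/e)(1/e - 1) x^{1/e - 2}`; on this interval `|g'| ≤ L := (C/2)^{1/e-1}`,
`|g''| ≤ L₂ := (C/2)^{1/e-2}` (negative exponents: `Real.rpow_le_rpow_of_nonpos`).
`h = g ∘ f` is `C²` (`ContDiff.rpow_const_of_ne`), `h' = g'(f) f'`,
`h'' = g''(f) f'² + g'(f) f''`, `|h - C^{1/e}| ≤ L |f - C|` (mean value theorem, or: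
`|x^a - y^a| ≤ (C/2)^{a-1} |x - y|` for `0 < a ≤ 1`, `x, y ≥ C/2`). Choose
`δ = min (C/2) (min 1 (ε/(L + L₂ + 1)))`. -/
theorem root_near {e C ε : ℝ} (he : 1 < e) (hC : 0 < C) (hε : 0 < ε) :
    ∃ δ > 0, δ ≤ C / 2 ∧ ∀ f : ℝ → ℝ, Near f C δ →
      Near (fun θ => f θ ^ e⁻¹) (C ^ e⁻¹) ε := by
  obtain ⟨p, hp⟩ : ∃ p : ℝ, p = e⁻¹ := ⟨_, rfl⟩
  have hp0 : 0 < p := by rw [hp]; positivity
  have hp1 : p < 1 := by rw [hp]; exact inv_lt_one_of_one_lt₀ he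
  rw [← hp]
  obtain ⟨L, hL⟩ : ∃ L : ℝ, L = (C / 2) ^ (p - 1) := ⟨_, rfl⟩
  obtain ⟨L2, hL2⟩ : ∃ L2 : ℝ, L2 = (C / 2) ^ (p - 1 - 1) := ⟨_, rfl⟩
  have hC2 : 0 < C / 2 := by positivity
  have hL0 : 0 < L := by rw [hL]; exact Real.rpow_pos_of_pos hC2 _
  have hL20 : 0 < L2 := by rw [hL2]; exact Real.rpow_pos_of_pos hC2 _
  obtain ⟨δ, hδ⟩ : ∃ δ : ℝ, δ = min (C / 2) (min 1 (ε / (L + L2 + 1))) := ⟨_, rfl⟩
  have hδ0 : 0 < δ := by
    rw [hδ]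
    exact lt_min hC2 (lt_min one_pos (by positivity))
  have hδ1 : δ ≤ C / 2 := by rw [hδ]; exact min_le_left _ _
  have hδ2 : δ ≤ 1 := by rw [hδ]; exact (min_le_right _ _).trans (min_le_left _ _)
  have hδ3 : δ * (L + L2 + 1) ≤ ε := by
    have : δ ≤ ε / (L + L2 + 1) := by rw [hδ]; exact (min_le_right _ _).trans (min_le_right _ _)
    rwa [le_div_iff₀ (by positivity)] at this
  have hbd1 : ∀ x, C / 2 ≤ x → 0 ≤ x ^ (p - 1) ∧ x ^ (p - 1) ≤ L := fun x hx => by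
    refine ⟨Real.rpow_nonneg (hC2.le.trans hx) _, ?_⟩
    rw [hL]
    exact Real.rpow_le_rpow_of_nonpos hC2 hx (by linarith)
  have hbd2 : ∀ x, C / 2 ≤ x → 0 ≤ x ^ (p - 1 - 1) ∧ x ^ (p - 1 - 1) ≤ L2 := fun x hx => by
    refine ⟨Real.rpow_nonneg (hC2.le.trans hx) _, ?_⟩
    rw [hL2]
    exact Real.rpow_le_rpow_of_nonpos hC2 hx (by linarith)
  refine ⟨δ, hδ0, hδ1, fun f H => ?_⟩
  have hfl : ∀ θ, C / 2 ≤ f θ := fun θ => by
    have := abs_le.1 (H.n0 θ)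
    linarith [this.1]
  have hfne : ∀ θ, f θ ≠ 0 := fun θ => (hC2.trans_le (hfl θ)).ne'
  obtain ⟨hd1, hd2⟩ := groot_aux1 H.c2
  have hD1 : ∀ θ, HasDerivAt (fun θ => f θ ^ p) (deriv f θ * p * f θ ^ (p - 1)) θ := fun θ =>
    (hd1 θ).rpow_const (Or.inl (hfne θ))
  have hder1 : deriv (fun θ => f θ ^ p) = fun θ => deriv f θ * p * f θ ^ (p - 1) := by
    funext θ
    exact (hD1 θ).deriv
  have hD2 : ∀ θ, HasDerivAt (fun θ => deriv f θ * p * f θ ^ (p - 1))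
      (deriv (deriv f) θ * p * f θ ^ (p - 1) +
        deriv f θ * p * (deriv f θ * (p - 1) * f θ ^ (p - 1 - 1))) θ := fun θ =>
    ((hd2 θ).mul_const p).mul ((hd1 θ).rpow_const (Or.inl (hfne θ)))
  have hpp : |p| ≤ 1 := by rw [abs_of_pos hp0]; exact hp1.le
  have hpp1 : |p - 1| ≤ 1 := by rw [abs_le]; constructor <;> linarith
  refine ⟨fun θ => ?_, ?_, fun θ => ?_, fun θ => ?_, fun θ => ?_⟩
  · change f (θ + π) ^ p = f θ ^ p
    rw [H.per]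
  · exact H.c2.rpow_const_of_ne hfne
  · have h1 := (convex_Ici (C / 2)).norm_image_sub_le_of_norm_hasDerivWithin_le
      (f := fun x : ℝ => x ^ p) (f' := fun x => p * x ^ (p - 1)) (C := L) (x := C) (y := f θ)
      (fun x hx => (Real.hasDerivAt_rpow_const (Or.inl (hC2.trans_le hx).ne')).hasDerivWithinAt)
      (fun x hx => by
        obtain ⟨h1, h2⟩ := hbd1 x hx
        rw [Real.norm_eq_abs, abs_mul, abs_of_nonneg h1]
        calc |p| * x ^ (p - 1) ≤ 1 * L := mul_le_mul hpp h2 h1 zero_le_one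
          _ = L := one_mul _)
      (show C / 2 ≤ C by linarith) (hfl θ)
    simp only [Real.norm_eq_abs] at h1
    have h2 : L * |f θ - C| ≤ L * δ := mul_le_mul_of_nonneg_left (H.n0 θ) hL0.le
    have h3 : L * δ ≤ δ * (L + L2 + 1) := by nlinarith [mul_pos hδ0 hL20]
    exact h1.trans (h2.trans (h3.trans hδ3))
  · rw [hder1]
    obtain ⟨h1, h2⟩ := hbd1 (f θ) (hfl θ)
    have h3 : |deriv f θ * p * f θ ^ (p - 1)| ≤ δ * 1 * L := by
      rw [abs_mul, abs_mul, abs_of_nonneg h1]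
      exact mul_le_mul (mul_le_mul (H.n1 θ) hpp (abs_nonneg _) hδ0.le) h2 h1 (by positivity)
    nlinarith [mul_pos hδ0 hL20]
  · rw [hder1, (hD2 θ).deriv]
    obtain ⟨h1, h2⟩ := hbd1 (f θ) (hfl θ)
    obtain ⟨h4, h5⟩ := hbd2 (f θ) (hfl θ)
    have h3 : |deriv (deriv f) θ * p * f θ ^ (p - 1)| ≤ δ * 1 * L := by
      rw [abs_mul, abs_mul, abs_of_nonneg h1]
      exact mul_le_mul (mul_le_mul (H.n2 θ) hpp (abs_nonneg _) hδ0.le) h2 h1 (by positivity)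
    have h6 : |deriv f θ * p * (deriv f θ * (p - 1) * f θ ^ (p - 1 - 1))| ≤
        δ * 1 * (1 * 1 * L2) := by
      rw [abs_mul, abs_mul, abs_mul, abs_mul, abs_of_nonneg h4]
      exact mul_le_mul (mul_le_mul (H.n1 θ) hpp (abs_nonneg _) hδ0.le)
        (mul_le_mul (mul_le_mul ((H.n1 θ).trans hδ2) hpp1 (abs_nonneg _) zero_le_one) h5 h4
          (by norm_num)) (by positivity) (by positivity)
    have h7 := abs_add_le (deriv (deriv f) θ * p * f θ ^ (p - 1))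
      (deriv f θ * p * (deriv f θ * (p - 1) * f θ ^ (p - 1 - 1)))
    nlinarith

end CG
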