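import Pool.Agent.H.MP_1693ff_gtB.GFinD
import Pool.Agent.H.MP_1693ff_gtB.GRoot
import Pool.Agent.H.MP_1693ff_gtB.GExist
import Pool.Agent.H.MP_1693ff_gtB.GGlueC
import Pool.Agent.H.MP_1693ff_gtB.GBodyB
import Pool.Agent.H.MP_1693ff_gtB.GAsymD

/-!
# Near-constant pairs
-/

namespace CG

open Real Set Filter Topology CF Pointwise

theorem gprof_cot {f : ℝ → ℝ} {θ : ℝ} (hθ : θ ∈ Ioo 0 π) :
    sin θ * prof f (cos θ / sin θ) = f θ := by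
  have hs : 0 < sin θ := Real.sin_pos_of_mem_Ioo hθ
  have h1 : √(1 + (cos θ / sin θ) ^ 2) = 1 / sin θ := by
    have : 1 + (cos θ / sin θ) ^ 2 = (1 / sin θ) ^ 2 := by
      field_simp
      linarith [Real.sin_sq_add_cos_sq θ]
    rw [this, Real.sqrt_sq (by positivity)]
  have h2 : arctan (cos θ / sin θ) = π / 2 - θ := by
    have : cos θ / sin θ = tan (π / 2 - θ) := by
      rw [Real.tan_eq_sin_div_cos, Real.sin_pi_div_two_sub, Real.cos_pi_div_two_sub]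
    rw [this, Real.arctan_tan (by linarith [hθ.2]) (by linarith [hθ.1])]
  unfold prof
  rw [h1, h2, sub_sub_cancel]
  field_simp

/-- The body of the two functions `h₁`, `h₂`, unit distance. -/
theorem body_of_DK {e d κ C₁ C₂ κ' C₁' C₂' : ℝ} {h₁ h₂ : ℝ → ℝ}
    (D : DK e d κ C₁ C₂ h₁ h₂) (D' : DK e d κ' C₁' C₂' (ng h₂) (ng h₁))
    (p₁ : ∀ θ, 0 < h₁ θ) (p₂ : ∀ θ, 0 < h₂ θ) :
    ∃ K, PairI (-e) (fun θ => (d * h₁ θ) ^ e) (fun θ => (d * h₂ θ) ^ e) K 0 (ev 0) ∧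
      (ng h₁ = h₁ → ng h₂ = h₂ → ∀ w ∈ K, !₂[w 0, -w 1] ∈ K) := by
  obtain ⟨x, y, s, yH, sH, G, hsym⟩ := exists_gcv D D' (p₁ 0) (p₂ 0)
  have he0 : 0 < e := by linarith [D.e1]
  have hd : 0 < d := lt_of_lt_of_le one_pos D.d1
  obtain ⟨m, M, F, F', C, eF, eF', g1, g2⟩ := curveW D.e1 G
  obtain ⟨b1, b2, b3, b4⟩ := body_chordI he0 C
  have hi := body_interior C
  have hpp : ∀ a, 0 < prof h₁ a := fun a => by
    unfold prof
    have := p₁ (π / 2 - arctan a)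
    positivity
  refine ⟨body F F' x y s, ⟨body_isBody C, hi.1, hi.2, ?_, ?_⟩, ?_⟩
  · refine chordI_per (fun θ => by simp only [D.hp]) ?_ fun θ hθ => ?_
    · rw [b2, g1]
    · obtain ⟨τ, hτ⟩ := curve_surj_x C (cos θ / sin θ)
      have hs : 0 < sin θ := Real.sin_pos_of_mem_Ioo hθ
      rw [b1 θ hθ τ hτ, eF, G.r1 τ, hτ, ← gprof_cot (f := h₁) hθ]
      have h0 : 0 < prof h₁ (cos θ / sin θ) := hpp _
      rw [← Real.mul_rpow hs.le (by positivity)]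
      congr 1
      ring
  · refine chordI_per (fun θ => by simp only [D.kp]) ?_ fun θ hθ => ?_
    · rw [b4, g2]
    · obtain ⟨τ, hτ⟩ := curve_surj_y C (-(cos θ / sin θ))
      have hs : 0 < sin θ := Real.sin_pos_of_mem_Ioo hθ
      have hsh : yH (τ - 2) = y τ := by
        rw [G.sh]; congr 1; ring
      have hH : y (τ - 2) - F (x (τ - 2)) = -(cos θ / sin θ) := by
        rw [eF, hsh, hτ]
      rw [b3 θ hθ τ (τ - 2) hτ hH, eF]
      have hr := G.r2 (τ - 2)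
      have e2 : τ - 2 + 2 = τ := by ring
      rw [e2] at hr
      have e3 : x τ + y τ = x τ + yH (τ - 2) := by rw [hsh]
      rw [e3, hr, hsh, hτ]
      have hpn : prof (ng h₂) (-(cos θ / sin θ)) = prof h₂ (cos θ / sin θ) := by
        rw [(prof_neg D'.hp D'.hc _).1]
        congr 1
        funext t
        simp [ng]
      rw [hpn, ← gprof_cot (f := h₂) hθ]
      have h0 : 0 < prof h₂ (cos θ / sin θ) := by
        unfold prof
        have := p₂ (π / 2 - arctan (cos θ / sin θ))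
        positivity
      rw [← Real.mul_rpow hs.le (by positivity)]
      congr 1
      ring
  · intro n1 n2 w hw
    refine body_sym (fun τ => ?_) hw
    obtain ⟨c1, c2, c3⟩ := hsym n1 n2 τ
    exact ⟨c1, by rw [eF]; exact c2, by rw [eF']; exact c3⟩

/-- **Near-constant pairs, `θ₀ = 0`.** -/
theorem near_zero {e C₁ C₂ : ℝ} (he : 1 < e) (h1 : 0 < C₁) (h2 : 0 < C₂) :
    ∃ δ D : ℝ, 0 < δ ∧ 0 < D ∧ ∀ f₁ f₂ : ℝ → ℝ, Near f₁ C₁ δ → Near f₂ C₂ δ →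
      ∀ d : ℝ, D ≤ d →
      ∃ K, PairI (-e) f₁ f₂ K 0 (d • ev 0) ∧
        ((∀ θ, f₁ (-θ) = f₁ θ) → (∀ θ, f₂ (-θ) = f₂ θ) → ∀ w ∈ K, !₂[w 0, -w 1] ∈ K) := by
  have hc1 : 0 < C₁ ^ e⁻¹ := Real.rpow_pos_of_pos h1 _
  have hc2 : 0 < C₂ ^ e⁻¹ := Real.rpow_pos_of_pos h2 _
  obtain ⟨ε, κ, A, B, D, hε, hκ, hD, H⟩ := exists_DK he hc1 hc2
  obtain ⟨ε', κ', A', B', D', hε', hκ', hD', H'⟩ := exists_DK he hc2 hc1
  obtain ⟨δ, hδ, hδ1, R⟩ := root_near he h1 hε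
  obtain ⟨δ', hδ', hδ1', R'⟩ := root_near he h2 hε
  obtain ⟨η, hη, hη1, Q⟩ := root_near he h1 hε'
  obtain ⟨η', hη', hη1', Q'⟩ := root_near he h2 hε'
  have he0 : e ≠ 0 := by linarith
  refine ⟨min (min δ δ') (min η η'), max D D', lt_min (lt_min hδ hδ') (lt_min hη hη'),
    lt_of_lt_of_le one_pos (hD.trans (le_max_left _ _)), fun f₁ f₂ n1 n2 d hd => ?_⟩
  have m1 : min (min δ δ') (min η η') ≤ δ := le_trans (min_le_left _ _) (min_le_left _ _)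
  have m2 : min (min δ δ') (min η η') ≤ δ' := le_trans (min_le_left _ _) (min_le_right _ _)
  have m3 : min (min δ δ') (min η η') ≤ η := le_trans (min_le_right _ _) (min_le_left _ _)
  have m4 : min (min δ δ') (min η η') ≤ η' := le_trans (min_le_right _ _) (min_le_right _ _)
  have DD := H _ _ (R f₁ (n1.mono m1)) (R' f₂ (n2.mono m2)) d (le_trans (le_max_left _ _) hd)
  have DD' := H' _ _ (Q' f₂ (n2.mono m4)).ng (Q f₁ (n1.mono m3)).ng d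
    (le_trans (le_max_right _ _) hd)
  have hd0 : 0 < d := lt_of_lt_of_le one_pos ((hD.trans (le_max_left _ _)).trans hd)
  have q1 : ∀ θ, 0 < f₁ θ := fun θ => by
    have := (abs_le.1 (n1.n0 θ)).1
    linarith
  have q2 : ∀ θ, 0 < f₂ θ := fun θ => by
    have := (abs_le.1 (n2.n0 θ)).1
    linarith
  obtain ⟨K, hK, hs⟩ := body_of_DK DD DD' (fun θ => Real.rpow_pos_of_pos (q1 θ) _)
    (fun θ => Real.rpow_pos_of_pos (q2 θ) _)
  have e1 : ∀ f : ℝ → ℝ, (∀ θ, 0 < f θ) →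
      (fun θ => (d * f θ ^ e⁻¹) ^ e) = fun θ => d ^ (- -e) * f θ := fun f hf => by
    funext θ
    rw [Real.mul_rpow hd0.le (Real.rpow_nonneg (hf θ).le _), ← Real.rpow_mul (hf θ).le,
      inv_mul_cancel₀ he0, Real.rpow_one, neg_neg]
  rw [e1 f₁ q1, e1 f₂ q2] at hK
  have := pairI_smul (neg_ne_zero.2 he0) hd0 hK
  rw [smul_zero] at this
  refine ⟨_, this, fun ev1 ev2 w hw => ?_⟩
  have n1' : ng (fun θ => f₁ θ ^ e⁻¹) = fun θ => f₁ θ ^ e⁻¹ := by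
    funext θ; simp [ng, ev1]
  have n2' : ng (fun θ => f₂ θ ^ e⁻¹) = fun θ => f₂ θ ^ e⁻¹ := by
    funext θ; simp [ng, ev2]
  obtain ⟨z, hz, rfl⟩ := Set.mem_smul_set.1 hw
  refine Set.mem_smul_set.2 ⟨_, hs n1' n2' z hz, ?_⟩
  ext i
  fin_cases i <;> simp

/-- Shifting the angle. -/
theorem Near.shift {f : ℝ → ℝ} {C δ : ℝ} (H : Near f C δ) (α : ℝ) :
    Near (fun θ => f (α + θ)) C δ where
  per θ := by
    rw [← add_assoc]
    exact H.per _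
  c2 := H.c2.comp (contDiff_const.add contDiff_id)
  n0 θ := H.n0 _
  n1 θ := by
    rw [deriv_comp_const_add]
    exact H.n1 _
  n2 θ := by
    have : deriv (fun θ => f (α + θ)) = fun θ => deriv f (α + θ) := by
      funext t
      exact deriv_comp_const_add f α t
    rw [this, deriv_comp_const_add]
    exact H.n2 _

/-- **Near-constant pairs.** -/
theorem near_pairs {e C₁ C₂ : ℝ} (he : 1 < e) (h1 : 0 < C₁) (h2 : 0 < C₂) :
    ∃ δ D : ℝ, 0 < δ ∧ 0 < D ∧ ∀ f₁ f₂ : ℝ → ℝ, Near f₁ C₁ δ → Near f₂ C₂ δ →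
      ∀ d : ℝ, D ≤ d →
      (∀ θ₀, ∃ K, PairI (-e) f₁ f₂ K 0 (d • ev θ₀)) ∧
      ((∀ θ, f₁ (-θ) = f₁ θ) → (∀ θ, f₂ (-θ) = f₂ θ) → ∀ (n : ℕ)
        (u : EuclideanSpace ℝ (Fin n)), ‖u‖ = 1 →
        ∃ K : Set (EuclideanSpace ℝ (Fin n)), PairAxI (-e) f₁ f₂ u K 0 (d • u)) := by
  obtain ⟨δ, D, hδ, hD, H⟩ := near_zero he h1 h2
  refine ⟨δ, D, hδ, hD, fun f₁ f₂ n1 n2 d hd => ⟨fun θ₀ => ?_, fun ev1 ev2 n u hu => ?_⟩⟩
  · obtain ⟨K, hK, -⟩ := H _ _ (n1.shift θ₀) (n2.shift θ₀) d hd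
    exact pairI_rot (i := -e) (f₁ := f₁) (f₂ := f₂) (α := θ₀) (d := d) hK
  · obtain ⟨K, hK, hs⟩ := H _ _ n1 n2 d hd
    exact ⟨rev u K, pairI_rev (i := -e) (f₁ := f₁) (f₂ := f₂) (d := d) hK (hs ev1 ev2) hu⟩

end CG
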