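import Pool.Agent.H.MP_1693ff_gt.RevA
import Pool.Agent.H.MP_1693ff_gt.RevB
import Pool.Agent.H.MP_1693ff_gt.FinA1
import Pool.Agent.H.MP_1693ff_gt.FinA2
import Pool.Agent.H.MP_1693ff_gtB.GDefs

/-!
# Pairs of `i`-chord functions: definitions, scaling, rotation, revolution
-/

namespace CG

open Real Set Filter Topology CF Pointwise

noncomputable section

/-- `K` is a planar convex body with `i`-chord functions `f₁`, `f₂` at the interior points
`p₁`, `p₂`. -/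
def PairI (i : ℝ) (f₁ f₂ : ℝ → ℝ) (K : Set Pl) (p₁ p₂ : Pl) : Prop :=
  IsBody K ∧ p₁ ∈ interior K ∧ p₂ ∈ interior K ∧
    (∀ θ, chord i K p₁ (ev θ) = f₁ θ) ∧ ∀ θ, chord i K p₂ (ev θ) = f₂ θ

/-- `K` is a convex body in `E` whose `i`-chord functions at the interior points `p₁`, `p₂` are
`u ↦ f₁ (angle of e and u)`, `u ↦ f₂ (angle of e and u)` (`e` a unit vector). -/
def PairAxI {E : Type*} [NormedAddCommGroup E] [InnerProductSpace ℝ E] (i : ℝ) (f₁ f₂ : ℝ → ℝ)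
    (e : E) (K : Set E) (p₁ p₂ : E) : Prop :=
  IsBody K ∧ p₁ ∈ interior K ∧ p₂ ∈ interior K ∧
    (∀ u, ‖u‖ = 1 → chord i K p₁ u = f₁ (arccos (inner ℝ e u))) ∧
    ∀ u, ‖u‖ = 1 → chord i K p₂ u = f₂ (arccos (inner ℝ e u))

end

theorem chord_smul {i : ℝ} (hi : i ≠ 0) {K : Set Pl} {p u : Pl} {d : ℝ} (hd : 0 < d)
    (h1 : 0 ≤ radial K p u) (h2 : 0 ≤ radial K p (-u)) :
    chord i (d • K) (d • p) u = d ^ i * chord i K p u := by
  unfold chord
  rw [if_neg hi, if_neg hi, radial_smul hd, radial_smul hd, Real.mul_rpow hd.le h1,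
    Real.mul_rpow hd.le h2, mul_add]

theorem radial_nonneg' (K : Set Pl) (p u : Pl) : 0 ≤ radial K p u :=
  Real.sSup_nonneg fun _ hc => hc.1

theorem pairI_smul {i : ℝ} (hi : i ≠ 0) {f₁ f₂ : ℝ → ℝ} {K : Set Pl} {p₁ p₂ : Pl} {d : ℝ}
    (hd : 0 < d) (h : PairI i (fun θ => d ^ (-i) * f₁ θ) (fun θ => d ^ (-i) * f₂ θ) K p₁ p₂) :
    PairI i f₁ f₂ (d • K) (d • p₁) (d • p₂) := by
  obtain ⟨⟨hc, hk, hi'⟩, h1, h2, h3, h4⟩ := h
  have hint : interior (d • K) = d • interior K := interior_smul₀ hd.ne' K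
  have hdd : d ^ i * d ^ (-i) = 1 := by
    rw [← Real.rpow_add hd, add_neg_cancel, Real.rpow_zero]
  refine ⟨⟨hc.smul d, hk.smul d, ?_⟩, ?_, ?_, ?_, ?_⟩
  · rw [hint]; exact hi'.smul_set
  · rw [hint]; exact smul_mem_smul_set h1
  · rw [hint]; exact smul_mem_smul_set h2
  · intro θ
    rw [chord_smul hi hd (radial_nonneg' _ _ _) (radial_nonneg' _ _ _), h3, ← mul_assoc, hdd,
      one_mul]
  · intro θ
    rw [chord_smul hi hd (radial_nonneg' _ _ _) (radial_nonneg' _ _ _), h4, ← mul_assoc, hdd,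
      one_mul]

theorem chordI_pi {i : ℝ} {K : Set Pl} {p : Pl} (θ : ℝ) :
    chord i K p (ev (θ + π)) = chord i K p (ev θ) := by
  rw [fina1_aux2]
  unfold chord
  rw [neg_neg]
  split_ifs
  · ring
  · ring

/-- It suffices to know the chord functions for `θ ∈ [0,π)`. -/
theorem chordI_per {i : ℝ} {f : ℝ → ℝ} (hf : ∀ θ, f (θ + π) = f θ) {K : Set Pl} {p : Pl}
    (h0 : chord i K p (ev 0) = f 0)
    (h : ∀ θ ∈ Ioo 0 π, chord i K p (ev θ) = f θ) : ∀ θ, chord i K p (ev θ) = f θ := by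
  intro θ
  have hp : Function.Periodic (fun θ => chord i K p (ev θ) - f θ) π := by
    intro t
    simp only
    rw [chordI_pi, hf]
  obtain ⟨y, hy, hxy⟩ := hp.exists_mem_Ico₀ pi_pos θ
  have hy0 : chord i K p (ev y) - f y = 0 := by
    rcases eq_or_lt_of_le hy.1 with h1 | h1
    · rw [← h1, h0, sub_self]
    · rw [h y ⟨h1, hy.2⟩, sub_self]
  linarith

/-- Rotation. -/
theorem pairI_rot {i : ℝ} {f₁ f₂ : ℝ → ℝ} {α d : ℝ} {K : Set Pl}
    (h : PairI i (fun θ => f₁ (α + θ)) (fun θ => f₂ (α + θ)) K 0 (d • ev 0)) :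
    ∃ K', PairI i f₁ f₂ K' 0 (d • ev α) := by
  obtain ⟨L, hL⟩ := exists_rot α
  obtain ⟨⟨hc, hk, hi⟩, h1, h2, h3, h4⟩ := h
  have hint : interior (L '' K) = L '' interior K := by
    have := L.toHomeomorph.image_interior K
    exact this.symm
  have hp : L (d • ev 0) = d • ev α := by
    rw [map_smul, hL, zero_add]
  have key : ∀ (p : Pl) (θ : ℝ), chord i (L '' K) (L p) (ev θ) = chord i K p (ev (θ - α)) := by
    intro p θ
    have e1 : ev θ = L (ev (θ - α)) := by rw [hL]; congr 1; ring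
    unfold chord
    rw [e1, ← map_neg, radial_map, radial_map]
  refine ⟨L '' K, ⟨?_, ?_, ?_⟩, ?_, ?_, ?_, ?_⟩
  · exact hc.is_linear_image L.toLinearEquiv.toLinearMap.isLinear
  · exact hk.image L.continuous
  · rw [hint]; exact hi.image _
  · rw [hint, ← map_zero L]; exact mem_image_of_mem _ h1
  · rw [hint, ← hp]; exact mem_image_of_mem _ h2
  · intro θ
    have := key 0 θ
    rw [map_zero] at this
    rw [this, h3]
    ring_nf
  · intro θ
    have := key (d • ev 0) θ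
    rw [hp] at this
    rw [this, h4]
    ring_nf

/-- Revolution. -/
theorem pairI_rev {n : ℕ} {i : ℝ} {f₁ f₂ : ℝ → ℝ} {d : ℝ} {K : Set Pl}
    (h : PairI i f₁ f₂ K 0 (d • ev 0)) (hs : ∀ w ∈ K, !₂[w 0, -w 1] ∈ K)
    {e : EuclideanSpace ℝ (Fin n)} (he : ‖e‖ = 1) :
    PairAxI i f₁ f₂ e (rev e K) 0 (d • e) := by
  obtain ⟨hK, p1, p2, g1, g2⟩ := h
  have p1' : (0 : ℝ) • ev 0 ∈ interior K := by rw [zero_smul]; exact p1
  obtain ⟨b, i1, i2⟩ := rev_body he hK hs p1' p2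
  rw [zero_smul] at i1
  refine ⟨b, i1, i2, fun u hu => ?_, fun u hu => ?_⟩
  · have := rev_chord he hs 0 i hu
    rw [zero_smul, zero_smul, g1] at this
    exact this
  · rw [rev_chord he hs d i hu, g2]

end CG
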