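import Pool.Agent.H.MP_1693ff_gtB.GDefs

/-!
# The outer part of the start arc
-/

namespace CG

open Real Set Filter Topology CF

theorem gouter_rpow {e t : ℝ} (he : 1 < e) (h1 : 1 ≤ t) (h2 : t ≤ 2) : t ^ (4 - e) ≤ 16 := by
  rcases le_total e 4 with h | h
  · calc t ^ (4 - e) ≤ 2 ^ (4 - e) := Real.rpow_le_rpow (by linarith) h2 (by linarith)
      _ ≤ 2 ^ (4 : ℝ) := Real.rpow_le_rpow_of_exponent_le (by norm_num) (by linarith)
      _ = 16 := by norm_num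
  · exact (Real.rpow_le_one_of_one_le_of_nonpos h1 (by linarith)).trans (by norm_num)

/-- the second term -/
theorem gouter_t2 {e l C X ρ D w : ℝ} (he : 1 < e) (hl : 0 < l) (hX : 1 ≤ X) (h1 : X ≤ ρ)
    (h2 : ρ ≤ 2 * X) (hw : 0 ≤ w) (hwC : w ≤ C) (hD : l * X ≤ D) :
    2 * ρ ^ (4 - e) * w / D ^ 3 ≤ 32 * C / l ^ 3 * X ^ (1 - e) := by
  have hX0 : 0 < X := by linarith
  have hC : 0 ≤ C := hw.trans hwC
  have hlX : 0 < l * X := mul_pos hl hX0
  have e1 : ρ = X * (ρ / X) := by field_simp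
  have e2 : ρ ^ (4 - e) ≤ 16 * X ^ (4 - e) := by
    rw [e1, Real.mul_rpow hX0.le (div_nonneg (by linarith) hX0.le), mul_comm]
    refine mul_le_mul_of_nonneg_right (gouter_rpow he ?_ ?_) (Real.rpow_nonneg hX0.le _)
    · rw [le_div_iff₀ hX0]
      linarith
    · rw [div_le_iff₀ hX0]
      linarith
  have e3 : X ^ (4 - e) = X ^ (1 - e) * X ^ 3 := by
    rw [← Real.rpow_natCast X 3, ← Real.rpow_add hX0]
    congr 1
    push_cast
    ring
  have e4 : (l * X) ^ 3 ≤ D ^ 3 := pow_le_pow_left₀ hlX.le hD 3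
  have e5 : 0 < (l * X) ^ 3 := pow_pos hlX 3
  have e6 : 0 ≤ X ^ (4 - e) := Real.rpow_nonneg hX0.le _
  calc 2 * ρ ^ (4 - e) * w / D ^ 3 ≤ (2 * (16 * X ^ (4 - e)) * C) / (l * X) ^ 3 := by
        apply div_le_div₀
        · positivity
        · apply mul_le_mul _ hwC hw (by positivity)
          linarith
        · exact e5
        · exact e4
    _ = 32 * C / l ^ 3 * X ^ (1 - e) := by
        rw [e3, mul_pow]
        field_simp
        ring

theorem gouter_H {e c H : ℝ} (hc : 0 < c) (h1 : 9 * c / 10 ≤ H) (h2 : H ≤ 11 * c / 10) :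
    H ^ (e - 2) ≤ (9 * c / 10) ^ (e - 2) + (11 * c / 10) ^ (e - 2) := by
  have hH : 0 < H := by linarith
  have h3 : 0 ≤ (9 * c / 10) ^ (e - 2) := Real.rpow_nonneg (by linarith) _
  have h4 : 0 ≤ (11 * c / 10) ^ (e - 2) := Real.rpow_nonneg (by linarith) _
  rcases le_total e 2 with h | h
  · have := Real.rpow_le_rpow_of_nonpos (show 0 < 9 * c / 10 by linarith) h1
      (show e - 2 ≤ 0 by linarith)
    linarith
  · have := Real.rpow_le_rpow hH.le h2 (show 0 ≤ e - 2 by linarith)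
    linarith

/-- the third term -/
theorem gouter_t3 {e c l B C X ρ D q q₁ H H₁ : ℝ} (he : 1 < e) (hc : 0 < c) (hl : 0 < l)
    (hB : 0 ≤ B) (hC : 0 ≤ C) (hX : 1 ≤ X) (h1 : X ≤ ρ) (hX2 : 20 / (9 * c) ≤ X)
    (hq : q ≤ B * X) (hq1 : |q₁| ≤ C) (hD : l * X ≤ D)
    (hH : |H - c| ≤ c / 10) (hH1 : |H₁| ≤ c / 10) :
    (e - 1) * H ^ (e - 2) * (H₁ - H * √q * (2 * X + q₁) / D) ^ 2 / ((H * ρ) ^ e - 1) ≤
      (e - 1) * ((9 * c / 10) ^ (e - 2) + (11 * c / 10) ^ (e - 2)) *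
        (c / 10 + 11 * c / 10 * √B * (2 + C) / l) ^ 2 * (2 / (9 * c / 10) ^ e) *
          X ^ (1 - e) ∧ 2 ≤ (H * ρ) ^ e := by
  have hX0 : 0 < X := by linarith
  have hlX : 0 < l * X := mul_pos hl hX0
  have hD0 : 0 < D := hlX.trans_le hD
  rw [abs_le] at hH hq1
  have hHl : 9 * c / 10 ≤ H := by linarith [hH.1]
  have hHu : H ≤ 11 * c / 10 := by linarith [hH.2]
  have hH0 : 0 < H := by linarith
  have hK : |H₁ - H * √q * (2 * X + q₁) / D| ≤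
      (c / 10 + 11 * c / 10 * √B * (2 + C) / l) * √X := by
    have hsX : 1 ≤ √X := Real.one_le_sqrt.2 hX
    have hsq : √q ≤ √B * √X := by
      rw [← Real.sqrt_mul hB]
      exact Real.sqrt_le_sqrt hq
    have h3 : |H * √q * (2 * X + q₁) / D| ≤ 11 * c / 10 * (√B * √X) * ((2 + C) * X) / (l * X) := by
      rw [abs_div, abs_mul, abs_mul, abs_of_pos hH0, abs_of_nonneg (Real.sqrt_nonneg q),
        abs_of_pos hD0]
      apply div_le_div₀
      · positivity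
      · apply mul_le_mul
        · exact mul_le_mul hHu hsq (Real.sqrt_nonneg _) (by positivity)
        · rw [abs_le]
          constructor <;> nlinarith [hq1.1, hq1.2]
        · exact abs_nonneg _
        · positivity
      · exact hlX
      · exact hD
    have h4 : 11 * c / 10 * (√B * √X) * ((2 + C) * X) / (l * X) =
        11 * c / 10 * √B * (2 + C) / l * √X := by
      field_simp
    rw [h4] at h3
    have h5 : |H₁| ≤ c / 10 * √X := hH1.trans (by nlinarith)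
    calc |H₁ - H * √q * (2 * X + q₁) / D| ≤ |H₁| + |H * √q * (2 * X + q₁) / D| := abs_sub _ _
      _ ≤ c / 10 * √X + 11 * c / 10 * √B * (2 + C) / l * √X := add_le_add h5 h3
      _ = _ := by ring
  have hK2 : (H₁ - H * √q * (2 * X + q₁) / D) ^ 2 ≤
      (c / 10 + 11 * c / 10 * √B * (2 + C) / l) ^ 2 * X := by
    rw [← sq_abs (H₁ - H * √q * (2 * X + q₁) / D)]
    calc |H₁ - H * √q * (2 * X + q₁) / D| ^ 2 ≤
          ((c / 10 + 11 * c / 10 * √B * (2 + C) / l) * √X) ^ 2 :=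
            pow_le_pow_left₀ (abs_nonneg _) hK 2
      _ = _ := by rw [mul_pow, Real.sq_sqrt hX0.le]
  have hb : 9 * c / 10 * X ≤ H * ρ := mul_le_mul hHl h1 hX0.le hH0.le
  have hb2 : 2 ≤ 9 * c / 10 * X := by
    rw [div_le_iff₀ (by positivity)] at hX2
    linarith
  have hbe : (9 * c / 10) ^ e * X ^ e ≤ (H * ρ) ^ e := by
    rw [← Real.mul_rpow (by positivity) hX0.le]
    exact Real.rpow_le_rpow (by positivity) hb (by linarith)
  have h2e : 2 ≤ (H * ρ) ^ e := by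
    have h6 : (2 : ℝ) ≤ 2 ^ e := by
      have := Real.rpow_le_rpow_of_exponent_le (show (1 : ℝ) ≤ 2 by norm_num) he.le
      rwa [Real.rpow_one] at this
    exact h6.trans (Real.rpow_le_rpow (by norm_num) (hb2.trans hb) (by linarith))
  refine ⟨?_, h2e⟩
  have hpe : 0 < (9 * c / 10) ^ e := Real.rpow_pos_of_pos (by positivity) e
  have hXe : 0 < X ^ e := Real.rpow_pos_of_pos hX0 e
  have hden : (9 * c / 10) ^ e * X ^ e / 2 ≤ (H * ρ) ^ e - 1 := by linarith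
  have hM := gouter_H (e := e) hc hHl hHu
  have hH2 : 0 ≤ H ^ (e - 2) := Real.rpow_nonneg hH0.le _
  have h7 : X ^ (1 - e) = X / X ^ e := by
    rw [Real.rpow_sub hX0, Real.rpow_one]
  calc (e - 1) * H ^ (e - 2) * (H₁ - H * √q * (2 * X + q₁) / D) ^ 2 / ((H * ρ) ^ e - 1) ≤
        (e - 1) * ((9 * c / 10) ^ (e - 2) + (11 * c / 10) ^ (e - 2)) *
        ((c / 10 + 11 * c / 10 * √B * (2 + C) / l) ^ 2 * X) /
          ((9 * c / 10) ^ e * X ^ e / 2) := by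
        have he1 : 0 ≤ e - 1 := by linarith
        have hM0 : 0 ≤ (9 * c / 10) ^ (e - 2) + (11 * c / 10) ^ (e - 2) := hH2.trans hM
        apply div_le_div₀
        · positivity
        · exact mul_le_mul (mul_le_mul_of_nonneg_left hM he1) hK2 (sq_nonneg _) (by positivity)
        · positivity
        · exact hden
    _ = _ := by
        rw [h7]
        field_simp

/-- the function `GG` -/
theorem gouter_gg {e c l C X ρ D q q₁ H H₁ : ℝ} (he : 1 < e) (hc : 0 < c) (hl : 0 < l)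
    (hC : 0 ≤ C) (hX : 1 ≤ X) (h2 : ρ ≤ 2 * X) (hqX : √q ≤ X) (hq1 : |q₁| ≤ C)
    (hD : l * X ≤ D) (hX3 : 16 * C / (l * c) ≤ X) (h1 : X ≤ ρ)
    (hH : |H - c| ≤ c / 10) (hH1 : |H₁| ≤ c / 10) (h2e : 2 ≤ (H * ρ) ^ e) :
    c / 8 < ((H * ρ) ^ (e - 1) * (X * H - √q * H₁) / ρ + q₁ / D) /
      ((H * ρ) ^ e - 1) ^ ((e - 1) / e) := by
  have hX0 : 0 < X := by linarith
  have hlX : 0 < l * X := mul_pos hl hX0
  have hD0 : 0 < D := hlX.trans_le hD
  have hρ : 0 < ρ := by linarith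
  rw [abs_le] at hH hH1
  have hHl : 9 * c / 10 ≤ H := by linarith [hH.1]
  have hH0 : 0 < H := by linarith
  have hHρ : 0 < H * ρ := mul_pos hH0 hρ
  have hHρ1 : 1 ≤ H * ρ := by
    by_contra hcon
    push Not at hcon
    have := Real.rpow_le_one hHρ.le hcon.le (by linarith : 0 ≤ e)
    linarith
  have hP : 1 ≤ (H * ρ) ^ (e - 1) := Real.one_le_rpow hHρ1 (by linarith)
  have hP0 : 0 < (H * ρ) ^ (e - 1) := by linarith
  have hD1 : ((H * ρ) ^ e - 1) ^ ((e - 1) / e) ≤ (H * ρ) ^ (e - 1) := by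
    have h3 : (H * ρ) ^ (e - 1) = ((H * ρ) ^ e) ^ ((e - 1) / e) := by
      rw [← Real.rpow_mul hHρ.le]
      congr 1
      field_simp
    rw [h3]
    exact Real.rpow_le_rpow (by linarith) (by linarith) (div_nonneg (by linarith) (by linarith))
  have hD2 : 0 < ((H * ρ) ^ e - 1) ^ ((e - 1) / e) := Real.rpow_pos_of_pos (by linarith) _
  have h4 : 2 * c / 5 ≤ (X * H - √q * H₁) / ρ := by
    rw [le_div_iff₀ hρ]
    have h5 : √q * H₁ ≤ X * (c / 10) := by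
      have h6 := Real.sqrt_nonneg q
      nlinarith [hH1.2]
    have h7 : X * (9 * c / 10) ≤ X * H := mul_le_mul_of_nonneg_left hHl hX0.le
    have h8 : 2 * c / 5 * ρ ≤ 2 * c / 5 * (2 * X) := mul_le_mul_of_nonneg_left h2 (by positivity)
    linarith
  have h5 : |q₁ / D| ≤ c / 16 := by
    rw [abs_div, abs_of_pos hD0, div_le_iff₀ hD0]
    rw [div_le_iff₀ (by positivity)] at hX3
    have h6 : c * (l * X) ≤ c * D := mul_le_mul_of_nonneg_left hD hc.le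
    nlinarith
  rw [abs_le] at h5
  rw [lt_div_iff₀ hD2]
  have h9 : c / 8 * ((H * ρ) ^ e - 1) ^ ((e - 1) / e) ≤ c / 8 * (H * ρ) ^ (e - 1) :=
    mul_le_mul_of_nonneg_left hD1 (by positivity)
  have h10 : (H * ρ) ^ (e - 1) * (X * H - √q * H₁) / ρ =
      (H * ρ) ^ (e - 1) * ((X * H - √q * H₁) / ρ) := by ring
  rw [h10]
  have h11 : (H * ρ) ^ (e - 1) * (2 * c / 5) ≤ (H * ρ) ^ (e - 1) * ((X * H - √q * H₁) / ρ) :=
    mul_le_mul_of_nonneg_left h4 hP0.le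
  have h12 : c / 16 ≤ c / 16 * (H * ρ) ^ (e - 1) := by nlinarith
  nlinarith [h5.1]

/-- For `X ≥ X₀` (large).  `ρ = √(X²+q)`, `X ≤ ρ ≤ 2X`.
`R H^{e-1} ≥ (c/2)^e`-type lower bound.  Second term: `ρ^{4-e} ≤ 2^4 X^{4-e}` in both cases
`e ≤ 4` (`ρ ≤ 2X`), `e > 4` (`ρ ≥ X`); so it is `≤ 2·16·X^{4-e} C/(l X)³ = C' X^{1-e}`.
Third: `|H₁ - H√q(2X+q₁)/(2q-Xq₁)| ≤ c/10 + 2c √(b+CX) (2X+C)/(lX) ≤ C'' √X`,
`(Hρ)^e - 1 ≥ (1/2)(cX/2)^e`, so it is `≤ C''' X^{1-e}`. Both tend to `0`.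
`GG`: `(XH - √q H₁)/ρ ≥ c/4`, `|q₁/(2q-Xq₁)| ≤ C/(lX)`, `(Hρ)^{e-1} ≥ 1`, denominator
`≤ (Hρ)^{e-1}`. -/
theorem outer {e c b l C : ℝ} (he : 1 < e) (hc : 0 < c) (hl : 0 < l) : ∃ X₀ ≥ 1,
    ∀ X, X₀ ≤ X → ∀ q q₁ q₂ H H₁ R, 0 < q → q ≤ b + C * X → |q₁| ≤ C →
    0 ≤ q₁ ^ 2 - 2 * q * q₂ → q₁ ^ 2 - 2 * q * q₂ ≤ C → l * X ≤ 2 * q - X * q₁ →
    |H - c| ≤ c / 10 → |H₁| ≤ c / 10 → |R - c| ≤ c / 5 →
    0 < FF e X q q₁ q₂ H H₁ R ∧ 3 / 2 < (H * √(X ^ 2 + q)) ^ e ∧ c / 8 < GG e X q q₁ H H₁ := by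
  obtain ⟨B, hB⟩ : ∃ B, B = |b| + |C| := ⟨_, rfl⟩
  have hB0 : 0 ≤ B := by rw [hB]; positivity
  have hC0 : 0 ≤ |C| := abs_nonneg C
  obtain ⟨K2, hK2⟩ : ∃ K2, K2 = 32 * |C| / l ^ 3 := ⟨_, rfl⟩
  obtain ⟨K3, hK3⟩ : ∃ K3, K3 = (e - 1) * ((9 * c / 10) ^ (e - 2) + (11 * c / 10) ^ (e - 2)) *
        (c / 10 + 11 * c / 10 * √B * (2 + |C|) / l) ^ 2 * (2 / (9 * c / 10) ^ e) := ⟨_, rfl⟩
  obtain ⟨T, hT⟩ : ∃ T, T = 4 * c / 5 * (9 * c / 10) ^ (e - 1) := ⟨_, rfl⟩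
  have hT0 : 0 < T := by
    rw [hT]
    exact mul_pos (by positivity) (Real.rpow_pos_of_pos (by positivity) _)
  have hlim : Tendsto (fun X : ℝ => (K2 + K3) * X ^ (1 - e)) atTop (𝓝 0) := by
    have h1 := (tendsto_rpow_neg_atTop (show 0 < e - 1 by linarith)).const_mul (K2 + K3)
    rw [mul_zero] at h1
    refine h1.congr fun X => ?_
    congr 2
    ring
  have hev : ∀ᶠ X in atTop, 1 ≤ X ∧ B ≤ X ∧ 20 / (9 * c) ≤ X ∧ 16 * |C| / (l * c) ≤ X ∧
      (K2 + K3) * X ^ (1 - e) < T :=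
    (eventually_ge_atTop _).and ((eventually_ge_atTop _).and ((eventually_ge_atTop _).and
      ((eventually_ge_atTop _).and (hlim.eventually_lt_const hT0))))
  obtain ⟨X₁, hX₁⟩ := eventually_atTop.1 hev
  refine ⟨max X₁ 1, le_max_right _ _, fun X hX q q₁ q₂ H H₁ R hq0 hq hq1 hw0 hw hD hH hH1 hR => ?_⟩
  obtain ⟨hX1, hXB, hXc, hXC, hXT⟩ := hX₁ X ((le_max_left _ _).trans hX)
  have hX0 : 0 < X := by linarith
  have hqB : q ≤ B * X := by
    have h1 : b ≤ |b| * X := (le_abs_self b).trans (by nlinarith [abs_nonneg b])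
    have h2 : C * X ≤ |C| * X := mul_le_mul_of_nonneg_right (le_abs_self C) hX0.le
    rw [hB, add_mul]
    linarith
  have hqX : q ≤ X ^ 2 := by nlinarith
  have hρ1 : X ≤ √(X ^ 2 + q) := Real.le_sqrt_of_sq_le (by linarith)
  have hρ2 : √(X ^ 2 + q) ≤ 2 * X := by
    rw [Real.sqrt_le_left (by linarith)]
    nlinarith
  have hsq : √q ≤ X := by
    rw [Real.sqrt_le_left hX0.le]
    exact hqX
  have hq1' : |q₁| ≤ |C| := hq1.trans (le_abs_self C)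
  have hw' : q₁ ^ 2 - 2 * q * q₂ ≤ |C| := hw.trans (le_abs_self C)
  obtain ⟨t3, h2e⟩ := gouter_t3 he hc hl hB0 hC0 hX1 hρ1 hXc hqB hq1' hD hH hH1
  have t2 := gouter_t2 he hl hX1 hρ1 hρ2 hw0 hw' hD
  rw [← hK2] at t2
  rw [← hK3] at t3
  refine ⟨?_, by linarith, gouter_gg he hc hl hC0 hX1 hρ2 hsq hq1' hD hXC hρ1 hH hH1 h2e⟩
  have t1 : T ≤ R * H ^ (e - 1) := by
    rw [abs_le] at hH hR
    rw [hT]
    exact mul_le_mul (by linarith [hR.1])
      (Real.rpow_le_rpow (by positivity) (by linarith [hH.1]) (by linarith))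
      (Real.rpow_nonneg (by positivity) _) (by linarith [hR.1])
  unfold FF
  rw [add_mul] at hXT
  linarith

end CG
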