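import Pool.Agent.H.MP_1693ff_gtB.GTube
import Pool.Agent.H.MP_1693ff_gtB.GOuter
import Pool.Agent.H.MP_1693ff_gtB.GCub
import Pool.Agent.H.MP_1693ff_gtB.GPar

/-!
# The facts on the start arc
-/

namespace CG

open Real Set Filter Topology CF

theorem gfirsta_qm1 {e c : ℝ} (he : 1 < e) (hc : 0 < c) : 0 < qm1 e c := by
  have h1 : 0 < √e := Real.sqrt_pos.2 (by linarith)
  unfold qm1
  positivity

theorem gfirsta_mem {m M A x δ : ℝ} (h1 : m ≤ A) (h2 : A ≤ M) (hm : 0 < m) (hδ : δ ≤ m / 2)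
    (hx : |x - A| ≤ δ) : x ∈ Icc (m / 2) (2 * M) := by
  obtain ⟨h3, h4⟩ := abs_le.1 hx
  constructor <;> linarith

/-- the parameters of the start arc -/
theorem gfirsta_par {e c c' : ℝ} (he : 1 < e) (hc : 0 < c) (hc' : 0 < c') :
    ∃ b₀ b₁ l₀ l₁ : ℝ, 0 < b₀ ∧ 0 < l₀ ∧ ∀ δ : ℝ, 0 < δ → ∃ ε : ℝ, 0 < ε ∧ ε ≤ c / 10 ∧
      ε ≤ c' / 10 ∧ ∀ h k, Near h c ε → Near k c' ε → 0 < al e h ∧ 0 < al e (ng h) ∧
        0 < al e k ∧ 0 < al e (ng k) ∧ bb e h ^ 2 ∈ Icc b₀ b₁ ∧ bb e k ^ 2 ∈ Icc b₀ b₁ ∧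
        al e h ∈ Icc l₀ l₁ ∧ al e (ng k) ∈ Icc l₀ l₁ ∧
        |bb e h ^ 2 - ((2 : ℝ) ^ e⁻¹ / c) ^ 2| ≤ δ ∧ |al e h - qm1 e c| ≤ δ := by
  set A := ((2 : ℝ) ^ e⁻¹ / c) ^ 2 with hA
  set A' := ((2 : ℝ) ^ e⁻¹ / c') ^ 2 with hA'
  have a0 : 0 < A := by positivity
  have a0' : 0 < A' := by positivity
  have l0 := gfirsta_qm1 he hc
  have l0' := gfirsta_qm1 he hc'
  have m0 : 0 < min A A' := lt_min a0 a0'
  have m1 : 0 < min (qm1 e c) (qm1 e c') := lt_min l0 l0'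
  refine ⟨min A A' / 2, 2 * max A A', min (qm1 e c) (qm1 e c') / 2,
    2 * max (qm1 e c) (qm1 e c'), by positivity, by positivity, fun δ hδ => ?_⟩
  have hδ' : 0 < min δ (min (min A A' / 2) (min (qm1 e c) (qm1 e c') / 2)) :=
    lt_min hδ (lt_min (by positivity) (by positivity))
  set δ' := min δ (min (min A A' / 2) (min (qm1 e c) (qm1 e c') / 2)) with hδ'def
  have d1 : δ' ≤ δ := min_le_left _ _
  have d2 : δ' ≤ min A A' / 2 := (min_le_right _ _).trans (min_le_left _ _)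
  have d3 : δ' ≤ min (qm1 e c) (qm1 e c') / 2 := (min_le_right _ _).trans (min_le_right _ _)
  obtain ⟨ε₁, e1, e1c, H1⟩ := par_near he hc hδ'
  obtain ⟨ε₂, e2, e2c, H2⟩ := par_near he hc' hδ'
  refine ⟨min ε₁ ε₂, lt_min e1 e2, (min_le_left _ _).trans e1c, (min_le_right _ _).trans e2c,
    fun h k hh hk => ?_⟩
  obtain ⟨p1, p2, p3, -⟩ := H1 h (hh.mono (min_le_left _ _))
  obtain ⟨r1, r2, r3, -⟩ := H2 k (hk.mono (min_le_right _ _))
  have t1 : qm1 e c ≤ max (qm1 e c) (qm1 e c') := le_max_left _ _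
  have t2 : qm1 e c' ≤ max (qm1 e c) (qm1 e c') := le_max_right _ _
  have q1 := gfirsta_mem (min_le_left _ _) t1 m1 d3 p2
  have q2 := gfirsta_mem (min_le_left _ _) t1 m1 d3 p3
  have q3 := gfirsta_mem (min_le_right _ _) t2 m1 d3 r2
  have q4 := gfirsta_mem (min_le_right _ _) t2 m1 d3 r3
  have l00 : 0 < min (qm1 e c) (qm1 e c') / 2 := by positivity
  exact ⟨lt_of_lt_of_le l00 q1.1, lt_of_lt_of_le l00 q2.1, lt_of_lt_of_le l00 q3.1,
    lt_of_lt_of_le l00 q4.1, gfirsta_mem (min_le_left _ _) (le_max_left _ _) m0 d2 p1,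
    gfirsta_mem (min_le_right _ _) (le_max_right _ _) m0 d2 r1, q1, q4, p1.trans d1, p2.trans d1⟩

/-- the inner part: distance to the model -/
theorem gfirsta_inner {q q₁ q₂ q₀ α A l X X₀ E δ : ℝ} (hδ : 0 < δ) (hX : X ∈ Icc 0 X₀)
    (h1 : |q - (q₀ + α * X)| ≤ E) (h2 : |q₁ - α| ≤ E) (h3 : |q₂| ≤ E) (hE : E ≤ δ / 3)
    (hq : |q₀ - A| ≤ δ / (3 * (1 + X₀))) (hα : |α - l| ≤ δ / (3 * (1 + X₀))) :
    |q - (A + l * X)| ≤ δ ∧ |q₁ - l| ≤ δ ∧ |q₂| ≤ δ := by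
  obtain ⟨x0, x1⟩ := hX
  have hX0 : 0 < 1 + X₀ := by linarith
  have e1 : δ / (3 * (1 + X₀)) * (1 + X₀) = δ / 3 := by
    field_simp
  have e0 : 0 ≤ δ / (3 * (1 + X₀)) := by positivity
  have e2 : δ / (3 * (1 + X₀)) ≤ δ / 3 := by
    rw [← e1]
    nlinarith
  refine ⟨?_, ?_, by linarith⟩
  · have e3 : q - (A + l * X) = (q - (q₀ + α * X)) + (q₀ - A) + (α - l) * X := by ring
    rw [e3]
    refine (abs_add_three _ _ _).trans ?_
    rw [abs_mul, abs_of_nonneg x0]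
    have e4 : |α - l| * X ≤ δ / (3 * (1 + X₀)) * X₀ := mul_le_mul hα x1 x0 e0
    have e5 : δ / (3 * (1 + X₀)) * X₀ + δ / (3 * (1 + X₀)) = δ / 3 := by
      rw [← e1]
      ring
    linarith
  · have e3 : q₁ - l = (q₁ - α) + (α - l) := by ring
    rw [e3]
    refine (abs_add_le _ _).trans ?_
    linarith

/-- Assembly.  `B = 2^{1/e}/c`, `B' = 2^{1/e}/c'`, `b₀ = min(B², B'²)/2`, `b₁ = 2 max(B²,B'²)`,
`l₀ = min(qm1 e c, qm1 e c')/2`, `l₁ = 2 max(qm1 e c, qm1 e c')`.  By `par_near` (with small `δ`)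
for small `ε` the four parameters of `aq e d h k` are in these intervals.  `cub_b`, `cub_c` give
constants and the bounds `q0 … l1` with `b = min(b₀, l₀)`, `C` large. `outer` (with `b := b₁`,
`l := l₀`, that `C`) gives `X₀`; `tube` on `[0,X₀]` gives `δ`; `cub_near` and `par_near` (with
`δ/3` divided by `1 + X₀`) make `|aq - qm e c X| ≤ δ`, `|aq1 - qm1 e c| ≤ δ`, `|aq2| ≤ δ` on
`[0,X₀]` for small `ε` and large `d`; `|h θ - c|, |h' θ| ≤ ε ≤ δ`, `|curv h θ - c| ≤ 2ε ≤ δ`,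
`≤ c/5`. The final `δ` is the minimum of the `δ` of `tube` and `c/8`. -/
theorem first_core {e c c' : ℝ} (he : 1 < e) (hc : 0 < c) (hc' : 0 < c') :
    ∃ ε δ b C D : ℝ, 0 < ε ∧ ε ≤ c / 10 ∧ ε ≤ c' / 10 ∧ 0 < δ ∧ 0 < b ∧ 0 ≤ C ∧ 1 ≤ D ∧
      ∀ h k, Near h c ε → Near k c' ε → 0 < al e h ∧ 0 < al e (ng h) ∧ 0 < al e k ∧
        0 < al e (ng k) ∧ ∀ d, D ≤ d → ∀ X ∈ Icc 0 d, Core e d δ b C h k X := by
  obtain ⟨b₀, b₁, l₀, l₁, hb₀, hl₀, hpar⟩ := gfirsta_par he hc hc'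
  obtain ⟨Cb, hCb, Hb⟩ := cub_b (b₁ := b₁) (l₁ := l₁) hb₀ hl₀
  obtain ⟨Cc, Dc, hCc, hDc, Hc⟩ := cub_c (b₁ := b₁) (l₁ := l₁) hb₀ hl₀
  set C := max (max Cb Cc) (max b₁ l₁) with hC
  have hC1 : Cb ≤ C := (le_max_left _ _).trans (le_max_left _ _)
  have hC2 : Cc ≤ C := (le_max_right _ _).trans (le_max_left _ _)
  have hC3 : b₁ ≤ C := (le_max_left _ _).trans (le_max_right _ _)
  have hC4 : l₁ ≤ C := (le_max_right _ _).trans (le_max_right _ _)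
  have hC0 : 0 ≤ C := hCb.trans hC1
  obtain ⟨X₀, hX₀, Hout⟩ := outer (b := b₁) (C := C) he hc hl₀
  obtain ⟨δ, hδ, Htube⟩ := tube (X₀ := X₀) he hc
  have hX00 : 0 ≤ X₀ := by linarith
  obtain ⟨Cn, hCn, Hn⟩ := cub_near (b₁ := b₁) (l₁ := l₁) hb₀ hl₀ hX00
  obtain ⟨ε₀, hε₀, hε₁, hε₂, Hpar⟩ := hpar (δ / (3 * (1 + X₀))) (by positivity)
  refine ⟨min ε₀ (δ / 2), min δ (c / 8), min b₀ l₀, C, max (max Dc X₀) (3 * Cn / δ),
    lt_min hε₀ (by positivity), (min_le_left _ _).trans hε₁, (min_le_left _ _).trans hε₂,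
    lt_min hδ (by positivity), lt_min hb₀ hl₀, hC0,
    hDc.trans ((le_max_left _ _).trans (le_max_left _ _)), fun h k hh hk => ?_⟩
  obtain ⟨a1, a2, a3, a4, m1, m2, m3, m4, n1, n2⟩ := Hpar h k (hh.mono (min_le_left _ _))
    (hk.mono (min_le_left _ _))
  refine ⟨a1, a2, a3, a4, fun d hd X hX => ?_⟩
  have hd1 : Dc ≤ d := ((le_max_left _ _).trans (le_max_left _ _)).trans hd
  have hd2 : X₀ ≤ d := ((le_max_right _ _).trans (le_max_left _ _)).trans hd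
  have hd3 : 3 * Cn / δ ≤ d := (le_max_right _ _).trans hd
  have hd4 : 1 ≤ d := hDc.trans hd1
  have hd0 : 0 < d := by linarith
  obtain ⟨u1, u2, u3, u4, u5⟩ := Hb _ m1 _ m2 _ m3 _ m4 d hd4 X hX
  obtain ⟨w1, w2⟩ := Hc _ m1 _ m2 _ m3 _ m4 d hd1 X hX
  have hX0 : 0 ≤ X := hX.1
  have hXd : 0 ≤ d - X := sub_nonneg.2 hX.2
  have hb0 : min b₀ l₀ ≤ b₀ := min_le_left _ _
  have hb1 : min b₀ l₀ ≤ l₀ := min_le_right _ _
  have hε1 : min ε₀ (δ / 2) ≤ ε₀ := min_le_left _ _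
  have hε2 : min ε₀ (δ / 2) ≤ δ / 2 := min_le_right _ _
  have k1 := hh.n0 (th X (aq e d h k X))
  have k2 := hh.n1 (th X (aq e d h k X))
  have k3 : |curv h (th X (aq e d h k X)) - c| ≤ 2 * min ε₀ (δ / 2) := by
    have e1 : curv h (th X (aq e d h k X)) - c = (h (th X (aq e d h k X)) - c) +
        deriv (deriv h) (th X (aq e d h k X)) := by
      unfold curv
      ring
    rw [e1]
    refine (abs_add_le _ _).trans ?_
    have := hh.n2 (th X (aq e d h k X))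
    linarith
  -- the key alternative
  have key : 0 < FF e X (aq e d h k X) (aq1 e d h k X) (aq2 e d h k X)
        (h (th X (aq e d h k X))) (deriv h (th X (aq e d h k X))) (curv h (th X (aq e d h k X))) ∧
      3 / 2 < (h (th X (aq e d h k X)) * √(X ^ 2 + aq e d h k X)) ^ e ∧
      min δ (c / 8) < GG e X (aq e d h k X) (aq1 e d h k X) (h (th X (aq e d h k X)))
        (deriv h (th X (aq e d h k X))) := by
    rcases le_total X X₀ with hXX | hXX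
    · obtain ⟨v1, v2, v3⟩ := Hn _ m1 _ m2 _ m3 _ m4 d hd4 hd2 X ⟨hX0, hXX⟩
      have hE : Cn / d ≤ δ / 3 := by
        rw [div_le_div_iff₀ hd0 (by norm_num)]
        rw [div_le_iff₀ hδ] at hd3
        linarith
      obtain ⟨g1, g2, g3⟩ := gfirsta_inner hδ ⟨hX0, hXX⟩ v1 v2 v3 hE n1 n2
      obtain ⟨t1, t2, t3⟩ := Htube X ⟨hX0, hXX⟩ (aq e d h k X) (aq1 e d h k X) (aq2 e d h k X)
        (h (th X (aq e d h k X))) (deriv h (th X (aq e d h k X)))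
        (curv h (th X (aq e d h k X))) g1 g2 g3 (by linarith) (by linarith) (by linarith)
      exact ⟨t1, t2, lt_of_le_of_lt (min_le_left _ _) t3⟩
    · obtain ⟨t1, t2, t3⟩ := Hout X hXX (aq e d h k X) (aq1 e d h k X) (aq2 e d h k X)
        (h (th X (aq e d h k X))) (deriv h (th X (aq e d h k X)))
        (curv h (th X (aq e d h k X))) (lt_of_lt_of_le hb₀ u1)
        (u2.trans (add_le_add le_rfl (mul_le_mul_of_nonneg_right hC4 hX0))) (u3.trans hC1) w1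
        (w2.trans hC2) (by
          have : 2 * b₀ + l₀ * X ≤ 2 * aq e d h k X - X * aq1 e d h k X := u4
          linarith) (by linarith) (by linarith) (by linarith)
      exact ⟨t1, t2, lt_of_le_of_lt (min_le_right _ _) t3⟩
  refine ⟨hb0.trans u1, ?_, u3.trans hC1, w1, w2.trans hC2, ?_, ?_, key.1, key.2.1, key.2.2⟩
  · refine u2.trans ?_
    have := mul_le_mul_of_nonneg_right hC4 hX0
    linarith
  · refine le_trans ?_ u4
    have := mul_le_mul_of_nonneg_right hb1 hX0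
    linarith
  · refine le_trans ?_ u5
    have := mul_nonneg hl₀.le hXd
    linarith

end CG
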