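import Pool.Agent.H.MP_1693ff_gtB.GHalf

/-!
# Gluing: the formulas
-/

namespace CG

open Real Set Filter Topology CF

/-- The four half curves fit together.  Put `Z₁ = ZZ h₁ h₂`, `Z₂ = ZZ h₂ h₁`,
`Z₃ = ZZ (ng h₂) (ng h₁)`, `Z₄ = ZZ (ng h₁) (ng h₂)` and define
`x τ = (Z₁ τ).a`, `y τ = -(Z₁ τ).α`, `s τ = (Z₁ τ).s`, `yH τ = -(Z₂ (τ+1)).a`,
`sH τ = (Z₂ (τ+1)).s⁻¹` for `0 ≤ τ`, and `x τ = -(Z₃ (1-τ)).α`, `y τ = (Z₃ (1-τ)).a`,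
`s τ = (Z₃ (1-τ)).s⁻¹`, `yH τ = (Z₄ (-τ)).α`, `sH τ = (Z₄ (-τ)).s` for `τ < 0`.
`zz_step` gives `Z₂ (τ+1) = hst (pf h₁) (Z₁ τ)`, `Z₁ (τ+1) = hst (pf h₂) (Z₂ τ)`,
`Z₄ (τ+1) = hst (pf (ng h₂)) (Z₃ τ)`, `Z₃ (τ+1) = hst (pf (ng h₁)) (Z₄ τ)` (`τ ≥ 0`), and
`(hst S).α = S.a`.
`u2` for `τ ∈ [0,1]`: `zz_arc`, `arc_mirror` for `(h₁,h₂)`.
`l1` for `τ ≥ 0`: `(Z₂ (τ+1)).α = (Z₁ τ).a`; for `τ ∈ [-1,0)`: `arc_mirror` for `(h₂,h₁)` at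
`t = τ+1` (`1 - t = -τ`), and `x τ = -(Z₃ (1-τ)).α = -(Z₄ (-τ)).a`.
`l2` for `τ < 0`: `x τ = -(Z₃ (1-τ)).α = -(Z₄ (-τ)).a`; for `τ = 0` by `l1` and `arc_mirror`.
`sh`: for `τ ≥ -1`: `y (τ+2) = -(Z₁ (τ+2)).α = -(Z₂ (τ+1)).a`; for `τ ≤ -1`:
`y (τ+2) = (Z₃ (-1-τ)).a = (Z₄ (-τ)).α`.
Symmetry: if `ng h₁ = h₁`, `ng h₂ = h₂` then `Z₃ = Z₂`, `Z₄ = Z₁`; for `τ ≥ 0` use `u1` at `τ` and
`l2` at `-τ`; for `τ ≤ 0` use `u2` at `τ` and `l1` at `-τ`. -/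
theorem exists_br {e d κ C₁ C₂ κ' C₁' C₂' : ℝ} {h₁ h₂ : ℝ → ℝ} (D : DK e d κ C₁ C₂ h₁ h₂)
    (D' : DK e d κ' C₁' C₂' (ng h₂) (ng h₁)) : ∃ x y s yH sH : ℝ → ℝ,
    Br (ZZ e d h₁ h₂) (ZZ e d h₂ h₁) (ZZ e d (ng h₂) (ng h₁)) (ZZ e d (ng h₁) (ng h₂))
      x y s yH sH ∧
    (ng h₁ = h₁ → ng h₂ = h₂ → ∀ τ, x (-τ) = -x τ ∧ yH (-τ) = -y τ ∧ sH (-τ) = s τ) := by
  have hd : 0 < d := lt_of_lt_of_le one_pos D.d1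
  -- the half steps
  have S12 : ∀ τ, 0 ≤ τ → (ZZ e d h₂ h₁ (τ + 1)).α = (ZZ e d h₁ h₂ τ).a := fun τ hτ => by
    rw [zz_step hτ]; rfl
  have S21 : ∀ τ, 0 ≤ τ → (ZZ e d h₁ h₂ (τ + 1)).α = (ZZ e d h₂ h₁ τ).a := fun τ hτ => by
    rw [zz_step hτ]; rfl
  have S34 : ∀ τ, 0 ≤ τ → (ZZ e d (ng h₁) (ng h₂) (τ + 1)).α = (ZZ e d (ng h₂) (ng h₁) τ).a :=
    fun τ hτ => by rw [zz_step hτ]; rfl
  have S43 : ∀ τ, 0 ≤ τ → (ZZ e d (ng h₂) (ng h₁) (τ + 1)).α = (ZZ e d (ng h₁) (ng h₂) τ).a :=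
    fun τ hτ => by rw [zz_step hτ]; rfl
  -- the mirror images
  have M13 : ∀ t ∈ Icc (0 : ℝ) 1, (ZZ e d (ng h₂) (ng h₁) (1 - t)).a = -(ZZ e d h₁ h₂ t).α ∧
      (ZZ e d (ng h₂) (ng h₁) (1 - t)).α = -(ZZ e d h₁ h₂ t).a ∧
      (ZZ e d (ng h₂) (ng h₁) (1 - t)).s = ((ZZ e d h₁ h₂ t).s)⁻¹ := by
    intro t ht
    have ht' : 1 - t ∈ Icc (0 : ℝ) 1 := ⟨by linarith [ht.2], by linarith [ht.1]⟩
    obtain ⟨a1, a2, a3⟩ := zz_arc D ht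
    obtain ⟨b1, b2, b3⟩ := zz_arc D' ht'
    obtain ⟨c1, c2, c3⟩ := arc_mirror (e := e) hd D.hp D.kp t
    rw [a1, a2, a3, b1, b2, b3]
    exact ⟨c1, c2, c3⟩
  have M24 : ∀ t ∈ Icc (0 : ℝ) 1, (ZZ e d (ng h₁) (ng h₂) (1 - t)).a = -(ZZ e d h₂ h₁ t).α ∧
      (ZZ e d (ng h₁) (ng h₂) (1 - t)).α = -(ZZ e d h₂ h₁ t).a ∧
      (ZZ e d (ng h₁) (ng h₂) (1 - t)).s = ((ZZ e d h₂ h₁ t).s)⁻¹ := by
    intro t ht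
    have ht' : 1 - t ∈ Icc (0 : ℝ) 1 := ⟨by linarith [ht.2], by linarith [ht.1]⟩
    obtain ⟨a1, a2, a3⟩ := zz_arc D.swap ht
    obtain ⟨b1, b2, b3⟩ := zz_arc D'.swap ht'
    obtain ⟨c1, c2, c3⟩ := arc_mirror (e := e) hd D.kp D.hp t
    rw [a1, a2, a3, b1, b2, b3]
    exact ⟨c1, c2, c3⟩
  have B0 : Br (ZZ e d h₁ h₂) (ZZ e d h₂ h₁) (ZZ e d (ng h₂) (ng h₁)) (ZZ e d (ng h₁) (ng h₂))
      (fun τ => if 0 ≤ τ then (ZZ e d h₁ h₂ τ).a else -(ZZ e d (ng h₂) (ng h₁) (1 - τ)).α)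
      (fun τ => if 0 ≤ τ then -(ZZ e d h₁ h₂ τ).α else (ZZ e d (ng h₂) (ng h₁) (1 - τ)).a)
      (fun τ => if 0 ≤ τ then (ZZ e d h₁ h₂ τ).s else ((ZZ e d (ng h₂) (ng h₁) (1 - τ)).s)⁻¹)
      (fun τ => if 0 ≤ τ then -(ZZ e d h₂ h₁ (τ + 1)).a else (ZZ e d (ng h₁) (ng h₂) (-τ)).α)
      (fun τ => if 0 ≤ τ then ((ZZ e d h₂ h₁ (τ + 1)).s)⁻¹
        else (ZZ e d (ng h₁) (ng h₂) (-τ)).s) := by
    have u1 : ∀ τ, 0 ≤ τ →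
        (if 0 ≤ τ then (ZZ e d h₁ h₂ τ).a else -(ZZ e d (ng h₂) (ng h₁) (1 - τ)).α) =
          (ZZ e d h₁ h₂ τ).a ∧
        (if 0 ≤ τ then -(ZZ e d h₁ h₂ τ).α else (ZZ e d (ng h₂) (ng h₁) (1 - τ)).a) =
          -(ZZ e d h₁ h₂ τ).α ∧
        (if 0 ≤ τ then (ZZ e d h₁ h₂ τ).s else ((ZZ e d (ng h₂) (ng h₁) (1 - τ)).s)⁻¹) =
          (ZZ e d h₁ h₂ τ).s := by
      intro τ hτ
      rw [if_pos hτ, if_pos hτ, if_pos hτ]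
      exact ⟨rfl, rfl, rfl⟩
    have u2 : ∀ τ, τ ≤ 1 →
        (if 0 ≤ τ then (ZZ e d h₁ h₂ τ).a else -(ZZ e d (ng h₂) (ng h₁) (1 - τ)).α) =
          -(ZZ e d (ng h₂) (ng h₁) (1 - τ)).α ∧
        (if 0 ≤ τ then -(ZZ e d h₁ h₂ τ).α else (ZZ e d (ng h₂) (ng h₁) (1 - τ)).a) =
          (ZZ e d (ng h₂) (ng h₁) (1 - τ)).a ∧
        (if 0 ≤ τ then (ZZ e d h₁ h₂ τ).s else ((ZZ e d (ng h₂) (ng h₁) (1 - τ)).s)⁻¹) =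
          ((ZZ e d (ng h₂) (ng h₁) (1 - τ)).s)⁻¹ := by
      intro τ hτ
      by_cases h0 : 0 ≤ τ
      · rw [if_pos h0, if_pos h0, if_pos h0]
        obtain ⟨m1, m2, m3⟩ := M13 τ ⟨h0, hτ⟩
        rw [m1, m2, m3, neg_neg, inv_inv]
        exact ⟨rfl, rfl, rfl⟩
      · rw [if_neg h0, if_neg h0, if_neg h0]
        exact ⟨rfl, rfl, rfl⟩
    have l1 : ∀ τ, -1 ≤ τ →
        (if 0 ≤ τ then (ZZ e d h₁ h₂ τ).a else -(ZZ e d (ng h₂) (ng h₁) (1 - τ)).α) =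
          (ZZ e d h₂ h₁ (τ + 1)).α ∧
        (if 0 ≤ τ then -(ZZ e d h₂ h₁ (τ + 1)).a else (ZZ e d (ng h₁) (ng h₂) (-τ)).α) =
          -(ZZ e d h₂ h₁ (τ + 1)).a ∧
        (if 0 ≤ τ then ((ZZ e d h₂ h₁ (τ + 1)).s)⁻¹ else (ZZ e d (ng h₁) (ng h₂) (-τ)).s) =
          ((ZZ e d h₂ h₁ (τ + 1)).s)⁻¹ := by
      intro τ hτ
      by_cases h0 : 0 ≤ τ
      · rw [if_pos h0, if_pos h0, if_pos h0, S12 τ h0]
        exact ⟨rfl, rfl, rfl⟩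
      · rw [if_neg h0, if_neg h0, if_neg h0]
        push Not at h0
        obtain ⟨m1, m2, m3⟩ := M24 (τ + 1) ⟨by linarith, by linarith⟩
        have e1 : 1 - (τ + 1) = -τ := by ring
        rw [e1] at m1 m2 m3
        have e2 := S43 (-τ) (by linarith)
        have e3 : -τ + 1 = 1 - τ := by ring
        rw [e3] at e2
        rw [e2, m1, m2, m3, neg_neg]
        exact ⟨rfl, rfl, rfl⟩
    have l2 : ∀ τ, τ ≤ 0 →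
        (if 0 ≤ τ then (ZZ e d h₁ h₂ τ).a else -(ZZ e d (ng h₂) (ng h₁) (1 - τ)).α) =
          -(ZZ e d (ng h₁) (ng h₂) (-τ)).a ∧
        (if 0 ≤ τ then -(ZZ e d h₂ h₁ (τ + 1)).a else (ZZ e d (ng h₁) (ng h₂) (-τ)).α) =
          (ZZ e d (ng h₁) (ng h₂) (-τ)).α ∧
        (if 0 ≤ τ then ((ZZ e d h₂ h₁ (τ + 1)).s)⁻¹ else (ZZ e d (ng h₁) (ng h₂) (-τ)).s) =
          (ZZ e d (ng h₁) (ng h₂) (-τ)).s := by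
      intro τ hτ
      by_cases h0 : 0 ≤ τ
      · have h00 : τ = 0 := le_antisymm hτ h0
        obtain ⟨m1, m2, m3⟩ := M24 1 ⟨zero_le_one, le_refl 1⟩
        rw [if_pos h0, if_pos h0, if_pos h0, ← S12 τ h0]
        subst h00
        rw [sub_self] at m1 m2 m3
        rw [zero_add, neg_zero, m1, m2, m3, neg_neg]
        exact ⟨rfl, rfl, rfl⟩
      · rw [if_neg h0, if_neg h0, if_neg h0]
        push Not at h0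
        have e2 := S43 (-τ) (by linarith)
        have e3 : -τ + 1 = 1 - τ := by ring
        rw [e3] at e2
        rw [e2]
        exact ⟨rfl, rfl, rfl⟩
    refine ⟨u1, u2, l1, l2, fun τ => ?_⟩
    rcases le_or_gt (-1) τ with h | h
    · have h1 := (l1 τ h).2.1
      have h2 := (u1 (τ + 2) (by linarith)).2.1
      have h3 := S21 (τ + 1) (by linarith)
      have e1 : τ + 1 + 1 = τ + 2 := by ring
      rw [e1] at h3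
      exact h1.trans (h2.trans (congrArg Neg.neg h3)).symm
    · have h1 := (l2 τ (by linarith)).2.1
      have h2 := (u2 (τ + 2) (by linarith)).2.1
      have h3 := S34 (-1 - τ) (by linarith)
      have e1 : -1 - τ + 1 = -τ := by ring
      have e2 : 1 - (τ + 2) = -1 - τ := by ring
      rw [e1] at h3
      have h4 : (ZZ e d (ng h₂) (ng h₁) (1 - (τ + 2))).a = (ZZ e d (ng h₂) (ng h₁) (-1 - τ)).a := by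
        rw [e2]
      exact (h1.trans h3).trans (h2.trans h4).symm
  obtain ⟨x, y, s, yH, sH, B⟩ : ∃ x y s yH sH : ℝ → ℝ,
      Br (ZZ e d h₁ h₂) (ZZ e d h₂ h₁) (ZZ e d (ng h₂) (ng h₁)) (ZZ e d (ng h₁) (ng h₂))
        x y s yH sH := ⟨_, _, _, _, _, B0⟩
  refine ⟨x, y, s, yH, sH, B, ?_⟩
  intro g1 g2 τ
  rcases le_total 0 τ with h | h
  · obtain ⟨p1, p2, p3⟩ := B.u1 τ h
    obtain ⟨q1, q2, q3⟩ := B.l2 (-τ) (by linarith)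
    rw [neg_neg, g1, g2] at q1 q2 q3
    rw [p1, p2, p3, q1, q2, q3, neg_neg]
    exact ⟨rfl, rfl, rfl⟩
  · obtain ⟨p1, p2, p3⟩ := B.u2 τ (by linarith)
    obtain ⟨q1, q2, q3⟩ := B.l1 (-τ) (by linarith)
    have e3 : -τ + 1 = 1 - τ := by ring
    rw [g1, g2] at p1 p2 p3
    rw [e3] at q1 q2 q3
    rw [p1, p2, p3, q1, q2, q3, neg_neg]
    exact ⟨rfl, rfl, rfl⟩

end CG
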