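import Pool.Agent.H.MP_1693ff_gtB.GArc
import Pool.Agent.H.MP_1693ff_gtB.GAlong
import Pool.Agent.H.MP_1693ff_gt.Piece3

/-!
# One piece of the curve
-/

namespace CG

open Real Set Filter Topology CF

theorem gpiece_P {h k : ℝ → ℝ} (hc : ContDiff ℝ 2 h) (kc : ContDiff ℝ 2 k) (n : ℕ) :
    (∀ a, HasDerivAt (if Even n then pf h else pf k).f ((if Even n then pf h else pf k).f1 a) a) ∧
    (∀ a, HasDerivAt (if Even n then pf h else pf k).f1
      ((if Even n then pf h else pf k).f2 a) a) := by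
  split_ifs
  · exact ⟨fun a => (prof_deriv hc a).1, fun a => (prof_deriv hc a).2⟩
  · exact ⟨fun a => (prof_deriv kc a).1, fun a => (prof_deriv kc a).2⟩

/-- `DK` is symmetric. -/
theorem DK.swap {e d κ C₁ C₂ : ℝ} {h k : ℝ → ℝ} (D : DK e d κ C₁ C₂ h k) :
    DK e d κ C₁ C₂ k h := by
  exact { e1 := D.e1, d1 := D.d1, κ0 := D.κ0, hp := D.kp, kp := D.hp, hc := D.kc, kc := D.hc,
          h0 := D.k0, k0 := D.h0, aok := D.aok', aok' := D.aok, ah := D.ak, ak := D.ah,
          ah' := D.ak', ak' := D.ah', good := D.good', good' := D.good, far := D.far',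
          far' := D.far, slb := D.slb', slb' := D.slb }

/-- Continuity of the main components on `[0,1]` (`arc_cont`, `cont_hst`, induction). -/
theorem chain_cont {e d κ C₁ C₂ : ℝ} {h k : ℝ → ℝ} (D : DK e d κ C₁ C₂ h k) (n : ℕ) :
    ContinuousOn (fun t => (chain e d h k n t).a) (Icc 0 1) ∧
    ContinuousOn (fun t => (chain e d h k n t).α) (Icc 0 1) ∧
    ContinuousOn (fun t => (chain e d h k n t).s) (Icc 0 1) := by
  have hd : 0 < d := by linarith [D.d1]
  induction n with
  | zero => exact arc_cont hd D.aok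
  | succ n ih =>
    obtain ⟨q1, q2⟩ := gpiece_P D.hc D.kc n
    exact cont_hst D.e1 (continuous_iff_continuousAt.2 fun a => (q1 a).continuousAt)
      (continuous_iff_continuousAt.2 fun a => (q2 a).continuousAt) ih.1 ih.2.1 ih.2.2
      (fun t ht => (D.good t ht n).W0) (fun t ht => (D.good t ht n).W1)
      (fun t ht => by
        have := mul_pos hd (D.good t ht n).p0
        linarith)

/-- Consistency inside (`arc_along`, `along_hst`, induction). -/
theorem chain_along {e d κ C₁ C₂ : ℝ} {h k : ℝ → ℝ} (D : DK e d κ C₁ C₂ h k) (n : ℕ) {t : ℝ}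
    (ht : t ∈ Ioo (0 : ℝ) 1) : Along (chain e d h k n) t := by
  have hd : 0 < d := by linarith [D.d1]
  have ht' : t ∈ Icc (0 : ℝ) 1 := ⟨ht.1.le, ht.2.le⟩
  induction n with
  | zero =>
    have h1 := D.aok (d * t) ⟨mul_nonneg hd.le ht'.1, by nlinarith [ht'.2]⟩
    exact arc_along hd h1.1 h1.2
  | succ n ih =>
    obtain ⟨q1, q2⟩ := gpiece_P D.hc D.kc n
    exact along_hst D.e1 hd q1 q2 ih (D.good t ht' n).W0 (D.good t ht' n).W1 (by
        have := mul_pos hd (D.good t ht' n).p0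
        linarith)

/-- The relation on one piece (`CF.rel_of_deriv` with `x = a`, `y = -α`, `g = k`), and strict
monotonicity of `a` (`v > 0`). -/
theorem chain_rel {e d κ C₁ C₂ : ℝ} {h k : ℝ → ℝ} (D : DK e d κ C₁ C₂ h k) (n : ℕ) {t t' : ℝ}
    (ht : t ∈ Icc (0 : ℝ) 1) (ht' : t' ∈ Icc (0 : ℝ) 1) (htt : t ≤ t') :
    RelG (chain e d h k n t).a (-(chain e d h k n t).α) (chain e d h k n t).s
      (chain e d h k n t').a (-(chain e d h k n t').α) (chain e d h k n t').s ∧
    (t < t' → (chain e d h k n t).a < (chain e d h k n t').a) := by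
  obtain ⟨c1, c2, c3⟩ := chain_cont D n
  have hsub : Icc t t' ⊆ Icc (0 : ℝ) 1 := Icc_subset_Icc ht.1 ht'.2
  have hA : ∀ τ ∈ Ioo t t', Along (chain e d h k n) τ := fun τ hτ =>
    chain_along D n ⟨lt_of_le_of_lt ht.1 hτ.1, lt_of_lt_of_le hτ.2 ht'.2⟩
  have hG : ∀ τ ∈ Ioo t t', Good e d (if Even n then pf h else pf k) (chain e d h k n τ) :=
    fun τ hτ => D.good τ (hsub ⟨hτ.1.le, hτ.2.le⟩) n
  constructor
  · refine rel_of_deriv (x := fun τ => (chain e d h k n τ).a)
      (y := fun τ => -(chain e d h k n τ).α) (s := fun τ => (chain e d h k n τ).s)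
      (v := fun τ => (chain e d h k n τ).v) (g := fun τ => (chain e d h k n τ).k) htt
      (c1.mono hsub) (c2.mono hsub).neg (c3.mono hsub) (fun τ hτ => (hA τ hτ).da)
      (fun τ hτ => ?_) (fun τ hτ => (hA τ hτ).ds) (fun τ hτ => (hG τ hτ).v0)
      (fun τ hτ => (hG τ hτ).k0)
    have h1 := (hA τ hτ).dα.neg
    refine h1.congr_deriv ?_
    ring
  · intro hlt
    have : StrictMonoOn (fun τ => (chain e d h k n τ).a) (Icc t t') := by
      refine strictMonoOn_of_deriv_pos (convex_Icc t t') (c1.mono hsub) ?_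
      rw [interior_Icc]
      intro τ hτ
      rw [(hA τ hτ).da.deriv]
      exact (hG τ hτ).v0
    exact this ⟨le_refl t, htt⟩ ⟨htt, le_refl t'⟩ hlt

end CG
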