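import Pool.Agent.H.MP_1693ff_gtB.GJunc
import Pool.Agent.H.MP_1693ff_gtB.GPiece

/-!
# The half curve
-/

namespace CG

open Real Set Filter Topology CF

/-- `ZZ` in terms of the integral and fractional parts. -/
theorem ghalf_eval {e d : ℝ} {h k : ℝ → ℝ} {τ : ℝ} {n : ℕ} {t : ℝ} (hn : ⌊τ⌋₊ = n)
    (ht : τ = n + t) :
    ZZ e d h k τ = if Even n then chain e d h k n t else chain e d k h n t := by
  have h1 : τ - (n : ℝ) = t := by rw [ht]; ring
  unfold ZZ
  rw [hn, h1]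

theorem ghalf_frac {τ : ℝ} (hτ : 0 ≤ τ) : τ - (⌊τ⌋₊ : ℝ) ∈ Icc (0 : ℝ) 1 := by
  have h1 := Nat.floor_le hτ
  have h2 := Nat.lt_floor_add_one τ
  exact ⟨by linarith, by linarith⟩

/-- `ZZ` on the closed interval `[n, n+1]` (at `n + 1` by `junc`): equal to the chain in the
components `α, a, s`. -/
theorem zz_piece {e d κ C₁ C₂ : ℝ} {h k : ℝ → ℝ} (D : DK e d κ C₁ C₂ h k) (n : ℕ) {t : ℝ}
    (ht : t ∈ Icc (0 : ℝ) 1) :
    (ZZ e d h k (n + t)).α =
      (if Even n then chain e d h k n t else chain e d k h n t).α ∧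
    (ZZ e d h k (n + t)).a = (if Even n then chain e d h k n t else chain e d k h n t).a ∧
    (ZZ e d h k (n + t)).s = (if Even n then chain e d h k n t else chain e d k h n t).s := by
  rcases ht.2.lt_or_eq with h1 | h1
  · have hfl : ⌊(n : ℝ) + t⌋₊ = n := by
      rw [Nat.floor_eq_iff (by have := ht.1; positivity)]
      exact ⟨by linarith [ht.1], by linarith⟩
    rw [ghalf_eval hfl rfl]
    exact ⟨rfl, rfl, rfl⟩
  · subst h1
    have hfl : ⌊(n : ℝ) + 1⌋₊ = n + 1 := by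
      rw [Nat.floor_eq_iff (by positivity)]
      push_cast
      exact ⟨le_rfl, by linarith⟩
    rw [ghalf_eval (n := n + 1) (t := 0) hfl (by push_cast; ring)]
    have hd : 0 < d := by linarith [D.d1]
    by_cases hn : Even n
    · have hn1 : ¬ Even (n + 1) := by
        rw [Nat.even_add_one]
        exact not_not.2 hn
      rw [if_neg hn1, if_pos hn]
      obtain ⟨j1, j2, j3⟩ := junc D.e1 hd D.hp D.kp D.hc D.kc D.h0 D.k0 n
      exact ⟨j1.symm, j2.symm, j3.symm⟩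
    · have hn1 : Even (n + 1) := Nat.even_add_one.2 hn
      rw [if_pos hn1, if_neg hn]
      obtain ⟨j1, j2, j3⟩ := junc D.e1 hd D.kp D.hp D.kc D.hc D.k0 D.h0 n
      exact ⟨j1.symm, j2.symm, j3.symm⟩

/-- The half step moves by `1` and exchanges the two half curves: `⌊τ+1⌋₊ = ⌊τ⌋₊ + 1`. -/
theorem zz_step {e d : ℝ} {h k : ℝ → ℝ} {τ : ℝ} (hτ : 0 ≤ τ) :
    ZZ e d k h (τ + 1) = hst e d (pf h) (ZZ e d h k τ) := by
  obtain ⟨n, hn⟩ : ∃ n, n = ⌊τ⌋₊ := ⟨_, rfl⟩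
  obtain ⟨t, ht⟩ : ∃ t, t = τ - (n : ℝ) := ⟨_, rfl⟩
  have hfl : ⌊τ + 1⌋₊ = n + 1 := by rw [Nat.floor_add_one hτ, hn]
  rw [ghalf_eval (n := n + 1) (t := t) hfl (by rw [ht]; push_cast; ring),
    ghalf_eval (n := n) (t := t) hn.symm (by rw [ht]; ring)]
  by_cases he : Even n
  · have hn1 : ¬ Even (n + 1) := by
      rw [Nat.even_add_one]
      exact not_not.2 he
    rw [if_neg hn1, if_pos he]
    show hst e d (if Even n then pf h else pf k) (chain e d h k n t) = _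
    rw [if_pos he]
  · have hn1 : Even (n + 1) := Nat.even_add_one.2 he
    rw [if_pos hn1, if_neg he]
    show hst e d (if Even n then pf k else pf h) (chain e d k h n t) = _
    rw [if_neg he]

/-- `ZZ` on `[0,1]`. -/
theorem zz_arc {e d κ C₁ C₂ : ℝ} {h k : ℝ → ℝ} (D : DK e d κ C₁ C₂ h k) {t : ℝ}
    (ht : t ∈ Icc (0 : ℝ) 1) :
    (ZZ e d h k t).α = (arc e d h k t).α ∧ (ZZ e d h k t).a = (arc e d h k t).a ∧
    (ZZ e d h k t).s = (arc e d h k t).s := by
  have := zz_piece D 0 ht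
  simpa [chain] using this

/-- `Good` along the half curve. -/
theorem zz_good {e d κ C₁ C₂ : ℝ} {h k : ℝ → ℝ} (D : DK e d κ C₁ C₂ h k) {τ : ℝ} (hτ : 0 ≤ τ) :
    Good e d (pf h) (ZZ e d h k τ) := by
  have hm := ghalf_frac hτ
  unfold ZZ
  by_cases he : Even ⌊τ⌋₊
  · rw [if_pos he]
    have := D.good _ hm ⌊τ⌋₊
    rwa [if_pos he] at this
  · rw [if_neg he]
    have := D.good' _ hm ⌊τ⌋₊
    rwa [if_neg he] at this

end CG
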