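import Pool.Agent.H.MP_1693ff_gtB.GOpp

/-!
# The first half step in terms of `FF` and `GG`
-/

namespace CG

open Real Set Filter Topology CF

variable {e d X q q₁ q₂ : ℝ} {h : ℝ → ℝ}

/-- `a = X/√q`, `α = -(d-X)/√q`. -/
theorem jet_W (hd : 0 < d) (hq : 0 < q) : (jet d X q q₁ q₂).W d = (√q)⁻¹ := by
  have hw : 0 < √q := Real.sqrt_pos.2 hq
  unfold St.W jet
  field_simp
  ring

/-- `p = -q₁/(2q - Xq₁)`, `r = 2√q³(q₁²-2qq₂)/(2q-Xq₁)³`, `s a - α = d · 2√q/(2q-Xq₁)`. -/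
theorem jet_p (hd : 0 < d) (hq : 0 < q) (hl : 0 < 2 * q - X * q₁) :
    (jet d X q q₁ q₂).p d = -(q₁ / (2 * q - X * q₁)) ∧
    (jet d X q q₁ q₂).r d = 2 * √q ^ 3 * (q₁ ^ 2 - 2 * q * q₂) / (2 * q - X * q₁) ^ 3 ∧
    (jet d X q q₁ q₂).s * (jet d X q q₁ q₂).a - (jet d X q q₁ q₂).α =
      d * (2 * √q / (2 * q - X * q₁)) := by
  have hw : 0 < √q := Real.sqrt_pos.2 hq
  have hw2 : √q ^ 2 = q := Real.sq_sqrt hq.le
  refine ⟨?_, ?_, ?_⟩
  · unfold St.p jet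
    field_simp
    ring
  · unfold St.r jet
    field_simp
  · have e1 : (jet d X q q₁ q₂).s * (jet d X q q₁ q₂).a - (jet d X q q₁ q₂).α =
        2 * q * d / ((2 * q - X * q₁) * √q) := by
      unfold jet
      field_simp
      ring
    rw [e1, div_eq_iff (mul_pos hl hw).ne']
    have e2 : d * (2 * √q / (2 * q - X * q₁)) * ((2 * q - X * q₁) * √q) = 2 * d * √q ^ 2 := by
      field_simp
    rw [e2, hw2]
    ring

theorem gjet_sqrt (hq : 0 < q) : √(1 + (X / √q) ^ 2) = √(X ^ 2 + q) / √q := by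
  have hw : 0 < √q := Real.sqrt_pos.2 hq
  have hw2 : √q ^ 2 = q := Real.sq_sqrt hq.le
  have h1 : 1 + (X / √q) ^ 2 = (X ^ 2 + q) / √q ^ 2 := by
    rw [div_pow, hw2]
    field_simp
    ring
  rw [h1, Real.sqrt_div (by positivity), Real.sqrt_sq hw.le]

/-- With `ρ = √(X²+q)`: `√(1+a²) = ρ/√q`, `f = H ρ/√q`, `f1 = (X H - √q H₁)/ρ`,
`f2 = R √q³/ρ³` (`H = h θ`, `H₁ = h' θ`, `R = curv h θ`, `θ = th X q`). -/
theorem jet_prof (hq : 0 < q) : (pf h).f (X / √q) = h (th X q) * √(X ^ 2 + q) / √q ∧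
    (pf h).f1 (X / √q) = (X * h (th X q) - √q * deriv h (th X q)) / √(X ^ 2 + q) ∧
    (pf h).f2 (X / √q) = curv h (th X q) * √q ^ 3 / √(X ^ 2 + q) ^ 3 := by
  have hw : 0 < √q := Real.sqrt_pos.2 hq
  have hρ : 0 < √(X ^ 2 + q) := Real.sqrt_pos.2 (by positivity)
  refine ⟨?_, ?_, ?_⟩
  · change √(1 + (X / √q) ^ 2) * h (th X q) = _
    rw [gjet_sqrt hq]
    ring
  · change X / √q / √(1 + (X / √q) ^ 2) * h (th X q) -
      deriv h (th X q) / √(1 + (X / √q) ^ 2) = _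
    rw [gjet_sqrt hq]
    field_simp
  · change curv h (th X q) / √(1 + (X / √q) ^ 2) ^ 3 = _
    rw [gjet_sqrt hq]
    field_simp

theorem gjet_one_lt {z : ℝ} (he : 0 < e) (hz : 0 < z) (h1 : 1 < z ^ e) : 1 < z := by
  by_contra hcon
  exact absurd h1 (not_lt.2 (Real.rpow_le_one hz.le (not_lt.1 hcon) he.le))

/-- `opp = ((Hρ)^e - 1)^{1/e}/√q`. -/
theorem jet_opp (he : 0 < e) (hd : 0 < d) (hq : 0 < q)
    (hH : 0 < h (th X q)) (hr : 1 < (h (th X q) * √(X ^ 2 + q)) ^ e) :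
    opp e d (pf h) (jet d X q q₁ q₂) =
      ((h (th X q) * √(X ^ 2 + q)) ^ e - 1) ^ e⁻¹ / √q ∧
    (jet d X q q₁ q₂).W d < (pf h).f (jet d X q q₁ q₂).a := by
  have hw : 0 < √q := Real.sqrt_pos.2 hq
  have hρ : 0 < √(X ^ 2 + q) := Real.sqrt_pos.2 (by positivity)
  have hz : 0 < h (th X q) * √(X ^ 2 + q) := mul_pos hH hρ
  have hf : (pf h).f (jet d X q q₁ q₂).a = h (th X q) * √(X ^ 2 + q) / √q := (jet_prof hq).1
  have hW := jet_W (X := X) (q₁ := q₁) (q₂ := q₂) hd hq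
  constructor
  · unfold opp
    rw [hf, hW, Real.div_rpow hz.le hw.le, Real.inv_rpow hw.le, ← one_div, ← sub_div,
      Real.div_rpow (by linarith) (Real.rpow_pos_of_pos hw e).le, Real.rpow_rpow_inv hw.le he.ne']
  · rw [hf, hW, ← one_div]
    exact div_lt_div_of_pos_right (gjet_one_lt he hz hr) hw

/-- From `opp1_rel`: `opp1 opp^{e-1} = f^{e-1} f1 - p W^{e-1}`, multiply by `√q^{e-1}`. -/
theorem jet_opp1 (he : 0 < e) (hd : 0 < d) (hq : 0 < q) (hl : 0 < 2 * q - X * q₁)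
    (hH : 0 < h (th X q)) (hr : 1 < (h (th X q) * √(X ^ 2 + q)) ^ e) :
    opp1 e d (pf h) (jet d X q q₁ q₂) = GG e X q q₁ (h (th X q)) (deriv h (th X q)) := by
  have hw : 0 < √q := Real.sqrt_pos.2 hq
  have hρ : 0 < √(X ^ 2 + q) := Real.sqrt_pos.2 (by positivity)
  have hz : 0 < h (th X q) * √(X ^ 2 + q) := mul_pos hH hρ
  obtain ⟨z, hzd⟩ : ∃ z, z = h (th X q) * √(X ^ 2 + q) := ⟨_, rfl⟩
  have hf : (pf h).f (jet d X q q₁ q₂).a = h (th X q) * √(X ^ 2 + q) / √q := (jet_prof hq).1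
  have hf1 : (pf h).f1 (jet d X q q₁ q₂).a =
      (X * h (th X q) - √q * deriv h (th X q)) / √(X ^ 2 + q) := (jet_prof hq).2.1
  have hW := jet_W (X := X) (q₁ := q₁) (q₂ := q₂) hd hq
  have hp := (jet_p (q₂ := q₂) hd hq hl).1
  obtain ⟨ho, hlt⟩ := jet_opp (d := d) (q₁ := q₁) (q₂ := q₂) he hd hq hH hr
  have hW0 : 0 < (jet d X q q₁ q₂).W d := by rw [hW]; exact inv_pos.2 hw
  have hrel := opp1_rel he hW0 hlt
  rw [hf, hf1, hW, hp, ho, ← hzd] at hrel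
  rw [← hzd] at hr hz
  have hK : 0 < z ^ e - 1 := by linarith
  have hKe : 0 < (z ^ e - 1) ^ e⁻¹ := Real.rpow_pos_of_pos hK _
  have hwe : 0 < √q ^ (e - 1) := Real.rpow_pos_of_pos hw _
  rw [Real.div_rpow hKe.le hw.le, Real.inv_rpow hw.le, Real.div_rpow hz.le hw.le,
    ← Real.rpow_mul hK.le] at hrel
  have e1 : e⁻¹ * (e - 1) = (e - 1) / e := by
    field_simp
  rw [e1] at hrel
  have hKK : 0 < (z ^ e - 1) ^ ((e - 1) / e) := Real.rpow_pos_of_pos hK _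
  have h5 : (√q ^ (e - 1))⁻¹ * √q ^ (e - 1) = 1 := inv_mul_cancel₀ hwe.ne'
  have h6 := congrArg (fun y => y * √q ^ (e - 1)) hrel
  simp only [div_eq_mul_inv] at h6
  unfold GG
  rw [← hzd, eq_div_iff hKK.ne']
  simp only [div_eq_mul_inv]
  linear_combination h6 + (q₁ * (2 * q - X * q₁)⁻¹ -
    opp1 e d (pf h) (jet d X q q₁ q₂) * (z ^ e - 1) ^ ((e - 1) * e⁻¹) +
    z ^ (e - 1) * ((X * h (th X q) - √q * deriv h (th X q)) * (√(X ^ 2 + q))⁻¹)) * h5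

end CG
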