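import Pool.Agent.H.MP_1693ff_gtB.GJet

/-!
# The first half step in terms of `FF`
-/

namespace CG

open Real Set Filter Topology CF

variable {e d X q q₁ q₂ : ℝ} {h : ℝ → ℝ}

/-- the rational identity -/
theorem gjetb_fp {X q q₁ ρ w H H₁ L : ℝ} (hρ : 0 < ρ) (hw : 0 < w) (hw2 : w ^ 2 = q)
    (hρ2 : ρ ^ 2 = X ^ 2 + q) (hL : 0 < L) (hLd : L = 2 * q - X * q₁) :
    H * ρ / w * (-(q₁ / L)) - w⁻¹ * ((X * H - w * H₁) / ρ) =
      (H₁ - H * w * (2 * X + q₁) / L) / ρ := by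
  have h1 : H * ρ / w * (-(q₁ / L)) - w⁻¹ * ((X * H - w * H₁) / ρ) =
      (-(H * ρ ^ 2 * q₁) - (X * H - w * H₁) * L) / (w * ρ * L) := by
    field_simp
  have h2 : (H₁ - H * w * (2 * X + q₁) / L) / ρ =
      (w * H₁ * L - H * w ^ 2 * (2 * X + q₁)) / (w * ρ * L) := by
    field_simp
  rw [h1, h2, hρ2, hw2, hLd]
  congr 1
  ring

/-- the powers of the exponent `e` -/
theorem gjetb_pow {x e : ℝ} (hx : 0 < x) : x ^ (e - 1) = x ^ (e - 4) * x ^ 3 ∧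
    x ^ (e - 2) = x ^ (e - 4) * x ^ 2 ∧ x ^ e = x ^ (e - 4) * x ^ 4 ∧
    x ^ (4 - e) = (x ^ (e - 4))⁻¹ := by
  refine ⟨?_, ?_, ?_, ?_⟩
  · rw [← Real.rpow_natCast, ← Real.rpow_add hx]
    congr 1
    push_cast
    ring
  · rw [← Real.rpow_natCast, ← Real.rpow_add hx]
    congr 1
    push_cast
    ring
  · rw [← Real.rpow_natCast, ← Real.rpow_add hx]
    congr 1
    push_cast
    ring
  · rw [← Real.rpow_neg hx.le]
    congr 1
    ring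

/-- From `opp2_rel`. With `ρ = √(X²+q)`, `√(1+a²) = ρ/√q`:
`f^{e-1} f2 = (ρ/√q)^{e-4} R H^{e-1}`;
`W^{e-1} r = (ρ/√q)^{e-4} 2ρ^{4-e}(q₁²-2qq₂)/(2q-Xq₁)³`;
`f p - W f1 = (H₁ - H√q(2X+q₁)/(2q-Xq₁))/ρ` (use `ρ² = X² + q`:
`ρ² q₁ + X(2q - Xq₁) = q (2X + q₁)`), `opp^{-e} = √q^e/((Hρ)^e-1)`, so the third term is
`(ρ/√q)^{e-4} (e-1) H^{e-2} (…)²/((Hρ)^e-1)`. -/
theorem jet_opp2 (he : 0 < e) (hd : 0 < d) (hq : 0 < q) (hl : 0 < 2 * q - X * q₁)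
    (hH : 0 < h (th X q)) (hr : 1 < (h (th X q) * √(X ^ 2 + q)) ^ e) :
    opp2 e d (pf h) (jet d X q q₁ q₂) * opp e d (pf h) (jet d X q q₁ q₂) ^ (e - 1) =
      (√(X ^ 2 + q) / √q) ^ (e - 4) *
        FF e X q q₁ q₂ (h (th X q)) (deriv h (th X q)) (curv h (th X q)) := by
  obtain ⟨ho, h1⟩ := jet_opp (q₁ := q₁) (q₂ := q₂) he hd hq hH hr
  have hW := jet_W (X := X) (q₁ := q₁) (q₂ := q₂) hd hq
  obtain ⟨hp, hrr, -⟩ := jet_p (q₂ := q₂) hd hq hl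
  obtain ⟨hf, hf1, hf2⟩ := jet_prof (h := h) (X := X) hq
  have hw : 0 < √q := Real.sqrt_pos.2 hq
  have hρ : 0 < √(X ^ 2 + q) := Real.sqrt_pos.2 (by positivity)
  have hw2 : √q ^ 2 = q := Real.sq_sqrt hq.le
  have hρ2 : √(X ^ 2 + q) ^ 2 = X ^ 2 + q := Real.sq_sqrt (by positivity)
  have hW0 : 0 < (jet d X q q₁ q₂).W d := by
    rw [hW]
    positivity
  have hja : (jet d X q q₁ q₂).a = X / √q := rfl
  have hK : 0 < (h (th X q) * √(X ^ 2 + q)) ^ e - 1 := by linarith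
  have hoe : opp e d (pf h) (jet d X q q₁ q₂) ^ (-e) =
      √q ^ e / ((h (th X q) * √(X ^ 2 + q)) ^ e - 1) := by
    rw [ho, Real.rpow_neg (by positivity), Real.div_rpow (by positivity) hw.le,
      Real.rpow_inv_rpow hK.le he.ne', inv_div]
  rw [opp2_rel he hW0 h1, hoe, hW, hp, hrr, hja, hf, hf1, hf2,
    gjetb_fp hρ hw hw2 hρ2 hl rfl]
  unfold FF
  set ρ := √(X ^ 2 + q) with hρd
  set w := √q with hwd
  set H := h (th X q) with hHd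
  set L := 2 * q - X * q₁ with hLd
  rw [Real.div_rpow hρ.le hw.le, Real.div_rpow (by positivity) hw.le,
    Real.div_rpow (by positivity) hw.le, Real.mul_rpow hH.le hρ.le, Real.mul_rpow hH.le hρ.le,
    Real.inv_rpow hw.le, Real.inv_rpow hw.le, (gjetb_pow (e := e) hρ).1,
    (gjetb_pow (e := e) hρ).2.1, (gjetb_pow (e := e) hρ).2.2.2, (gjetb_pow (e := e) hw).1,
    (gjetb_pow (e := e) hw).2.1, (gjetb_pow (e := e) hw).2.2.1]
  have hA : 0 < ρ ^ (e - 4) := Real.rpow_pos_of_pos hρ _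
  have hB : 0 < w ^ (e - 4) := Real.rpow_pos_of_pos hw _
  generalize ρ ^ (e - 4) = A at hA ⊢
  generalize w ^ (e - 4) = B at hB ⊢
  generalize H ^ (e - 1) = Ha
  generalize H ^ (e - 2) = Hb
  generalize (H * ρ) ^ e - 1 = K at hK ⊢
  generalize deriv h (th X q) - H * w * (2 * X + q₁) / L = T
  generalize q₁ ^ 2 - 2 * q * q₂ = D
  generalize curv h (th X q) = R
  clear_value ρ w L
  field_simp

end CG
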