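import Pool.Agent.H.MP_1693ff_gtB.GDefs

/-!
# The opposite gauge value
-/

namespace CG

open Real Set Filter Topology CF

variable {e d : ℝ} {P : Pf} {S : St}

theorem gopp_sub (he : 0 < e) (h0 : 0 < S.W d) (h1 : S.W d < P.f S.a) :
    0 < P.f S.a ^ e - S.W d ^ e :=
  sub_pos.2 (Real.rpow_lt_rpow h0.le h1 he)

/-- `f^e - W^e > 0`. -/
theorem opp_pos (he : 0 < e) (h0 : 0 < S.W d) (h1 : S.W d < P.f S.a) : 0 < opp e d P S :=
  Real.rpow_pos_of_pos (gopp_sub he h0 h1) _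

theorem opp_pow (he : 0 < e) (h0 : 0 < S.W d) (h1 : S.W d < P.f S.a) :
    opp e d P S ^ e = P.f S.a ^ e - S.W d ^ e :=
  Real.rpow_inv_rpow (gopp_sub he h0 h1).le he.ne'

theorem opp_le (he : 0 < e) (h0 : 0 < S.W d) (h1 : S.W d < P.f S.a) :
    opp e d P S ≤ P.f S.a := by
  rw [← Real.rpow_le_rpow_iff (opp_pos he h0 h1).le (h0.trans h1).le he, opp_pow he h0 h1]
  have := Real.rpow_pos_of_pos h0 e
  linarith

/-- If `W ≤ f/2` then `opp ≥ f/2`: `f^e - W^e ≥ f^e (1 - 2^{-e}) ≥ (f/2)^e`. -/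
theorem opp_half (he : 1 ≤ e) (h0 : 0 < S.W d) (h1 : S.W d ≤ P.f S.a / 2) :
    P.f S.a / 2 ≤ opp e d P S := by
  have he0 : 0 < e := by linarith
  have hf : 0 < P.f S.a := by linarith
  have h2 : S.W d < P.f S.a := by linarith
  rw [← Real.rpow_le_rpow_iff (by linarith) (opp_pos he0 h0 h2).le he0, opp_pow he0 h0 h2]
  have h3 : S.W d ^ e ≤ (P.f S.a / 2) ^ e := Real.rpow_le_rpow h0.le h1 he0.le
  have h4 : P.f S.a ^ e = 2 ^ e * (P.f S.a / 2) ^ e := by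
    rw [← Real.mul_rpow (by norm_num) (by linarith)]
    congr 1
    ring
  have h5 : (2 : ℝ) ≤ 2 ^ e := by
    have := Real.rpow_le_rpow_of_exponent_le (show (1 : ℝ) ≤ 2 by norm_num) he
    rwa [Real.rpow_one] at this
  have h6 : 0 < (P.f S.a / 2) ^ e := Real.rpow_pos_of_pos (by linarith) e
  rw [h4]
  nlinarith

theorem opp1_rel (he : 0 < e) (h0 : 0 < S.W d) (h1 : S.W d < P.f S.a) :
    opp1 e d P S * opp e d P S ^ (e - 1) + S.p d * S.W d ^ (e - 1) =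
      P.f S.a ^ (e - 1) * P.f1 S.a := by
  have ho := opp_pos he h0 h1
  have ho' : opp e d P S ^ (e - 1) ≠ 0 := (Real.rpow_pos_of_pos ho _).ne'
  unfold opp1
  rw [Real.div_rpow (h0.trans h1).le ho.le, Real.div_rpow h0.le ho.le]
  field_simp
  ring

/-- Homogeneity. -/
theorem opp_id (he : 0 < e) (h0 : 0 < S.W d) (h1 : S.W d < P.f S.a) :
    opp e d P S = (P.f S.a / opp e d P S) ^ (e - 1) * P.f S.a -
      (S.W d / opp e d P S) ^ (e - 1) * S.W d := by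
  have ho := opp_pos he h0 h1
  have ho' : opp e d P S ^ (e - 1) ≠ 0 := (Real.rpow_pos_of_pos ho _).ne'
  have hm : ∀ x : ℝ, 0 < x → x ^ (e - 1) * x = x ^ e := by
    intro x hx
    rw [Real.rpow_sub_one hx.ne']
    field_simp
  rw [Real.div_rpow (h0.trans h1).le ho.le, Real.div_rpow h0.le ho.le, div_mul_eq_mul_div,
    div_mul_eq_mul_div, ← sub_div, hm _ (h0.trans h1), hm _ h0, ← opp_pow he h0 h1, ← hm _ ho,
    mul_div_cancel_left₀ _ ho']

theorem opp2_rel (he : 0 < e) (h0 : 0 < S.W d) (h1 : S.W d < P.f S.a) :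
    opp2 e d P S * opp e d P S ^ (e - 1) = P.f S.a ^ (e - 1) * P.f2 S.a -
      S.W d ^ (e - 1) * S.r d - (e - 1) * S.W d ^ (e - 2) * P.f S.a ^ (e - 2) *
        opp e d P S ^ (-e) * (P.f S.a * S.p d - S.W d * P.f1 S.a) ^ 2 := by
  have ho := opp_pos he h0 h1
  have ho' : opp e d P S ^ (e - 1) ≠ 0 := (Real.rpow_pos_of_pos ho _).ne'
  have h2 : opp e d P S ^ (-e) = opp e d P S ^ (1 - 2 * e) * opp e d P S ^ (e - 1) := by
    rw [← Real.rpow_add ho]
    congr 1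
    ring
  rw [h2]
  unfold opp2
  rw [Real.div_rpow (h0.trans h1).le ho.le, Real.div_rpow h0.le ho.le]
  field_simp

end CG
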