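import Pool.Agent.H.MP_1693ff_gtB.GArc
import Pool.Agent.H.MP_1693ff_gtB.GOpp

/-!
# Junctions of consecutive pieces
-/

namespace CG

open Real Set Filter Topology CF

/-- The end of the start arc `(h,k)` is the image of the beginning of the start arc `(k,h)`.
By `arc_ends` for `arc k h 0`: `a = 0`, `W = 1/b` (`b = bb e k = 2^{1/e}/κ`, `κ = k(π/2)`),
`p = -al k/(2b²) = -(1/√e + k'/κ)/b`; `f 0 = κ`, `f1 0 = -k'`; `W^e = κ^e/2`, so
`opp = κ/2^{1/e} = 1/b`; `opp1 = 2^{(e-1)/e} (-k') - p = (1/√e - k'/κ)/b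
= al (ng k)/(2b²)` (`2^{(e-1)/e} = 2 · 2^{-1/e}`, `2^{-1/e} κ = 1/b`, `al_ng`). -/
theorem junc_zero {e d : ℝ} {h k : ℝ → ℝ} (he : 1 < e) (hd : 0 < d)
    (kp : ∀ θ, k (θ + π) = k θ) (kc : ContDiff ℝ 2 k) (h0 : 0 < h (π / 2)) (k0 : 0 < k (π / 2)) :
    (arc e d h k 1).α = (hst e d (pf k) (arc e d k h 0)).α ∧
    (arc e d h k 1).a = (hst e d (pf k) (arc e d k h 0)).a ∧
    (arc e d h k 1).s = (hst e d (pf k) (arc e d k h 0)).s := by
  have he0 : 0 < e := by linarith
  have h2 : (0 : ℝ) < (2 : ℝ) ^ e⁻¹ := Real.rpow_pos_of_pos (by norm_num) _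
  have bh : 0 < bb e h := div_pos h2 h0
  have bk : 0 < bb e k := div_pos h2 k0
  obtain ⟨-, -, -, a1, a2, a3⟩ := arc_ends (e := e) (h := h) (k := k) hd bh bk
  obtain ⟨b1, b2, b3, -, -, -⟩ := arc_ends (e := e) (h := k) (k := h) hd bk bh
  have hf : (pf k).f 0 = k (π / 2) := by
    simp [pf, prof]
  have hf1 : (pf k).f1 0 = -deriv k (π / 2) := by
    simp [pf, prof1]
  have hb : (bb e k)⁻¹ = k (π / 2) / (2 : ℝ) ^ e⁻¹ := by
    rw [bb, inv_div]
  have hW : (arc e d k h 0).W d = (bb e k)⁻¹ := by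
    rw [St.W, b1, b2]
    field_simp
    ring
  have hp : (arc e d k h 0).p d = -(al e k / (2 * bb e k ^ 2)) := by
    rw [St.p, b3]
    field_simp
    ring
  have h2e : ((2 : ℝ) ^ e⁻¹) ^ e = 2 := by
    rw [← Real.rpow_mul (by norm_num), inv_mul_cancel₀ he0.ne', Real.rpow_one]
  have hbe : (bb e k)⁻¹ ^ e = k (π / 2) ^ e / 2 := by
    rw [hb, Real.div_rpow k0.le h2.le, h2e]
  have hopp : opp e d (pf k) (arc e d k h 0) = (bb e k)⁻¹ := by
    rw [opp, b1, hf, hW]
    have : k (π / 2) ^ e - (bb e k)⁻¹ ^ e = (bb e k)⁻¹ ^ e := by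
      rw [hbe]
      ring
    rw [this, ← Real.rpow_mul (inv_pos.2 bk).le, mul_inv_cancel₀ he0.ne', Real.rpow_one]
  have hopp1 : opp1 e d (pf k) (arc e d k h 0) = al e (ng k) / (2 * bb e k ^ 2) := by
    rw [opp1, hopp, hW, b1, hf, hf1, hp, div_self (inv_pos.2 bk).ne', Real.one_rpow, al_ng kp kc]
    have e1 : k (π / 2) / (bb e k)⁻¹ = (2 : ℝ) ^ e⁻¹ := by
      rw [hb]
      field_simp
    have e2 : ((2 : ℝ) ^ e⁻¹) ^ (e - 1) = 2 / (2 : ℝ) ^ e⁻¹ := by
      rw [Real.rpow_sub_one h2.ne', h2e]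
    rw [e1, e2]
    have e3 : (2 : ℝ) ^ e⁻¹ = bb e k * k (π / 2) := by
      rw [bb]
      field_simp
    rw [e3, al]
    have hk := k0.ne'
    have hb' := bk.ne'
    have hse : √e ≠ 0 := (Real.sqrt_pos.2 he0).ne'
    generalize bb e k = b at *
    generalize k (π / 2) = κ at *
    field_simp
    ring
  refine ⟨?_, ?_, ?_⟩
  · rw [a2]
    exact b1.symm
  · rw [a1]
    change d / bb e k = (arc e d k h 0).a + d * opp e d (pf k) (arc e d k h 0)
    rw [b1, hopp, zero_add, div_eq_mul_inv]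
  · rw [a3]
    change _ = (1 + d * opp1 e d (pf k) (arc e d k h 0))⁻¹
    rw [hopp1, mul_div_assoc]

/-- `hst` depends on `k`, `v` only in the components `k`, `v`. -/
theorem hst_congr {e d : ℝ} {P : Pf} {S S' : St} (h1 : S.α = S'.α) (h2 : S.a = S'.a)
    (h3 : S.s = S'.s) : (hst e d P S).α = (hst e d P S').α ∧ (hst e d P S).a = (hst e d P S').a ∧
    (hst e d P S).s = (hst e d P S').s := by
  simp only [hst, opp, opp1, St.W, St.p, h1, h2, h3, and_self]

/-- All junctions: induction on `n` with `hst_congr`; the profile of the chain `(h,k)` at `n`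
is that of the chain `(k,h)` at `n+1`. -/
theorem junc {e d : ℝ} {h k : ℝ → ℝ} (he : 1 < e) (hd : 0 < d)
    (hp : ∀ θ, h (θ + π) = h θ) (kp : ∀ θ, k (θ + π) = k θ) (hc : ContDiff ℝ 2 h)
    (kc : ContDiff ℝ 2 k) (h0 : 0 < h (π / 2)) (k0 : 0 < k (π / 2)) (n : ℕ) :
    (chain e d h k n 1).α = (chain e d k h (n + 1) 0).α ∧
    (chain e d h k n 1).a = (chain e d k h (n + 1) 0).a ∧
    (chain e d h k n 1).s = (chain e d k h (n + 1) 0).s := by
  induction n with
  | zero =>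
    have h1 := junc_zero (h := h) he hd kp kc h0 k0
    have h2 : chain e d k h (0 + 1) 0 = hst e d (pf k) (arc e d k h 0) := by
      change hst e d (if Even 0 then pf k else pf h) (arc e d k h 0) = _
      rw [if_pos Even.zero]
    rw [h2]
    exact h1
  | succ n ih =>
    obtain ⟨h1, h2, h3⟩ := ih
    have h4 := hst_congr (e := e) (d := d) (P := if Even n then pf h else pf k) h1 h2 h3
    have h5 : (if Even (n + 1) then pf k else pf h) = (if Even n then pf h else pf k) := by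
      by_cases hn : Even n
      · rw [if_pos hn, if_neg]
        rw [Nat.even_add_one]
        exact fun h => h hn
      · rw [if_neg hn, if_pos]
        rw [Nat.even_add_one]
        exact hn
    have h6 : chain e d k h (n + 1 + 1) 0 =
        hst e d (if Even n then pf h else pf k) (chain e d k h (n + 1) 0) := by
      rw [← h5]
      rfl
    rw [h6]
    exact h4

end CG
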