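import Mathlib

/-!
# Two inequalities
-/

namespace CG

open Real Set Filter Topology

theorem gmoda_log {T : ℝ} (h0 : 0 ≤ T) (h1 : T < 1) : T + T ^ 2 / 2 ≤ -Real.log (1 - T) := by
  have habs : |T| < 1 := by rwa [abs_of_nonneg h0]
  have h := Real.hasSum_pow_div_log_of_abs_lt_one habs
  have h2 := sum_le_hasSum (Finset.range 2)
    (fun i _ => div_nonneg (pow_nonneg h0 _) (by positivity)) h
  rw [Finset.sum_range_succ, Finset.sum_range_one] at h2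
  norm_num at h2
  linarith only [h2]

theorem gmoda_exp {μ T : ℝ} (h1 : T < 1) :
    (1 - T) ^ (-μ) = Real.exp (μ * -Real.log (1 - T)) := by
  rw [Real.rpow_def_of_pos (by linarith only [h1])]
  congr 1
  ring

/-- `(1-T)^{-μ} ≥ 1 + μ T + μ(μ+1)T²/2`: `(1-T)^{-μ} = exp(-μ log(1-T))`,
`-log(1-T) ≥ T + T²/2`, `exp z ≥ 1 + z + z²/2` (`z ≥ 0`). -/
theorem moda_a {μ T : ℝ} (hμ : 0 ≤ μ) (h0 : 0 ≤ T) (h1 : T < 1) :
    1 + μ * T + μ * (μ + 1) * T ^ 2 / 2 ≤ (1 - T) ^ (-μ) := by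
  rw [gmoda_exp h1]
  have h2 := mul_le_mul_of_nonneg_left (gmoda_log h0 h1) hμ
  have h3 : 0 ≤ μ * (T + T ^ 2 / 2) := by positivity
  have h4 := Real.quadratic_le_exp_of_nonneg h3
  have h5 := Real.exp_le_exp.2 h2
  have h6 : 0 ≤ μ ^ 2 * T ^ 3 * (1 + T / 4) / 2 := by positivity
  nlinarith only [h4, h5, h6]

/-- For `μ ≥ 1` Bernoulli: `(1 + μT²)^{(1+μ)/2} ≥ 1 + μ(1+μ)T²/2`; with `moda_a` the product is
`≥ 1 + μT + μ(μ+1)T² + μ²(1+μ)T³/2`, and `μ(μ+1)T² ≥ μT² + μ²T²/2`, `μ²(1+μ)T³/2 ≥ μ²T³/2`.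
For `0 ≤ μ < 1`, `θ = (1+μ)/2`, `y = μT²`: `(1+y)^θ = (1+y)/(1+y)^{1-θ} ≥ (1+y)/(1+(1-θ)y)
≥ 1 + θy - θ(1-θ)y² = 1 + μ(1+μ)T²/2 - (1-μ²)μ²T⁴/4`. Product with
`1 + μT + μ(μ+1)T²/2` minus the left side:
`μ²T²/2 + μ³T³/2 + μ²(μ+1)²T⁴/4 - (1-μ²)μ²T⁴/4 - (1-μ²)μ²T⁴/4 (μT + μ(μ+1)T²/2)
≥ μ²T²/2 - μ³T⁵/2 ≥ 0` (the `T⁴` terms together are `μ³(1+μ)T⁴/2 ≥ 0`;
`(1-μ²)(1 + (μ+1)T/2) ≤ 2`, `μ ≤ 1`, `T ≤ 1`). -/
theorem moda_1 {μ T : ℝ} (hμ : 0 ≤ μ) (h0 : 0 ≤ T) (h1 : T < 1) :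
    1 + μ * T * (1 + T) + μ ^ 2 * T ^ 2 * (1 + T) / 2 ≤
      (1 - T) ^ (-μ) * (1 + μ * T ^ 2) ^ ((1 + μ) / 2) := by
  have hA := moda_a hμ h0 h1
  have hA0 : 0 ≤ (1 - T) ^ (-μ) := Real.rpow_nonneg (by linarith only [h1]) _
  have hy : 0 ≤ μ * T ^ 2 := by positivity
  rcases le_or_gt 1 μ with hμ1 | hμ1
  · have hB := one_add_mul_self_le_rpow_one_add (s := μ * T ^ 2) (by linarith only [hy])
      (p := (1 + μ) / 2) (by linarith only [hμ1])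
    have hb0 : 0 ≤ 1 + (1 + μ) / 2 * (μ * T ^ 2) := by positivity
    have h2 := mul_le_mul hA hB hb0 hA0
    refine le_trans ?_ h2
    have h3 : 0 ≤ μ ^ 2 * T ^ 2 / 2 + μ ^ 3 * T ^ 3 / 2 + μ ^ 2 * (μ + 1) ^ 2 * T ^ 4 / 4 := by
      positivity
    have e : (1 + μ * T + μ * (μ + 1) * T ^ 2 / 2) * (1 + (1 + μ) / 2 * (μ * T ^ 2)) -
        (1 + μ * T * (1 + T) + μ ^ 2 * T ^ 2 * (1 + T) / 2) =
        μ ^ 2 * T ^ 2 / 2 + μ ^ 3 * T ^ 3 / 2 + μ ^ 2 * (μ + 1) ^ 2 * T ^ 4 / 4 := by ring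
    linarith only [h3, e]
  · have hB1 := rpow_one_add_le_one_add_mul_self (s := μ * T ^ 2) (by linarith only [hy])
      (p := 1 - (1 + μ) / 2) (by linarith only [hμ1]) (by linarith only [hμ])
    have hpos : 0 < 1 + μ * T ^ 2 := by linarith only [hy]
    have hB2 : (1 + μ * T ^ 2) ^ ((1 + μ) / 2) * (1 + μ * T ^ 2) ^ (1 - (1 + μ) / 2) =
        1 + μ * T ^ 2 := by
      rw [← Real.rpow_add hpos]
      have e : (1 + μ) / 2 + (1 - (1 + μ) / 2) = 1 := by ring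
      rw [e, Real.rpow_one]
    have hB0 : 0 < (1 + μ * T ^ 2) ^ ((1 + μ) / 2) := Real.rpow_pos_of_pos hpos _
    have hμT2 : μ * T ^ 2 ≤ 1 := by
      have h2 : T ^ 2 ≤ 1 := pow_le_one₀ h0 h1.le
      nlinarith only [hμ, hμ1, h2, sq_nonneg T]
    have hB : 1 + μ * (1 + μ) * T ^ 2 / 2 - (1 - μ ^ 2) * μ ^ 2 * T ^ 4 / 4 ≤
        (1 + μ * T ^ 2) ^ ((1 + μ) / 2) := by
      by_contra hc
      rw [not_le] at hc
      have h2 : 0 < 1 + (1 - (1 + μ) / 2) * (μ * T ^ 2) := by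
        have h3 : 0 ≤ (1 - (1 + μ) / 2) * (μ * T ^ 2) :=
          mul_nonneg (by linarith only [hμ1]) hy
        linarith only [h3]
      have h3 : 1 + μ * T ^ 2 ≤
          (1 + μ * T ^ 2) ^ ((1 + μ) / 2) * (1 + (1 - (1 + μ) / 2) * (μ * T ^ 2)) := by
        calc 1 + μ * T ^ 2 =
            (1 + μ * T ^ 2) ^ ((1 + μ) / 2) * (1 + μ * T ^ 2) ^ (1 - (1 + μ) / 2) := hB2.symm
          _ ≤ _ := mul_le_mul_of_nonneg_left hB1 hB0.le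
      have h4 := mul_lt_mul_of_pos_right hc h2
      have h5 : (1 + μ * (1 + μ) * T ^ 2 / 2 - (1 - μ ^ 2) * μ ^ 2 * T ^ 4 / 4) *
          (1 + (1 - (1 + μ) / 2) * (μ * T ^ 2)) =
          1 + μ * T ^ 2 - (1 + μ) / 2 * (1 - (1 + μ) / 2) ^ 2 * (μ * T ^ 2) ^ 3 := by ring
      have h6 : 0 ≤ (1 + μ) / 2 * (1 - (1 + μ) / 2) ^ 2 * (μ * T ^ 2) ^ 3 := by positivity
      linarith only [h3, h4, h5, h6]
    have hμ2 : μ ^ 2 ≤ 1 := pow_le_one₀ hμ hμ1.le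
    have hd : (1 - μ ^ 2) * μ ^ 2 * T ^ 4 ≤ 1 := by
      have h2 : (1 - μ ^ 2) * μ ^ 2 ≤ 1 := by nlinarith only [hμ2, sq_nonneg μ, sq_nonneg (μ ^ 2)]
      have h3 : 0 ≤ (1 - μ ^ 2) * μ ^ 2 := mul_nonneg (by linarith only [hμ2]) (sq_nonneg μ)
      have h4 : T ^ 4 ≤ 1 := pow_le_one₀ h0 h1.le
      have h5 : 0 ≤ T ^ 4 := by positivity
      nlinarith only [h2, h3, h4, h5]
    have hb0 : 0 ≤ 1 + μ * (1 + μ) * T ^ 2 / 2 - (1 - μ ^ 2) * μ ^ 2 * T ^ 4 / 4 := by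
      have h2 : 0 ≤ μ * (1 + μ) * T ^ 2 / 2 := by positivity
      linarith only [h2, hd]
    have h2 := mul_le_mul hA hB hb0 hA0
    refine le_trans ?_ h2
    have e : (1 + μ * T + μ * (μ + 1) * T ^ 2 / 2) *
        (1 + μ * (1 + μ) * T ^ 2 / 2 - (1 - μ ^ 2) * μ ^ 2 * T ^ 4 / 4) -
        (1 + μ * T * (1 + T) + μ ^ 2 * T ^ 2 * (1 + T) / 2) =
        μ ^ 2 * T ^ 2 / 2 * (1 - μ * T ^ 3) + μ ^ 3 * T ^ 3 / 2 + μ ^ 3 * (1 + μ) * T ^ 4 / 2 +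
        μ ^ 3 * T ^ 5 / 4 * (2 - (1 - μ ^ 2) * (1 + (μ + 1) * T / 2)) := by ring
    have f1 : 0 ≤ 1 - μ * T ^ 3 := by
      have h3 : T ^ 3 ≤ 1 := pow_le_one₀ h0 h1.le
      have h4 : 0 ≤ T ^ 3 := by positivity
      nlinarith only [hμ, hμ1, h3, h4]
    have f2 : 0 ≤ 2 - (1 - μ ^ 2) * (1 + (μ + 1) * T / 2) := by
      have h3 : (μ + 1) * T / 2 ≤ 1 := by nlinarith only [hμ, hμ1, h0, h1]
      have h4 : 0 ≤ (μ + 1) * T / 2 := by positivity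
      nlinarith only [h3, h4, hμ2, sq_nonneg μ]
    have g1 : 0 ≤ μ ^ 2 * T ^ 2 / 2 * (1 - μ * T ^ 3) := mul_nonneg (by positivity) f1
    have g2 : 0 ≤ μ ^ 3 * T ^ 5 / 4 * (2 - (1 - μ ^ 2) * (1 + (μ + 1) * T / 2)) :=
      mul_nonneg (by positivity) f2
    have g3 : 0 ≤ μ ^ 3 * T ^ 3 / 2 := by positivity
    have g4 : 0 ≤ μ ^ 3 * (1 + μ) * T ^ 4 / 2 := by positivity
    linarith only [e, g1, g2, g3, g4]

/-- For `μ ≥ 3` the left side is `≤ 1`. In general: left `≤ exp((3-μ)/2 μT²)` if `μ ≤ 3`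
(`1 + y ≤ e^y`), right `= exp(-μ log(1-T)) ≥ exp(μT + μT²/2)`, and
`μT + μT²/2 - (3-μ)μT²/2 = μT - μT² + μ²T²/2 ≥ 0`. -/
theorem moda_2 {μ T : ℝ} (hμ : 0 ≤ μ) (h0 : 0 ≤ T) (h1 : T < 1) :
    (1 + μ * T ^ 2) ^ ((3 - μ) / 2) ≤ (1 - T) ^ (-μ) := by
  have hy : 0 ≤ μ * T ^ 2 := by positivity
  rcases le_or_gt 3 μ with h3 | h3
  · refine le_trans (Real.rpow_le_one_of_one_le_of_nonpos (by linarith only [hy])
      (by linarith only [h3])) ?_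
    exact Real.one_le_rpow_of_pos_of_le_one_of_nonpos (by linarith only [h1])
      (by linarith only [h0]) (by linarith only [hμ])
  · rw [gmoda_exp h1, Real.rpow_def_of_pos (by linarith only [hy])]
    refine Real.exp_le_exp.2 ?_
    have h2 := mul_le_mul_of_nonneg_left (gmoda_log h0 h1) hμ
    have h4 : Real.log (1 + μ * T ^ 2) ≤ μ * T ^ 2 := by
      have := Real.log_le_sub_one_of_pos (x := 1 + μ * T ^ 2) (by linarith only [hy])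
      linarith only [this]
    have h5 := mul_le_mul_of_nonneg_right h4 (by linarith only [h3] : 0 ≤ (3 - μ) / 2)
    have h6 : 0 ≤ μ * (T * (1 - T)) + μ ^ 2 * T ^ 2 / 2 := by
      have h7 : 0 ≤ T * (1 - T) := mul_nonneg h0 (by linarith only [h1])
      positivity
    nlinarith only [h2, h5, h6]

end CG
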