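import Pool.Agent.H.MP_1693ff_gtB.GDefs
import Pool.Agent.H.MP_1693ff_gtB.GModA

/-!
# The model inequality for the constant `1`
-/

namespace CG

open Real Set Filter Topology CF

/-- The estimate in terms of `b`, `s = √e`, `T`. -/
theorem gmodb_core {e b s T : ℝ} (he : 1 < e) (hb : 0 < b) (hbe : b ^ e = 2) (hs : 0 < s)
    (hse : s ^ 2 = e) (h0 : 0 ≤ T) (h1 : T < 1) {X q q₁ : ℝ} (hX : X = b * s * T / (1 - T))
    (hq : q = b ^ 2 * (1 + T) / (1 - T)) (hq₁ : q₁ = 2 * b / s) :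
    1 - 2 * √(X ^ 2 + q) ^ (4 - e) * (q₁ ^ 2 - 2 * q * 0) / (2 * q - X * q₁) ^ 3 -
      (e - 1) * (√q * (2 * X + q₁) / (2 * q - X * q₁)) ^ 2 / (√(X ^ 2 + q) ^ e - 1) ≥ 1 / (2 * e) ∧
      2 ≤ √(X ^ 2 + q) ^ e := by
  obtain ⟨μ, hμ⟩ : ∃ μ : ℝ, μ = e - 1 := ⟨_, rfl⟩
  have hμ0 : 0 < μ := by rw [hμ]; linarith
  have heμ : e = 1 + μ := by rw [hμ]; ring
  obtain ⟨D, hD⟩ : ∃ D : ℝ, D = 1 - T := ⟨_, rfl⟩
  have hD0 : 0 < D := by rw [hD]; linarith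
  have hTD : T = 1 - D := by rw [hD]; ring
  obtain ⟨A, hA⟩ : ∃ A : ℝ, A = 1 + μ * T ^ 2 := ⟨_, rfl⟩
  have hA0 : 0 < A := by
    have : 0 ≤ μ * T ^ 2 := by positivity
    rw [hA]; linarith
  have he0 : 0 < e := by linarith
  have m1 := moda_1 hμ0.le h0 h1
  have m2 := moda_2 hμ0.le h0 h1
  rw [← hD, ← hA] at m1 m2
  obtain ⟨P, hP⟩ : ∃ P : ℝ, P = D ^ (-μ) * A ^ ((1 + μ) / 2) := ⟨_, rfl⟩
  rw [← hP] at m1
  have hP1 : 1 ≤ P := by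
    have : 0 ≤ μ * T * (1 + T) + μ ^ 2 * T ^ 2 * (1 + T) / 2 := by positivity
    linarith
  have hP0 : 0 < P := by linarith
  -- A ^ 2 ≤ P
  have hAP : A ^ 2 ≤ P := by
    have e1 : A ^ ((3 - μ) / 2) * A ^ ((1 + μ) / 2) = A ^ 2 := by
      rw [← Real.rpow_add hA0, show (3 - μ) / 2 + (1 + μ) / 2 = ((2 : ℕ) : ℝ) by push_cast; ring,
        Real.rpow_natCast]
    rw [← e1, hP]
    exact mul_le_mul_of_nonneg_right m2 (Real.rpow_nonneg hA0.le _)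
  -- the quantities
  rw [← hD] at hX hq
  have hD1 : 2 * q - X * q₁ = 2 * b ^ 2 / D := by
    rw [hq, hX, hq₁, hTD]
    field_simp
    ring
  have hN : 2 * X + q₁ = 2 * b * (1 + μ * T) / (s * D) := by
    rw [hX, hq₁, hμ, ← hse, hTD]
    field_simp
    ring
  have hS : X ^ 2 + q = b ^ 2 * A / D ^ 2 := by
    rw [hq, hX, hA, hμ, ← hse, hTD]
    field_simp
    ring
  have hS0 : 0 < X ^ 2 + q := by
    rw [hS]
    positivity
  have hq0 : 0 < q := by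
    rw [hq]
    positivity
  obtain ⟨ρ, hρ⟩ : ∃ ρ : ℝ, ρ = √(X ^ 2 + q) := ⟨_, rfl⟩
  have hρ0 : 0 < ρ := by
    rw [hρ]
    exact Real.sqrt_pos.2 hS0
  have hρ2 : ρ ^ 2 = b ^ 2 * A / D ^ 2 := by
    rw [hρ, Real.sq_sqrt hS0.le, hS]
  have hρe : ρ ^ e = 2 * P / D := by
    have e1 : ρ ^ e = (ρ ^ 2) ^ (e / 2) := by
      rw [← Real.rpow_natCast ρ 2, ← Real.rpow_mul hρ0.le]
      congr 1
      push_cast
      ring
    have e2 : (b ^ 2) ^ (e / 2) = 2 := by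
      rw [← Real.rpow_natCast b 2, ← Real.rpow_mul hb.le]
      have : ((2 : ℕ) : ℝ) * (e / 2) = e := by push_cast; ring
      rw [this, hbe]
    have e3 : (D ^ 2) ^ (e / 2) = D ^ e := by
      rw [← Real.rpow_natCast D 2, ← Real.rpow_mul hD0.le]
      congr 1
      push_cast
      ring
    have e4 : D ^ e = D * (D ^ (-μ))⁻¹ := by
      rw [heμ, Real.rpow_add hD0, Real.rpow_one, Real.rpow_neg hD0.le, inv_inv]
    rw [e1, hρ2, Real.div_rpow (by positivity) (by positivity), Real.mul_rpow (by positivity)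
      hA0.le, e2, e3, e4, hP]
    have e5 : A ^ (e / 2) = A ^ ((1 + μ) / 2) := by rw [heμ]
    rw [e5]
    have e6 : 0 < D ^ (-μ) := Real.rpow_pos_of_pos hD0 _
    field_simp
  rw [← hρ]
  -- second term
  have hρ4 : ρ ^ (4 - e) = b ^ 4 * A ^ 2 / (2 * D ^ 3 * P) := by
    have e1 : ρ ^ (4 : ℝ) = b ^ 4 * A ^ 2 / D ^ 4 := by
      have e2 : ρ ^ (4 : ℝ) = (ρ ^ 2) ^ 2 := by
        rw [show (4 : ℝ) = ((4 : ℕ) : ℝ) by norm_num, Real.rpow_natCast]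
        ring
      rw [e2, hρ2]
      field_simp
    rw [Real.rpow_sub hρ0, hρe, e1]
    field_simp
  have hsec : 2 * ρ ^ (4 - e) * (q₁ ^ 2 - 2 * q * 0) / (2 * q - X * q₁) ^ 3 = A ^ 2 / (2 * e * P) := by
    rw [hρ4, hD1, hq₁, ← hse]
    field_simp
    ring
  have hsec' : A ^ 2 / (2 * e * P) ≤ 1 / (2 * e) := by
    rw [div_le_div_iff₀ (by positivity) (by positivity)]
    have : A ^ 2 * (2 * e) ≤ P * (2 * e) := mul_le_mul_of_nonneg_right hAP (by positivity)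
    linarith
  -- third term
  obtain ⟨M, hM⟩ : ∃ M : ℝ, M = (1 + T) * (1 + μ * T) ^ 2 / D := ⟨_, rfl⟩
  have hM0 : 0 < M := by
    rw [hM]
    positivity
  have hME : M ≤ ρ ^ e - 1 := by
    have h2 : 2 * (1 + μ * T * (1 + T) + μ ^ 2 * T ^ 2 * (1 + T) / 2) / D ≤ 2 * P / D := by
      refine div_le_div_of_nonneg_right ?_ hD0.le
      linarith
    have h3 : 2 * (1 + μ * T * (1 + T) + μ ^ 2 * T ^ 2 * (1 + T) / 2) / D = 1 + M := by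
      rw [hM, hD]
      have : (1 : ℝ) - T ≠ 0 := by rw [← hD]; exact hD0.ne'
      field_simp
      ring
    rw [hρe]
    linarith
  have hthird : (√q * (2 * X + q₁) / (2 * q - X * q₁)) ^ 2 = M / e := by
    rw [div_pow, mul_pow, Real.sq_sqrt hq0.le, hD1, hN, hq, hM, ← hse]
    field_simp
  have hthird' : (e - 1) * (M / e) / (ρ ^ e - 1) ≤ (e - 1) / e := by
    rw [div_le_div_iff₀ (by linarith) he0]
    have h2 : (e - 1) * (M / e) * e = (e - 1) * M := by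
      field_simp
    rw [h2]
    exact mul_le_mul_of_nonneg_left hME (by linarith)
  refine ⟨?_, ?_⟩
  · rw [hsec, hthird]
    have h2 : 1 - 1 / (2 * e) - (e - 1) / e = 1 / (2 * e) := by
      field_simp
      ring
    linarith
  · have h2 : (2 : ℝ) / 1 ≤ 2 * P / D := by
      rw [div_le_div_iff₀ one_pos hD0]
      have : D ≤ 1 := by rw [hD]; linarith
      nlinarith
    rw [hρe]
    linarith

/-- The parabola `Y² = b² + 2bX/√e`, `b^e = 2`, for the constant function `1`.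
Put `Q = b² + 2bX/√e`, `Q₁ = 2b/√e`, `T = (Q - b²)/(Q + b²) ∈ [0,1)`, `μ = e - 1`. Then
`Q = b² (1+T)/(1-T)`, `X = b √e T/(1-T)`, `2Q - XQ₁ = b² + Q = 2b²/(1-T)`,
`2X + Q₁ = (2b/√e)(1+μT)/(1-T)`, so `Q (2X+Q₁)²/(2Q-XQ₁)² = (1+T)(1+μT)²/((1-T) e)`;
`X² + Q = b² (1+μT²)/(1-T)²`, so `ρ^e = 2 (1+μT²)^{e/2} (1-T)^{-e}` (`ρ = √(X²+Q)`).
Second term of `FF`: `2ρ^{4-e} Q₁²/(2Q-XQ₁)³ = ρ⁴ (1-T)³/(e b⁴ ρ^e)
= (1+μT²)^{(3-μ)/2} (1-T)^μ/(2e) ≤ 1/(2e)` by `moda_2`.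
Third term: `μ (1+T)(1+μT)²/((1-T) e (ρ^e - 1)) ≤ μ/e`, since by `moda_1`
`ρ^e = (2/(1-T)) (1-T)^{-μ} (1+μT²)^{(1+μ)/2} ≥ (2 + 2μT(1+T) + μ²T²(1+T))/(1-T)
= 1 + (1+T)(1+μT)²/(1-T)`. So `FF ≥ 1 - 1/(2e) - μ/e = 1/(2e)`. Also `ρ^e ≥ 2`. -/
theorem modb_FF {e X : ℝ} (he : 1 < e) (hX : 0 ≤ X) :
    0 < FF e X (qm e 1 X) (qm1 e 1) 0 1 0 1 ∧ 2 ≤ √(X ^ 2 + qm e 1 X) ^ e := by
  obtain ⟨b, hb⟩ : ∃ b : ℝ, b = (2 : ℝ) ^ e⁻¹ := ⟨_, rfl⟩
  obtain ⟨s, hs⟩ : ∃ s : ℝ, s = √e := ⟨_, rfl⟩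
  have he0 : 0 < e := by linarith
  have hb0 : 0 < b := by
    rw [hb]
    exact Real.rpow_pos_of_pos two_pos _
  have hbe : b ^ e = 2 := by
    rw [hb, Real.rpow_inv_rpow zero_le_two he0.ne']
  have hs0 : 0 < s := by
    rw [hs]
    exact Real.sqrt_pos.2 he0
  have hse : s ^ 2 = e := by
    rw [hs, Real.sq_sqrt he0.le]
  have hd : 0 < s * b + X := by positivity
  have hT0 : 0 ≤ X / (s * b + X) := by positivity
  have hT1 : X / (s * b + X) < 1 := by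
    rw [div_lt_one hd]
    have : 0 < s * b := mul_pos hs0 hb0
    linarith
  have h1T : 1 - X / (s * b + X) = s * b / (s * b + X) := by
    field_simp
    ring
  have hX' : X = b * s * (X / (s * b + X)) / (1 - X / (s * b + X)) := by
    rw [h1T]
    field_simp
  have hq : qm e 1 X = b ^ 2 * (1 + X / (s * b + X)) / (1 - X / (s * b + X)) := by
    unfold qm
    rw [← hb, ← hs, h1T, div_one]
    field_simp
    ring
  have hq₁ : qm1 e 1 = 2 * b / s := by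
    unfold qm1
    rw [← hb, ← hs, div_one]
  obtain ⟨h2, h3⟩ := gmodb_core he hb0 hbe hs0 hse hT0 hT1 hX' hq hq₁
  refine ⟨?_, h3⟩
  have h4 : FF e X (qm e 1 X) (qm1 e 1) 0 1 0 1 =
      1 - 2 * √(X ^ 2 + qm e 1 X) ^ (4 - e) * ((qm1 e 1) ^ 2 - 2 * (qm e 1 X) * 0) /
        (2 * (qm e 1 X) - X * (qm1 e 1)) ^ 3 -
      (e - 1) * (√(qm e 1 X) * (2 * X + (qm1 e 1)) / (2 * (qm e 1 X) - X * (qm1 e 1))) ^ 2 /
        (√(X ^ 2 + qm e 1 X) ^ e - 1) := by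
    unfold FF
    rw [Real.one_rpow, Real.one_rpow, one_mul, one_mul, mul_one, one_mul, zero_sub, neg_sq]
  rw [h4]
  have h5 : 0 < 1 / (2 * e) := by positivity
  exact lt_of_lt_of_le h5 h2

end CG
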