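import Pool.Agent.H.MP_1693ff_gtB.GModB

/-!
# The model inequality for a constant `c`
-/

namespace CG

open Real Set Filter Topology CF

private theorem gmodc_qm {e c X : ℝ} (hc : 0 < c) : qm e c X = qm e 1 (c * X) / c ^ 2 := by
  unfold qm
  rw [div_one]
  field_simp

private theorem gmodc_qm1 {e c : ℝ} (hc : 0 < c) : qm1 e c = qm1 e 1 / c := by
  unfold qm1
  rw [div_one]
  field_simp

private theorem gmodc_sqrt {e c X : ℝ} (hc : 0 < c) :
    √(X ^ 2 + qm e c X) = √((c * X) ^ 2 + qm e 1 (c * X)) / c := by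
  have h1 : X ^ 2 + qm e c X = ((c * X) ^ 2 + qm e 1 (c * X)) / c ^ 2 := by
    rw [gmodc_qm hc]
    field_simp
  rw [h1, Real.sqrt_div' _ (by positivity), Real.sqrt_sq hc.le]

private theorem gmodc_sqrt' {e c X : ℝ} (hc : 0 < c) :
    √(qm e c X) = √(qm e 1 (c * X)) / c := by
  rw [gmodc_qm hc, Real.sqrt_div' _ (by positivity), Real.sqrt_sq hc.le]

private theorem gmodc_scale {e c X : ℝ} (hc : 0 < c) (hS : 0 < √((c * X) ^ 2 + qm e 1 (c * X)))
    (hD : 2 * qm e 1 (c * X) - (c * X) * qm1 e 1 ≠ 0) :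
    FF e X (qm e c X) (qm1 e c) 0 c 0 c =
      c ^ e * FF e (c * X) (qm e 1 (c * X)) (qm1 e 1) 0 1 0 1 := by
  unfold FF
  rw [gmodc_sqrt hc, gmodc_sqrt' hc, gmodc_qm hc, gmodc_qm1 hc]
  set S := √((c * X) ^ 2 + qm e 1 (c * X)) with hSd
  set T := √(qm e 1 (c * X)) with hT
  set q := qm e 1 (c * X) with hq
  set p := qm1 e 1 with hp
  set D := 2 * q - (c * X) * p with hDd
  have h1 : 2 * (q / c ^ 2) - X * (p / c) = D / c ^ 2 := by
    rw [hDd]
    field_simp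
  have h2 : c * (S / c) = S := by
    field_simp
  have h3 : (S / c) ^ (4 - e) = S ^ (4 - e) * (c ^ e / c ^ 4) := by
    rw [Real.div_rpow hS.le hc.le, Real.rpow_sub hc]
    have h4 : c ^ (4 : ℝ) = c ^ 4 := by
      rw [← Real.rpow_natCast]
      norm_num
    rw [h4]
    have h5 : c ^ e ≠ 0 := (Real.rpow_pos_of_pos hc e).ne'
    field_simp
  have h6 : c ^ (e - 1) = c ^ e / c := by
    rw [Real.rpow_sub hc, Real.rpow_one]
  have h7 : c ^ (e - 2) = c ^ e / c ^ 2 := by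
    rw [Real.rpow_sub hc]
    congr 1
    rw [← Real.rpow_natCast]
    norm_num
  have h8 : (0 : ℝ) - c * (T / c) * (2 * X + p / c) / (D / c ^ 2) =
      c * (0 - 1 * T * (2 * (c * X) + p) / D) := by
    field_simp
    ring
  rw [h1, h2, h3, h6, h7, h8, Real.one_rpow, Real.one_rpow]
  field_simp

private theorem gmodc_pos {e c X : ℝ} (he : 1 < e) (hc : 0 < c) (hX : 0 ≤ X) :
    0 < qm e c X ∧ 0 < qm1 e c ∧ 0 < 2 * qm e c X - X * qm1 e c := by
  have hb : (0 : ℝ) < (2 : ℝ) ^ e⁻¹ / c := div_pos (Real.rpow_pos_of_pos two_pos _) hc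
  have hs : (0 : ℝ) < √e := Real.sqrt_pos.2 (by linarith)
  unfold qm qm1
  set B := (2 : ℝ) ^ e⁻¹ / c with hB
  have h1 : 0 ≤ 2 * B / √e * X := by positivity
  have h2 : 0 < 2 * B / √e := by positivity
  refine ⟨by positivity, h2, ?_⟩
  have h3 : 2 * (B ^ 2 + 2 * B / √e * X) - X * (2 * B / √e) = 2 * B ^ 2 + 2 * B / √e * X := by
    ring
  rw [h3]
  positivity

/-- Scaling: `qm e c X = c⁻² qm e 1 (cX)`, `qm1 e c = c⁻¹ qm1 e 1`,
`√(X² + qm e c X) = c⁻¹ √((cX)² + qm e 1 (cX))`, and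
`FF e X (qm e c X) (qm1 e c) 0 c 0 c = c^e FF e (cX) (qm e 1 (cX)) (qm1 e 1) 0 1 0 1`
(each of the three terms scales with `c^e`). -/
theorem modc_FF {e c X : ℝ} (he : 1 < e) (hc : 0 < c) (hX : 0 ≤ X) :
    0 < FF e X (qm e c X) (qm1 e c) 0 c 0 c ∧ 2 ≤ (c * √(X ^ 2 + qm e c X)) ^ e := by
  have hY : 0 ≤ c * X := by positivity
  obtain ⟨h1, h2⟩ := modb_FF he hY
  obtain ⟨p1, p2, p3⟩ := gmodc_pos he one_pos hY
  have hS : 0 < √((c * X) ^ 2 + qm e 1 (c * X)) := Real.sqrt_pos.2 (by positivity)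
  constructor
  · rw [gmodc_scale hc hS p3.ne']
    exact mul_pos (Real.rpow_pos_of_pos hc e) h1
  · rw [gmodc_sqrt hc]
    have h3 : c * (√((c * X) ^ 2 + qm e 1 (c * X)) / c) = √((c * X) ^ 2 + qm e 1 (c * X)) := by
      field_simp
    rw [h3]
    exact h2

/-- `2 qm - X qm1 = 2B² + 2BX/√e > 0` (`B = 2^{1/e}/c`), `qm1 > 0`, `X c ≥ 0`. -/
theorem modc_GG {e c X : ℝ} (he : 1 < e) (hc : 0 < c) (hX : 0 ≤ X) :
    0 < GG e X (qm e c X) (qm1 e c) c 0 ∧ 0 < qm e c X ∧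
      0 < 2 * qm e c X - X * qm1 e c := by
  obtain ⟨p1, p2, p3⟩ := gmodc_pos he hc hX
  refine ⟨?_, p1, p3⟩
  have h2 := (modc_FF he hc hX).2
  unfold GG
  have hS : 0 < √(X ^ 2 + qm e c X) := Real.sqrt_pos.2 (by positivity)
  have h3 : 0 < (c * √(X ^ 2 + qm e c X)) ^ e - 1 := by linarith
  apply div_pos
  · have h4 : 0 ≤ (c * √(X ^ 2 + qm e c X)) ^ (e - 1) * (X * c - √(qm e c X) * 0) /
        √(X ^ 2 + qm e c X) := by
      rw [mul_zero, sub_zero]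
      positivity
    have h5 : 0 < qm1 e c / (2 * qm e c X - X * qm1 e c) := div_pos p2 p3
    linarith
  · exact Real.rpow_pos_of_pos h3 _

end CG
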