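import Pool.Agent.H.MP_1693ff_gtB.GModC

/-!
# Perturbation on a compact interval
-/

namespace CG

open Real Set Filter Topology CF

theorem gtube_FF {Z : Type*} [TopologicalSpace Z] {z₀ : Z} {e : ℝ} {X q q₁ q₂ H H₁ R : Z → ℝ}
    (he : 1 < e)
    (cX : ContinuousAt X z₀) (cq : ContinuousAt q z₀) (cq₁ : ContinuousAt q₁ z₀)
    (cq₂ : ContinuousAt q₂ z₀) (cH : ContinuousAt H z₀) (cH₁ : ContinuousAt H₁ z₀)
    (cR : ContinuousAt R z₀) (h1 : 0 < X z₀ ^ 2 + q z₀) (h2 : 0 < 2 * q z₀ - X z₀ * q₁ z₀)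
    (h3 : 0 < H z₀) (h4 : 1 < (H z₀ * √(X z₀ ^ 2 + q z₀)) ^ e) :
    ContinuousAt (fun z => FF e (X z) (q z) (q₁ z) (q₂ z) (H z) (H₁ z) (R z)) z₀ := by
  unfold FF
  have c1 : ContinuousAt (fun z => √(X z ^ 2 + q z)) z₀ := ((cX.pow 2).add cq).sqrt
  have c2 : ContinuousAt (fun z => 2 * q z - X z * q₁ z) z₀ :=
    (continuousAt_const.mul cq).sub (cX.mul cq₁)
  have p1 : √(X z₀ ^ 2 + q z₀) ≠ 0 := (Real.sqrt_pos.2 h1).ne'
  have c3 : ContinuousAt (fun z => (H z * √(X z ^ 2 + q z)) ^ e - 1) z₀ :=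
    ((cH.mul c1).rpow_const (Or.inr (by linarith))).sub continuousAt_const
  have t1 : ContinuousAt (fun z => R z * H z ^ (e - 1)) z₀ :=
    cR.mul (cH.rpow_const (Or.inl h3.ne'))
  have t2 : ContinuousAt (fun z => 2 * √(X z ^ 2 + q z) ^ (4 - e) *
      (q₁ z ^ 2 - 2 * q z * q₂ z) / (2 * q z - X z * q₁ z) ^ 3) z₀ := by
    refine ContinuousAt.div ?_ (c2.pow 3) (pow_ne_zero 3 h2.ne')
    exact (continuousAt_const.mul (c1.rpow_const (Or.inl p1))).mul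
      ((cq₁.pow 2).sub ((continuousAt_const.mul cq).mul cq₂))
  have t3 : ContinuousAt (fun z => (e - 1) * H z ^ (e - 2) *
      (H₁ z - H z * √(q z) * (2 * X z + q₁ z) / (2 * q z - X z * q₁ z)) ^ 2 /
      ((H z * √(X z ^ 2 + q z)) ^ e - 1)) z₀ := by
    refine ContinuousAt.div ?_ c3 (by linarith)
    refine (continuousAt_const.mul (cH.rpow_const (Or.inl h3.ne'))).mul (ContinuousAt.pow ?_ 2)
    refine cH₁.sub (ContinuousAt.div ?_ c2 h2.ne')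
    exact (cH.mul cq.sqrt).mul ((continuousAt_const.mul cX).add cq₁)
  exact (t1.sub t2).sub t3

theorem gtube_GG {Z : Type*} [TopologicalSpace Z] {z₀ : Z} {e : ℝ} {X q q₁ H H₁ : Z → ℝ}
    (he : 1 < e)
    (cX : ContinuousAt X z₀) (cq : ContinuousAt q z₀) (cq₁ : ContinuousAt q₁ z₀)
    (cH : ContinuousAt H z₀) (cH₁ : ContinuousAt H₁ z₀)
    (h1 : 0 < X z₀ ^ 2 + q z₀) (h2 : 0 < 2 * q z₀ - X z₀ * q₁ z₀)
    (h4 : 1 < (H z₀ * √(X z₀ ^ 2 + q z₀)) ^ e) :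
    ContinuousAt (fun z => GG e (X z) (q z) (q₁ z) (H z) (H₁ z)) z₀ := by
  unfold GG
  have c1 : ContinuousAt (fun z => √(X z ^ 2 + q z)) z₀ := ((cX.pow 2).add cq).sqrt
  have c2 : ContinuousAt (fun z => 2 * q z - X z * q₁ z) z₀ :=
    (continuousAt_const.mul cq).sub (cX.mul cq₁)
  have p1 : √(X z₀ ^ 2 + q z₀) ≠ 0 := (Real.sqrt_pos.2 h1).ne'
  have c3 : ContinuousAt (fun z => (H z * √(X z ^ 2 + q z)) ^ e - 1) z₀ :=
    ((cH.mul c1).rpow_const (Or.inr (by linarith))).sub continuousAt_const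
  have p3 : 0 < (H z₀ * √(X z₀ ^ 2 + q z₀)) ^ e - 1 := by linarith
  refine ContinuousAt.div ?_ (c3.rpow_const (Or.inl p3.ne')) (Real.rpow_pos_of_pos p3 _).ne'
  refine ContinuousAt.add (ContinuousAt.div ?_ c1 p1) (cq₁.div c2 h2.ne')
  exact ((cH.mul c1).rpow_const (Or.inr (by linarith))).mul ((cX.mul cH).sub (cq.sqrt.mul cH₁))

/-- Compactness.  Use `IsCompact.eventually_forall_of_forall_eventually` with `K = Icc 0 X₀` and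
the parameter `(η, q - qm e c X, q₁ - qm1 e c, q₂, H - c, H₁, R - c)` near `0` (`ℝ⁷`); the
conditions `η < GG`, `0 < FF`, `3/2 < (H √(X²+q))^e` are open, as `FF`, `GG` are continuous near
the points `(X, qm e c X, qm1 e c, 0, c, 0, c)` (`√(X²+q) > 0`, `2q - Xq₁ > 0`,
`(H√(X²+q))^e > 1`, `H > 0`), and hold there by `modc_FF`, `modc_GG`. -/
theorem tube {e c X₀ : ℝ} (he : 1 < e) (hc : 0 < c) : ∃ δ > 0, ∀ X ∈ Icc 0 X₀,
    ∀ q q₁ q₂ H H₁ R, |q - qm e c X| ≤ δ → |q₁ - qm1 e c| ≤ δ → |q₂| ≤ δ → |H - c| ≤ δ →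
    |H₁| ≤ δ → |R - c| ≤ δ →
    0 < FF e X q q₁ q₂ H H₁ R ∧ 3 / 2 < (H * √(X ^ 2 + q)) ^ e ∧ δ < GG e X q q₁ H H₁ := by
  let P : (ℝ × ℝ × ℝ × ℝ × ℝ × ℝ × ℝ) → ℝ → Prop := fun p X =>
    0 < FF e X (qm e c X + p.2.1) (qm1 e c + p.2.2.1) p.2.2.2.1 (c + p.2.2.2.2.1)
      p.2.2.2.2.2.1 (c + p.2.2.2.2.2.2) ∧
    3 / 2 < ((c + p.2.2.2.2.1) * √(X ^ 2 + (qm e c X + p.2.1))) ^ e ∧
    p.1 < GG e X (qm e c X + p.2.1) (qm1 e c + p.2.2.1) (c + p.2.2.2.2.1) p.2.2.2.2.2.1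
  have hloc : ∀ X ∈ Icc 0 X₀, ∀ᶠ z : (ℝ × ℝ × ℝ × ℝ × ℝ × ℝ × ℝ) × ℝ in 𝓝 (0, X),
      P z.1 z.2 := by
    intro X hX
    obtain ⟨f1, f2⟩ := modc_FF (e := e) (c := c) (X := X) he hc hX.1
    obtain ⟨g1, g2, g3⟩ := modc_GG (e := e) (c := c) (X := X) he hc hX.1
    set z₀ : (ℝ × ℝ × ℝ × ℝ × ℝ × ℝ × ℝ) × ℝ := (0, X) with hz₀
    have e1 : z₀.1 = 0 := rfl
    have e2 : z₀.2 = X := rfl
    have cX : ContinuousAt (fun z : (ℝ × ℝ × ℝ × ℝ × ℝ × ℝ × ℝ) × ℝ => z.2) z₀ := by fun_prop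
    have cη : ContinuousAt (fun z : (ℝ × ℝ × ℝ × ℝ × ℝ × ℝ × ℝ) × ℝ => z.1.1) z₀ := by fun_prop
    have cq : ContinuousAt (fun z : (ℝ × ℝ × ℝ × ℝ × ℝ × ℝ × ℝ) × ℝ => qm e c z.2 + z.1.2.1)
        z₀ := by
      unfold qm
      fun_prop
    have cq₁ : ContinuousAt (fun z : (ℝ × ℝ × ℝ × ℝ × ℝ × ℝ × ℝ) × ℝ => qm1 e c + z.1.2.2.1)
        z₀ := by fun_prop
    have cq₂ : ContinuousAt (fun z : (ℝ × ℝ × ℝ × ℝ × ℝ × ℝ × ℝ) × ℝ => z.1.2.2.2.1) z₀ := by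
      fun_prop
    have cH : ContinuousAt (fun z : (ℝ × ℝ × ℝ × ℝ × ℝ × ℝ × ℝ) × ℝ => c + z.1.2.2.2.2.1)
        z₀ := by fun_prop
    have cH₁ : ContinuousAt (fun z : (ℝ × ℝ × ℝ × ℝ × ℝ × ℝ × ℝ) × ℝ => z.1.2.2.2.2.2.1)
        z₀ := by fun_prop
    have cR : ContinuousAt (fun z : (ℝ × ℝ × ℝ × ℝ × ℝ × ℝ × ℝ) × ℝ => c + z.1.2.2.2.2.2.2)
        z₀ := by fun_prop
    have s1 : 0 < z₀.2 ^ 2 + (qm e c z₀.2 + z₀.1.2.1) := by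
      rw [e1, e2]
      simp only [Prod.snd_zero, Prod.fst_zero, add_zero]
      nlinarith [sq_nonneg X]
    have s2 : 0 < 2 * (qm e c z₀.2 + z₀.1.2.1) - z₀.2 * (qm1 e c + z₀.1.2.2.1) := by
      rw [e1, e2]
      simp only [Prod.snd_zero, Prod.fst_zero, add_zero]
      exact g3
    have s3 : 0 < c + z₀.1.2.2.2.2.1 := by
      rw [e1]
      simp only [Prod.snd_zero, Prod.fst_zero, add_zero]
      exact hc
    have s4' : 2 ≤ ((c + z₀.1.2.2.2.2.1) * √(z₀.2 ^ 2 + (qm e c z₀.2 + z₀.1.2.1))) ^ e := by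
      rw [e1, e2]
      simp only [Prod.snd_zero, Prod.fst_zero, add_zero]
      exact f2
    have s4 : 1 < ((c + z₀.1.2.2.2.2.1) * √(z₀.2 ^ 2 + (qm e c z₀.2 + z₀.1.2.1))) ^ e := by
      linarith
    have kF := gtube_FF he cX cq cq₁ cq₂ cH cH₁ cR s1 s2 s3 s4
    have kG := gtube_GG he cX cq cq₁ cH cH₁ s1 s2 s4
    have kA : ContinuousAt (fun z : (ℝ × ℝ × ℝ × ℝ × ℝ × ℝ × ℝ) × ℝ =>
        ((c + z.1.2.2.2.2.1) * √(z.2 ^ 2 + (qm e c z.2 + z.1.2.1))) ^ e) z₀ :=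
      (cH.mul ((cX.pow 2).add cq).sqrt).rpow_const (Or.inr (by linarith))
    have r1 : ∀ᶠ z in 𝓝 z₀, 0 < FF e z.2 (qm e c z.2 + z.1.2.1) (qm1 e c + z.1.2.2.1)
        z.1.2.2.2.1 (c + z.1.2.2.2.2.1) z.1.2.2.2.2.2.1 (c + z.1.2.2.2.2.2.2) := by
      refine kF.eventually_const_lt ?_
      simp only [e1, e2, Prod.snd_zero, Prod.fst_zero, add_zero]
      exact f1
    have r2 : ∀ᶠ z in 𝓝 z₀, 3 / 2 <
        ((c + z.1.2.2.2.2.1) * √(z.2 ^ 2 + (qm e c z.2 + z.1.2.1))) ^ e :=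
      kA.eventually_const_lt (by linarith)
    have r3 : ∀ᶠ z in 𝓝 z₀, z.1.1 < GG e z.2 (qm e c z.2 + z.1.2.1) (qm1 e c + z.1.2.2.1)
        (c + z.1.2.2.2.2.1) z.1.2.2.2.2.2.1 := by
      refine cη.eventually_lt kG ?_
      simp only [e1, e2, Prod.snd_zero, Prod.fst_zero, add_zero]
      exact g1
    filter_upwards [r1, r2, r3] with z h1 h2 h3
    exact ⟨h1, h2, h3⟩
  have hglob := isCompact_Icc.eventually_forall_of_forall_eventually hloc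
  obtain ⟨ε, hε, hball⟩ := Metric.eventually_nhds_iff.1 hglob
  refine ⟨ε / 2, half_pos hε, ?_⟩
  intro X hX q q₁ q₂ H H₁ R a1 a2 a3 a4 a5 a6
  have hd : dist ((ε / 2, q - qm e c X, q₁ - qm1 e c, q₂, H - c, H₁, R - c) :
      ℝ × ℝ × ℝ × ℝ × ℝ × ℝ × ℝ) 0 < ε := by
    have hε2 : |ε / 2| < ε := by
      rw [abs_of_pos (half_pos hε)]
      linarith
    simp only [dist_zero_right, Prod.norm_def, Real.norm_eq_abs, sup_lt_iff]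
    refine ⟨hε2, ?_, ?_, ?_, ?_, ?_, ?_⟩ <;> linarith
  have := hball hd X hX
  simp only [P, add_sub_cancel] at this
  exact this

end CG
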